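import Pool.Agent.MP_ca0a54_nt.BH.Basic

/-! The Selberg sieve on set systems, and the fourth moment of `m / φ m`. -/

open Finset

namespace Pool.Agent.MP_ca0a54_nt.BH.SEL

theorem alt (E G : Finset ℕ) :
    ∑ D ∈ G.powerset, (if E ⊆ D then (-1 : ℝ) ^ D.card else 0) =
      if E = G then (-1) ^ E.card else 0 := by
  by_cases h : E ⊆ G
  · have h1 : ∑ D ∈ G.powerset, (if E ⊆ D then (-1 : ℝ) ^ D.card else 0) =
        ∑ H ∈ (G \ E).powerset, (-1 : ℝ) ^ E.card * (-1) ^ H.card := by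
      rw [← sum_filter]
      refine sum_nbij' (fun D => D \ E) (fun H => H ∪ E) ?_ ?_ ?_ ?_ ?_
      · intro D hD
        simp only [mem_filter, mem_powerset] at hD ⊢
        exact sdiff_subset_sdiff hD.1 subset_rfl
      · intro H hH
        simp only [mem_filter, mem_powerset] at hH ⊢
        exact ⟨union_subset (hH.trans sdiff_subset) h, subset_union_right⟩
      · intro D hD
        exact sdiff_union_of_subset (mem_filter.1 hD).2
      · intro H hH
        exact union_sdiff_cancel_right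
          (disjoint_of_subset_left (mem_powerset.1 hH) sdiff_disjoint)
      · intro D hD
        rw [← pow_add, add_comm, card_sdiff_add_card_eq_card (mem_filter.1 hD).2]
    have h2 : ∑ H ∈ (G \ E).powerset, (-1 : ℝ) ^ H.card = if G \ E = ∅ then 1 else 0 := by
      have := congrArg (Int.cast : ℤ → ℝ) (sum_powerset_neg_one_pow_card (x := G \ E))
      push_cast at this
      exact this
    rw [h1, ← mul_sum, h2]
    by_cases hE : E = G
    · simp [hE]
    · rw [if_neg hE, if_neg fun h3 => hE (h.antisymm (sdiff_eq_empty_iff_subset.1 h3)), mul_zero]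
  · rw [if_neg fun h1 => h h1.subset]
    exact sum_eq_zero fun D hD => if_neg fun h1 => h (h1.trans (mem_powerset.1 hD))

theorem sum_sub {F : Finset (Finset ℕ)} (hF : ∀ D ∈ F, ∀ D' ⊆ D, D' ∈ F) {G : Finset ℕ}
    (hG : G ∈ F) (f : Finset ℕ → ℝ) :
    ∑ D ∈ F, (if D ⊆ G then f D else 0) = ∑ D ∈ G.powerset, f D := by
  rw [← sum_filter]
  refine sum_congr ?_ fun _ _ => rfl
  ext D
  simp only [mem_filter, mem_powerset]
  exact ⟨fun h => h.2, fun h => ⟨hF G hG D h, h⟩⟩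

/-- The unnormalised weights. -/
noncomputable def u (F : Finset (Finset ℕ)) (g : Finset ℕ → ℝ) (D : Finset ℕ) : ℝ :=
  (-1) ^ D.card * ∑ G ∈ F, if D ⊆ G then g G else 0

theorem y_eq {F : Finset (Finset ℕ)} (hF : ∀ D ∈ F, ∀ D' ⊆ D, D' ∈ F) (g : Finset ℕ → ℝ)
    {E : Finset ℕ} (hE : E ∈ F) :
    ∑ D ∈ F, (if E ⊆ D then u F g D else 0) = (-1) ^ E.card * g E := by
  have h1 : ∀ D ∈ F, (if E ⊆ D then u F g D else 0) =
      ∑ G ∈ F, g G * if D ⊆ G then (if E ⊆ D then (-1 : ℝ) ^ D.card else 0) else 0 := by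
    intro D _
    by_cases h : E ⊆ D
    · rw [if_pos h, if_pos h, u, mul_sum]
      refine sum_congr rfl fun G _ => ?_
      split_ifs <;> ring
    · simp [h]
  rw [sum_congr rfl h1, sum_comm]
  have h2 : ∀ G ∈ F, ∑ D ∈ F, g G * (if D ⊆ G then (if E ⊆ D then (-1 : ℝ) ^ D.card else 0)
      else 0) = if E = G then (-1) ^ E.card * g G else 0 := by
    intro G hG
    rw [← mul_sum, sum_sub hF hG, alt]
    split_ifs <;> ring
  rw [sum_congr rfl h2, sum_ite_eq, if_pos hE]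

theorem form_eq {F : Finset (Finset ℕ)} (hF : ∀ D ∈ F, ∀ D' ⊆ D, D' ∈ F) (ν : ℕ → ℝ)
    (hν : ∀ D ∈ F, ∀ p ∈ D, 0 < ν p ∧ ν p < 1) {g : Finset ℕ → ℝ}
    (hg : ∀ D, g D = ∏ p ∈ D, ν p / (1 - ν p)) :
    ∑ D ∈ F, ∑ D' ∈ F, (u F g D * ∏ p ∈ D, 1 / ν p) * (u F g D' * ∏ p ∈ D', 1 / ν p) *
      ∏ p ∈ D ∪ D', ν p = ∑ D ∈ F, g D := by
  have h1 : ∀ D ∈ F, ∀ D' ∈ F, (u F g D * ∏ p ∈ D, 1 / ν p) * (u F g D' * ∏ p ∈ D', 1 / ν p) *
      ∏ p ∈ D ∪ D', ν p = ∑ E ∈ F, (g E)⁻¹ *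
        ((if E ⊆ D then u F g D else 0) * if E ⊆ D' then u F g D' else 0) := by
    intro D hD D' hD'
    have hI : D ∩ D' ∈ F := hF D hD _ inter_subset_left
    have e1 : (∏ p ∈ D, 1 / ν p) * (∏ p ∈ D', 1 / ν p) * ∏ p ∈ D ∪ D', ν p =
        ∏ p ∈ D ∩ D', (1 + (ν p / (1 - ν p))⁻¹) := by
      rw [← prod_union_inter, mul_right_comm, ← prod_mul_distrib, prod_eq_one, one_mul]
      · refine prod_congr rfl fun p hp => ?_
        have := (hν _ hI p hp).1.ne'
        rw [inv_div]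
        field_simp
        ring
      · intro p hp
        have : ν p ≠ 0 := by
          rcases mem_union.1 hp with h | h
          exacts [(hν D hD p h).1.ne', (hν D' hD' p h).1.ne']
        field_simp
    have e2 : ∏ p ∈ D ∩ D', (1 + (ν p / (1 - ν p))⁻¹) =
        ∑ E ∈ F, if E ⊆ D ∩ D' then (g E)⁻¹ else 0 := by
      rw [prod_one_add, sum_sub hF hI]
      exact sum_congr rfl fun E _ => by rw [hg, prod_inv_distrib]
    calc _ = u F g D * u F g D' *
          ((∏ p ∈ D, 1 / ν p) * (∏ p ∈ D', 1 / ν p) * ∏ p ∈ D ∪ D', ν p) := by ring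
      _ = _ := by
        rw [e1, e2, mul_sum]
        refine sum_congr rfl fun E _ => ?_
        by_cases a : E ⊆ D <;> by_cases b : E ⊆ D' <;> simp [a, b, subset_inter_iff, mul_comm]
  rw [sum_congr rfl fun D hD => sum_congr rfl (h1 D hD), sum_congr rfl fun D _ => sum_comm,
    sum_comm]
  refine sum_congr rfl fun E hE => ?_
  have h0 : g E ≠ 0 := by
    rw [hg]
    refine prod_ne_zero_iff.2 fun p hp => ?_
    obtain ⟨a, b⟩ := hν E hE p hp
    exact (div_pos a (sub_pos.2 b)).ne'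
  simp only [← mul_sum]
  rw [← sum_mul, y_eq hF g hE]
  have h2 : ((-1 : ℝ) ^ E.card) * (-1) ^ E.card = 1 := by
    rw [← mul_pow]
    simp
  calc _ = ((-1 : ℝ) ^ E.card * (-1) ^ E.card) * ((g E)⁻¹ * g E) * g E := by ring
    _ = _ := by rw [h2, inv_mul_cancel₀ h0, one_mul, one_mul]

theorem sel : SelStmt := by
  intro A E F ν X R h0 hF hν hR
  set g : Finset ℕ → ℝ := fun D => ∏ p ∈ D, ν p / (1 - ν p) with hg
  have hg0 : ∀ D ∈ F, 0 ≤ g D := fun D hD => prod_nonneg fun p hp =>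
    (div_pos (hν D hD p hp).1 (sub_pos.2 (hν D hD p hp).2)).le
  have hform := form_eq hF ν hν (g := g) fun _ => rfl
  change _ ≤ X / (∑ D ∈ F, g D) + _
  set S := ∑ D ∈ F, g D with hS
  have hS1 : 1 ≤ S := by
    have h1 : g ∅ = 1 := prod_empty
    exact h1.ge.trans (single_le_sum hg0 h0)
  have hS0 : 0 < S := by linarith
  have hR0 : 0 ≤ R := (abs_nonneg _).trans (hR ∅ h0 ∅ h0)
  set w : Finset ℕ → ℝ := fun D => S⁻¹ * (u F g D * ∏ p ∈ D, 1 / ν p) with hw
  have hw0 : w ∅ = 1 := by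
    simp only [hw, u, card_empty, pow_zero, empty_subset, if_true, prod_empty, one_mul, mul_one]
    exact inv_mul_cancel₀ hS0.ne'
  have hwle : ∀ D ∈ F, |w D| ≤ ∏ p ∈ D, 1 / ν p := by
    intro D hD
    have h1 : 0 ≤ ∏ p ∈ D, 1 / ν p := prod_nonneg fun p hp => (one_div_pos.2 (hν D hD p hp).1).le
    have h2 : |u F g D| ≤ S := by
      rw [u, abs_mul, abs_pow, abs_neg, abs_one, one_pow, one_mul, abs_of_nonneg]
      · refine sum_le_sum fun G hG => ?_
        split_ifs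
        exacts [le_rfl, hg0 G hG]
      · refine sum_nonneg fun G hG => ?_
        split_ifs
        exacts [hg0 G hG, le_rfl]
    simp only [hw]
    rw [abs_mul, abs_mul, abs_of_pos (inv_pos.2 hS0), abs_of_nonneg h1, ← mul_assoc]
    refine mul_le_of_le_one_left h1 ?_
    rw [inv_mul_le_iff₀ hS0, mul_one]
    exact h2
  have hq : ∑ D ∈ F, ∑ D' ∈ F, w D * w D' * (X * ∏ p ∈ D ∪ D', ν p) = X / S := by
    calc _ = X * S⁻¹ ^ 2 * ∑ D ∈ F, ∑ D' ∈ F, (u F g D * ∏ p ∈ D, 1 / ν p) *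
          (u F g D' * ∏ p ∈ D', 1 / ν p) * ∏ p ∈ D ∪ D', ν p := by
          simp only [mul_sum, hw]
          exact sum_congr rfl fun D _ => sum_congr rfl fun D' _ => by ring
      _ = _ := by
          rw [hform]
          field_simp
  have h1 : ((A.filter fun n => ∀ D ∈ F, ∀ p ∈ D, n ∉ E p).card : ℝ) ≤
      ∑ n ∈ A, (∑ D ∈ F, if ∀ p ∈ D, n ∈ E p then w D else 0) ^ 2 := by
    rw [← sum_boole]
    refine sum_le_sum fun n _ => ?_
    split_ifs with h
    · rw [sum_eq_single_of_mem ∅ h0, if_pos (by simp), hw0, one_pow]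
      intro D hD hne
      obtain ⟨p, hp⟩ := nonempty_iff_ne_empty.2 hne
      exact if_neg fun h2 => h D hD p hp (h2 p hp)
    · positivity
  have h2 : ∑ n ∈ A, (∑ D ∈ F, if ∀ p ∈ D, n ∈ E p then w D else 0) ^ 2 =
      ∑ D ∈ F, ∑ D' ∈ F, w D * w D' * ((A.filter fun n => ∀ p ∈ D ∪ D', n ∈ E p).card : ℝ) := by
    simp only [sq, sum_mul_sum]
    rw [sum_comm]
    refine sum_congr rfl fun D _ => ?_
    rw [sum_comm]
    refine sum_congr rfl fun D' _ => ?_
    rw [← sum_boole, mul_sum]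
    refine sum_congr rfl fun n _ => ?_
    simp only [forall_mem_union]
    rw [ite_zero_mul_ite_zero, mul_ite, mul_one, mul_zero]
  rw [← hq, sq (∑ D ∈ F, _), sum_mul_sum, mul_sum, ← sum_add_distrib]
  refine h1.trans (h2.trans_le (sum_le_sum fun D hD => ?_))
  rw [mul_sum, ← sum_add_distrib]
  refine sum_le_sum fun D' hD' => ?_
  have h3 : |w D * w D' * (((A.filter fun n => ∀ p ∈ D ∪ D', n ∈ E p).card : ℝ) -
      X * ∏ p ∈ D ∪ D', ν p)| ≤ (∏ p ∈ D, 1 / ν p) * (∏ p ∈ D', 1 / ν p) * R := by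
    have a := (abs_nonneg _).trans (hwle D hD)
    have b := (abs_nonneg _).trans (hwle D' hD')
    rw [abs_mul, abs_mul]
    exact mul_le_mul (mul_le_mul (hwle D hD) (hwle D' hD') (abs_nonneg _) a) (hR D hD D' hD')
      (abs_nonneg _) (mul_nonneg a b)
  have h4 := (le_abs_self _).trans h3
  linarith

theorem sum_prod_le (P : Finset ℕ) (hP : ∀ p ∈ P, p.Prime) (β : ℕ → ℝ) (hβ : ∀ p, 0 ≤ β p)
    (M : ℕ) : ∑ m ∈ Ioc 0 M, ∏ p ∈ P, (1 + if p ∣ m then β p else 0) ≤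
      M * ∏ p ∈ P, (1 + β p / p) := by
  simp only [prod_one_add]
  rw [sum_comm, mul_sum]
  refine sum_le_sum fun D hD => ?_
  have hD' := mem_powerset.1 hD
  have h1 : ∀ m ∈ Ioc 0 M, (∏ p ∈ D, if p ∣ m then β p else 0) =
      (∏ p ∈ D, β p) * if (∏ p ∈ D, p) ∣ m then (1 : ℝ) else 0 := by
    intro m _
    by_cases h : (∏ p ∈ D, p) ∣ m
    · rw [if_pos h, mul_one]
      exact prod_congr rfl fun p hp => if_pos ((dvd_prod_of_mem _ hp).trans h)
    · rw [if_neg h, mul_zero]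
      by_contra h2
      refine h (Finset.prod_primes_dvd m (fun p hp => (hP p (hD' hp)).prime) fun p hp => ?_)
      by_contra h3
      exact h2 (prod_eq_zero hp (if_neg h3))
  rw [sum_congr rfl h1, ← mul_sum, Pool.Agent.MP_57adf2_an.H72.sum_dvd_eq, prod_div_distrib]
  have h2 := Nat.cast_div_le (α := ℝ) (m := M) (n := ∏ p ∈ D, p)
  rw [Nat.cast_prod] at h2
  refine (mul_le_mul_of_nonneg_left h2 (prod_nonneg fun p _ => hβ p)).trans_eq ?_
  ring

theorem pow_four_le {x : ℝ} (hx : 2 ≤ x) : ((1 - x⁻¹)⁻¹) ^ 4 ≤ 1 + 30 / x := by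
  obtain ⟨q, rfl⟩ : ∃ q, x = q + 1 := ⟨x - 1, by ring⟩
  have hq : 1 ≤ q := by linarith
  have e : (1 - (q + 1)⁻¹)⁻¹ = (q + 1) / q := by
    rw [← inv_div (q : ℝ)]
    congr 1
    field_simp
    ring
  rw [e, div_pow, div_le_iff₀ (by positivity), add_div' _ _ _ (by positivity), div_mul_eq_mul_div,
    le_div_iff₀ (by positivity)]
  have h1 : 1 ≤ q ^ 4 := one_le_pow₀ hq
  have h2 : q ≤ q ^ 4 := le_self_pow₀ hq (by norm_num)
  have h3 : q ^ 2 ≤ q ^ 4 := pow_le_pow_right₀ hq (by norm_num)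
  have h4 : q ^ 3 ≤ q ^ 4 := pow_le_pow_right₀ hq (by norm_num)
  nlinarith

theorem ratio_le {m M : ℕ} (hm : 0 < m) (hM : m ≤ M) :
    ((m : ℝ) / m.totient) ^ 4 ≤
      ∏ p ∈ (Ioc 0 M).filter Nat.Prime, (1 + if p ∣ m then (30 : ℝ) / p else 0) := by
  have h1 : (m.totient : ℝ) = m * ∏ p ∈ m.primeFactors, (1 - (p : ℝ)⁻¹) := by
    have := congrArg (Rat.cast : ℚ → ℝ) (Nat.totient_eq_mul_prod_factors m)
    push_cast at this
    exact this
  have h0 : (m : ℝ) ≠ 0 := by exact_mod_cast hm.ne'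
  have h2 : m.primeFactors = ((Ioc 0 M).filter Nat.Prime).filter (· ∣ m) := by
    ext p
    simp only [Nat.mem_primeFactors, mem_filter, mem_Ioc]
    exact ⟨fun h => ⟨⟨⟨h.1.pos, (Nat.le_of_dvd hm h.2.1).trans hM⟩, h.1⟩, h.2.1⟩,
      fun h => ⟨h.1.2, h.2, hm.ne'⟩⟩
  have h3 : ∏ p ∈ (Ioc 0 M).filter Nat.Prime, (1 + if p ∣ m then (30 : ℝ) / p else 0) =
      ∏ p ∈ m.primeFactors, (1 + (30 : ℝ) / p) := by
    rw [h2, prod_filter (· ∣ m)]
    exact prod_congr rfl fun p _ => by split_ifs <;> simp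
  rw [h3, h1, div_mul_cancel_left₀ h0, ← prod_inv_distrib, ← prod_pow]
  refine prod_le_prod (fun p _ => by positivity) fun p hp => pow_four_le ?_
  exact_mod_cast (Nat.prime_of_mem_primeFactors hp).two_le

theorem phi : PhiStmt := by
  refine ⟨2 * Real.exp 60, by linarith [Real.one_le_exp (show (0 : ℝ) ≤ 60 by norm_num)],
    fun K => ?_⟩
  set P := (Ioc 0 (2 * K)).filter Nat.Prime with hP
  have h1 : ∑ k ∈ Icc 1 K, (((2 * k : ℕ) : ℝ) / (2 * k).totient) ^ 4 ≤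
      ∑ m ∈ Ioc 0 (2 * K), ((m : ℝ) / m.totient) ^ 4 := by
    rw [← sum_image (s := Icc 1 K) (g := fun k => 2 * k)
      (f := fun m : ℕ => ((m : ℝ) / m.totient) ^ 4) fun a _ b _ h => by
        simpa using h]
    refine sum_le_sum_of_subset_of_nonneg (fun m hm => ?_) fun _ _ _ => by positivity
    obtain ⟨k, hk, rfl⟩ := mem_image.1 hm
    rw [mem_Icc] at hk
    rw [mem_Ioc]
    omega
  have h2 := sum_prod_le P (fun p hp => (mem_filter.1 hp).2) (fun p => (30 : ℝ) / p)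
    (fun p => by positivity) (2 * K)
  have h3 : ∏ p ∈ P, (1 + (30 : ℝ) / p / p) ≤ Real.exp 60 := by
    refine (Real.prod_one_add_le_exp_sum P fun p => by positivity).trans (Real.exp_le_exp.2 ?_)
    have h4 := sum_Ioo_inv_sq_le (α := ℝ) 0 (2 * K + 1)
    have h5 : ∑ p ∈ P, (30 : ℝ) / p / p ≤ ∑ p ∈ Ioo 0 (2 * K + 1), 30 * ((p : ℝ) ^ 2)⁻¹ := by
      refine (sum_congr rfl fun p _ => ?_).trans_le (sum_le_sum_of_subset_of_nonneg
        (fun p hp => ?_) fun _ _ _ => by positivity)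
      · rw [div_div, ← sq, div_eq_mul_inv]
      · have := mem_Ioc.1 (mem_filter.1 hp).1
        rw [mem_Ioo]
        omega
    rw [← mul_sum] at h5
    norm_num at h4
    linarith
  refine h1.trans ((sum_le_sum fun m hm => ratio_le (mem_Ioc.1 hm).1 (mem_Ioc.1 hm).2).trans
    (h2.trans ((mul_le_mul_of_nonneg_left h3 (Nat.cast_nonneg _)).trans_eq ?_)))
  push_cast
  ring

end Pool.Agent.MP_ca0a54_nt.BH.SEL
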