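import Pool.Agent.MP_ca0a54_nt.BH.Basic

/-! A lower bound for the main sum of the twin sieve. -/

open Finset

namespace Pool.Agent.MP_ca0a54_nt.BH.SLOW

/-- The integers up to `y` without a divisor in `P`. -/
def fr (P : Finset ℕ) (y : ℕ) : Finset ℕ := (Icc 1 y).filter fun n => ∀ p ∈ P, ¬ p ∣ n

theorem step (P : Finset ℕ) (y : ℕ) {q : ℕ} (hq : 1 ≤ q) :
    (1 - (q : ℝ)⁻¹) * ∑ n ∈ fr P y, (n : ℝ)⁻¹ ≤ ∑ n ∈ fr (insert q P) y, (n : ℝ)⁻¹ := by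
  have h1 : fr (insert q P) y = (fr P y).filter fun n => ¬ q ∣ n := by
    ext n
    simp only [fr, mem_filter, forall_mem_insert]
    tauto
  have h2 := sum_filter_add_sum_filter_not (fr P y) (fun n => q ∣ n) fun n => (n : ℝ)⁻¹
  have h3 : (fr P y).filter (fun n => q ∣ n) ⊆ (fr P y).image fun k => q * k := by
    intro n hn
    obtain ⟨hn1, k, rfl⟩ := mem_filter.1 hn
    obtain ⟨hn2, hn3⟩ := mem_filter.1 hn1
    obtain ⟨hn4, hn5⟩ := mem_Icc.1 hn2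
    refine mem_image.2 ⟨k, mem_filter.2 ⟨mem_Icc.2 ⟨Nat.pos_of_mul_pos_left hn4, ?_⟩,
      fun p hp h => hn3 p hp (h.mul_left q)⟩, rfl⟩
    exact (Nat.le_mul_of_pos_left k hq).trans hn5
  have h4 : ∑ n ∈ (fr P y).filter (fun n => q ∣ n), (n : ℝ)⁻¹ ≤
      ∑ k ∈ fr P y, ((q * k : ℕ) : ℝ)⁻¹ :=
    (sum_le_sum_of_subset_of_nonneg h3 fun _ _ _ => by positivity).trans
      (sum_image_le_of_nonneg (f := fun n : ℕ => (n : ℝ)⁻¹) fun _ _ => by positivity)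
  have h5 : ∑ k ∈ fr P y, ((q * k : ℕ) : ℝ)⁻¹ = (q : ℝ)⁻¹ * ∑ k ∈ fr P y, (k : ℝ)⁻¹ := by
    rw [mul_sum]
    refine sum_congr rfl fun k _ => ?_
    push_cast
    rw [mul_inv]
  rw [h1]
  linarith

theorem sieve (P : Finset ℕ) (y : ℕ) (hP : ∀ p ∈ P, 1 ≤ p) :
    (∏ p ∈ P, (1 - (p : ℝ)⁻¹)) * ∑ n ∈ Icc 1 y, (n : ℝ)⁻¹ ≤ ∑ n ∈ fr P y, (n : ℝ)⁻¹ := by
  induction P using Finset.induction_on with
  | empty => simp [fr]
  | insert q P hq ih =>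
    have h1 := hP q (mem_insert_self _ _)
    have h2 : (0 : ℝ) ≤ 1 - (q : ℝ)⁻¹ :=
      sub_nonneg.2 (inv_le_one_of_one_le₀ (by exact_mod_cast h1))
    rw [prod_insert hq, mul_assoc]
    exact (mul_le_mul_of_nonneg_left (ih fun p hp => hP p (mem_insert_of_mem hp)) h2).trans
      (step P y h1)

theorem log_le (y : ℕ) : Real.log y ≤ ∑ n ∈ Icc 1 y, (n : ℝ)⁻¹ := by
  have h := log_add_one_le_harmonic y
  simp only [harmonic_eq_sum_Icc, Rat.cast_sum, Rat.cast_inv, Rat.cast_natCast] at h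
  refine le_trans ?_ h
  rcases Nat.eq_zero_or_pos y with rfl | hQ
  · simp
  · exact Real.log_le_log (by exact_mod_cast hQ) (by exact_mod_cast Nat.le_succ y)

/-- The weight of a set of primes. -/
noncomputable def w (A : Finset ℕ) : ℝ := ∏ p ∈ A, (p : ℝ)⁻¹

theorem w_nonneg (A : Finset ℕ) : 0 ≤ w A := prod_nonneg fun _ _ => by positivity

theorem mem_fam {m z : ℕ} {D : Finset ℕ} :
    D ∈ fam m z ↔ (∀ p ∈ D, p.Prime ∧ ¬ p ∣ m) ∧ ∏ p ∈ D, p ≤ z := by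
  rw [fam, mem_filter, mem_powerset]
  constructor
  · rintro ⟨h1, h2⟩
    exact ⟨fun p hp => (mem_filter.1 (h1 hp)).2, h2⟩
  · rintro ⟨h1, h2⟩
    refine ⟨fun p hp => mem_filter.2 ⟨mem_Icc.2 ⟨(h1 p hp).1.pos, ?_⟩, h1 p hp⟩, h2⟩
    exact (Nat.le_of_dvd (prod_pos fun r hr => (h1 r hr).1.pos)
      (dvd_prod_of_mem (fun r => r) hp)).trans h2

theorem sqf {m : ℕ} (hm : 1 ≤ m) (y : ℕ) :
    ∑ n ∈ fr m.primeFactors y, (n : ℝ)⁻¹ ≤ 2 * ∑ A ∈ fam m y, w A := by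
  set B := Ioo 0 (y + 1)
  have h1 : fr m.primeFactors y ⊆
      (B ×ˢ fam m y).image fun x : ℕ × Finset ℕ => x.1 ^ 2 * ∏ p ∈ x.2, p := by
    intro n hn
    obtain ⟨hn0, hn3⟩ := mem_filter.1 hn
    obtain ⟨hn1, hnQ⟩ := mem_Icc.1 hn0
    obtain ⟨a, b, ha, hb, hab, hsq⟩ := Nat.sq_mul_squarefree_of_pos hn1
    have han : a ∣ n := ⟨b ^ 2, by rw [← hab]; ring⟩
    have hp := Nat.prod_primeFactors_of_squarefree hsq
    refine mem_image.2 ⟨(b, a.primeFactors), mem_product.2 ⟨mem_Ioo.2 ⟨hb, ?_⟩,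
      mem_fam.2 ⟨fun p h => ⟨Nat.prime_of_mem_primeFactors h, fun h2 => ?_⟩, ?_⟩⟩, ?_⟩
    · have : b ≤ n := Nat.le_of_dvd hn1 ⟨b * a, by rw [← hab]; ring⟩
      show b < y + 1
      omega
    · exact hn3 p (Nat.mem_primeFactors.2 ⟨Nat.prime_of_mem_primeFactors h, h2, by omega⟩)
        ((Nat.dvd_of_mem_primeFactors h).trans han)
    · show ∏ p ∈ a.primeFactors, p ≤ y
      rw [hp]
      exact (Nat.le_of_dvd hn1 han).trans hnQ
    · show b ^ 2 * ∏ p ∈ a.primeFactors, p = n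
      rw [hp, hab]
  have h2 : ∑ n ∈ fr m.primeFactors y, (n : ℝ)⁻¹ ≤
      ∑ x ∈ B ×ˢ fam m y, ((x.1 ^ 2 * ∏ p ∈ x.2, p : ℕ) : ℝ)⁻¹ :=
    (sum_le_sum_of_subset_of_nonneg h1 fun _ _ _ => by positivity).trans
      (sum_image_le_of_nonneg (f := fun n : ℕ => (n : ℝ)⁻¹) fun _ _ => by positivity)
  have h3 : ∑ x ∈ B ×ˢ fam m y, ((x.1 ^ 2 * ∏ p ∈ x.2, p : ℕ) : ℝ)⁻¹ =
      (∑ b ∈ B, ((b : ℝ) ^ 2)⁻¹) * ∑ A ∈ fam m y, w A := by
    rw [sum_product, sum_mul_sum]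
    refine sum_congr rfl fun b _ => sum_congr rfl fun a _ => ?_
    push_cast
    rw [mul_inv, w, prod_inv_distrib]
  have h4 : ∑ b ∈ B, ((b : ℝ) ^ 2)⁻¹ ≤ 2 := by
    simpa using sum_Ioo_inv_sq_le (α := ℝ) 0 (y + 1)
  have h6 : 0 ≤ ∑ A ∈ fam m y, w A := sum_nonneg fun A _ => w_nonneg A
  nlinarith

theorem inner (D : Finset ℕ) :
    ∑ A ∈ D.powerset, ∑ C ∈ A.powerset, w A * w ((D \ A) ∪ C) =
      ∏ p ∈ D, ((p : ℝ)⁻¹ * (1 + (p : ℝ)⁻¹) + (p : ℝ)⁻¹) := by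
  rw [prod_add]
  refine sum_congr rfl fun A _ => ?_
  rw [prod_mul_distrib, prod_one_add, mul_assoc, sum_mul, mul_sum]
  refine sum_congr rfl fun C hC => ?_
  have h : Disjoint (D \ A) C := sdiff_disjoint.mono_right (mem_powerset.1 hC)
  simp only [w]
  rw [prod_union h, mul_comm (∏ p ∈ D \ A, _)]

theorem square (m y : ℕ) : (∑ A ∈ fam m y, w A) ^ 2 ≤
    ∑ D ∈ fam m (y ^ 2), ∏ p ∈ D, ((p : ℝ)⁻¹ * (1 + (p : ℝ)⁻¹) + (p : ℝ)⁻¹) := by
  rw [sq, sum_mul_sum, ← sum_product' (f := fun A B => w A * w B)]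
  simp only [← inner, sum_sigma']
  have h1 : fam m y ×ˢ fam m y ⊆ ((fam m (y ^ 2)).sigma fun D => D.powerset.sigma fun A =>
      A.powerset).image fun t => (t.2.1, (t.1 \ t.2.1) ∪ t.2.2) := by
    rintro ⟨A, B⟩ h
    obtain ⟨hA, hB⟩ := mem_product.1 h
    obtain ⟨hA1, hA2⟩ := mem_fam.1 hA
    obtain ⟨hB1, hB2⟩ := mem_fam.1 hB
    refine mem_image.2 ⟨⟨A ∪ B, A, A ∩ B⟩, mem_sigma.2 ⟨mem_fam.2 ⟨fun p hp => ?_, ?_⟩,
      mem_sigma.2 ⟨mem_powerset.2 subset_union_left, mem_powerset.2 inter_subset_left⟩⟩, ?_⟩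
    · rcases mem_union.1 hp with h | h
      · exact hA1 p h
      · exact hB1 p h
    · have h2 := prod_union_inter (s₁ := A) (s₂ := B) (f := fun p : ℕ => p)
      have h3 : 0 < ∏ p ∈ A ∩ B, p := prod_pos fun p hp => (hA1 p (mem_inter.1 hp).1).1.pos
      show ∏ p ∈ A ∪ B, p ≤ y ^ 2
      refine (Nat.le_mul_of_pos_right _ h3).trans ?_
      rw [h2, sq]
      exact Nat.mul_le_mul hA2 hB2
    · refine Prod.ext rfl ?_
      show ((A ∪ B) \ A) ∪ (A ∩ B) = B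
      ext p
      simp only [mem_union, mem_sdiff, mem_inter]
      tauto
  exact (sum_le_sum_of_subset_of_nonneg h1 fun _ _ _ =>
    mul_nonneg (w_nonneg _) (w_nonneg _)).trans
      (sum_image_le_of_nonneg (f := fun x : Finset ℕ × Finset ℕ => w x.1 * w x.2)
        fun _ _ => mul_nonneg (w_nonneg _) (w_nonneg _))

theorem slow : SlowStmt := by
  intro m y hm h2 hy
  have hm0 : (0 : ℝ) < m := by exact_mod_cast hm
  have h1 : (m.totient : ℝ) / m = ∏ p ∈ m.primeFactors, (1 - (p : ℝ)⁻¹) := by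
    have h := congrArg (fun x : ℚ => (x : ℝ)) (Nat.totient_eq_mul_prod_factors m)
    push_cast at h
    rw [h, mul_div_cancel_left₀ _ hm0.ne']
  have h3 := sieve m.primeFactors y fun p hp => (Nat.prime_of_mem_primeFactors hp).pos
  rw [← h1] at h3
  have h4 := mul_le_mul_of_nonneg_left (log_le y) (by positivity : 0 ≤ (m.totient : ℝ) / m)
  have h5 := sqf hm y
  have h6 : 0 ≤ Real.log y := Real.log_natCast_nonneg y
  refine (pow_le_pow_left₀ (by positivity) (by linarith) 2).trans ((square m y).trans ?_)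
  refine sum_le_sum fun D hD => prod_le_prod (fun _ _ => by positivity) fun p hp => ?_
  obtain ⟨h7, h8⟩ := (mem_fam.1 hD).1 p hp
  have h9 : 3 ≤ p := by
    have := h7.two_le
    rcases Nat.lt_or_ge 2 p with h | h
    · exact h
    · exact absurd (by rwa [show p = 2 by omega]) h8
  have h10 : (3 : ℝ) ≤ p := by exact_mod_cast h9
  have h11 : (0 : ℝ) < p - 2 := by linarith
  have h12 : 2 / (p : ℝ) / (1 - 2 / (p : ℝ)) = 2 / (p - 2) := by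
    field_simp
  have h13 : (p : ℝ)⁻¹ * (1 + (p : ℝ)⁻¹) + (p : ℝ)⁻¹ = (2 * p + 1) / p ^ 2 := by
    field_simp
    ring
  rw [h12, h13, div_le_div_iff₀ (by positivity) h11]
  nlinarith

end Pool.Agent.MP_ca0a54_nt.BH.SLOW
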