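import Pool.Agent.MP_ca0a54_nt.BH.Basic

/-! The upper bound sieve for pairs of primes. -/

open Finset

namespace Pool.Agent.MP_ca0a54_nt.BH.TWIN

theorem base {a b q : ℕ} (hab : a ≤ b) (hq : 0 < q) (r : ℕ) :
    |(((Ioc a b).filter fun n => n ≡ r [MOD q]).card : ℝ) - ((b : ℝ) - a) / q| ≤ 1 := by
  have h := Nat.Ioc_filter_modEq_card a b hq r
  have hq' : (0 : ℚ) < q := by exact_mod_cast hq
  have hab' : (a : ℚ) ≤ b := by exact_mod_cast hab
  have h1 : ⌊((a : ℚ) - r) / q⌋ ≤ ⌊((b : ℚ) - r) / q⌋ :=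
    Int.floor_le_floor (div_le_div_of_nonneg_right (by linarith) hq'.le)
  rw [max_eq_left (sub_nonneg.2 h1)] at h
  have h2 : ((((Ioc a b).filter fun n => n ≡ r [MOD q]).card : ℤ) : ℚ) =
      (⌊((b : ℚ) - r) / q⌋ : ℚ) - ⌊((a : ℚ) - r) / q⌋ := by
    rw [h]
    push_cast
    rfl
  have h3 : |(((Ioc a b).filter fun n => n ≡ r [MOD q]).card : ℚ) - ((b : ℚ) - a) / q| ≤ 1 := by
    rw [Int.cast_natCast] at h2
    rw [h2, show ((b : ℚ) - a) / q = ((b : ℚ) - r) / q - ((a : ℚ) - r) / q by ring, abs_le]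
    constructor <;>
      linarith [Int.floor_le (((a : ℚ) - r) / q), Int.floor_le (((b : ℚ) - r) / q),
        Int.lt_floor_add_one (((a : ℚ) - r) / q), Int.lt_floor_add_one (((b : ℚ) - r) / q)]
  have h4 := (Rat.cast_le (K := ℝ)).2 h3
  push_cast at h4
  exact h4

theorem crt {q p : ℕ} (h : q.Coprime p) (r s n : ℕ) :
    n ≡ r [MOD q] ∧ n ≡ s [MOD p] ↔ n ≡ Nat.chineseRemainder h r s [MOD q * p] := by
  rw [← Nat.modEq_and_modEq_iff_modEq_mul h]
  have h1 := (Nat.chineseRemainder h r s).2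
  exact ⟨fun a => ⟨a.1.trans h1.1.symm, a.2.trans h1.2.symm⟩,
    fun a => ⟨a.1.trans h1.1, a.2.trans h1.2⟩⟩

theorem neg_res {p : ℕ} (hp : 1 ≤ p) (k n : ℕ) : p ∣ n + k ↔ n ≡ (p - 1) * k [MOD p] := by
  have h : (p - 1) * k + k ≡ 0 [MOD p] := by
    rw [← Nat.succ_mul, Nat.succ_eq_add_one, Nat.sub_add_cancel hp]
    exact (Nat.modEq_zero_iff_dvd).2 (dvd_mul_right _ _)
  rw [← Nat.modEq_zero_iff_dvd]
  exact ⟨fun a => Nat.ModEq.add_right_cancel' k (a.trans h.symm),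
    fun a => (a.add_right k).trans h⟩

theorem cnt {a b : ℕ} (hab : a ≤ b) (k : ℕ) (D : Finset ℕ) : (∀ p ∈ D, p.Prime ∧ ¬ p ∣ k) →
    ∀ q r : ℕ, 0 < q → (∀ p ∈ D, q.Coprime p) →
    |(((Ioc a b).filter fun n => n ≡ r [MOD q] ∧ ∀ p ∈ D, p ∣ n * (n + k)).card : ℝ) -
      ((b : ℝ) - a) / q * ∏ p ∈ D, 2 / (p : ℝ)| ≤ 2 ^ D.card := by
  induction D using Finset.induction_on with
  | empty =>
    intro _ q r hq _
    simpa using base hab hq r
  | insert p D hp ih =>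
    intro hD q r hq hc
    have hD' : ∀ l ∈ D, l.Prime ∧ ¬ l ∣ k := fun l hl => hD l (mem_insert_of_mem hl)
    obtain ⟨hp1, hp2⟩ := hD p (mem_insert_self p D)
    have hqp := hc p (mem_insert_self p D)
    have hc' : ∀ l ∈ D, (q * p).Coprime l := fun l hl =>
      Nat.Coprime.mul_left (hc l (mem_insert_of_mem hl))
        ((Nat.coprime_primes hp1 (hD' l hl).1).2 fun e => hp (e ▸ hl))
    have h1 := ih hD' (q * p) (Nat.chineseRemainder hqp r 0) (Nat.mul_pos hq hp1.pos) hc'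
    have h2 := ih hD' (q * p) (Nat.chineseRemainder hqp r ((p - 1) * k))
      (Nat.mul_pos hq hp1.pos) hc'
    simp only [← crt hqp, Nat.modEq_zero_iff_dvd, ← neg_res hp1.one_le] at h1 h2
    have e : ((Ioc a b).filter fun n => n ≡ r [MOD q] ∧ ∀ l ∈ insert p D, l ∣ n * (n + k)).card =
        ((Ioc a b).filter fun n => (n ≡ r [MOD q] ∧ p ∣ n) ∧ ∀ l ∈ D, l ∣ n * (n + k)).card +
        ((Ioc a b).filter fun n => (n ≡ r [MOD q] ∧ p ∣ n + k) ∧
          ∀ l ∈ D, l ∣ n * (n + k)).card := by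
      rw [← card_union_of_disjoint, ← filter_or]
      · congr 1
        refine filter_congr fun n _ => ?_
        rw [forall_mem_insert, hp1.dvd_mul]
        tauto
      · exact disjoint_filter.2 fun n _ u v => hp2 ((Nat.dvd_add_right u.1.2).1 v.1.2)
    rw [e, prod_insert hp, card_insert_of_notMem hp, pow_succ]
    push_cast at h1 h2 ⊢
    have e2 : ((b : ℝ) - a) / q * (2 / p * ∏ p ∈ D, 2 / (p : ℝ)) =
        2 * (((b : ℝ) - a) / (q * p) * ∏ p ∈ D, 2 / (p : ℝ)) := by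
      rw [← div_div]
      ring
    rw [e2]
    rw [abs_le] at h1 h2 ⊢
    constructor <;> linarith [h1.1, h1.2, h2.1, h2.2]

theorem mem_fam {m z : ℕ} {D : Finset ℕ} :
    D ∈ fam m z ↔ (∀ p ∈ D, (1 ≤ p ∧ p ≤ z) ∧ p.Prime ∧ ¬ p ∣ m) ∧ ∏ p ∈ D, p ≤ z := by
  simp only [fam, mem_filter, mem_powerset, subset_iff, mem_Icc]

theorem two_pow_le {m z : ℕ} {D : Finset ℕ} (h : D ∈ fam m z) : (2 : ℝ) ^ D.card ≤ z := by
  obtain ⟨h1, h2⟩ := mem_fam.1 h
  exact_mod_cast (pow_card_le_prod D (fun p => p) 2 fun p hp => (h1 p hp).2.1.two_le).trans h2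

theorem card_fam (m z : ℕ) : (fam m z).card ≤ z := by
  have := card_le_card_of_injOn (s := fam m z) (t := Icc 1 z) (fun D => ∏ p ∈ D, p)
    (fun D hD => by
      obtain ⟨h1, h2⟩ := mem_fam.1 hD
      exact mem_coe.2 (mem_Icc.2 ⟨(prod_pos fun p hp => (h1 p hp).1.1 : 0 < ∏ p ∈ D, p), h2⟩))
    (fun D hD D' hD' e => by
      rw [← Nat.primeFactors_prod fun p hp => ((mem_fam.1 hD).1 p hp).2.1,
        ← Nat.primeFactors_prod (s := D') fun p hp => ((mem_fam.1 hD').1 p hp).2.1]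
      exact congrArg Nat.primeFactors e)
  simpa using this

theorem sieve (hS : SelStmt) (hL : SlowStmt) {x k y : ℕ} (hk : 1 ≤ k) (hy : 2 ≤ y)
    (hx : y ^ 2 ≤ x) :
    (twin x k : ℝ) ≤ 8 * x * (((2 * k : ℕ) : ℝ) / (2 * k).totient) ^ 2 / Real.log y ^ 2 +
      (y : ℝ) ^ 12 := by
  have hz : 1 ≤ y ^ 2 := Nat.one_le_pow _ _ (by omega)
  have h1 := hS (Ioc x (3 * x)) (fun p => (Ioc x (3 * x)).filter fun n => p ∣ n * (n + k))
    (fam (2 * k) (y ^ 2)) (fun p => 2 / (p : ℝ)) (2 * x) ((y : ℝ) ^ 4)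
    (mem_fam.2 ⟨by simp, by simpa using hz⟩)
    (fun D hD D' h => by
      obtain ⟨h1, h2⟩ := mem_fam.1 hD
      exact mem_fam.2 ⟨fun p hp => h1 p (h hp), (prod_le_prod_of_subset_of_one_le' h
        fun p hp _ => (h1 p hp).1.1).trans h2⟩)
    (fun D hD p hp => by
      obtain ⟨-, h1, h2⟩ := (mem_fam.1 hD).1 p hp
      have h3 : 2 < p := lt_of_le_of_ne h1.two_le fun e => h2 (e ▸ dvd_mul_right 2 k)
      have h4 : (2 : ℝ) < p := by exact_mod_cast h3
      exact ⟨by positivity, (div_lt_one (by linarith)).2 h4⟩)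
    (fun D hD D' hD' => by
      have h1 := cnt (show x ≤ 3 * x by omega) k (D ∪ D') (fun p hp => by
        have : p.Prime ∧ ¬ p ∣ 2 * k := by
          rcases mem_union.1 hp with h | h
          exacts [((mem_fam.1 hD).1 p h).2, ((mem_fam.1 hD').1 p h).2]
        exact ⟨this.1, fun e => this.2 (e.mul_left 2)⟩) 1 0 one_pos (by simp)
      have h2 : (2 : ℝ) ^ (D ∪ D').card ≤ (y : ℝ) ^ 4 := by
        refine (pow_le_pow_right₀ one_le_two (card_union_le D D')).trans ?_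
        have h3 := two_pow_le hD
        have h4 := two_pow_le hD'
        push_cast at h3 h4
        rw [pow_add, show (y : ℝ) ^ 4 = y ^ 2 * y ^ 2 by ring]
        gcongr
      refine le_trans (le_of_eq ?_) (h1.trans h2)
      congr 2
      · congr 2
        refine filter_congr fun n hn => ?_
        simp only [mem_filter, hn, true_and, Nat.modEq_one]
      · push_cast
        ring)
  have h3 := hL (2 * k) y (by omega) (dvd_mul_right 2 k) (by omega)
  have hl : 0 < Real.log y := Real.log_pos (by exact_mod_cast hy)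
  have hφ : (0 : ℝ) < (2 * k).totient := by exact_mod_cast Nat.totient_pos.2 (by omega)
  have hk' : (0 : ℝ) < (2 * k : ℕ) := by exact_mod_cast (by omega : 0 < 2 * k)
  refine le_trans (Nat.cast_le.2 (card_le_card fun n hn => ?_)) (h1.trans (add_le_add ?_ ?_))
  · obtain ⟨h1, h2, h3⟩ := mem_filter.1 hn
    refine mem_filter.2 ⟨h1, fun D hD p hp h => ?_⟩
    obtain ⟨h4, h5, -⟩ := (mem_fam.1 hD).1 p hp
    have h6 := (mem_Ioc.1 h1).1
    rcases h5.dvd_mul.1 (mem_filter.1 h).2 with h | h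
    · have := (Nat.prime_dvd_prime_iff_eq h5 h2).1 h
      omega
    · have := (Nat.prime_dvd_prime_iff_eq h5 h3).1 h
      omega
  · refine (div_le_div_of_nonneg_left (by positivity) (by positivity) h3).trans (le_of_eq ?_)
    field_simp
    ring
  · have h4 : ∑ D ∈ fam (2 * k) (y ^ 2), ∏ p ∈ D, 1 / (2 / (p : ℝ)) ≤ (y : ℝ) ^ 4 := by
      have h5 : ∀ D ∈ fam (2 * k) (y ^ 2), ∏ p ∈ D, 1 / (2 / (p : ℝ)) ≤ (y : ℝ) ^ 2 := by
        intro D hD
        have h6 : ∏ p ∈ D, (p : ℝ) ≤ (y : ℝ) ^ 2 := by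
          rw [← Nat.cast_prod]
          exact_mod_cast (mem_fam.1 hD).2
        refine (prod_le_prod (fun p _ => by positivity) fun p _ => ?_).trans h6
        rw [one_div_div]
        exact half_le_self (Nat.cast_nonneg p)
      refine (sum_le_card_nsmul _ _ _ h5).trans ?_
      have h7 : ((fam (2 * k) (y ^ 2)).card : ℝ) ≤ (y : ℝ) ^ 2 := by
        exact_mod_cast card_fam (2 * k) (y ^ 2)
      rw [nsmul_eq_mul, show (y : ℝ) ^ 4 = y ^ 2 * y ^ 2 by ring]
      gcongr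
    have h0 : 0 ≤ ∑ D ∈ fam (2 * k) (y ^ 2), ∏ p ∈ D, 1 / (2 / (p : ℝ)) := by positivity
    rw [show (y : ℝ) ^ 12 = y ^ 4 * (y ^ 4) ^ 2 by ring]
    gcongr

theorem sq_le {y : ℕ} (h : 2 ≤ y) : y + 1 ≤ y ^ 2 := by nlinarith

theorem one (hS : SelStmt) (hL : SlowStmt) {x k : ℕ} (hk : 1 ≤ k) (hx : 2 ≤ x) :
    (twin x k : ℝ) ≤
      14400 * (((2 * k : ℕ) : ℝ) / (2 * k).totient) ^ 2 * x / Real.log x ^ 2 := by
  have hx0 : (0 : ℝ) < x := by exact_mod_cast (by omega : 0 < x)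
  have hl : 0 < Real.log x := Real.log_pos (by exact_mod_cast hx)
  have hφ : (0 : ℝ) < (2 * k).totient := by exact_mod_cast Nat.totient_pos.2 (by omega)
  have hρ : 1 ≤ (((2 * k : ℕ) : ℝ) / (2 * k).totient) ^ 2 :=
    one_le_pow₀ ((one_le_div hφ).2 (by exact_mod_cast Nat.totient_le _))
  set ρ := (((2 * k : ℕ) : ℝ) / (2 * k).totient) ^ 2 with hρ'
  obtain ⟨y, h1, h2⟩ : ∃ y : ℕ, y ^ 20 ≤ x ∧ x < (y + 1) ^ 20 :=
    ⟨_, Nat.pow_nthRoot_le_iff.2 (Or.inl (by norm_num)),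
      Nat.lt_pow_nthRoot_add_one (by norm_num) x⟩
  rw [le_div_iff₀ (by positivity)]
  have hρx : (x : ℝ) ≤ ρ * x := le_mul_of_one_le_left hx0.le hρ
  rcases le_or_gt 2 y with h | h
  · have hy2 : (2 : ℝ) ≤ y := by exact_mod_cast h
    have h3 := sieve hS hL hk h ((Nat.pow_le_pow_right (by omega) (by norm_num)).trans h1)
    rw [← hρ'] at h3
    have h4 : x ≤ y ^ 40 := by
      calc x ≤ (y + 1) ^ 20 := h2.le
        _ ≤ (y ^ 2) ^ 20 := Nat.pow_le_pow_left (sq_le h) 20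
        _ = y ^ 40 := by ring
    have h1' : (y : ℝ) ^ 20 ≤ x := by exact_mod_cast h1
    clear h1 h2
    have h5 : Real.log x ≤ 40 * Real.log y := by
      have := Real.log_le_log hx0 (show (x : ℝ) ≤ (y : ℝ) ^ 40 by exact_mod_cast h4)
      rwa [Real.log_pow] at this
    clear h4
    have hly : 0 < Real.log y := Real.log_pos (by linarith)
    have h6 : Real.log x ^ 2 ≤ 1600 * Real.log y ^ 2 :=
      (pow_le_pow_left₀ hl.le h5 2).trans_eq (by ring)
    have h7 : Real.log y ≤ y := (Real.log_le_sub_one_of_pos (by linarith)).trans (by linarith)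
    have h8 : (y : ℝ) ^ 12 * Real.log y ^ 2 ≤ x := by
      calc (y : ℝ) ^ 12 * Real.log y ^ 2 ≤ (y : ℝ) ^ 12 * (y : ℝ) ^ 2 := by gcongr
        _ = (y : ℝ) ^ 14 := by ring
        _ ≤ (y : ℝ) ^ 20 := pow_le_pow_right₀ (by linarith) (by norm_num)
        _ ≤ x := h1'
    clear h1'
    calc (twin x k : ℝ) * Real.log x ^ 2
        ≤ (8 * x * ρ / Real.log y ^ 2 + (y : ℝ) ^ 12) * (1600 * Real.log y ^ 2) := by gcongr
      _ = 12800 * (ρ * x) + 1600 * ((y : ℝ) ^ 12 * Real.log y ^ 2) := by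
          field_simp
          ring
      _ ≤ _ := by linarith
  · have h3 : x ≤ 2 ^ 20 := h2.le.trans (Nat.pow_le_pow_left h 20)
    clear h1 h2
    have h4 : Real.log x ≤ 14 := by
      have := Real.log_le_log hx0 (show (x : ℝ) ≤ (2 : ℝ) ^ 20 by exact_mod_cast h3)
      rw [Real.log_pow] at this
      push_cast at this
      linarith [Real.log_two_lt_d9]
    have h5 : (twin x k : ℝ) ≤ 2 * x := by
      have : twin x k ≤ 2 * x := (card_filter_le _ _).trans (by rw [Nat.card_Ioc]; omega)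
      exact_mod_cast this
    calc (twin x k : ℝ) * Real.log x ^ 2 ≤ 2 * x * 14 ^ 2 := by gcongr
      _ ≤ _ := by linarith

theorem twin' : SelStmt → SlowStmt → PhiStmt → TwinStmt := by
  rintro hS hL ⟨C, hC, hP⟩
  refine ⟨14400 ^ 2 * 2 * C, by linarith, fun x hx => ?_⟩
  have hl : 0 < Real.log x := Real.log_pos (by exact_mod_cast hx)
  have h1 := hP (2 * x)
  calc ∑ k ∈ Icc 1 (2 * x), (twin x k : ℝ) ^ 2
      ≤ ∑ k ∈ Icc 1 (2 * x), (14400 * x / Real.log x ^ 2) ^ 2 *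
          (((2 * k : ℕ) : ℝ) / (2 * k).totient) ^ 4 := by
        refine sum_le_sum fun k hk => ?_
        refine (pow_le_pow_left₀ (Nat.cast_nonneg _) (one hS hL (mem_Icc.1 hk).1 hx) 2).trans_eq ?_
        ring
    _ ≤ (14400 * x / Real.log x ^ 2) ^ 2 * (C * (2 * x : ℕ)) := by
        rw [← mul_sum]
        gcongr
    _ = _ := by
        push_cast
        field_simp

end Pool.Agent.MP_ca0a54_nt.BH.TWIN
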