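import Pool.Agent.MP_ca0a54_nt.BH.Basic

/-!
Averages of the Liouville function over shifts by multiples of primes; intervals rich in primes.
-/

open Complex MeasureTheory Filter Topology

namespace Pool.Agent.MP_ca0a54_nt.BH.AVG

open Finset

theorem half {x : ℕ} {P : Finset ℕ} (hP : ∀ p ∈ P, p.Prime ∧ x < p ∧ p ≤ 3 * x) (r : ℕ → ℝ)
    (hr : ∀ k, 0 ≤ r k) :
    ∑ p ∈ P, ∑ q ∈ P, (if p < q then r (q - p) else 0) ≤
      ∑ k ∈ Icc 1 (2 * x), (twin x k : ℝ) * r k := by
  calc ∑ p ∈ P, ∑ q ∈ P, (if p < q then r (q - p) else 0)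
      ≤ ∑ p ∈ P, ∑ k ∈ Icc 1 (2 * x), (if (p + k).Prime then r k else 0) := by
        refine sum_le_sum fun p hp => ?_
        rw [← sum_filter, ← sum_filter, ← sum_image (s := P.filter fun q => p < q)
          (g := fun q => q - p) (f := r) (fun a ha b hb hab => by
            have h1 := (mem_filter.1 ha).2
            have h2 := (mem_filter.1 hb).2
            have h3 : a - p = b - p := hab
            omega)]
        refine sum_le_sum_of_subset_of_nonneg (fun k hk => ?_) fun k _ _ => hr k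
        obtain ⟨q, hq, rfl⟩ := mem_image.1 hk
        obtain ⟨h1, h2⟩ := mem_filter.1 hq
        have h3 := hP p hp
        have h4 := hP q h1
        refine mem_filter.2 ⟨mem_Icc.2 ⟨by omega, by omega⟩, ?_⟩
        rw [show p + (q - p) = q by omega]
        exact h4.1
    _ = ∑ k ∈ Icc 1 (2 * x), ((P.filter fun p => (p + k).Prime).card : ℝ) * r k := by
        rw [sum_comm]
        refine sum_congr rfl fun k _ => ?_
        rw [← sum_filter, sum_const, nsmul_eq_mul]
    _ ≤ _ := by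
        refine sum_le_sum fun k _ => mul_le_mul_of_nonneg_right ?_ (hr k)
        refine Nat.cast_le.2 (card_le_card fun p hp => ?_)
        obtain ⟨h1, h2⟩ := mem_filter.1 hp
        have h3 := hP p h1
        exact mem_filter.2 ⟨mem_Ioc.2 h3.2, h3.1, h2⟩

/-- The correlation. -/
noncomputable def rho (N k : ℕ) : ℝ := LS N fun n => lam n * lam (n + k)

theorem abs_mul_lam (m n : ℕ) : |lam m * lam n| ≤ 1 := by
  rw [abs_mul]
  exact mul_le_one₀ (abs_lam_le m) (abs_nonneg _) (abs_lam_le n)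

theorem pair_lt (N h : ℕ) {p q : ℕ} (hpq : p < q) :
    LS N (fun n => lam (n + p * h) * lam (n + q * h)) ≤ |rho N ((q - p) * h)| + 3 * (p * h : ℕ) := by
  have h1 := LS_shift (f := fun n => lam n * lam (n + (q - p) * h)) (fun n => abs_mul_lam _ _) N
    (p * h)
  have h2 : (fun n => lam (n + p * h) * lam (n + p * h + (q - p) * h)) =
      fun n => lam (n + p * h) * lam (n + q * h) := by
    funext n
    rw [add_assoc, ← add_mul, show p + (q - p) = q by omega]
  rw [h2] at h1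
  have h3 := le_abs_self (rho N ((q - p) * h))
  have h4 := (abs_le.1 h1).2
  unfold rho at h3 ⊢
  linarith

theorem expand {x : ℕ} {P : Finset ℕ} (hP : ∀ p ∈ P, p.Prime ∧ x < p ∧ p ≤ 3 * x) (N h : ℕ) :
    LS N (fun n => (∑ p ∈ P, lam (n + p * h)) ^ 2) ≤ P.card * (1 + Real.log N) +
      2 * ∑ k ∈ Icc 1 (2 * x), (twin x k : ℝ) * |rho N (k * h)| +
      (P.card : ℝ) ^ 2 * (9 * x * h) := by
  have h1 : LS N (fun n => (∑ p ∈ P, lam (n + p * h)) ^ 2) =
      ∑ p ∈ P, ∑ q ∈ P, LS N fun n => lam (n + p * h) * lam (n + q * h) := by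
    simp only [sq, sum_mul_sum]
    rw [LS_sum]
    exact sum_congr rfl fun p _ => LS_sum _ _ _
  have hb : ∀ p ∈ P, (3 : ℝ) * (p * h : ℕ) ≤ 9 * x * h := fun p hp => by
    have h2 : (p : ℝ) ≤ 3 * x := by exact_mod_cast (hP p hp).2.2
    have h3 : (0 : ℝ) ≤ h := Nat.cast_nonneg h
    push_cast
    nlinarith
  have h2 : ∀ p ∈ P, ∀ q ∈ P, LS N (fun n => lam (n + p * h) * lam (n + q * h)) ≤
      (if p = q then 1 + Real.log N else 0) + (if p < q then |rho N ((q - p) * h)| else 0) +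
        (if q < p then |rho N ((p - q) * h)| else 0) + 9 * x * h := by
    intro p hp q hq
    rcases lt_trichotomy p q with hlt | heq | hgt
    · rw [if_neg hlt.ne, if_pos hlt, if_neg hlt.not_gt]
      linarith [pair_lt N h hlt, hb p hp]
    · rw [if_pos heq, if_neg heq.not_lt, if_neg heq.not_gt]
      have h3 := LS_le (N := N) (f := fun n => lam (n + p * h) * lam (n + q * h)) zero_le_one
        fun n _ _ => (le_abs_self _).trans (abs_mul_lam _ _)
      have h4 : (0 : ℝ) ≤ 9 * x * h := by positivity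
      linarith
    · rw [if_neg hgt.ne', if_neg hgt.not_gt, if_pos hgt]
      have h3 := pair_lt N h hgt
      simp only [mul_comm (lam (_ + q * h))] at h3
      linarith [hb q hq]
  have h3 := half hP (fun k => |rho N (k * h)|) fun k => abs_nonneg _
  have h4 : ∑ p ∈ P, ∑ q ∈ P, (if q < p then |rho N ((p - q) * h)| else 0) =
      ∑ p ∈ P, ∑ q ∈ P, (if p < q then |rho N ((q - p) * h)| else 0) := sum_comm
  have h5 : ∑ p ∈ P, ∑ q ∈ P, (if p = q then 1 + Real.log N else 0) =
      P.card * (1 + Real.log N) := by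
    rw [sum_congr rfl fun p hp => (sum_ite_eq P p fun _ => 1 + Real.log N).trans (if_pos hp),
      sum_const, nsmul_eq_mul]
  rw [h1]
  refine (sum_le_sum fun p hp => sum_le_sum fun q hq => h2 p hp q hq).trans ?_
  simp only [sum_add_distrib, sum_const, nsmul_eq_mul]
  rw [h4, h5]
  nlinarith

theorem avg : WienStmt → TwinStmt → AvgStmt := by
  rintro hw ⟨C, hC, htw⟩ h c ε hh hc hε
  have hh' : (1 : ℝ) ≤ h := by exact_mod_cast hh
  have hδ : 0 < (ε * c ^ 2 / 8) ^ 2 / (2 * C * h) := by positivity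
  have ht : Tendsto (fun x : ℕ => 2 * x * h) atTop atTop :=
    tendsto_atTop_mono (fun x => by
      show x ≤ 2 * x * h
      nlinarith) tendsto_id
  have hlog := tendsto_natCast_atTop_atTop (R := ℝ).eventually
    (Real.isLittleO_log_id_atTop.def (show 0 < c * ε / 8 by positivity))
  filter_upwards [ht.eventually (hw _ hδ), hlog, eventually_ge_atTop 2] with x hx hlx hx2
  have hl : Tendsto (fun N : ℕ => Real.log N) atTop atTop :=
    Real.tendsto_log_atTop.comp tendsto_natCast_atTop_atTop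
  filter_upwards [hx, hl.eventually_ge_atTop 1, hl.eventually_ge_atTop (36 * x * h / ε)]
    with N hN hN1 hN2 P hP hcard
  have hx' : (2 : ℝ) ≤ x := by exact_mod_cast hx2
  have hlx0 : 0 < Real.log x := Real.log_pos (by linarith)
  rw [id, Real.norm_of_nonneg hlx0.le, Real.norm_of_nonneg (by linarith)] at hlx
  have hP8 : 8 ≤ ε * P.card := by
    have h1 : 8 / ε ≤ c * x / Real.log x := by
      rw [div_le_div_iff₀ hε hlx0]
      linarith
    have h2 := h1.trans hcard
    rw [div_le_iff₀ hε] at h2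
    linarith
  have hP0 : (0 : ℝ) ≤ P.card := Nat.cast_nonneg _
  have h1 : ∑ k ∈ Icc 1 (2 * x), |rho N (k * h)| ^ 2 ≤
      (ε * c ^ 2 / 8) ^ 2 / (2 * C * h) * (2 * x * h : ℕ) * Real.log N ^ 2 := by
    refine le_trans ?_ hN
    rw [← sum_image (s := Icc 1 (2 * x)) (g := fun k => k * h) (f := fun k => |rho N k| ^ 2)
      (fun a _ b _ hab => Nat.eq_of_mul_eq_mul_right hh hab)]
    simp only [sq_abs]
    refine sum_le_sum_of_subset_of_nonneg (fun k hk => ?_) fun k _ _ => sq_nonneg _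
    obtain ⟨j, hj, rfl⟩ := mem_image.1 hk
    obtain ⟨h2, h3⟩ := mem_Icc.1 hj
    exact mem_Icc.2 ⟨Nat.mul_pos h2 hh, Nat.mul_le_mul_right _ h3⟩
  have h2 : (∑ k ∈ Icc 1 (2 * x), (twin x k : ℝ) * |rho N (k * h)|) ^ 2 ≤
      (ε / 8 * (P.card : ℝ) ^ 2 * Real.log N) ^ 2 :=
    calc _ ≤ (∑ k ∈ Icc 1 (2 * x), (twin x k : ℝ) ^ 2) *
          ∑ k ∈ Icc 1 (2 * x), |rho N (k * h)| ^ 2 := sum_mul_sq_le_sq_mul_sq _ _ _
      _ ≤ (C * (x : ℝ) ^ 3 / Real.log x ^ 4) *
          ((ε * c ^ 2 / 8) ^ 2 / (2 * C * h) * (2 * x * h : ℕ) * Real.log N ^ 2) := by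
          gcongr
          exact htw x hx2
      _ = (ε / 8 * (c * x / Real.log x) ^ 2 * Real.log N) ^ 2 := by
          push_cast
          field_simp
      _ ≤ _ := by gcongr
  have h3 := (abs_le_of_sq_le_sq' h2 (by positivity)).2
  have h4 : (P.card : ℝ) * (1 + Real.log N) ≤ ε / 4 * (P.card : ℝ) ^ 2 * Real.log N := by
    have h5 : 8 * (P.card * Real.log N) ≤ ε * P.card * (P.card * Real.log N) :=
      mul_le_mul_of_nonneg_right hP8 (by positivity)
    nlinarith [mul_le_mul_of_nonneg_left hN1 hP0]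
  have h5 : (P.card : ℝ) ^ 2 * (9 * x * h) ≤ ε / 4 * (P.card : ℝ) ^ 2 * Real.log N := by
    rw [div_le_iff₀ hε] at hN2
    nlinarith [mul_le_mul_of_nonneg_left hN2 (sq_nonneg (P.card : ℝ))]
  have h6 : 0 ≤ ε * (P.card : ℝ) ^ 2 * Real.log N := by positivity
  linarith [expand hP N h]

theorem theta_gap : ∀ᶠ W : ℝ in atTop,
    W / 8 ≤ Chebyshev.theta (W / 2) - Chebyshev.theta (W / 8) := by
  have h1 := (isLittleO_log_rpow_atTop (r := 1 / 2) (by norm_num)).def
    (show (0 : ℝ) < 1 / 60 by norm_num)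
  have ht : Tendsto (fun W : ℝ => W / 2) atTop atTop := tendsto_id.atTop_div_const two_pos
  filter_upwards [ht.eventually h1, eventually_ge_atTop 4] with W hW hW4
  set y := W / 2 with hy
  have hy2 : 2 ≤ y := by linarith
  have hl : Real.log 2 ≤ Real.log y := Real.log_le_log two_pos hy2
  have hl2 := Real.log_two_gt_d9
  rw [← Real.sqrt_eq_rpow, Real.norm_of_nonneg (by linarith),
    Real.norm_of_nonneg (Real.sqrt_nonneg _)] at hW
  have hs : 1 ≤ √y := Real.one_le_sqrt.2 (by linarith)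
  have h2 : √y * Real.log y ≤ y / 60 := by
    have := Real.mul_self_sqrt (show 0 ≤ y by linarith)
    nlinarith
  have h3 : Real.log y ≤ √y * Real.log y := le_mul_of_one_le_left (by linarith) hs
  have h4 : Real.log (y + 2) ≤ 2 * Real.log y := by
    rw [← show Real.log (y ^ 2) = 2 * Real.log y by simp]
    exact Real.log_le_log (by linarith) (by nlinarith)
  have h5 := Chebyshev.theta_ge' (x := y) (by linarith)
  have h6 := Chebyshev.theta_le_log4_mul_x (x := W / 8) (by linarith)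
  have h7 : Real.log 4 = 2 * Real.log 2 := by
    rw [show (4 : ℝ) = 2 ^ 2 by norm_num]
    simp
  have h8 : W / 8 = y / 4 := by linarith
  rw [h7] at h6
  rw [h8] at h6 ⊢
  nlinarith

theorem ps : PsStmt := by
  intro η hη hη1
  have hex : ∃ i : ℕ, 4 ≤ (1 + η) ^ i := by
    obtain ⟨i, hi⟩ := pow_unbounded_of_one_lt (4 : ℝ) (show 1 < 1 + η by linarith)
    exact ⟨i, hi.le⟩
  obtain ⟨I, hI, hI'⟩ : ∃ I : ℕ, 4 ≤ (1 + η) ^ I ∧ ∀ i < I, (1 + η) ^ i < 4 := by
    classical
    exact ⟨Nat.find hex, Nat.find_spec hex, fun i hi => not_le.1 (Nat.find_min hex hi)⟩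
  have hI0 : 0 < I := by
    rcases I with _ | I
    · norm_num at hI
    · omega
  have hI1 : (0 : ℝ) < I := by exact_mod_cast hI0
  refine ⟨1 / (8 * I), by positivity, ?_⟩
  filter_upwards [theta_gap, eventually_ge_atTop 2] with W hW hW2
  set x : ℕ → ℝ := fun i => W / 8 * (1 + η) ^ i with hx
  have h1 : ∑ _i ∈ range I, W / (8 * I) ≤
      ∑ i ∈ range I, (Chebyshev.theta (x (i + 1)) - Chebyshev.theta (x i)) := by
    rw [sum_range_sub fun i => Chebyshev.theta (x i), sum_const, card_range, nsmul_eq_mul]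
    have h2 : Chebyshev.theta (W / 2) ≤ Chebyshev.theta (x I) :=
      Chebyshev.theta_mono (by simp only [hx]; nlinarith)
    have h3 : x 0 = W / 8 := by simp [hx]
    have h4 : (I : ℝ) * (W / (8 * I)) = W / 8 := by field_simp
    rw [h3, h4]
    linarith
  obtain ⟨i, hi, h2⟩ := exists_le_of_sum_le (nonempty_range_iff.2 hI0.ne') h1
  have h3 := hI' i (mem_range.1 hi)
  have h4 : 1 ≤ (1 + η) ^ i := one_le_pow₀ (by linarith)
  have h5 : x (i + 1) = (1 + η) * x i := by
    simp only [hx]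
    ring
  have h6 : W / 8 ≤ x i := by
    simp only [hx]
    nlinarith
  have h7 : (1 + η) * x i ≤ W := by
    have : x i ≤ W / 2 := by
      simp only [hx]
      nlinarith
    nlinarith
  have h8 : x i ≤ (1 + η) * x i := by nlinarith
  have hmem : ∀ p ∈ (Ioc ⌊x i⌋₊ ⌊(1 + η) * x i⌋₊).filter Nat.Prime,
      p.Prime ∧ x i < p ∧ (p : ℝ) ≤ (1 + η) * x i := fun p hp => by
    obtain ⟨h9, h10⟩ := mem_filter.1 hp
    obtain ⟨h11, h12⟩ := mem_Ioc.1 h9
    exact ⟨h10, (Nat.floor_lt (by linarith)).1 h11, (Nat.le_floor_iff (by linarith)).1 h12⟩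
  refine ⟨x i, _, h6, h7, hmem, ?_⟩
  have h9 : Chebyshev.theta ((1 + η) * x i) - Chebyshev.theta (x i) =
      ∑ p ∈ (Ioc ⌊x i⌋₊ ⌊(1 + η) * x i⌋₊).filter Nat.Prime, Real.log p := by
    unfold Chebyshev.theta
    rw [sum_filter, sum_filter, sum_filter,
      ← sum_Ioc_consecutive _ (Nat.zero_le ⌊x i⌋₊) (Nat.floor_le_floor h8), add_sub_cancel_left]
  have h10 : ∑ p ∈ (Ioc ⌊x i⌋₊ ⌊(1 + η) * x i⌋₊).filter Nat.Prime, Real.log p ≤
      (((Ioc ⌊x i⌋₊ ⌊(1 + η) * x i⌋₊).filter Nat.Prime).card : ℝ) * Real.log W := by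
    rw [← nsmul_eq_mul]
    refine sum_le_card_nsmul _ _ _ fun p hp => ?_
    have h11 := hmem p hp
    exact Real.log_le_log (by exact_mod_cast h11.1.pos) (h11.2.2.trans h7)
  rw [h5, h9] at h2
  rw [div_le_iff₀ (Real.log_pos (by linarith))]
  have h11 : 1 / (8 * (I : ℝ)) * W = W / (8 * I) := by ring
  linarith

end Pool.Agent.MP_ca0a54_nt.BH.AVG
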