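import Pool.Agent.MP_ca0a54_nt.BH.Spec
import Pool.Agent.MP_57adf2_an.H72.Avg

/-! Elementary facts about the definitions. -/

open Complex MeasureTheory Filter Topology

namespace Pool.Agent.MP_ca0a54_nt.BH

theorem norm_ei (x : ℝ) : ‖ei x‖ = 1 := norm_exp_I_mul_ofReal x

theorem ei_add (x y : ℝ) : ei (x + y) = ei x * ei y := by
  unfold ei
  rw [← exp_add]
  push_cast
  ring_nf

theorem ei_zero : ei 0 = 1 := by simp [ei]

theorem conj_ei (x : ℝ) : (starRingEnd ℂ) (ei x) = ei (-x) := by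
  unfold ei
  rw [← exp_conj, map_mul, conj_I, conj_ofReal]
  push_cast
  ring_nf

@[fun_prop] theorem continuous_ei : Continuous ei := by
  unfold ei
  fun_prop

theorem norm_ei_sub (x y : ℝ) : ‖ei x - ei y‖ ≤ |x - y| := by
  have h : ei x - ei y = ei y * (ei (x - y) - 1) := by
    rw [mul_sub, ← ei_add, mul_one, add_sub_cancel]
  rw [h, norm_mul, norm_ei, one_mul]
  exact Real.norm_exp_I_mul_ofReal_sub_one_le

theorem lam_mul (m n : ℕ) : lam (m * n) = lam m * lam n := by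
  unfold lam
  rw [ArithmeticFunction.liouville_apply_mul]
  push_cast
  ring

theorem lam_zero : lam 0 = 0 := by simp [lam]

theorem lam_one : lam 1 = 1 := by
  unfold lam
  rw [ArithmeticFunction.liouville_apply_one]
  simp

theorem lam_prime {p : ℕ} (hp : p.Prime) : lam p = -1 := by
  unfold lam
  rw [ArithmeticFunction.liouville_apply hp.ne_zero, ArithmeticFunction.cardFactors_apply_prime hp]
  simp

theorem lam_eq {n : ℕ} (hn : 1 ≤ n) : lam n = 1 ∨ lam n = -1 := by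
  unfold lam
  rw [ArithmeticFunction.liouville_apply (by omega)]
  rcases neg_one_pow_eq_or ℤ (ArithmeticFunction.cardFactors n) with h | h <;> simp [h]

theorem lam_mul_self {n : ℕ} (hn : 1 ≤ n) : lam n * lam n = 1 := by
  rcases lam_eq hn with h | h <;> simp [h]

theorem abs_lam_le (n : ℕ) : |lam n| ≤ 1 := by
  rcases Nat.eq_zero_or_pos n with rfl | h
  · simp [lam_zero]
  · rcases lam_eq h with h | h <;> simp [h]

theorem cm_lam (q : ℕ) (χ : DirichletCharacter ℂ q) : CM fun n => lam n * χ n := by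
  refine ⟨fun m n => ?_, fun n => ?_⟩
  · rw [lam_mul, Nat.cast_mul, map_mul]
    push_cast
    ring
  · rw [norm_mul, norm_real, Real.norm_eq_abs]
    exact mul_le_one₀ (abs_lam_le n) (norm_nonneg _) (χ.norm_le_one _)

theorem mem_iv {v w : ℝ} {n : ℕ} : n ∈ iv v w ↔ 1 ≤ n ∧ v < Real.log n ∧ Real.log n ≤ w := by
  unfold iv
  rw [Finset.mem_Ioc, Nat.floor_lt (Real.exp_pos v).le, Nat.le_floor_iff (Real.exp_pos w).le]
  constructor
  · rintro ⟨h1, h2⟩
    have hn : (0 : ℝ) < n := (Real.exp_pos v).trans h1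
    exact ⟨by exact_mod_cast hn, (Real.lt_log_iff_exp_lt hn).2 h1, (Real.log_le_iff_le_exp hn).2 h2⟩
  · rintro ⟨h0, h1, h2⟩
    have hn : (0 : ℝ) < n := by exact_mod_cast h0
    exact ⟨(Real.lt_log_iff_exp_lt hn).1 h1, (Real.log_le_iff_le_exp hn).1 h2⟩

theorem zero_notMem_iv (v w : ℝ) : 0 ∉ iv v w := fun h => by simpa using (mem_iv.1 h).1

theorem mem_prm {v w : ℝ} {p : ℕ} :
    p ∈ prm v w ↔ p.Prime ∧ v < Real.log p ∧ Real.log p ≤ w := by
  unfold prm
  rw [Finset.mem_filter, mem_iv]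
  exact ⟨fun h => ⟨h.2, h.1.2⟩, fun h => ⟨⟨h.1.one_le, h.2⟩, h.1⟩⟩

theorem card_iv_le (v w : ℝ) : ((iv v w).card : ℝ) ≤ Real.exp w := by
  unfold iv
  rw [Nat.card_Ioc]
  exact (Nat.cast_le.2 (Nat.sub_le _ _)).trans (Nat.floor_le (Real.exp_pos w).le)

theorem rcp_nonneg (B : Finset ℕ) : 0 ≤ rcp B := Finset.sum_nonneg fun _ _ => by positivity

/-- `∑_{a < n ≤ b} 1 / n ≤ log b - log a`. -/
theorem sum_inv_Ioc {a b : ℕ} (ha : 1 ≤ a) (hab : a ≤ b) :
    ∑ n ∈ Finset.Ioc a b, 1 / (n : ℝ) ≤ Real.log b - Real.log a := by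
  induction b, hab using Nat.le_induction with
  | base => simp
  | succ b hb ih =>
    rw [Finset.sum_Ioc_succ_top hb]
    have h0 : (0 : ℝ) < b := by exact_mod_cast ha.trans hb
    have h1 := Real.log_le_sub_one_of_pos (x := (b : ℝ) / (b + 1)) (by positivity)
    rw [Real.log_div h0.ne' (by positivity)] at h1
    have h2 : (b : ℝ) / (b + 1) - 1 = -(1 / (b + 1)) := by
      field_simp
      ring
    push_cast
    linarith

theorem sum_inv_iv {v w : ℝ} (h : v ≤ w) :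
    ∑ n ∈ iv v w, 1 / (n : ℝ) ≤ w - v + min 1 (Real.exp (-v)) := by
  have hm : 0 ≤ min 1 (Real.exp (-v)) := le_min zero_le_one (Real.exp_pos _).le
  unfold iv
  set a := ⌊Real.exp v⌋₊ with ha
  set b := ⌊Real.exp w⌋₊ with hb
  rcases le_or_gt b a with hab | hab
  · rw [Finset.Ioc_eq_empty (by omega), Finset.sum_empty]
    linarith
  have h1 : Real.exp v < (a + 1 : ℕ) := by
    push_cast
    exact Nat.lt_floor_add_one _
  have h0 : (0 : ℝ) < (a + 1 : ℕ) := by positivity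
  have h2 := sum_inv_Ioc (a := a + 1) (b := b) (by omega) hab
  rw [← Finset.sum_Ioc_consecutive _ (Nat.le_succ a) hab, Nat.Ioc_succ_singleton,
    Finset.sum_singleton]
  have h3 : v ≤ Real.log (a + 1 : ℕ) := ((Real.lt_log_iff_exp_lt h0).2 h1).le
  have h4 : Real.log b ≤ w := (Real.log_le_iff_le_exp (by exact_mod_cast (by omega : 0 < b))).2
    (Nat.floor_le (Real.exp_pos w).le)
  have h5 : 1 / ((a + 1 : ℕ) : ℝ) ≤ min 1 (Real.exp (-v)) := by
    refine le_min ?_ ?_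
    · rw [div_le_one h0]
      exact_mod_cast Nat.le_add_left 1 a
    · rw [Real.exp_neg, one_div]
      exact inv_anti₀ (Real.exp_pos v) h1.le
  linarith

@[fun_prop] theorem continuous_dir (c : ℕ → ℂ) (S : Finset ℕ) : Continuous (dir c S) := by
  unfold dir
  fun_prop

theorem norm_dir_le (c : ℕ → ℂ) (S : Finset ℕ) (t : ℝ) : ‖dir c S t‖ ≤ ∑ n ∈ S, ‖c n‖ := by
  unfold dir
  refine norm_sum_le_of_le _ fun n _ => ?_
  rw [norm_mul, norm_ei, mul_one]

theorem dir_add (c : ℕ → ℂ) (S : Finset ℕ) (t u : ℝ) :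
    dir c S (t + u) = dir (fun n => c n * ei (-(t * Real.log n))) S u := by
  unfold dir
  refine Finset.sum_congr rfl fun n _ => ?_
  rw [mul_assoc, ← ei_add]
  congr 2
  ring

@[fun_prop] theorem measurable_nsq : Measurable nsq := by
  unfold nsq
  fun_prop

theorem nsq_add_le (z w : ℂ) : nsq (z + w) ≤ 2 * nsq z + 2 * nsq w := by
  unfold nsq
  have h : ‖z + w‖ ^ 2 ≤ 2 * ‖z‖ ^ 2 + 2 * ‖w‖ ^ 2 := by
    have h1 := norm_add_le z w
    nlinarith [norm_nonneg (z + w), norm_nonneg z, norm_nonneg w, sq_nonneg (‖z‖ - ‖w‖)]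
  refine (ENNReal.ofReal_le_ofReal h).trans (le_of_eq ?_)
  rw [ENNReal.ofReal_add (by positivity) (by positivity), ENNReal.ofReal_mul (by norm_num),
    ENNReal.ofReal_mul (by norm_num)]
  simp

theorem nsq_mul (z w : ℂ) : nsq (z * w) = nsq z * nsq w := by
  unfold nsq
  rw [norm_mul, mul_pow, ENNReal.ofReal_mul (by positivity)]

theorem LS_mono {N : ℕ} {f g : ℕ → ℝ} (h : ∀ n, 1 ≤ n → n ≤ N → f n ≤ g n) : LS N f ≤ LS N g :=
  Finset.sum_le_sum fun n hn => div_le_div_of_nonneg_right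
    (h n (Finset.mem_Icc.1 hn).1 (Finset.mem_Icc.1 hn).2) (Nat.cast_nonneg n)

theorem LS_add (N : ℕ) (f g : ℕ → ℝ) : LS N (fun n => f n + g n) = LS N f + LS N g := by
  simp only [LS, add_div, Finset.sum_add_distrib]

theorem LS_mul (N : ℕ) (c : ℝ) (f : ℕ → ℝ) : LS N (fun n => c * f n) = c * LS N f := by
  simp only [LS, mul_div_assoc, Finset.mul_sum]

theorem LS_sum {ι : Type*} (N : ℕ) (S : Finset ι) (f : ι → ℕ → ℝ) :
    LS N (fun n => ∑ i ∈ S, f i n) = ∑ i ∈ S, LS N (f i) := by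
  simp only [LS, Finset.sum_div]
  exact Finset.sum_comm

theorem LC_add (N : ℕ) (f g : ℕ → ℂ) : LC N (fun n => f n + g n) = LC N f + LC N g := by
  simp only [LC, add_div, Finset.sum_add_distrib]

theorem LC_sub (N : ℕ) (f g : ℕ → ℂ) : LC N (fun n => f n - g n) = LC N f - LC N g := by
  simp only [LC, sub_div, Finset.sum_sub_distrib]

theorem LC_mul (N : ℕ) (c : ℂ) (f : ℕ → ℂ) : LC N (fun n => c * f n) = c * LC N f := by
  simp only [LC, mul_div_assoc, Finset.mul_sum]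

theorem LC_sum {ι : Type*} (N : ℕ) (S : Finset ι) (f : ι → ℕ → ℂ) :
    LC N (fun n => ∑ i ∈ S, f i n) = ∑ i ∈ S, LC N (f i) := by
  simp only [LC, Finset.sum_div]
  exact Finset.sum_comm

theorem LC_ofReal (N : ℕ) (f : ℕ → ℝ) : LC N (fun n => (f n : ℂ)) = (LS N f : ℝ) := by
  simp [LC, LS]

theorem norm_LC_le (N : ℕ) (f : ℕ → ℂ) : ‖LC N f‖ ≤ LS N fun n => ‖f n‖ := by
  unfold LC LS
  refine norm_sum_le_of_le _ fun n _ => ?_
  rw [norm_div, norm_natCast]

theorem LS_one_le (N : ℕ) : LS N (fun _ => 1) ≤ 1 + Real.log N := by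
  refine le_trans (le_of_eq ?_) (harmonic_le_one_add_log N)
  rw [harmonic_eq_sum_Icc]
  simp [LS]

theorem LS_nonneg {N : ℕ} {f : ℕ → ℝ} (h : ∀ n, 1 ≤ n → n ≤ N → 0 ≤ f n) : 0 ≤ LS N f := by
  have := LS_mono (N := N) (f := fun _ => 0) (g := f) h
  simpa [LS] using this

theorem LS_le {N : ℕ} {f : ℕ → ℝ} {B : ℝ} (hB : 0 ≤ B) (h : ∀ n, 1 ≤ n → n ≤ N → f n ≤ B) :
    LS N f ≤ B * (1 + Real.log N) := by
  have h1 := LS_mono (N := N) (f := f) (g := fun _ => B * 1) (by simpa using h)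
  rw [LS_mul] at h1
  exact h1.trans (mul_le_mul_of_nonneg_left (LS_one_le N) hB)

/-- Cauchy-Schwarz. -/
theorem LS_sq_le (N : ℕ) (f : ℕ → ℝ) :
    LS N f ^ 2 ≤ (1 + Real.log N) * LS N fun n => f n ^ 2 := by
  have h := Finset.sum_mul_sq_le_sq_mul_sq (Finset.Icc 1 N) (fun n : ℕ => √(1 / (n : ℝ)))
    fun n : ℕ => √(1 / (n : ℝ)) * f n
  have e : ∀ n : ℕ, √(1 / (n : ℝ)) ^ 2 = 1 / n := fun n => Real.sq_sqrt (by positivity)
  have h1 : ∑ n ∈ Finset.Icc 1 N, √(1 / (n : ℝ)) * (√(1 / (n : ℝ)) * f n) = LS N f :=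
    Finset.sum_congr rfl fun n _ => by rw [← mul_assoc, ← sq, e]; ring
  have h2 : ∑ n ∈ Finset.Icc 1 N, (√(1 / (n : ℝ)) * f n) ^ 2 = LS N fun n => f n ^ 2 :=
    Finset.sum_congr rfl fun n _ => by rw [mul_pow, e]; ring
  have h3 : ∑ n ∈ Finset.Icc 1 N, √(1 / (n : ℝ)) ^ 2 = LS N fun _ => 1 :=
    Finset.sum_congr rfl fun n _ => e n
  rw [h1, h2, h3] at h
  exact h.trans (mul_le_mul_of_nonneg_right (LS_one_le N) (LS_nonneg fun n _ _ => sq_nonneg _))

theorem LC_shift_one {f : ℕ → ℂ} {B : ℝ} (hf : ∀ n, ‖f n‖ ≤ B) (N : ℕ) :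
    ‖LC N (fun n => f (n + 1)) - LC N f‖ ≤ 3 * B := by
  have hB : 0 ≤ B := (norm_nonneg _).trans (hf 0)
  have key : ∀ M : ℕ, ‖LC (M + 1) (fun n => f (n + 1)) - LC (M + 1) f -
      f (M + 2) / (M + 1 : ℕ)‖ ≤ B * (2 - 1 / (M + 1 : ℕ)) := by
    intro M
    induction M with
    | zero =>
      have := hf 1
      simp [LC]
      linarith
    | succ M ih =>
      have e : LC (M + 1 + 1) (fun n => f (n + 1)) - LC (M + 1 + 1) f -
          f (M + 1 + 2) / (M + 1 + 1 : ℕ) = (LC (M + 1) (fun n => f (n + 1)) - LC (M + 1) f -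
          f (M + 2) / (M + 1 : ℕ)) +
            f (M + 2) * ((1 / (M + 1 : ℕ) - 1 / (M + 1 + 1 : ℕ) : ℝ) : ℂ) := by
        unfold LC
        rw [Finset.sum_Icc_succ_top (by omega), Finset.sum_Icc_succ_top (a := 1) (b := M + 1)
          (by omega)]
        push_cast
        ring
      have h0 : (0 : ℝ) ≤ 1 / (M + 1 : ℕ) - 1 / (M + 1 + 1 : ℕ) :=
        sub_nonneg.2 (one_div_le_one_div_of_le (by positivity) (by push_cast; linarith))
      rw [e]
      refine (norm_add_le _ _).trans ?_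
      rw [norm_mul, norm_real, Real.norm_of_nonneg h0]
      nlinarith [mul_le_mul_of_nonneg_right (hf (M + 2)) h0]
  rcases N with _ | M
  · simp [LC]
    linarith
  · have h1 := key M
    have h2 : ‖f (M + 2) / (M + 1 : ℕ)‖ ≤ B := by
      rw [norm_div, norm_natCast]
      exact (div_le_self (norm_nonneg _) (by push_cast; linarith [Nat.cast_nonneg (α := ℝ) M])).trans
        (hf _)
    have h3 := norm_add_le (LC (M + 1) (fun n => f (n + 1)) - LC (M + 1) f -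
      f (M + 2) / (M + 1 : ℕ)) (f (M + 2) / (M + 1 : ℕ))
    rw [sub_add_cancel] at h3
    have h4 : 0 ≤ B * (1 / ((M + 1 : ℕ) : ℝ)) := by positivity
    nlinarith

/-- Shift invariance. -/
theorem LC_shift {f : ℕ → ℂ} {B : ℝ} (hf : ∀ n, ‖f n‖ ≤ B) (N j : ℕ) :
    ‖LC N (fun n => f (n + j)) - LC N f‖ ≤ 3 * j * B := by
  induction j with
  | zero => simp
  | succ j ih =>
    have h1 := LC_shift_one (f := fun n => f (n + j)) (fun n => hf _) N
    have e : (fun n => f (n + 1 + j)) = fun n => f (n + (j + 1)) := by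
      funext n
      congr 1
      ring
    rw [e] at h1
    have h2 := norm_add_le (LC N (fun n => f (n + (j + 1))) - LC N fun n => f (n + j))
      (LC N (fun n => f (n + j)) - LC N f)
    rw [sub_add_sub_cancel] at h2
    push_cast
    linarith

theorem LS_shift {f : ℕ → ℝ} {B : ℝ} (hf : ∀ n, |f n| ≤ B) (N j : ℕ) :
    |LS N (fun n => f (n + j)) - LS N f| ≤ 3 * j * B := by
  have h := LC_shift (f := fun n => (f n : ℂ)) (fun n => by simpa using hf n) N j
  rw [LC_ofReal N fun n => f (n + j), LC_ofReal, ← ofReal_sub, norm_real] at h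
  exact h

/-- Dilation: exact form. -/
theorem LC_dvd (f : ℕ → ℂ) (N : ℕ) {d : ℕ} (hd : 1 ≤ d) :
    LC N (fun n => if d ∣ n then f n else 0) = LC (N / d) (fun m => f (d * m)) / d := by
  have h := Pool.Agent.MP_57adf2_an.H72.sum_Ioc_div (fun n => f n / n) N hd
  unfold LC
  rw [Finset.sum_div]
  have e : ∀ M : ℕ, Finset.Icc 1 M = Finset.Ioc 0 M := fun M => rfl
  rw [e, e]
  calc _ = ∑ n ∈ Finset.Ioc 0 N, if d ∣ n then f n / n else 0 :=
        Finset.sum_congr rfl fun n _ => by by_cases hn : d ∣ n <;> simp [hn]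
    _ = _ := by
        rw [← h]
        refine Finset.sum_congr rfl fun n _ => ?_
        push_cast
        rw [div_div, mul_comm (n : ℂ)]

theorem LC_div {f : ℕ → ℂ} {B : ℝ} (hf : ∀ n, ‖f n‖ ≤ B) (N : ℕ) {d : ℕ} (hd : 1 ≤ d) :
    ‖LC N f - LC (N / d) f‖ ≤ B * d := by
  have hB : 0 ≤ B := (norm_nonneg _).trans (hf 0)
  have e : ∀ M : ℕ, Finset.Icc 1 M = Finset.Ioc 0 M := fun M => rfl
  unfold LC
  rw [e, e, ← Finset.sum_Ioc_consecutive _ (Nat.zero_le (N / d)) (Nat.div_le_self N d),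
    add_sub_cancel_left]
  have h1 : ∀ n ∈ Finset.Ioc (N / d) N, ‖f n / n‖ ≤ B / (N / d + 1 : ℕ) := fun n hn => by
    rw [norm_div, norm_natCast]
    exact div_le_div₀ hB (hf n) (by positivity) (by exact_mod_cast (Finset.mem_Ioc.1 hn).1)
  refine (norm_sum_le _ _).trans ((Finset.sum_le_card_nsmul _ _ _ h1).trans ?_)
  rw [nsmul_eq_mul, Nat.card_Ioc, mul_div_assoc', div_le_iff₀ (by positivity), mul_comm _ B,
    mul_assoc]
  refine mul_le_mul_of_nonneg_left ?_ hB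
  have h2 : N - N / d ≤ d * (N / d + 1) := (Nat.sub_le _ _).trans (Nat.lt_mul_div_succ N hd).le
  exact_mod_cast h2

/-- Dilation invariance. -/
theorem LC_dil {f : ℕ → ℂ} {B : ℝ} (hf : ∀ n, ‖f n‖ ≤ B) (N : ℕ) {d : ℕ} (hd : 1 ≤ d) :
    ‖LC N (fun n => if d ∣ n then f n else 0) - LC N (fun m => f (d * m)) / d‖ ≤ B := by
  have h0 : (0 : ℝ) < d := by exact_mod_cast hd
  rw [LC_dvd f N hd, ← sub_div, norm_div, norm_natCast, div_le_iff₀ h0, norm_sub_rev]
  exact LC_div (fun n => hf _) N hd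

theorem om_eq (B : Finset ℕ) (n : ℕ) : om B n = ∑ p ∈ B, if p ∣ n then (1 : ℝ) else 0 := by
  unfold om
  rw [Finset.sum_boole]

/-- The Turan-Kubilius inequality. -/
theorem tk (B : Finset ℕ) (hB : ∀ p ∈ B, p.Prime) (hL : 0 < rcp B) (M : ℕ) :
    ∑ n ∈ Finset.Ioc 0 M, (om B n / rcp B - 1) ^ 2 ≤ (M + 2 * B.card) / rcp B := by
  have h := Pool.Agent.MP_57adf2_an.H72.variance_le B hB M
  have e : ∑ p ∈ B, (p : ℝ)⁻¹ = rcp B := by simp [rcp]
  rw [e] at h
  have h1 : ∑ n ∈ Finset.Ioc 0 M, (om B n / rcp B - 1) ^ 2 =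
      (∑ n ∈ Finset.Ioc 0 M, ((∑ p ∈ B, if p ∣ n then (1 : ℝ) else 0) - rcp B) ^ 2) /
        rcp B ^ 2 := by
    rw [Finset.sum_div]
    refine Finset.sum_congr rfl fun n _ => ?_
    rw [om_eq]
    field_simp
  rw [h1, div_le_div_iff₀ (by positivity) hL]
  nlinarith

/-- The Turan-Kubilius inequality on `(e^v, e^(v+1)]`. -/
theorem tk_iv (B : Finset ℕ) (hB : ∀ p ∈ B, p.Prime) (hL : 0 < rcp B) {v : ℝ}
    (hv : (B.card : ℝ) ≤ Real.exp v) :
    ∑ n ∈ iv v (v + 1), (om B n / rcp B - 1) ^ 2 / n ≤ 5 / rcp B := by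
  have h := tk B hB hL ⌊Real.exp (v + 1)⌋₊
  have hv0 := Real.exp_pos v
  have h1 : ∑ n ∈ iv v (v + 1), (om B n / rcp B - 1) ^ 2 / n ≤
      (∑ n ∈ Finset.Ioc 0 ⌊Real.exp (v + 1)⌋₊, (om B n / rcp B - 1) ^ 2) / Real.exp v := by
    rw [Finset.sum_div]
    refine (Finset.sum_le_sum fun n hn => ?_).trans (Finset.sum_le_sum_of_subset_of_nonneg
      (Finset.Ioc_subset_Ioc_left (Nat.zero_le _)) fun n _ _ => by positivity)
    exact div_le_div_of_nonneg_left (sq_nonneg _) hv0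
      ((Nat.floor_lt hv0.le).1 (Finset.mem_Ioc.1 hn).1).le
  have h2 : (⌊Real.exp (v + 1)⌋₊ : ℝ) ≤ 3 * Real.exp v := by
    refine (Nat.floor_le (Real.exp_pos _).le).trans ?_
    rw [Real.exp_add]
    nlinarith [Real.exp_one_lt_d9]
  refine h1.trans ((div_le_div_of_nonneg_right h hv0.le).trans ?_)
  rw [div_div, div_le_div_iff₀ (by positivity) hL]
  nlinarith

/-- The Turan-Kubilius inequality on `(e^v, e^w]`. -/
theorem tk_long (B : Finset ℕ) (hB : ∀ p ∈ B, p.Prime) (hL : 0 < rcp B) {v w : ℝ}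
    (hv : (B.card : ℝ) ≤ Real.exp v) (hw : v ≤ w) :
    ∑ n ∈ iv v w, (om B n / rcp B - 1) ^ 2 / n ≤ 5 * (w - v + 1) / rcp B := by
  have key : ∀ k : ℕ, ∑ n ∈ iv v (v + k), (om B n / rcp B - 1) ^ 2 / n ≤ 5 * k / rcp B := by
    intro k
    induction k with
    | zero => simp [iv]
    | succ k ih =>
      have h1 := tk_iv B hB hL (v := v + k)
        (hv.trans (Real.exp_le_exp.2 (le_add_of_nonneg_right (Nat.cast_nonneg k))))
      have h2 : ∑ n ∈ iv v (v + (k + 1 : ℕ)), (om B n / rcp B - 1) ^ 2 / n =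
          ∑ n ∈ iv v (v + k), (om B n / rcp B - 1) ^ 2 / n +
            ∑ n ∈ iv (v + k) (v + k + 1), (om B n / rcp B - 1) ^ 2 / n := by
        unfold iv
        rw [Finset.sum_Ioc_consecutive _
          (Nat.floor_le_floor (Real.exp_le_exp.2 (le_add_of_nonneg_right (Nat.cast_nonneg k))))
          (Nat.floor_le_floor (Real.exp_le_exp.2 (le_add_of_nonneg_right zero_le_one)))]
        push_cast
        rw [add_assoc]
      rw [h2]
      have h3 : 5 * ((k + 1 : ℕ) : ℝ) / rcp B = 5 * k / rcp B + 5 / rcp B := by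
        push_cast
        ring
      linarith
  have h1 := Nat.le_ceil (w - v)
  have h2 := Nat.ceil_lt_add_one (sub_nonneg.2 hw)
  refine (Finset.sum_le_sum_of_subset_of_nonneg (Finset.Ioc_subset_Ioc_right
    (Nat.floor_le_floor (Real.exp_le_exp.2 (by linarith : w ≤ v + (⌈w - v⌉₊ : ℕ)))))
    fun n _ _ => by positivity).trans ((key ⌈w - v⌉₊).trans ?_)
  gcongr

end Pool.Agent.MP_ca0a54_nt.BH
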