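import Pool.Agent.MP_ca0a54_nt.BH.Basic

/-! The logarithmic two point Chowla bound with slowly varying weights. -/

open Complex MeasureTheory Filter Topology

namespace Pool.Agent.MP_ca0a54_nt.BH.CH

/-- The summand of the entropy functional. -/
def GG (P : Finset ℕ) (h n : ℕ) : ℝ :=
  ∑ p ∈ P, ((if p ∣ n then (p : ℝ) else 0) - 1) * (lam n * lam (n + p * h))

theorem abs_lam_mul (a b : ℕ) : |lam a * lam b| ≤ 1 := by
  rw [abs_mul]
  exact mul_le_one₀ (abs_lam_le a) (abs_nonneg _) (abs_lam_le b)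

theorem abs_GG (P : Finset ℕ) (h n : ℕ) : |GG P h n| ≤ ∑ p ∈ P, ((p : ℝ) + 1) := by
  unfold GG
  refine (Finset.abs_sum_le_sum_abs _ _).trans (Finset.sum_le_sum fun p _ => ?_)
  rw [abs_mul]
  have h0 : (0 : ℝ) ≤ p := Nat.cast_nonneg p
  have h1 : |(if p ∣ n then (p : ℝ) else 0) - 1| ≤ p + 1 := by
    split_ifs <;> rw [abs_le] <;> constructor <;> linarith
  exact (mul_le_mul h1 (abs_lam_mul _ _) (abs_nonneg _) (by linarith)).trans (by rw [mul_one])

theorem FA_eq (P : Finset ℕ) (h H n : ℕ) :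
    FA (fun j => lam (n + j)) n P h H = ∑ j ∈ Finset.range H, GG P h (n + j) := by
  unfold FA GG
  rw [Finset.sum_comm]
  refine Finset.sum_congr rfl fun j _ => Finset.sum_congr rfl fun p _ => ?_
  rw [add_assoc]

theorem log_div_le (N d : ℕ) : Real.log (N / d : ℕ) ≤ Real.log N := by
  rcases Nat.eq_zero_or_pos (N / d) with h | h
  · rw [h]
    simpa using Real.log_natCast_nonneg N
  · exact Real.log_le_log (by exact_mod_cast h) (by exact_mod_cast Nat.div_le_self N d)

theorem norm_mul_real_le {z : ℂ} {r A B : ℝ} (hz : ‖z‖ ≤ A) (hr : |r| ≤ B) :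
    ‖z * (r : ℂ)‖ ≤ A * B := by
  rw [norm_mul, norm_real, Real.norm_eq_abs]
  exact mul_le_mul hz hr (abs_nonneg _) ((norm_nonneg _).trans hz)

/-- One prime. -/
theorem stepA {u : ℝ → ℂ} {Λ η x : ℝ} (hΛ : 0 ≤ Λ) (hη : 0 ≤ η) (hx : 0 < x)
    (hu : ∀ v, ‖u v‖ ≤ 1) (hL : ∀ v w, ‖u v - u w‖ ≤ Λ * |v - w|) (h N : ℕ) {p : ℕ}
    (hp : p.Prime) (h1 : x < p) (h2 : (p : ℝ) ≤ (1 + η) * x) :
    ‖LC N (fun n => u (Real.log n) * (lam n * lam (n + h) : ℝ)) -
      p * LC N (fun n => if p ∣ n then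
        u (Real.log n - Real.log x) * (lam n * lam (n + p * h) : ℝ) else 0)‖ ≤
      p + Λ * η * (1 + Real.log N) := by
  have hp0 : (0 : ℝ) < p := by exact_mod_cast hp.pos
  have hpc : (p : ℂ) ≠ 0 := by exact_mod_cast hp.ne_zero
  rw [LC_dvd _ N hp.one_le, mul_div_cancel₀ _ hpc]
  have hA := LC_div (f := fun n => u (Real.log n) * (lam n * lam (n + h) : ℝ)) (B := 1)
    (fun n => (norm_mul_real_le (hu _) (abs_lam_mul _ _)).trans (by rw [mul_one])) N hp.one_le
  have hlog : |Real.log p - Real.log x| ≤ η := by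
    have a1 : Real.log x ≤ Real.log p := Real.log_le_log hx h1.le
    have a2 : Real.log p ≤ Real.log ((1 + η) * x) := Real.log_le_log hp0 h2
    rw [Real.log_mul (by linarith) hx.ne'] at a2
    have a3 := Real.log_le_sub_one_of_pos (x := 1 + η) (by linarith)
    rw [abs_le]
    constructor <;> linarith
  have hB : ‖LC (N / p) (fun n => u (Real.log n) * (lam n * lam (n + h) : ℝ)) -
      LC (N / p) (fun m => u (Real.log (p * m : ℕ) - Real.log x) *
        (lam (p * m) * lam (p * m + p * h) : ℝ))‖ ≤ Λ * η * (1 + Real.log N) := by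
    rw [← LC_sub]
    refine (norm_LC_le _ _).trans ((LS_le (B := Λ * η) (by positivity) fun m hm _ => ?_).trans ?_)
    · have hm0 : (0 : ℝ) < m := by exact_mod_cast hm
      have e1 : lam (p * m) * lam (p * m + p * h) = lam m * lam (m + h) := by
        rw [← mul_add, lam_mul, lam_mul, lam_prime hp]
        ring
      have e2 : Real.log (p * m : ℕ) = Real.log p + Real.log m := by
        push_cast
        exact Real.log_mul hp0.ne' hm0.ne'
      rw [e1, e2, ← sub_mul]
      refine (norm_mul_real_le (hL _ _) (abs_lam_mul _ _)).trans ?_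
      rw [mul_one]
      refine mul_le_mul_of_nonneg_left ?_ hΛ
      rw [abs_sub_comm, show Real.log p + Real.log m - Real.log x - Real.log m =
        Real.log p - Real.log x by ring]
      exact hlog
    · have := log_div_le N p
      gcongr
  have h3 := norm_add_le (LC N (fun n => u (Real.log n) * (lam n * lam (n + h) : ℝ)) -
    LC (N / p) (fun n => u (Real.log n) * (lam n * lam (n + h) : ℝ)))
    (LC (N / p) (fun n => u (Real.log n) * (lam n * lam (n + h) : ℝ)) -
      LC (N / p) (fun m => u (Real.log (p * m : ℕ) - Real.log x) *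
        (lam (p * m) * lam (p * m + p * h) : ℝ)))
  rw [sub_add_sub_cancel] at h3
  linarith

/-- Summing over the primes. -/
theorem stepB (v : ℕ → ℂ) (P : Finset ℕ) (h N : ℕ) :
    ∑ p ∈ P, (p : ℂ) * LC N (fun n => if p ∣ n then v n * (lam n * lam (n + p * h) : ℝ) else 0) =
      LC N (fun n => v n * (GG P h n : ℝ)) +
        LC N (fun n => v n * (lam n * ∑ p ∈ P, lam (n + p * h) : ℝ)) := by
  rw [← LC_add]
  simp only [← LC_mul]
  rw [← LC_sum]
  congr 1
  funext n
  unfold GG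
  rw [← mul_add, ← ofReal_add, Finset.mul_sum, ← Finset.sum_add_distrib, ofReal_sum,
    Finset.mul_sum]
  refine Finset.sum_congr rfl fun p _ => ?_
  split_ifs <;> push_cast <;> ring

theorem LS_inv_le (N : ℕ) : LS N (fun n => 1 / (n : ℝ)) ≤ 2 := by
  have key : ∀ M : ℕ, LS (M + 1) (fun n => 1 / (n : ℝ)) ≤ 2 - 1 / (M + 1 : ℝ) := by
    intro M
    induction M with
    | zero => norm_num [LS]
    | succ M ih =>
      unfold LS at ih ⊢
      rw [Finset.sum_Icc_succ_top (by omega)]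
      have h0 : (0 : ℝ) < M + 1 := by positivity
      have h1 : 1 / ((M + 1 + 1 : ℕ) : ℝ) / ((M + 1 + 1 : ℕ) : ℝ) ≤
          1 / (M + 1 : ℝ) - 1 / (((M + 1 : ℕ) : ℝ) + 1) := by
        push_cast
        rw [div_sub_div _ _ h0.ne' (by positivity), div_div, div_le_div_iff₀ (by positivity)
          (by positivity)]
        nlinarith
      linarith
  rcases N with _ | M
  · simp [LS]
  · have h1 := key M
    have h2 : (0 : ℝ) ≤ 1 / (M + 1 : ℝ) := by positivity
    linarith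

/-- Averaging over shifts. -/
theorem stepC {v : ℕ → ℂ} {Λ B : ℝ} {g : ℕ → ℝ} (hΛ : 0 ≤ Λ) (hv : ∀ n, ‖v n‖ ≤ 1)
    (hL : ∀ n j : ℕ, 1 ≤ n → ‖v (n + j) - v n‖ ≤ Λ * (j / n)) (hg : ∀ n, |g n| ≤ B)
    (H N : ℕ) :
    H * ‖LC N (fun n => v n * (g n : ℝ))‖ ≤
      LS N (fun n => |∑ j ∈ Finset.range H, g (n + j)|) + H * ((3 + 2 * Λ) * H * B) := by
  have hB : 0 ≤ B := (abs_nonneg _).trans (hg 0)
  have h1 : ∀ j ∈ Finset.range H, ‖LC N (fun n => v n * (g n : ℝ)) -
      LC N (fun n => v n * (g (n + j) : ℝ))‖ ≤ (3 + 2 * Λ) * H * B := by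
    intro j hj
    have hjH : (j : ℝ) ≤ H := by exact_mod_cast (Finset.mem_range.1 hj).le
    have a1 := LC_shift (f := fun n => v n * (g n : ℝ)) (B := B)
      (fun n => (norm_mul_real_le (hv n) (hg n)).trans (by rw [one_mul])) N j
    have a2 : ‖LC N (fun n => v (n + j) * (g (n + j) : ℝ)) -
        LC N (fun n => v n * (g (n + j) : ℝ))‖ ≤ Λ * j * B * 2 := by
      rw [← LC_sub]
      refine (norm_LC_le _ _).trans ((LS_mono (g := fun n => Λ * j * B * (1 / (n : ℝ)))
        fun n hn _ => ?_).trans ?_)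
      · rw [← sub_mul]
        refine (norm_mul_real_le (hL n j hn) (hg _)).trans (le_of_eq ?_)
        ring
      · rw [LS_mul]
        exact mul_le_mul_of_nonneg_left (LS_inv_le N) (by positivity)
    have a3 := norm_sub_le (LC N (fun n => v (n + j) * (g (n + j) : ℝ)) -
      LC N (fun n => v n * (g (n + j) : ℝ)))
      (LC N (fun n => v (n + j) * (g (n + j) : ℝ)) - LC N (fun n => v n * (g n : ℝ)))
    rw [sub_sub_sub_cancel_left] at a3
    have a4 : (3 + 2 * Λ) * j * B ≤ (3 + 2 * Λ) * H * B := by gcongr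
    nlinarith
  have h2 : (H : ℂ) * LC N (fun n => v n * (g n : ℝ)) =
      LC N (fun n => v n * (∑ j ∈ Finset.range H, g (n + j) : ℝ)) +
        ∑ j ∈ Finset.range H, (LC N (fun n => v n * (g n : ℝ)) -
          LC N (fun n => v n * (g (n + j) : ℝ))) := by
    rw [Finset.sum_sub_distrib, ← LC_sum (f := fun j n => v n * (g (n + j) : ℝ)),
      Finset.sum_const, Finset.card_range, nsmul_eq_mul]
    simp only [ofReal_sum, Finset.mul_sum]
    ring
  have h3 : ‖LC N (fun n => v n * (∑ j ∈ Finset.range H, g (n + j) : ℝ))‖ ≤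
      LS N (fun n => |∑ j ∈ Finset.range H, g (n + j)|) :=
    (norm_LC_le _ _).trans (LS_mono fun n _ _ =>
      (norm_mul_real_le (hv n) le_rfl).trans (by rw [one_mul]))
  have h4 := (norm_sum_le _ _).trans (Finset.sum_le_card_nsmul _ _ _ h1)
  rw [Finset.card_range, nsmul_eq_mul] at h4
  have h5 := congrArg norm h2
  rw [norm_mul, Complex.norm_natCast] at h5
  rw [h5]
  exact (norm_add_le _ _).trans (add_le_add h3 h4)

theorem log_shift (n j : ℕ) (hn : 1 ≤ n) :
    |Real.log (n + j : ℕ) - Real.log n| ≤ j / n := by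
  have hn0 : (0 : ℝ) < n := by exact_mod_cast hn
  have hj : (0 : ℝ) ≤ j := Nat.cast_nonneg j
  push_cast
  have a1 : Real.log n ≤ Real.log (n + j) := Real.log_le_log hn0 (by linarith)
  have a2 := Real.log_le_sub_one_of_pos (x := (n + j) / n) (by positivity)
  rw [Real.log_div (by positivity) hn0.ne', add_div, div_self hn0.ne'] at a2
  rw [abs_of_nonneg (by linarith)]
  linarith

/-- The estimate for one admissible set of primes. -/
theorem main {Λ η ε x : ℝ} (hΛ : 0 ≤ Λ) (hη : 0 ≤ η) (hε : 0 < ε) (hx : 0 < x)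
    (hΛη : Λ * η ≤ ε / 8) (h : ℕ) {H : ℕ} (hH : 1 ≤ H) {P : Finset ℕ} (hP : 1 ≤ P.card)
    (hp : ∀ p ∈ P, p.Prime ∧ x < p ∧ (p : ℝ) ≤ (1 + η) * x) :
    ∀ᶠ N : ℕ in atTop,
      LS N (fun n => (∑ p ∈ P, lam (n + p * h)) ^ 2) ≤
        ε ^ 2 / 32 * (P.card : ℝ) ^ 2 * Real.log N →
      LS N (fun n => |FA (fun j => lam (n + j)) n P h H|) ≤ ε / 4 * P.card * H * Real.log N →
      ∀ u : ℝ → ℂ, (∀ v, ‖u v‖ ≤ 1) → (∀ v w, ‖u v - u w‖ ≤ Λ * |v - w|) →
      ‖LC N fun n => u (Real.log n) * (lam n * lam (n + h) : ℝ)‖ ≤ ε * Real.log N := by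
  set B : ℝ := ∑ p ∈ P, ((p : ℝ) + 1) with hBdef
  set K : ℝ := (∑ p ∈ P, (p : ℝ)) + (3 + 2 * Λ) * H * B with hK
  have hT : Tendsto (fun N : ℕ => Real.log N) atTop atTop :=
    Real.tendsto_log_atTop.comp tendsto_natCast_atTop_atTop
  filter_upwards [hT.eventually_ge_atTop 1, hT.eventually_ge_atTop (4 * K / ε)] with N hN1 hNK
  intro hA hE u hu hL
  have hH0 : (0 : ℝ) < H := by exact_mod_cast hH
  have hP0 : (1 : ℝ) ≤ P.card := by exact_mod_cast hP
  set L := Real.log N with hLdef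
  set v : ℕ → ℂ := fun n => u (Real.log n - Real.log x) with hv
  set S := LC N fun n => u (Real.log n) * (lam n * lam (n + h) : ℝ) with hS
  have a1 : ‖∑ p ∈ P, (S - p * LC N (fun n => if p ∣ n then
      v n * (lam n * lam (n + p * h) : ℝ) else 0))‖ ≤
      ∑ p ∈ P, ((p : ℝ) + Λ * η * (1 + L)) :=
    norm_sum_le_of_le _ fun p hpP =>
      stepA hΛ hη hx hu hL h N (hp p hpP).1 (hp p hpP).2.1 (hp p hpP).2.2
  rw [Finset.sum_sub_distrib, stepB, Finset.sum_add_distrib, Finset.sum_const, Finset.sum_const,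
    nsmul_eq_mul, nsmul_eq_mul] at a1
  have a2 := stepC (v := v) (Λ := Λ) (B := B) (g := GG P h) hΛ (fun n => hu _)
    (fun n j hn => (hL _ _).trans (mul_le_mul_of_nonneg_left (by
      rw [sub_sub_sub_cancel_right]
      exact log_shift n j hn) hΛ)) (abs_GG P h) H N
  simp only [← FA_eq] at a2
  have a3 : ‖LC N (fun n => v n * (GG P h n : ℝ))‖ ≤
      ε / 4 * P.card * L + (3 + 2 * Λ) * H * B := by
    refine le_of_mul_le_mul_left (a2.trans ?_) hH0
    nlinarith
  have a4 : ‖LC N (fun n => v n * (lam n * ∑ p ∈ P, lam (n + p * h) : ℝ))‖ ≤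
      ε / 4 * P.card * L := by
    have b1 : ‖LC N (fun n => v n * (lam n * ∑ p ∈ P, lam (n + p * h) : ℝ))‖ ≤
        LS N (fun n => |∑ p ∈ P, lam (n + p * h)|) := by
      refine (norm_LC_le _ _).trans (LS_mono fun n _ _ => ?_)
      refine (norm_mul_real_le (hu _) le_rfl).trans ?_
      rw [one_mul, abs_mul]
      exact mul_le_of_le_one_left (abs_nonneg _) (abs_lam_le n)
    have b2 := LS_sq_le N (fun n => |∑ p ∈ P, lam (n + p * h)|)
    simp only [sq_abs] at b2
    refine b1.trans ((pow_le_pow_iff_left₀ (LS_nonneg fun n _ _ => abs_nonneg _) (by positivity)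
      two_ne_zero).1 ?_)
    refine b2.trans ((mul_le_mul_of_nonneg_left hA (by linarith)).trans ?_)
    have b3 : 0 ≤ ε ^ 2 / 32 * (P.card : ℝ) ^ 2 * L := by positivity
    calc _ ≤ (2 * L) * (ε ^ 2 / 32 * (P.card : ℝ) ^ 2 * L) :=
          mul_le_mul_of_nonneg_right (by linarith) b3
      _ = _ := by ring
  have a5 : K ≤ ε / 4 * P.card * L := by
    rw [div_le_iff₀ hε] at hNK
    have : ε / 4 * 1 * L ≤ ε / 4 * P.card * L := by gcongr
    linarith
  have a6 : P.card * (Λ * η * (1 + L)) ≤ ε / 4 * P.card * L := by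
    have : Λ * η * (1 + L) ≤ ε / 8 * (2 * L) :=
      mul_le_mul hΛη (by linarith) (by linarith) (by positivity)
    calc _ ≤ P.card * (ε / 8 * (2 * L)) := by gcongr
      _ = _ := by ring
  have a7 := norm_add_le ((P.card : ℂ) * S - (LC N (fun n => v n * (GG P h n : ℝ)) +
    LC N (fun n => v n * (lam n * ∑ p ∈ P, lam (n + p * h) : ℝ))))
    (LC N (fun n => v n * (GG P h n : ℝ)) +
      LC N (fun n => v n * (lam n * ∑ p ∈ P, lam (n + p * h) : ℝ)))
  rw [sub_add_cancel, norm_mul, Complex.norm_natCast] at a7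
  have a8 := norm_add_le (LC N (fun n => v n * (GG P h n : ℝ)))
    (LC N (fun n => v n * (lam n * ∑ p ∈ P, lam (n + p * h) : ℝ)))
  refine le_of_mul_le_mul_left (a := (P.card : ℝ)) ?_ (by linarith)
  linarith

theorem div_log_le {W : ℝ} {x : ℕ} (hW : 256 ≤ W) (h1 : W / 16 ≤ x) (h2 : (x : ℝ) ≤ W) :
    x / Real.log x ≤ 2 * (W / Real.log W) := by
  have h0 : 0 < Real.log W := Real.log_pos (by linarith)
  have hx : (0 : ℝ) < x := by linarith
  have h3 : Real.log W ≤ 2 * Real.log x := by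
    have : Real.log W ≤ Real.log ((x : ℝ) ^ 2) := Real.log_le_log (by linarith) (by nlinarith)
    rw [Real.log_pow] at this
    exact_mod_cast this
  rw [← mul_div_assoc, div_le_div_iff₀ (by linarith) h0]
  nlinarith

theorem ch : EntStmt → AvgStmt → PsStmt → ChStmt := by
  intro hEnt hAvg hPs h Λ ε hh hΛ hε
  set η : ℝ := min 1 (ε / (8 * (Λ + 1))) with hηdef
  have hη : 0 < η := lt_min one_pos (by positivity)
  have hη1 : η ≤ 1 := min_le_left _ _
  have hΛη : Λ * η ≤ ε / 8 := by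
    have h1 : η ≤ ε / (8 * (Λ + 1)) := min_le_right _ _
    rw [le_div_iff₀ (by positivity)] at h1
    nlinarith
  obtain ⟨c, hc, hW⟩ := hPs η hη hη1
  have hh0 : (0 : ℝ) < h := by exact_mod_cast hh
  have hh1 : (1 : ℝ) ≤ h := by exact_mod_cast hh
  have hT : Tendsto (fun H : ℕ => (H : ℝ) / h) atTop atTop :=
    tendsto_natCast_atTop_atTop.atTop_div_const hh0
  have hW' : ∀ᶠ H : ℕ in atTop, ∃ y : ℝ × Finset ℕ, (H : ℝ) / h / 8 ≤ y.1 ∧
      (1 + η) * y.1 ≤ (H : ℝ) / h ∧
      (∀ p ∈ y.2, p.Prime ∧ y.1 < p ∧ (p : ℝ) ≤ (1 + η) * y.1) ∧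
      c * ((H : ℝ) / h) / Real.log ((H : ℝ) / h) ≤ y.2.card := by
    filter_upwards [hT.eventually hW] with H hH
    obtain ⟨x, P, hx⟩ := hH
    exact ⟨(x, P), hx⟩
  obtain ⟨y, hy⟩ := hW'.choice
  have hAdm : Adm h (c / h) fun H => (y H).2 := by
    filter_upwards [hy, hT.eventually_ge_atTop 2] with H hH h2
    refine ⟨fun p hp => ⟨(hH.2.2.1 p hp).1, ?_⟩, le_trans ?_ hH.2.2.2⟩
    · have h3 := (hH.2.2.1 p hp).2.2.trans hH.2.1
      rw [le_div_iff₀ hh0] at h3
      exact_mod_cast h3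
    · have h3 : (H : ℝ) / h ≤ H := div_le_self (Nat.cast_nonneg H) hh1
      have h4 : 0 < Real.log ((H : ℝ) / h) := Real.log_pos (by linarith)
      have h5 : Real.log ((H : ℝ) / h) ≤ Real.log H := Real.log_le_log (by linarith) h3
      rw [show c / h * H = c * ((H : ℝ) / h) by ring]
      exact div_le_div_of_nonneg_left (by positivity) h4 h5
  obtain ⟨X, hX⟩ := eventually_atTop.1 (hAvg h (c / 2) (ε ^ 2 / 32) hh (by positivity)
    (by positivity))
  have hgood : ∀ᶠ H : ℕ in atTop, ∀ᶠ N : ℕ in atTop,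
      LS N (fun n => |FA (fun j => lam (n + j)) n (y H).2 h H|) ≤
        ε / 4 * (y H).2.card * H * Real.log N →
      ∀ u : ℝ → ℂ, (∀ v, ‖u v‖ ≤ 1) → (∀ v w, ‖u v - u w‖ ≤ Λ * |v - w|) →
      ‖LC N fun n => u (Real.log n) * (lam n * lam (n + h) : ℝ)‖ ≤ ε * Real.log N := by
    filter_upwards [hy, hT.eventually_ge_atTop 256, hT.eventually_ge_atTop (8 * X),
      eventually_ge_atTop 1] with H hH h2 h3 h4
    obtain ⟨a1, a2, a3, a4⟩ := hH
    set W : ℝ := (H : ℝ) / h with hWdef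
    have hx0 : 0 < (y H).1 := by linarith
    have hf := Nat.floor_le hx0.le
    have hf' := Nat.lt_floor_add_one (y H).1
    have hxW : (y H).1 ≤ W := by nlinarith
    have hcard : 1 ≤ (y H).2.card := by
      have h5 : 0 < Real.log W := Real.log_pos (by linarith)
      have h6 : (0 : ℝ) < (y H).2.card := lt_of_lt_of_le (by positivity) a4
      exact_mod_cast h6
    have b1 := hX ⌊(y H).1⌋₊ (Nat.le_floor (by linarith))
    filter_upwards [b1, main hΛ hη.le hε hx0 hΛη h h4 hcard a3] with N hN1 hN2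
    refine hN2 (hN1 _ (fun p hp => ⟨(a3 p hp).1, ?_, ?_⟩) ?_)
    · exact_mod_cast hf.trans_lt (a3 p hp).2.1
    · have h5 : (p : ℝ) ≤ 3 * (⌊(y H).1⌋₊ : ℝ) := by
        have := (a3 p hp).2.2
        nlinarith
      exact_mod_cast h5
    · have h5 := div_log_le (x := ⌊(y H).1⌋₊) h2 (by linarith) (hf.trans hxW)
      refine le_trans ?_ a4
      rw [mul_div_assoc, mul_div_assoc]
      nlinarith
  obtain ⟨H₀, hH₀⟩ := eventually_atTop.1 hgood
  obtain ⟨G, hG, hN⟩ := hEnt h H₀ (c / h) (ε / 4) (fun H => (y H).2) hh (by positivity)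
    (by positivity) hAdm
  filter_upwards [hN, (eventually_all_finset G).2 fun H hH => hH₀ H (hG H hH)] with N h1 h2
  obtain ⟨H, hH, h3⟩ := h1
  exact h2 H hH h3

end Pool.Agent.MP_ca0a54_nt.BH.CH
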