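import Pool.Agent.MP_ca0a54_nt.BH.Basic

/-!
The chain of prime ranges.
-/

open Complex MeasureTheory Filter Topology

namespace Pool.Agent.MP_ca0a54_nt.BH.CHAIN

/-- The parameters of the stages. -/
def AA (a : ℝ) : ℕ → ℝ
  | 0 => a
  | j + 1 => AA a j ^ 2

theorem AA_ge {a : ℝ} (ha : 2 ≤ a) (j : ℕ) : 2 ^ j * a ≤ AA a j := by
  induction j with
  | zero => simp [AA]
  | succ j ih =>
    have h1 : (1 : ℝ) ≤ 2 ^ j := one_le_pow₀ (by norm_num)
    have h2 : 2 ≤ AA a j := by nlinarith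
    rw [AA, pow_succ 2 j]
    nlinarith

theorem le_AA {a : ℝ} (ha : 2 ≤ a) (j : ℕ) : a ≤ AA a j := by
  have h1 : (1 : ℝ) ≤ 2 ^ j := one_le_pow₀ (by norm_num)
  have := AA_ge ha j
  nlinarith

theorem AA_mono {a : ℝ} (ha : 2 ≤ a) : Monotone (AA a) :=
  monotone_nat_of_le_succ fun j => by
    have := le_AA ha j
    rw [AA]
    nlinarith

theorem log_AA (a : ℝ) (j : ℕ) : Real.log (AA a j) = 2 ^ j * Real.log a := by
  induction j with
  | zero => simp [AA]
  | succ j ih =>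
    rw [AA, Real.log_pow, ih]
    push_cast
    ring

theorem meas_Sml (g : ℕ → ℂ) (a α : ℝ) : MeasurableSet (Sml g a α) := by
  have h : Sml g a α = ⋂ b : ℕ, {t | ‖QB g a b t‖ ≤ Real.exp (-α * (b / a))} := by
    ext t
    simp [Sml]
  rw [h]
  refine MeasurableSet.iInter fun b => (isClosed_le ?_ continuous_const).measurableSet
  unfold QB
  fun_prop

theorem meas_Bil (g : ℕ → ℂ) (a v : ℝ) : Measurable fun t => nsq (Bil g a v t) := by
  have h : Continuous fun t => ‖Bil g a v t‖ ^ 2 := by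
    unfold Bil QB FF
    fun_prop
  exact h.measurable.ennreal_ofReal

theorem piece {g : ℕ → ℂ} {a v L B D : ℝ} {W I : Set ℝ} (hW : W ⊆ I) (hL : 1 ≤ L) (hB : 0 ≤ B)
    (hD : 0 ≤ D)
    (h1 : ∫⁻ t in I, nsq (FF g v t - (L⁻¹ : ℝ) * Bil g a v t) ≤ ENNReal.ofReal D)
    (h2 : ∫⁻ t in W, nsq (Bil g a v t) ≤ ENNReal.ofReal B) :
    ∫⁻ t in W, nsq (FF g v t) ≤ ENNReal.ofReal (2 * D + 2 * B) := by
  have hp : ∀ t, nsq (FF g v t) ≤
      2 * nsq (FF g v t - (L⁻¹ : ℝ) * Bil g a v t) + 2 * nsq (Bil g a v t) := fun t => by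
    have h3 := nsq_add_le (FF g v t - (L⁻¹ : ℝ) * Bil g a v t) ((L⁻¹ : ℝ) * Bil g a v t)
    rw [sub_add_cancel] at h3
    refine h3.trans ?_
    gcongr
    refine ENNReal.ofReal_le_ofReal ?_
    rw [norm_mul, norm_real, Real.norm_eq_abs, abs_of_nonneg (by positivity)]
    gcongr
    exact mul_le_of_le_one_left (norm_nonneg _) (inv_le_one_of_one_le₀ hL)
  calc ∫⁻ t in W, nsq (FF g v t)
      ≤ ∫⁻ t in W, 2 * nsq (FF g v t - (L⁻¹ : ℝ) * Bil g a v t) + 2 * nsq (Bil g a v t) :=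
        lintegral_mono hp
    _ = 2 * (∫⁻ t in W, nsq (FF g v t - (L⁻¹ : ℝ) * Bil g a v t)) +
          2 * ∫⁻ t in W, nsq (Bil g a v t) := by
        rw [lintegral_add_right _ ((meas_Bil g a v).const_mul 2),
          lintegral_const_mul' _ _ (by norm_num), lintegral_const_mul' _ _ (by norm_num)]
    _ ≤ 2 * ENNReal.ofReal D + 2 * ENNReal.ofReal B := by
        gcongr
        exact (lintegral_mono_set hW).trans h1
    _ = ENNReal.ofReal (2 * D + 2 * B) := by
        rw [ENNReal.ofReal_add (by positivity) (by positivity),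
          ENNReal.ofReal_mul (by norm_num), ENNReal.ofReal_mul (by norm_num)]
        simp

theorem chain : DecStmt → St1Stmt → St2Stmt → MeasStmt → MertStmt → ChainStmt := by
  rintro ⟨Cd, hCd, hdec⟩ hst1 hst2 hmeas ⟨Cm, hCm, hmert⟩ α ε η hα hα8 hε hη
  obtain ⟨a0, ha0⟩ := eventually_atTop.1 hst2
  set K : ℝ := 4 * Cd * (Cm + 1) + 4 with hK
  have hK0 : 0 < K := by positivity
  obtain ⟨a, hs1, haa0, ha2, haα, haC, hl1, hl2⟩ : ∃ a : ℝ,
      (∀ (g : ℕ → ℂ) (α' v T : ℝ), (∀ n, ‖g n‖ ≤ 1) → α ≤ α' → 1 ≤ T →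
        T ≤ Real.exp (v - a ^ 3) →
        ∫⁻ t in Set.Icc (-T) T ∩ Sml g a α', nsq (Bil g a v t) ≤ ENNReal.ofReal (1 / a)) ∧
      a0 ≤ a ∧ 2 ≤ a ∧ 8 / α ≤ a ∧ Cm ≤ a ∧ 2 * Cm ^ 2 ≤ Real.log a ∧
      2 * K / ε ≤ Real.log a :=
    ((hst1 α hα).and ((eventually_ge_atTop a0).and ((eventually_ge_atTop 2).and
      ((eventually_ge_atTop (8 / α)).and ((eventually_ge_atTop Cm).and
      ((Real.tendsto_log_atTop.eventually_ge_atTop _).and
      (Real.tendsto_log_atTop.eventually_ge_atTop _))))))).exists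
  set l := Real.log a with hl
  have hl0 : 0 < l := Real.log_pos (by linarith)
  have hla : l ≤ a := (Real.log_le_sub_one_of_pos (by linarith)).trans (by linarith)
  have hA2 : ∀ j, 2 ≤ AA a j := fun j => ha2.trans (le_AA ha2 j)
  set al : ℕ → ℝ := fun j => 2 * α - 8 / AA a j with hal
  have hal1 : ∀ j, α ≤ al j := fun j => by
    have h1 : 8 / AA a j ≤ α := by
      rw [div_le_iff₀ (by linarith [hA2 j])]
      rw [div_le_iff₀ hα] at haα
      nlinarith [le_AA ha2 j]
    simp only [hal]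
    linarith
  have hal2 : ∀ j, al j ≤ 2 * α := fun j => by
    have : 0 ≤ 8 / AA a j := div_nonneg (by norm_num) (by linarith [hA2 j])
    simp only [hal]
    linarith
  have hal3 : ∀ j, al j + 4 / AA a j ≤ al (j + 1) := fun j => by
    have h0 := hA2 j
    have h1 : 8 / AA a j ^ 2 ≤ 4 / AA a j := by
      rw [div_le_div_iff₀ (by positivity) (by linarith)]
      nlinarith
    have h2 : 8 / AA a j = 2 * (4 / AA a j) := by ring
    simp only [hal, AA]
    linarith
  have hinv : ∀ j, 1 / AA a j ≤ 1 / (2 ^ j * l) := fun j => by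
    refine one_div_le_one_div_of_le (by positivity) ((AA_ge ha2 j).trans' ?_)
    gcongr
  have hL : ∀ j, 2 ^ j * l / (2 * Cm) ≤ rcp (stg (AA a j)) ∧ 1 ≤ rcp (stg (AA a j)) := fun j => by
    have h0 := hA2 j
    have h1 := hmert (AA a j ^ 2) (AA a j ^ 3) (by nlinarith [le_AA ha2 j]) (by nlinarith)
    have h2 : AA a j ^ 3 / AA a j ^ 2 = AA a j := by field_simp
    rw [h2, log_AA, ← hl] at h1
    have h3 : (1 : ℝ) ≤ 2 ^ j := one_le_pow₀ (by norm_num)
    have h4 : Cm ≤ 2 ^ j * l / (2 * Cm) := by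
      rw [le_div_iff₀ (by positivity)]
      nlinarith
    have h5 : 2 ^ j * l / Cm = 2 * (2 ^ j * l / (2 * Cm)) := by field_simp
    unfold stg
    constructor <;> linarith
  refine ⟨Real.exp (a ^ 3), Real.one_le_exp (by positivity), ?_⟩
  filter_upwards [hmeas α hα (by linarith), Real.tendsto_log_atTop.eventually_gt_atTop a,
    (Real.isLittleO_pow_log_id_atTop (n := 6)).def hη, eventually_ge_atTop (0 : ℝ)]
    with V hm hVa hV6 hV0 g hg
  have hV6' : Real.log V ^ 6 ≤ η * V := by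
    rw [id, Real.norm_of_nonneg (by positivity), Real.norm_of_nonneg hV0] at hV6
    exact hV6
  have hex : ∃ j, Real.log V ≤ AA a j := by
    obtain ⟨j, hj⟩ := pow_unbounded_of_one_lt (Real.log V) (by norm_num : (1 : ℝ) < 2)
    have h3 : (0 : ℝ) ≤ 2 ^ j := by positivity
    exact ⟨j, by nlinarith [AA_ge ha2 j]⟩
  obtain ⟨J, hJ1, hJ2⟩ : ∃ J, Real.log V ≤ AA a J ∧ AA a J ≤ Real.log V ^ 2 := by
    classical
    have h1 := Nat.find_spec hex
    rcases h : Nat.find hex with _ | j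
    · rw [h] at h1
      exact absurd h1 (not_le.2 hVa)
    · rw [h] at h1
      have h2 := not_le.1 (Nat.find_min hex (show j < Nat.find hex by omega))
      refine ⟨j + 1, h1, ?_⟩
      rw [AA]
      have := hA2 j
      gcongr
  refine ⟨Set.Icc (-Real.exp V) (Real.exp V) \ Sml g (AA a J) (al J),
    measurableSet_Icc.diff (meas_Sml _ _ _), Set.sdiff_subset,
    hm g _ _ hg.bd hJ1 hJ2 (hα.le.trans (hal1 J)) (hal2 J), fun v hv1 hv2 => ?_⟩
  set T := Real.exp v / Real.exp (a ^ 3) with hT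
  have hA3 : ∀ j ≤ J, AA a j ^ 3 ≤ v := fun j hj => by
    have h1 : AA a j ≤ Real.log V ^ 2 := (AA_mono ha2 hj).trans hJ2
    have h0 := hA2 j
    calc AA a j ^ 3 ≤ (Real.log V ^ 2) ^ 3 := by gcongr
      _ = Real.log V ^ 6 := by ring
      _ ≤ v := hV6'.trans hv1
  have hTe : T = Real.exp (v - a ^ 3) := by rw [hT, Real.exp_sub]
  have hT1 : 1 ≤ T := by
    rw [hTe]
    exact Real.one_le_exp (sub_nonneg.2 (hA3 0 (Nat.zero_le _)))
  have hTv : T ≤ Real.exp v := by
    rw [hTe]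
    exact Real.exp_le_exp.2 (sub_le_self _ (by positivity))
  have hI : Set.Icc (-T) T ⊆ Set.Icc (-Real.exp v) (Real.exp v) :=
    Set.Icc_subset_Icc (by linarith) hTv
  have hpc : ∀ j ≤ J, ∀ W : Set ℝ, W ⊆ Set.Icc (-T) T →
      ∫⁻ t in W, nsq (Bil g (AA a j) v t) ≤ ENNReal.ofReal (2 * (1 / (2 ^ j * l))) →
      ∫⁻ t in W, nsq (FF g v t) ≤ ENNReal.ofReal (K * (1 / (2 ^ j * l))) := by
    intro j hj W hW hB
    have h0 := hA2 j
    have hL0 : 0 < rcp (stg (AA a j)) := by linarith [(hL j).2]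
    refine (piece (hW.trans hI) (hL j).2 (by positivity) (by positivity)
      (hdec g (AA a j) v hg (by linarith) (hA3 j hj) hL0) hB).trans
      (ENNReal.ofReal_le_ofReal ?_)
    have h1 : 1 / rcp (stg (AA a j)) ≤ 2 * Cm * (1 / (2 ^ j * l)) := by
      refine (one_div_le_one_div_of_le (by positivity) (hL j).1).trans (le_of_eq ?_)
      field_simp
    have h2 : Real.exp (-v) ≤ 1 / AA a j := by
      rw [Real.exp_neg, ← one_div]
      refine one_div_le_one_div_of_le (by linarith) ?_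
      have h3 := hA3 j hj
      have h4 : AA a j ≤ AA a j ^ 3 := le_self_pow₀ (by linarith) (by norm_num)
      linarith [Real.add_one_le_exp v]
    have h3 : 1 / rcp (stg (AA a j)) + 1 / AA a j + Real.exp (-v) ≤
        (2 * Cm + 2) * (1 / (2 ^ j * l)) := by linarith [hinv j]
    have h4 := mul_le_mul_of_nonneg_left h3 (by linarith : 0 ≤ Cd)
    rw [hK]
    nlinarith
  have key : ∀ j ≤ J, ∫⁻ t in Set.Icc (-T) T ∩ Sml g (AA a j) (al j), nsq (FF g v t) ≤
      ENNReal.ofReal (K * (2 / l - 1 / (2 ^ j * l))) := by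
    intro j
    induction j with
    | zero =>
      intro hj
      refine (hpc 0 hj _ Set.inter_subset_left ((hs1 g (al 0) v T hg.bd (hal1 0) hT1 hTe.le).trans
        (ENNReal.ofReal_le_ofReal ?_))).trans (le_of_eq ?_)
      · have h1 : 1 / a ≤ 1 / (2 ^ 0 * l) := hinv 0
        have h2 : 0 ≤ 1 / (2 ^ 0 * l) := by positivity
        linarith
      · congr 2
        simp only [pow_zero, one_mul]
        ring
    | succ j ih =>
      intro hj
      have h1 := ih (by omega)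
      have h2 := hpc (j + 1) hj
        ((Set.Icc (-T) T ∩ Sml g (AA a (j + 1)) (al (j + 1))) \ Sml g (AA a j) (al j))
        (Set.sdiff_subset.trans Set.inter_subset_left)
        ((ha0 (AA a j) (haa0.trans (le_AA ha2 j)) g (al j) (al (j + 1)) v T hg.bd
          (hα.le.trans (hal1 j)) (hal3 j) (by linarith [hal2 (j + 1)]) hT1 hTv).trans
          (ENNReal.ofReal_le_ofReal ((hinv j).trans (le_of_eq (by field_simp; ring)))))
      have h3 : Set.Icc (-T) T ∩ Sml g (AA a (j + 1)) (al (j + 1)) ⊆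
          (Set.Icc (-T) T ∩ Sml g (AA a j) (al j)) ∪
            ((Set.Icc (-T) T ∩ Sml g (AA a (j + 1)) (al (j + 1))) \ Sml g (AA a j) (al j)) := by
        intro t ht
        by_cases h : t ∈ Sml g (AA a j) (al j)
        · exact Or.inl ⟨ht.1, h⟩
        · exact Or.inr ⟨ht, h⟩
      have h4 : 0 ≤ 2 / l - 1 / (2 ^ j * l) := by
        have h5 : (1 : ℝ) ≤ 2 ^ j := one_le_pow₀ (by norm_num)
        rw [sub_nonneg, div_le_div_iff₀ (by positivity) hl0]
        nlinarith
      refine ((lintegral_mono_set h3).trans (lintegral_union_le _ _ _)).trans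
        ((add_le_add h1 h2).trans (le_of_eq ?_))
      rw [← ENNReal.ofReal_add (by positivity) (by positivity)]
      congr 1
      field_simp
      ring
  have hsub : Set.Icc (-T) T \ (Set.Icc (-Real.exp V) (Real.exp V) \ Sml g (AA a J) (al J)) ⊆
      Set.Icc (-T) T ∩ Sml g (AA a J) (al J) := by
    intro t ht
    refine ⟨ht.1, ?_⟩
    by_contra h
    have h1 : Real.exp v ≤ Real.exp V := Real.exp_le_exp.2 hv2
    exact ht.2 ⟨Set.Icc_subset_Icc (by linarith) h1 (hI ht.1), h⟩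
  refine (lintegral_mono_set hsub).trans ((key J le_rfl).trans (ENNReal.ofReal_le_ofReal ?_))
  have h1 : K * (2 / l) ≤ ε := by
    rw [div_le_iff₀ hε] at hl2
    rw [← mul_div_assoc, div_le_iff₀ hl0]
    linarith
  have h2 : 0 ≤ K * (1 / (2 ^ J * l)) := by positivity
  rw [mul_sub]
  linarith

end Pool.Agent.MP_ca0a54_nt.BH.CHAIN
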