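import Pool.Agent.MP_ca0a54_nt.BH.Basic

/-! The Turan-Kubilius decomposition. -/

open Complex MeasureTheory Filter Topology

namespace Pool.Agent.MP_ca0a54_nt.BH.DEC

open Finset

/-- The left end of the block of `p`. -/
noncomputable def bl (a : ℝ) (p : ℕ) : ℝ := (⌊a * Real.log p⌋₊ : ℝ) / a

/-- The number of representations. -/
noncomputable def kn (a v : ℝ) (n : ℕ) : ℝ :=
  ∑ p ∈ stg a, if p ∣ n ∧ n / p ∈ iv (v - bl a p) (v - bl a p + 3) then 1 else 0

theorem bl_le {a : ℝ} (ha : 1 ≤ a) (p : ℕ) :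
    bl a p ≤ Real.log p ∧ Real.log p < bl a p + 1 / a := by
  have h0 : 0 < a := by linarith
  have h1 : 0 ≤ a * Real.log p := mul_nonneg h0.le (Real.log_natCast_nonneg p)
  constructor
  · rw [bl, div_le_iff₀ h0, mul_comm _ a]
    exact Nat.floor_le h1
  · rw [bl, ← add_div, lt_div_iff₀ h0, mul_comm _ a]
    exact Nat.lt_floor_add_one _

theorem log_div {p n : ℕ} (hp : p.Prime) (hn : 1 ≤ n) (h : p ∣ n) :
    1 ≤ n / p ∧ Real.log (n / p : ℕ) = Real.log n - Real.log p := by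
  refine ⟨Nat.div_pos (Nat.le_of_dvd hn h) hp.pos, ?_⟩
  rw [Nat.cast_div h (by exact_mod_cast hp.ne_zero), Real.log_div (by positivity)
    (by exact_mod_cast hp.ne_zero)]

theorem one_prime {g : ℕ → ℂ} (hg : CM g) {a : ℝ} (ha : 1 ≤ a) (v t : ℝ) {p : ℕ} (hp : p.Prime) :
    g p / p * ei (-(t * Real.log p)) * FF g (v - bl a p) t =
      ∑ n ∈ iv v (v + 4), g n / n * ei (-(t * Real.log n)) *
        ((if p ∣ n ∧ n / p ∈ iv (v - bl a p) (v - bl a p + 3) then 1 else 0 : ℝ) : ℂ) := by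
  obtain ⟨h1, h2⟩ := bl_le ha p
  have h3 : 1 / a ≤ 1 := by rw [div_le_one (by linarith)]; exact ha
  have hp0 : (p : ℝ) ≠ 0 := by exact_mod_cast hp.ne_zero
  have e : ∀ n : ℕ, g n / n * ei (-(t * Real.log n)) *
      ((if p ∣ n ∧ n / p ∈ iv (v - bl a p) (v - bl a p + 3) then 1 else 0 : ℝ) : ℂ) =
      if p ∣ n ∧ n / p ∈ iv (v - bl a p) (v - bl a p + 3) then
        g n / n * ei (-(t * Real.log n)) else 0 := fun n => by split_ifs <;> simp
  simp_rw [e]
  rw [← sum_filter, FF, dir, mul_sum]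
  refine sum_nbij' (fun m => p * m) (fun n => n / p) (fun m hm => ?_) (fun n hn => ?_)
    (fun m _ => Nat.mul_div_cancel_left m hp.pos)
    (fun n hn => Nat.mul_div_cancel' (mem_filter.1 hn).2.1) fun m hm => ?_
  · obtain ⟨m1, m2, m3⟩ := mem_iv.1 hm
    have hm0 : (m : ℝ) ≠ 0 := by positivity
    refine mem_filter.2 ⟨mem_iv.2 ⟨Nat.mul_pos hp.pos m1, ?_, ?_⟩, dvd_mul_right _ _, ?_⟩
    · rw [Nat.cast_mul, Real.log_mul hp0 hm0]; linarith
    · rw [Nat.cast_mul, Real.log_mul hp0 hm0]; linarith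
    · rwa [Nat.mul_div_cancel_left m hp.pos]
  · exact (mem_filter.1 hn).2.2
  · have hm0 : (m : ℝ) ≠ 0 := by have := (mem_iv.1 hm).1; positivity
    rw [hg.mul, Nat.cast_mul (α := ℝ), Real.log_mul hp0 hm0, mul_add, neg_add, ei_add]
    push_cast
    ring

theorem bil_eq {g : ℕ → ℂ} (hg : CM g) {a : ℝ} (ha : 1 ≤ a) (v t : ℝ) :
    Bil g a v t = ∑ n ∈ iv v (v + 4), g n / n * ei (-(t * Real.log n)) * (kn a v n : ℝ) := by
  have h1 : Bil g a v t =
      ∑ p ∈ stg a, g p / p * ei (-(t * Real.log p)) * FF g (v - bl a p) t := by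
    rw [Bil, ← sum_fiberwise_of_maps_to (s := stg a) (t := range (⌊a ^ 4⌋₊ + 1))
      (g := fun p : ℕ => ⌊a * Real.log p⌋₊) fun p hp => ?_]
    · refine sum_congr rfl fun b _ => ?_
      rw [QB, dir, sum_mul]
      refine sum_congr rfl fun p hp => ?_
      rw [bl, (mem_filter.1 hp).2]
    · refine mem_range.2 (Nat.lt_succ_of_le (Nat.floor_le_floor ?_))
      have := (mem_prm.1 hp).2.2
      nlinarith
  rw [h1, sum_congr (s₁ := stg a) rfl fun p hp => one_prime hg ha v t (mem_prm.1 hp).1, sum_comm]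
  refine sum_congr rfl fun n _ => ?_
  rw [kn, ofReal_sum, mul_sum]

theorem err_sq {a v L : ℝ} (ha : 1 ≤ a) (hL : 0 < L) {n : ℕ} (hn : n ∈ iv v (v + 4)) :
    ((if n ∈ iv v (v + 3) then 1 else 0) - kn a v n / L) ^ 2 ≤
      2 * (om (stg a) n / L - 1) ^ 2 + 3 * ((if n ∈ iv v (v + 1 / a) then 1 else 0) +
        if n ∈ iv (v + 3) (v + 3 + 1 / a) then 1 else 0) := by
  obtain ⟨n1, n2, -⟩ := mem_iv.1 hn
  have hd := sq_nonneg (om (stg a) n / L - 1)
  have k0 : 0 ≤ kn a v n / L := div_nonneg (sum_nonneg fun p _ => by positivity) hL.le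
  have k1 : kn a v n / L ≤ om (stg a) n / L := by
    rw [om_eq]
    refine div_le_div_of_nonneg_right (sum_le_sum fun p _ => ?_) hL.le
    by_cases h : p ∣ n
    · rw [if_pos h]; split_ifs <;> norm_num
    · rw [if_neg h, if_neg fun h' => h h'.1]
  have hb : ((if n ∈ iv v (v + 3) then 1 else 0) - kn a v n / L) ^ 2 ≤
      2 * (om (stg a) n / L - 1) ^ 2 + 3 := by
    split_ifs <;> nlinarith [sq_nonneg (om (stg a) n / L - 2)]
  by_cases c1 : n ∈ iv v (v + 1 / a)
  · rw [if_pos c1]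
    refine hb.trans ?_
    split_ifs <;> linarith
  by_cases c2 : n ∈ iv (v + 3) (v + 3 + 1 / a)
  · rw [if_pos c2, if_neg c1]
    linarith
  rw [if_neg c1, if_neg c2]
  have d1 : v + 1 / a < Real.log n := not_le.1 fun h => c1 (mem_iv.2 ⟨n1, n2, h⟩)
  by_cases c3 : n ∈ iv v (v + 3)
  · have d3 := (mem_iv.1 c3).2.2
    have : kn a v n = om (stg a) n := by
      rw [om_eq]
      refine sum_congr rfl fun p hp => if_congr (and_iff_left_of_imp fun h => ?_) rfl rfl
      obtain ⟨q1, q2⟩ := log_div (mem_prm.1 hp).1 n1 h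
      obtain ⟨h1, h2⟩ := bl_le ha p
      exact mem_iv.2 ⟨q1, by rw [q2]; linarith, by rw [q2]; linarith⟩
    rw [if_pos c3, this]
    nlinarith
  · have d3 : v + 3 < Real.log n := not_le.1 fun h => c3 (mem_iv.2 ⟨n1, n2, h⟩)
    have d2 : v + 3 + 1 / a < Real.log n := not_le.1 fun h => c2 (mem_iv.2 ⟨n1, d3, h⟩)
    have : kn a v n = 0 := by
      refine sum_eq_zero fun p hp => if_neg fun h => ?_
      obtain ⟨-, q2⟩ := log_div (mem_prm.1 hp).1 n1 h.1
      have h3 := (mem_iv.1 h.2).2.2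
      rw [q2] at h3
      linarith [(bl_le ha p).2]
    rw [if_neg c3, this, zero_div]
    nlinarith

theorem sum_ind (S : Finset ℕ) {v w : ℝ} (h : v ≤ w) :
    ∑ n ∈ S, (if n ∈ iv v w then (1 : ℝ) else 0) / n ≤ w - v + Real.exp (-v) := by
  simp_rw [ite_div, zero_div]
  rw [sum_ite_mem]
  refine (sum_le_sum_of_subset_of_nonneg inter_subset_right fun n _ _ => by positivity).trans
    ((sum_inv_iv h).trans ?_)
  linarith [min_le_right 1 (Real.exp (-v))]

theorem dec : MvStmt → DecStmt := by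
  rintro ⟨C, hC, hM⟩
  refine ⟨100 * C, by linarith, fun g a v hg ha hv hL => ?_⟩
  set L := rcp (stg a) with hLd
  have ha0 : 0 < 1 / a := by positivity
  have hv0 : 0 ≤ v := le_trans (by positivity) hv
  let e : ℕ → ℝ := fun n => (if n ∈ iv v (v + 3) then 1 else 0) - kn a v n / L
  have h1 : ∀ t, FF g v t - (L⁻¹ : ℝ) * Bil g a v t =
      dir (fun n => g n / n * (e n : ℝ)) (iv v (v + 4)) t := by
    intro t
    have hs : iv v (v + 4) ∩ iv v (v + 3) = iv v (v + 3) := inter_eq_right.2 fun n hn =>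
      mem_iv.2 ⟨(mem_iv.1 hn).1, (mem_iv.1 hn).2.1, by linarith [(mem_iv.1 hn).2.2]⟩
    rw [bil_eq hg ha, FF, dir, dir, ← hs, ← sum_ite_mem, mul_sum, ← sum_sub_distrib]
    refine sum_congr rfl fun n _ => ?_
    simp only [e]
    split_ifs <;> push_cast <;> ring
  simp_rw [h1]
  have h2 := (hM (fun n => g n / n * (e n : ℝ)) (iv v (v + 4)) 0 (Real.exp v)
    (zero_notMem_iv _ _) (Real.one_le_exp hv0)).2.1
  rw [zero_sub, zero_add] at h2
  refine h2.trans (ENNReal.ofReal_le_ofReal ?_)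
  have h3 : ∑ n ∈ iv v (v + 4), (Real.exp v + n) * ‖g n / n * (e n : ℝ)‖ ^ 2 ≤
      ∑ n ∈ iv v (v + 4), (4 * ((om (stg a) n / L - 1) ^ 2 / n) +
        6 * ((if n ∈ iv v (v + 1 / a) then (1 : ℝ) else 0) / n) +
        6 * ((if n ∈ iv (v + 3) (v + 3 + 1 / a) then (1 : ℝ) else 0) / n)) := by
    refine sum_le_sum fun n hn => ?_
    obtain ⟨n1, n2, -⟩ := mem_iv.1 hn
    have hn0 : (0 : ℝ) < n := by positivity
    have n3 : Real.exp v ≤ n := ((Real.lt_log_iff_exp_lt hn0).1 n2).le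
    have h4 := err_sq ha hL hn
    have h5 := hg.bd n
    rw [norm_mul, norm_div, norm_natCast, norm_real, mul_pow, Real.norm_eq_abs, sq_abs]
    calc _ ≤ (n + n) * ((1 / n) ^ 2 * e n ^ 2) := by gcongr
      _ = 2 / n * e n ^ 2 := by field_simp; ring
      _ ≤ 2 / n * _ := mul_le_mul_of_nonneg_left h4 (by positivity)
      _ = _ := by ring
  rw [sum_add_distrib, sum_add_distrib, ← mul_sum, ← mul_sum, ← mul_sum] at h3
  have h4 := tk_long (stg a) (fun p hp => (mem_prm.1 hp).1) hL (v := v) (w := v + 4)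
    ((Nat.cast_le.2 (card_filter_le _ _)).trans ((card_iv_le _ _).trans (Real.exp_le_exp.2 hv)))
    (by linarith)
  have h5 := sum_ind (iv v (v + 4)) (v := v) (w := v + 1 / a) (by linarith)
  have h6 := sum_ind (iv v (v + 4)) (v := v + 3) (w := v + 3 + 1 / a) (by linarith)
  have h7 : Real.exp (-(v + 3)) ≤ Real.exp (-v) := Real.exp_le_exp.2 (by linarith)
  have h8 : 5 * (v + 4 - v + 1) / rcp (stg a) = 25 * (1 / L) := by rw [hLd]; ring
  have h9 := Real.exp_pos (-v)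
  rw [h8, ← hLd] at h4
  rw [mul_comm 100 C, mul_assoc]
  refine mul_le_mul_of_nonneg_left (h3.trans ?_) (by linarith)
  linarith

end Pool.Agent.MP_ca0a54_nt.BH.DEC
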