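import Pool.Agent.MP_ca0a54_nt.BH.Basic

/-! The entropy decrement argument. -/

open Filter Topology

namespace Pool.Agent.MP_ca0a54_nt.BH.DECR

open Pool.Agent.MP_4b405e_nt.H17

/-- A slowly growing sequence has a divergent sum of reciprocals. -/
theorem sum_div (a : ℕ → ℝ) (h1 : ∀ i, 1 ≤ a i) (h2 : ∀ i, a (i + 1) ≤ a i + 2 * Real.log (a i))
    (C : ℝ) : ∃ m : ℕ, C < ∑ i ∈ Finset.range m, 1 / a i := by
  by_contra hC
  push Not at hC
  have hpos : ∀ i, 0 < a i := fun i => lt_of_lt_of_le one_pos (h1 i)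
  have hlog : ∀ i, 0 ≤ Real.log (a i) := fun i => Real.log_nonneg (h1 i)
  have step : ∀ i, Real.log (a (i + 1)) ≤ Real.log (a i) * Real.exp (2 * (1 / a i)) := by
    intro i
    have e1 : Real.log (a (i + 1)) ≤ Real.log (a i + 2 * Real.log (a i)) :=
      Real.log_le_log (hpos _) (h2 i)
    have e2 : a i + 2 * Real.log (a i) = a i * (1 + 2 * Real.log (a i) / a i) := by
      have := hpos i
      field_simp
    have e0 : 0 < 1 + 2 * Real.log (a i) / a i := by
      have := hpos i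
      have := hlog i
      positivity
    rw [e2, Real.log_mul (hpos i).ne' e0.ne'] at e1
    have e3 := Real.log_le_sub_one_of_pos e0
    have e4 := Real.add_one_le_exp (2 * (1 / a i))
    have e5 := mul_le_mul_of_nonneg_left e4 (hlog i)
    have e6 : Real.log (a i) * (2 * (1 / a i) + 1) =
        Real.log (a i) + 2 * Real.log (a i) / a i := by ring
    linarith
  have key : ∀ m, Real.log (a m) ≤
      Real.log (a 0) * Real.exp (2 * ∑ i ∈ Finset.range m, 1 / a i) := by
    intro m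
    induction m with
    | zero => simp
    | succ m ih =>
      rw [Finset.sum_range_succ, mul_add, Real.exp_add, ← mul_assoc]
      exact (step m).trans (mul_le_mul_of_nonneg_right ih (Real.exp_pos _).le)
  set A := Real.exp (Real.log (a 0) * Real.exp (2 * C)) with hA
  have hA0 : 0 < A := Real.exp_pos _
  have hb : ∀ m, a m ≤ A := by
    intro m
    rw [hA, ← Real.log_le_iff_le_exp (hpos m)]
    exact (key m).trans (mul_le_mul_of_nonneg_left
      (Real.exp_le_exp.2 (by linarith [hC m])) (hlog 0))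
  obtain ⟨m, hm⟩ := exists_nat_gt (C * A)
  have h3 : ∑ _i ∈ Finset.range m, 1 / A ≤ ∑ i ∈ Finset.range m, 1 / a i :=
    Finset.sum_le_sum fun i _ => one_div_le_one_div_of_le (hpos i) (hb i)
  rw [Finset.sum_const, Finset.card_range, nsmul_eq_mul, mul_one_div] at h3
  have h4 : C < m / A := (lt_div_iff₀ hA0).2 hm
  linarith [hC m]

/-- The block of length `n` of the process. -/
def blk {Ω : Type} (σ : Ω → Ω) (x : Ω → ℝ) (n : ℕ) (ω : Ω) : ℕ → ℝ :=
  fun j => if j < n then x (σ^[j] ω) else 0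

theorem mp_iter {S : Sp} {σ : S.Ω → S.Ω} (h : MP S S σ) (n : ℕ) : MP S S σ^[n] := by
  induction n with
  | zero => exact MP.id S
  | succ n ih =>
    have := h.comp ih
    exact this

theorem blk_add {β : Type} {S : Sp} {σ : S.Ω → S.Ω} (h : MP S S σ) (x : S.Ω → ℝ) (Y : S.Ω → β)
    (hY : ∀ ω ω', Y (σ ω) = Y (σ ω') ↔ Y ω = Y ω') (a b : ℕ) :
    S.H (fun ω => (blk σ x (a + b) ω, Y ω)) + S.H Y ≤
      S.H (fun ω => (blk σ x a ω, Y ω)) + S.H (fun ω => (blk σ x b ω, Y ω)) := by
  have hYn : ∀ n ω ω', Y (σ^[n] ω) = Y (σ^[n] ω') ↔ Y ω = Y ω' := by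
    intro n
    induction n with
    | zero => intro ω ω'; rfl
    | succ n ih =>
      intro ω ω'
      rw [Function.iterate_succ_apply', Function.iterate_succ_apply', hY, ih]
  rw [← (mp_iter h a).H fun ω => (blk σ x b ω, Y ω)]
  refine S.submod (fun ω ω' e => congrArg Prod.snd e)
    (fun ω ω' e => (hYn a ω ω').1 (congrArg Prod.snd e)) fun ω ω' e1 e2 => ?_
  have e0 : Y ω = Y ω' := congrArg Prod.snd e1
  refine Prod.ext (funext fun j => ?_) e0
  have f1 := congrFun (congrArg Prod.fst e1) j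
  have f2 := congrFun (congrArg Prod.fst e2) (j - a)
  simp only [blk] at f1 f2 ⊢
  by_cases hj : j < a
  · rw [if_pos hj, if_pos hj] at f1
    rw [if_pos (by omega), if_pos (by omega), f1]
  · by_cases hj' : j < a + b
    · rw [if_pos (by omega), if_pos (by omega), ← Function.iterate_add_apply,
        ← Function.iterate_add_apply, Nat.sub_add_cancel (by omega)] at f2
      rw [if_pos hj', if_pos hj', f2]
    · rw [if_neg hj', if_neg hj']

theorem blk_mul {β : Type} {S : Sp} {σ : S.Ω → S.Ω} (h : MP S S σ) (x : S.Ω → ℝ) (Y : S.Ω → β)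
    (hY : ∀ ω ω', Y (σ ω) = Y (σ ω') ↔ Y ω = Y ω') (n k : ℕ) :
    S.H (fun ω => (blk σ x (k * n) ω, Y ω)) ≤
      S.H Y + k * (S.H (fun ω => (blk σ x n ω, Y ω)) - S.H Y) := by
  induction k with
  | zero =>
    simp only [Nat.cast_zero, zero_mul, add_zero]
    refine S.H_mono fun ω ω' e => Prod.ext (funext fun j => ?_) e
    simp [blk]
  | succ k ih =>
    have := blk_add h x Y hY (k * n) n
    rw [Nat.succ_mul]
    push_cast
    linarith

theorem blk_le {S : Sp} {σ : S.Ω → S.Ω} (h : MP S S σ) (x : S.Ω → ℝ)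
    (hx : ∀ ω, x ω = 1 ∨ x ω = -1) (n : ℕ) : S.H (blk σ x n) ≤ n * Real.log 2 := by
  have h1 := blk_mul h x (fun _ => ()) (fun _ _ => Iff.rfl) 1 n
  have h2 : S.H (fun _ => ()) ≤ 0 := by
    simpa using S.H_le_log (fun _ => ()) {()} (by simp)
  have h2' := S.H_nonneg fun _ => ()
  have h3 : S.H (fun ω => (blk σ x 1 ω, ())) ≤ S.H x := by
    refine S.H_mono fun ω ω' e => Prod.ext (funext fun j => ?_) rfl
    by_cases hj : j = 0
    · simp [blk, hj, e]
    · simp [blk, hj]
  have h4 : S.H x ≤ Real.log 2 := by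
    have := S.H_le_log x {1, -1} (by simpa using hx)
    rwa [Finset.card_pair (by norm_num)] at this
  have h5 : S.H (blk σ x n) ≤ S.H (fun ω => (blk σ x (n * 1) ω, ())) := by
    rw [mul_one]
    exact S.H_mono fun ω ω' e => congrArg Prod.fst e
  have h6 : S.H (fun _ => ()) = 0 := le_antisymm h2 h2'
  rw [h6] at h1
  have h7 : (n : ℝ) * (S.H (fun ω => (blk σ x 1 ω, ())) - 0) ≤ n * Real.log 2 :=
    mul_le_mul_of_nonneg_left (by linarith) (Nat.cast_nonneg n)
  linarith

theorem iter_mod {Ω : Type} {σ : Ω → Ω} {y : Ω → ℕ} {q : ℕ}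
    (hy : ∀ ω, y (σ ω) ≡ y ω + 1 [MOD q]) (i : ℕ) (ω : Ω) : y (σ^[i] ω) ≡ y ω + i [MOD q] := by
  induction i with
  | zero => rfl
  | succ i ih =>
    rw [Function.iterate_succ_apply']
    exact (hy _).trans (by rw [← add_assoc]; exact ih.add_right 1)

/-- The residue is uniformly distributed. -/
theorem unif {S : Sp} {σ : S.Ω → S.Ω} (h : MP S S σ) {y : S.Ω → ℕ} {q : ℕ} (hq : 1 ≤ q)
    (hy : ∀ ω, y (σ ω) ≡ y ω + 1 [MOD q]) : Real.log q ≤ S.H fun ω => y ω % q := by
  classical
  have hq0 : (0 : ℝ) < q := by exact_mod_cast hq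
  have key : ∀ ω₀, S.mass (fun ω => y ω % q) (y ω₀ % q) ≤ 1 / q := by
    intro ω₀
    have e1 : ∀ i, S.mass (fun ω => y ω % q) (y ω₀ % q) =
        S.E fun ω => ind (y ω % q = (y ω₀ + i) % q) := by
      intro i
      have := (mp_iter h i) fun ω => ind (y ω % q = (y ω₀ + i) % q)
      rw [← this]
      refine S.E_congr fun ω => ind_congr ⟨fun e => ?_, fun e => ?_⟩
      · exact (iter_mod hy i ω).trans (Nat.ModEq.add_right i e)
      · exact Nat.ModEq.add_right_cancel' i ((iter_mod hy i ω).symm.trans e)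
    have e2 : ∑ i ∈ Finset.range q, S.E (fun ω => ind (y ω % q = (y ω₀ + i) % q)) =
        S.E fun ω => ∑ i ∈ Finset.range q, ind (y ω % q = (y ω₀ + i) % q) := by
      unfold Sp.E
      simp only [Finset.mul_sum]
      exact Finset.sum_comm
    have e3 : ∀ ω, ∑ i ∈ Finset.range q, ind (y ω % q = (y ω₀ + i) % q) ≤ 1 := by
      intro ω
      rw [show ∑ i ∈ Finset.range q, ind (y ω % q = (y ω₀ + i) % q) =
          (((Finset.range q).filter fun i => y ω % q = (y ω₀ + i) % q).card : ℝ) by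
        rw [Finset.card_filter]
        push_cast
        refine Finset.sum_congr rfl fun i _ => ?_
        unfold ind
        split_ifs <;> rfl, Nat.cast_le_one, Finset.card_le_one]
      intro i hi j hj
      rw [Finset.mem_filter, Finset.mem_range] at hi hj
      exact Nat.ModEq.eq_of_lt_of_lt
        (Nat.ModEq.add_left_cancel' (y ω₀) (hi.2.symm.trans hj.2)) hi.1 hj.1
    have e4 := S.E_mono (g := fun _ => 1) e3
    rw [S.E_const, ← e2, Finset.sum_congr rfl fun i _ => (e1 i).symm, Finset.sum_const,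
      Finset.card_range, nsmul_eq_mul] at e4
    rw [le_div_iff₀ hq0]
    linarith
  have h1 := S.E_mono (g := fun _ => -Real.log q) fun ω =>
    (Real.log_le_log (S.mass_pos (fun ω => y ω % q) ω) (key ω)).trans
      (le_of_eq (by rw [one_div, Real.log_inv]))
  rw [S.E_const] at h1
  unfold Sp.H
  linarith

theorem card_dvd_le (p r H : ℕ) :
    ((Finset.range H).filter fun j => p ∣ r + j).card ≤ H / p + 1 := by
  rw [← Finset.card_range (H / p + 1)]
  refine Finset.card_le_card_of_injOn (fun j => j / p) (fun j hj => ?_) fun i hi j hj e => ?_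
  · rw [Finset.mem_coe, Finset.mem_filter, Finset.mem_range] at hj
    rw [Finset.mem_coe, Finset.mem_range]
    exact Nat.lt_succ_of_le (Nat.div_le_div_right hj.1.le)
  · rw [Finset.mem_coe, Finset.mem_filter] at hi hj
    have e1 : i % p = j % p := Nat.ModEq.add_left_cancel' r
      (((Nat.modEq_zero_iff_dvd).2 hi.2).trans ((Nat.modEq_zero_iff_dvd).2 hj.2).symm)
    simp only at e
    rw [← Nat.div_add_mod i p, ← Nat.div_add_mod j p, e, e1]

theorem sum_dvd_zero (p j : ℕ) (hp : 1 ≤ p) :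
    ∑ r ∈ Finset.range p, ((if p ∣ r + j then (p : ℝ) else 0) - 1) = 0 := by
  have h1 : ((Finset.range p).filter fun r => p ∣ r + j).card = 1 := by
    rw [Finset.card_eq_one]
    refine ⟨(p - j % p) % p, Finset.eq_singleton_iff_unique_mem.2 ⟨?_, fun i hi => ?_⟩⟩
    · rw [Finset.mem_filter, Finset.mem_range]
      refine ⟨Nat.mod_lt _ hp, (Nat.modEq_zero_iff_dvd).1 ?_⟩
      have e1 : (p - j % p) % p + j ≡ (p - j % p) + j % p [MOD p] :=
        (Nat.mod_modEq _ _).add (Nat.mod_modEq _ _).symm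
      rw [Nat.sub_add_cancel (Nat.mod_lt _ hp).le] at e1
      exact e1.trans ((Nat.modEq_zero_iff_dvd).2 dvd_rfl)
    · rw [Finset.mem_filter, Finset.mem_range] at hi
      refine Nat.ModEq.eq_of_lt_of_lt (Nat.ModEq.add_right_cancel' j ?_) hi.1 (Nat.mod_lt _ hp)
      have e1 : (p - j % p) % p + j ≡ (p - j % p) + j % p [MOD p] :=
        (Nat.mod_modEq _ _).add (Nat.mod_modEq _ _).symm
      rw [Nat.sub_add_cancel (Nat.mod_lt _ hp).le] at e1
      exact ((Nat.modEq_zero_iff_dvd).2 hi.2).trans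
        (e1.trans ((Nat.modEq_zero_iff_dvd).2 dvd_rfl)).symm
  rw [Finset.sum_sub_distrib, ← Finset.sum_filter, Finset.sum_const, h1]
  simp

/-- The exponential moment. -/
theorem moment (hoef : HoefStmt) (P : Finset ℕ) (h H : ℕ) (hh : 1 ≤ h)
    (hP : ∀ p ∈ P, p.Prime ∧ p * h ≤ H) (X : ℕ → ℝ) (hX : ∀ j, |X j| ≤ 1) (s : ℝ) (hs : 0 ≤ s) :
    ∑ r ∈ Finset.range (∏ p ∈ P, p), Real.exp (s * |FA X r P h H|) ≤
      ((Finset.range (∏ p ∈ P, p)).card : ℝ) *
        Real.exp (Real.log 2 + (3 * s * H) ^ 2 * P.card / 2) := by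
  have := hoef P (fun p r => s * ∑ j ∈ Finset.range H,
    ((if p ∣ r + j then (p : ℝ) else 0) - 1) * (X j * X (j + p * h))) (3 * s * H)
    (fun p hp => (hP p hp).1) (fun p _ r => ?_) (fun p hp => ?_) (fun p hp r => ?_)
  · rw [Finset.card_range, Real.exp_add, Real.exp_log two_pos]
    refine le_trans (le_of_eq (Finset.sum_congr rfl fun r _ => ?_)) this
    rw [← Finset.mul_sum, abs_mul, abs_of_nonneg hs]
    rfl
  · congr 1
    refine Finset.sum_congr rfl fun j _ => ?_
    have e : p ∣ r + p + j ↔ p ∣ r + j := by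
      rw [add_right_comm]
      exact (Nat.dvd_add_iff_left dvd_rfl).symm
    simp only [e]
  · rw [← Finset.mul_sum, Finset.sum_comm, Finset.sum_eq_zero, mul_zero]
    intro j _
    rw [← Finset.sum_mul, sum_dvd_zero p j (hP p hp).1.one_le, zero_mul]
  · have hp1 := (hP p hp).1.one_le
    have hpH : p ≤ H := (Nat.le_mul_of_pos_right p hh).trans (hP p hp).2
    rw [abs_mul, abs_of_nonneg hs, show 3 * s * H = s * (3 * H) by ring]
    refine mul_le_mul_of_nonneg_left ((Finset.abs_sum_le_sum_abs _ _).trans ?_) hs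
    have e1 : ∀ j ∈ Finset.range H, |((if p ∣ r + j then (p : ℝ) else 0) - 1) *
        (X j * X (j + p * h))| ≤ (if p ∣ r + j then (p : ℝ) else 0) + 1 := by
      intro j _
      have a0 : (0 : ℝ) ≤ if p ∣ r + j then (p : ℝ) else 0 := by positivity
      have a1 : |(if p ∣ r + j then (p : ℝ) else 0) - 1| ≤
          (if p ∣ r + j then (p : ℝ) else 0) + 1 := abs_le.2 ⟨by linarith, by linarith⟩
      have a2 : |X j * X (j + p * h)| ≤ 1 := by
        rw [abs_mul]
        exact mul_le_one₀ (hX _) (abs_nonneg _) (hX _)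
      rw [abs_mul]
      exact (mul_le_of_le_one_right (abs_nonneg _) a2).trans a1
    refine (Finset.sum_le_sum e1).trans ?_
    rw [Finset.sum_add_distrib, ← Finset.sum_filter, Finset.sum_const, Finset.sum_const,
      Finset.card_range, nsmul_eq_mul, nsmul_eq_mul, mul_one]
    have e2 : ((Finset.range H).filter fun j => p ∣ r + j).card * p ≤ 2 * H := by
      refine (Nat.mul_le_mul_right p (card_dvd_le p r H)).trans ?_
      have := Nat.div_mul_le_self H p
      rw [add_mul]
      omega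
    have e3 : (((Finset.range H).filter fun j => p ∣ r + j).card : ℝ) * p ≤ 2 * H := by
      exact_mod_cast e2
    linarith

theorem log_prod_le (P : Finset ℕ) (H : ℕ) (hP : ∀ p ∈ P, p.Prime ∧ p ≤ H) :
    Real.log ((∏ p ∈ P, p : ℕ) : ℝ) ≤ H * (2 * Real.log 2) := by
  have h1 : ∏ p ∈ P, p ≤ primorial H := by
    unfold primorial
    refine Finset.prod_le_prod_of_subset_of_one_le' (fun p hp => ?_) fun p hp _ => ?_
    · rw [Finset.mem_filter, Finset.mem_range]
      exact ⟨Nat.lt_succ_of_le (hP p hp).2, (hP p hp).1⟩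
    · exact (Finset.mem_filter.1 hp).2.one_le
  have h2 : ((∏ p ∈ P, p : ℕ) : ℝ) ≤ 4 ^ H := by
    exact_mod_cast h1.trans (primorial_le_four_pow H)
  have h0 : (0 : ℝ) < ((∏ p ∈ P, p : ℕ) : ℝ) := by
    exact_mod_cast Finset.prod_pos fun p hp => (hP p hp).1.pos
  refine (Real.log_le_log h0 h2).trans (le_of_eq ?_)
  rw [Real.log_pow, show (4 : ℝ) = 2 ^ 2 by norm_num, Real.log_pow]
  norm_num

/-- One step of the decrement. -/
theorem step (gibbs : GibbsStmt) (hoef : HoefStmt) {S : Sp} {σ : S.Ω → S.Ω} (hσ : MP S S σ)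
    {x : S.Ω → ℝ} (hx : ∀ ω, x ω = 1 ∨ x ω = -1) {y : S.Ω → ℕ} (P : Finset ℕ) (h H k : ℕ)
    (hh : 1 ≤ h) (hH : 1 ≤ H) (hP : ∀ p ∈ P, p.Prime ∧ p * h ≤ H)
    (hy : ∀ ω, y (σ ω) ≡ y ω + 1 [MOD ∏ p ∈ P, p]) {ε : ℝ} (hε : 0 < ε)
    (hf : ε * P.card * H < S.E fun ω => |FA (fun j => x (σ^[j] ω)) (y ω) P h H|) :
    S.H (blk σ x (k * (2 * H))) ≤ H * (2 * Real.log 2) +
      k * (S.H (blk σ x (2 * H)) - (ε ^ 2 * P.card / 18 - Real.log 2)) := by
  set q := ∏ p ∈ P, p with hq
  have hq1 : 1 ≤ q := Finset.prod_pos fun p hp => (hP p hp).1.pos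
  have hH0 : (0 : ℝ) < H := by exact_mod_cast hH
  have hs : 0 < ε / (9 * H) := by positivity
  have hX : ∀ ω j, |blk σ x (2 * H) ω j| ≤ 1 := by
    intro ω j
    unfold blk
    split_ifs
    · rcases hx (σ^[j] ω) with e | e <;> simp [e]
    · simp
  have g := gibbs S (ℕ → ℝ) ℕ (blk σ x (2 * H)) (fun ω => y ω % q) (Finset.range q)
    (fun X r => ε / (9 * H) * |FA X r P h H|)
    (Real.log 2 + (3 * (ε / (9 * H)) * H) ^ 2 * P.card / 2)
    (fun ω => Finset.mem_range.2 (Nat.mod_lt _ hq1))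
    fun ω => moment hoef P h H hh hP _ (hX ω) _ hs.le
  have e1 : ∀ ω, ε / (9 * H) * |FA (blk σ x (2 * H) ω) (y ω % q) P h H| =
      |FA (fun j => x (σ^[j] ω)) (y ω) P h H| * (ε / (9 * H)) := by
    intro ω
    rw [mul_comm]
    congr 2
    unfold FA
    refine Finset.sum_congr rfl fun p hp => Finset.sum_congr rfl fun j hj => ?_
    have a1 := Finset.mem_range.1 hj
    have a2 := (hP p hp).2
    have a3 : p ∣ y ω % q + j ↔ p ∣ y ω + j := by
      rw [← Nat.modEq_zero_iff_dvd, ← Nat.modEq_zero_iff_dvd]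
      have : y ω % q + j ≡ y ω + j [MOD p] :=
        ((Nat.mod_modEq _ _).of_dvd (Finset.dvd_prod_of_mem _ hp)).add_right j
      exact ⟨fun e => this.symm.trans e, fun e => this.trans e⟩
    simp only [blk, a3]
    rw [if_pos (show j < 2 * H by omega), if_pos (show j + p * h < 2 * H by omega)]
  rw [S.E_congr e1, S.E_mul, Finset.card_range] at g
  have e2 := mul_lt_mul_of_pos_right hf hs
  have e3 : ε * P.card * H * (ε / (9 * H)) = ε ^ 2 * P.card / 9 := by field_simp
  have e4 : (3 * (ε / (9 * H)) * H) ^ 2 * P.card / 2 = ε ^ 2 * P.card / 18 := by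
    field_simp
    ring
  have u1 := unif hσ hq1 hy
  have u2 := S.H_le_log (fun ω => y ω % q) (Finset.range q)
    fun ω => Finset.mem_range.2 (Nat.mod_lt _ hq1)
  rw [Finset.card_range] at u2
  have u3 := log_prod_le P H fun p hp =>
    ⟨(hP p hp).1, (Nat.le_mul_of_pos_right p hh).trans (hP p hp).2⟩
  have b1 := blk_mul hσ x (fun ω => y ω % q) (fun ω ω' =>
    ⟨fun e => Nat.ModEq.add_right_cancel' 1 ((hy ω).symm.trans (Nat.ModEq.trans e (hy ω'))),
      fun e => (hy ω).trans ((Nat.ModEq.add_right 1 e).trans (hy ω').symm)⟩) (2 * H) k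
  have b2 : S.H (blk σ x (k * (2 * H))) ≤ S.H fun ω => (blk σ x (k * (2 * H)) ω, y ω % q) :=
    S.H_mono fun ω ω' e => congrArg Prod.fst e
  have b3 : (k : ℝ) * (S.H (fun ω => (blk σ x (2 * H) ω, y ω % q)) - S.H fun ω => y ω % q) ≤
      k * (S.H (blk σ x (2 * H)) - (ε ^ 2 * P.card / 18 - Real.log 2)) :=
    mul_le_mul_of_nonneg_left (by linarith) (Nat.cast_nonneg k)
  linarith

theorem decr (gibbs : GibbsStmt) (hoef : HoefStmt) : DecrStmt := by
  intro h H₀ c ε P hh hc hε hA
  set δ := ε ^ 2 * c / 72 with hδ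
  have hδ0 : 0 < δ := by positivity
  have hlog : Tendsto (fun H : ℕ => Real.log H) atTop atTop :=
    Real.tendsto_log_atTop.comp tendsto_natCast_atTop_atTop
  have ev1 : ∀ᶠ H : ℕ in atTop, 2 / δ + 1 ≤ Real.log H := hlog.eventually_ge_atTop _
  have ev2 : ∀ᶠ H : ℕ in atTop, Real.log H ≤ 2 * δ * H := by
    have := (Real.isLittleO_log_id_atTop.comp_tendsto
      (tendsto_natCast_atTop_atTop (R := ℝ))).bound (show 0 < 2 * δ by positivity)
    filter_upwards [this] with H hH
    simp only [Function.comp, id, Real.norm_eq_abs, Nat.abs_cast] at hH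
    exact (le_abs_self _).trans hH
  obtain ⟨N, hN⟩ := eventually_atTop.1
    (hA.and (ev1.and (ev2.and ((eventually_ge_atTop H₀).and (eventually_ge_atTop 1)))))
  let kk : ℕ → ℕ := fun H => ⌈2 * Real.log H / δ⌉₊
  let u : ℕ → ℕ := fun i => (fun H => kk H * H)^[i] N
  have hu : ∀ i, u (i + 1) = kk (u i) * u i := fun i => Function.iterate_succ_apply' _ _ _
  have hl1 : ∀ H, N ≤ H → 1 ≤ Real.log H := fun H hH =>
    le_trans (le_add_of_nonneg_left (by positivity)) (hN H hH).2.1
  have hk1 : ∀ H, N ≤ H → 1 ≤ kk H := fun H hH =>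
    Nat.ceil_pos.2 (by have := hl1 H hH; positivity)
  have huN : ∀ i, N ≤ u i := by
    intro i
    induction i with
    | zero => exact le_rfl
    | succ i ih =>
      rw [hu]
      exact ih.trans (Nat.le_mul_of_pos_left _ (hk1 _ ih))
  obtain ⟨m, hm⟩ := sum_div (fun i => Real.log (u i)) (fun i => hl1 _ (huN i)) (fun i => by
    have a1 := hl1 _ (huN i)
    have a2 := (hN _ (huN i)).2.1
    have a3 : (0 : ℝ) < kk (u i) := by exact_mod_cast hk1 _ (huN i)
    have a4 : (0 : ℝ) < u i := by exact_mod_cast (hN _ (huN i)).2.2.2.2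
    have a5 : (kk (u i) : ℝ) ≤ Real.log (u i) ^ 2 := by
      have b1 : (kk (u i) : ℝ) < 2 * Real.log (u i) / δ + 1 :=
        Nat.ceil_lt_add_one (by positivity)
      have b2 := mul_le_mul_of_nonneg_left a2 (zero_le_one.trans a1)
      have b3 : Real.log (u i) * (2 / δ + 1) = 2 * Real.log (u i) / δ + Real.log (u i) := by ring
      nlinarith
    have a6 := Real.log_le_log a3 a5
    rw [Real.log_pow] at a6
    simp only [hu]
    rw [Nat.cast_mul, Real.log_mul a3.ne' a4.ne']
    push_cast at a6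
    linarith) (2 * Real.log 2 / δ)
  refine ⟨(Finset.range m).image u, ∏ H ∈ (Finset.range m).image u, ∏ p ∈ P H, p, ?_, ?_, ?_⟩
  · refine Nat.succ_le_of_lt (Finset.prod_pos fun H hH => Finset.prod_pos fun p hp => ?_)
    obtain ⟨i, -, rfl⟩ := Finset.mem_image.1 hH
    exact ((hN _ (huN i)).1.1 p hp).1.pos
  · intro H hH
    refine ⟨?_, fun p hp => (Finset.dvd_prod_of_mem _ hp).trans
      (Finset.dvd_prod_of_mem (fun H => ∏ p ∈ P H, p) hH)⟩
    obtain ⟨i, -, rfl⟩ := Finset.mem_image.1 hH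
    exact (hN _ (huN i)).2.2.2.1
  intro S σ x y hσ hx hy
  by_contra hcon
  push Not at hcon
  have one : ∀ i, i < m → S.H (blk σ x (2 * u (i + 1))) / (2 * u (i + 1)) ≤
      S.H (blk σ x (2 * u i)) / (2 * u i) - δ / 2 * (1 / Real.log (u i)) := by
    intro i hi
    have hmem : u i ∈ (Finset.range m).image u :=
      Finset.mem_image_of_mem u (Finset.mem_range.2 hi)
    obtain ⟨⟨c1, c2⟩, c3, c4, -, c5⟩ := hN _ (huN i)
    have st := step gibbs hoef hσ hx (P (u i)) h (u i) (kk (u i)) hh c5 c1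
      (fun ω => (hy ω).of_dvd (Finset.dvd_prod_of_mem (fun H => ∏ p ∈ P H, p) hmem)) hε
      (hcon _ hmem)
    have a1 := hl1 _ (huN i)
    have a3 : (0 : ℝ) < kk (u i) := by exact_mod_cast hk1 _ (huN i)
    have a4 : (0 : ℝ) < u i := by exact_mod_cast c5
    have a5 : 2 * Real.log (u i) / δ ≤ kk (u i) := Nat.le_ceil _
    have e : 2 * u (i + 1) = kk (u i) * (2 * u i) := by rw [hu]; ring
    have e' : (2 * (u (i + 1) : ℝ)) = kk (u i) * (2 * u i) := by
      rw [hu]
      push_cast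
      ring
    rw [e, e']
    set L := Real.log (u i)
    set K : ℝ := ((kk (u i) : ℕ) : ℝ)
    set U : ℝ := ((u i : ℕ) : ℝ)
    have hL : 0 < L := by linarith
    have l2 : Real.log 2 ≤ 1 := by linarith [Real.log_two_lt_d9]
    have d1 : 4 * δ * U / L ≤ ε ^ 2 * (P (u i)).card / 18 := by
      have := mul_le_mul_of_nonneg_left c2 (show 0 ≤ ε ^ 2 / 18 by positivity)
      calc 4 * δ * U / L = ε ^ 2 / 18 * (c * U / L) := by rw [hδ]; ring
        _ ≤ _ := this
        _ = _ := by ring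
    have d2 : 1 ≤ 2 * δ * U / L := (one_le_div hL).2 c4
    have d3 : 2 * δ * U / L ≤ ε ^ 2 * (P (u i)).card / 18 - Real.log 2 := by
      have : 4 * δ * U / L = 2 * (2 * δ * U / L) := by ring
      linarith
    have d4 : 1 ≤ K * (δ / (2 * L)) := by
      rw [div_le_iff₀ hδ0] at a5
      rw [← mul_div_assoc, one_le_div (by positivity)]
      exact a5
    rw [div_le_iff₀ (by positivity)]
    have d5 : (S.H (blk σ x (2 * u i)) / (2 * U) - δ / 2 * (1 / L)) * (K * (2 * U)) =
        K * (S.H (blk σ x (2 * u i)) - 2 * δ * U / L) + 2 * U * (K * (δ / (2 * L))) := by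
      field_simp
      ring
    rw [d5]
    have d6 : K * (S.H (blk σ x (2 * u i)) - (ε ^ 2 * (P (u i)).card / 18 - Real.log 2)) ≤
        K * (S.H (blk σ x (2 * u i)) - 2 * δ * U / L) :=
      mul_le_mul_of_nonneg_left (by linarith) a3.le
    have d7 : U * (2 * Real.log 2) ≤ 2 * U * (K * (δ / (2 * L))) := by nlinarith
    linarith
  have all : ∀ i, i ≤ m → S.H (blk σ x (2 * u i)) / (2 * u i) ≤
      Real.log 2 - δ / 2 * ∑ j ∈ Finset.range i, 1 / Real.log (u j) := by
    intro i
    induction i with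
    | zero =>
      intro _
      have a4 : (0 : ℝ) < u 0 := by exact_mod_cast (hN _ (huN 0)).2.2.2.2
      have := blk_le hσ x hx (2 * u 0)
      rw [Finset.sum_range_zero, mul_zero, sub_zero, div_le_iff₀ (by positivity)]
      push_cast at this
      linarith
    | succ i ih =>
      intro hi
      have := one i hi
      have := ih (Nat.le_of_succ_le hi)
      rw [Finset.sum_range_succ, mul_add]
      linarith
  have f1 := all m le_rfl
  have f2 : 0 ≤ S.H (blk σ x (2 * u m)) / (2 * u m) :=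
    div_nonneg (S.H_nonneg _) (by positivity)
  have f3 := mul_lt_mul_of_pos_left hm (show 0 < δ / 2 by positivity)
  have f4 : δ / 2 * (2 * Real.log 2 / δ) = Real.log 2 := by field_simp
  linarith

end Pool.Agent.MP_ca0a54_nt.BH.DECR
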