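import Pool.Agent.MP_ca0a54_nt.BH.Basic

/-! Dyadic decomposition and partial summation for the sums of `n ^ (-σ - i τ)`. -/

open Complex Filter

namespace Pool.Agent.MP_ca0a54_nt.BH.DY

theorem abel_aux (w : ℕ → ℝ) (z : ℕ → ℂ) (B : ℝ) (hw : ∀ m, w (m + 1) ≤ w m) (M : ℕ)
    (hz : ∀ M' ≤ M, ‖∑ m ∈ Finset.range M', z m‖ ≤ B) :
    ‖∑ m ∈ Finset.range M, (w m : ℂ) * z m - w M * ∑ m ∈ Finset.range M, z m‖ ≤
      (w 0 - w M) * B := by
  induction M with
  | zero => simp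
  | succ M ih =>
    have h1 := ih fun M' h => hz M' (by omega)
    have h2 := hz (M + 1) le_rfl
    have e : ∑ m ∈ Finset.range (M + 1), (w m : ℂ) * z m -
        w (M + 1) * ∑ m ∈ Finset.range (M + 1), z m =
        (∑ m ∈ Finset.range M, (w m : ℂ) * z m - w M * ∑ m ∈ Finset.range M, z m) +
          ((w M - w (M + 1) : ℝ) : ℂ) * ∑ m ∈ Finset.range (M + 1), z m := by
      rw [Finset.sum_range_succ, Finset.sum_range_succ]
      push_cast
      ring
    rw [e]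
    refine (norm_add_le _ _).trans ?_
    rw [norm_mul, norm_real, Real.norm_eq_abs, abs_of_nonneg (sub_nonneg.2 (hw M))]
    have h3 := mul_le_mul_of_nonneg_left h2 (sub_nonneg.2 (hw M))
    linarith

theorem abel (w : ℕ → ℝ) (z : ℕ → ℂ) (B : ℝ) (hw : ∀ m, w (m + 1) ≤ w m) (h0 : ∀ m, 0 ≤ w m)
    (M : ℕ) (hz : ∀ M' ≤ M, ‖∑ m ∈ Finset.range M', z m‖ ≤ B) :
    ‖∑ m ∈ Finset.range M, (w m : ℂ) * z m‖ ≤ w 0 * B := by
  have h1 := abel_aux w z B hw M hz
  have h2 := norm_le_norm_sub_add (∑ m ∈ Finset.range M, (w m : ℂ) * z m)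
    (w M * ∑ m ∈ Finset.range M, z m)
  rw [norm_mul, norm_real, Real.norm_eq_abs, abs_of_nonneg (h0 M)] at h2
  have h3 := mul_le_mul_of_nonneg_left (hz M le_rfl) (h0 M)
  linarith

/-- Dyadic decomposition. -/
theorem dyadic (f : ℕ → ℂ) (N₁ N₂ : ℕ) (E : ℝ) (hE : 0 ≤ E)
    (hb : ∀ N N', N₁ ≤ N → N < N' → N' ≤ 2 * N → N' ≤ N₂ → ‖∑ n ∈ Finset.Ioc N N', f n‖ ≤ E)
    (k : ℕ) : ∀ N, N₁ ≤ N → N₂ ≤ 2 ^ k * N → ‖∑ n ∈ Finset.Ioc N N₂, f n‖ ≤ k * E := by
  induction k with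
  | zero =>
    intro N _ h
    rw [Finset.Ioc_eq_empty (by omega)]
    simp
  | succ k ih =>
    intro N h1 h2
    have hk : 0 ≤ (k : ℝ) * E := mul_nonneg (Nat.cast_nonneg k) hE
    push_cast
    by_cases c1 : N₂ ≤ N
    · rw [Finset.Ioc_eq_empty (by omega), Finset.sum_empty, norm_zero]
      linarith
    by_cases c2 : N₂ ≤ 2 * N
    · linarith [hb N N₂ h1 (by omega) c2 le_rfl]
    have c3 : 0 < N := by
      rcases Nat.eq_zero_or_pos N with rfl | h
      · omega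
      · exact h
    rw [← Finset.sum_Ioc_consecutive f (show N ≤ 2 * N by omega) (show 2 * N ≤ N₂ by omega)]
    have h3 := hb N (2 * N) h1 (by omega) le_rfl (by omega)
    have h4 := ih (2 * N) (by omega) (by rw [← mul_assoc, ← pow_succ]; exact h2)
    linarith [norm_add_le (∑ n ∈ Finset.Ioc N (2 * N), f n) (∑ n ∈ Finset.Ioc (2 * N) N₂, f n)]

theorem sum_Ioc_eq (f : ℕ → ℂ) (N M : ℕ) :
    ∑ n ∈ Finset.Ioc N (N + M), f n = ∑ m ∈ Finset.range M, f (N + 1 + m) := by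
  induction M with
  | zero => simp
  | succ M ih =>
    rw [← add_assoc, Finset.sum_Ioc_succ_top (by omega), ih, Finset.sum_range_succ]
    congr 2
    omega

theorem log_two_le (N : ℕ) : ((Nat.log 2 N + 1 : ℕ) : ℝ) ≤ 2 * (1 + Real.log N) := by
  have h0 := Real.log_natCast_nonneg N
  rcases Nat.eq_zero_or_pos N with rfl | h
  · simp
  have h1 : (2 : ℝ) ^ Nat.log 2 N ≤ N := by exact_mod_cast Nat.pow_log_le_self 2 h.ne'
  have h2 := Real.log_le_log (pow_pos two_pos _) h1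
  rw [Real.log_pow] at h2
  have h3 := Real.log_two_gt_d9
  have h4 : (0 : ℝ) ≤ Nat.log 2 N := Nat.cast_nonneg _
  push_cast
  nlinarith

theorem dy (hW : WlogStmt) : DyStmt := by
  intro A hA
  obtain ⟨c, C, hc, hc1, hC, h⟩ := hW A hA
  refine ⟨c, 2 * C, hc, hc1, by linarith, fun N₁ N₂ σ r τ h1 hr0 hr1 hσ ht1 ht2 => ?_⟩
  have hN₁ : (1 : ℝ) ≤ N₁ := by exact_mod_cast h1
  have hτ : 0 ≤ |τ| ^ (-c) := Real.rpow_nonneg (abs_nonneg τ) _
  have hD : 0 ≤ |τ| ^ (-c) + (N₁ : ℝ) ^ (-c) :=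
    add_nonneg hτ (Real.rpow_nonneg (Nat.cast_nonneg _) _)
  have hE : 0 ≤ C * (N₂ : ℝ) ^ r * (|τ| ^ (-c) + (N₁ : ℝ) ^ (-c)) :=
    mul_nonneg (mul_nonneg (by linarith) (Real.rpow_nonneg (Nat.cast_nonneg _) _)) hD
  have key := dyadic (fun n => (((n : ℝ) ^ (-σ) : ℝ) : ℂ) * ei (-(τ * Real.log n))) N₁ N₂ _ hE
    (fun N N' a1 a2 a3 a4 => by
      obtain ⟨M, rfl⟩ := Nat.exists_eq_add_of_le a2.le
      have hN : (N₁ : ℝ) ≤ N := by exact_mod_cast a1
      have hx : (1 : ℝ) ≤ (N : ℝ) + 1 := by linarith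
      have hx2 : (N : ℝ) + 1 ≤ N₂ := by exact_mod_cast (show N + 1 ≤ N₂ by omega)
      rw [sum_Ioc_eq]
      have e := abel (fun m => ((N + 1 + m : ℕ) : ℝ) ^ (-σ))
        (fun m => ei (-(τ * Real.log ((N + 1 + m : ℕ) : ℝ))))
        (C * ((N : ℝ) + 1) * (|τ| ^ (-c) + ((N : ℝ) + 1) ^ (-c)))
        (fun m => Real.rpow_le_rpow_of_nonpos (by exact_mod_cast (show 0 < N + 1 + m by omega))
          (by exact_mod_cast (show N + 1 + m ≤ N + 1 + (m + 1) by omega)) (by linarith))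
        (fun m => Real.rpow_nonneg (Nat.cast_nonneg _) _) M (fun M' hM' => by
          have := h ((N : ℝ) + 1) τ M' hx (by exact_mod_cast (show M' ≤ N + 1 by omega)) ht1
            (ht2.trans (Real.rpow_le_rpow (by linarith) (by linarith) (by linarith)))
          simpa only [Nat.cast_add, Nat.cast_one] using this)
      refine e.trans ?_
      simp only [add_zero, Nat.cast_add, Nat.cast_one]
      have b1 : ((N : ℝ) + 1) ^ (-σ) * ((N : ℝ) + 1) ≤ (N₂ : ℝ) ^ r := by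
        rw [← Real.rpow_add_one (by linarith)]
        exact (Real.rpow_le_rpow_of_exponent_le hx (by linarith)).trans
          (Real.rpow_le_rpow (by linarith) hx2 hr0)
      have b2 : ((N : ℝ) + 1) ^ (-c) ≤ (N₁ : ℝ) ^ (-c) :=
        Real.rpow_le_rpow_of_nonpos (by linarith) (by linarith) (by linarith)
      have b3 : 0 ≤ |τ| ^ (-c) + ((N : ℝ) + 1) ^ (-c) :=
        add_nonneg hτ (Real.rpow_nonneg (by linarith) _)
      calc ((N : ℝ) + 1) ^ (-σ) * (C * ((N : ℝ) + 1) * (|τ| ^ (-c) + ((N : ℝ) + 1) ^ (-c)))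
          = C * (((N : ℝ) + 1) ^ (-σ) * ((N : ℝ) + 1)) * (|τ| ^ (-c) + ((N : ℝ) + 1) ^ (-c)) := by
            ring
        _ ≤ _ := mul_le_mul (mul_le_mul_of_nonneg_left b1 (by linarith)) (by linarith) b3
            (mul_nonneg (by linarith) (Real.rpow_nonneg (Nat.cast_nonneg _) _)))
    (Nat.log 2 N₂ + 1) N₁ le_rfl
    ((Nat.lt_pow_succ_log_self one_lt_two N₂).le.trans (Nat.le_mul_of_pos_right _ h1))
  refine key.trans ((mul_le_mul_of_nonneg_right (log_two_le N₂) hE).trans (le_of_eq ?_))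
  ring

theorem ks (hD : DyStmt) : KsStmt := by
  intro η hη hη1
  obtain ⟨c, C, hc, -, hC, h⟩ := hD (4 / η) (by rw [le_div_iff₀ hη]; linarith)
  have hβ : 0 < c * η / 4 := div_pos (mul_pos hc hη) (by norm_num)
  refine ⟨c * η / 4, hβ, ?_⟩
  filter_upwards [eventually_ge_atTop (2 / η), eventually_ge_atTop 2,
    eventually_ge_atTop (12 * C / (c * η / 4) ^ 2)] with V v1 v2 v3 τ t1 t2
  rw [div_le_iff₀ hη] at v1
  rw [div_le_iff₀ (pow_pos hβ 2)] at v3
  have e1 : Real.exp (η * V) = Real.exp (η * V / 2) * Real.exp (η * V / 2) := by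
    rw [← Real.exp_add]
    ring_nf
  have e2 : 2 ≤ Real.exp (η * V / 2) := by
    have := Real.add_one_le_exp (η * V / 2)
    linarith
  have hN : Real.exp (η * V / 2) ≤ (⌊Real.exp (η * V)⌋₊ : ℝ) := by
    have := Nat.lt_floor_add_one (Real.exp (η * V))
    nlinarith
  have hN1 : 1 ≤ ⌊Real.exp (η * V)⌋₊ := by
    have : (1 : ℝ) ≤ (⌊Real.exp (η * V)⌋₊ : ℝ) := by linarith
    exact_mod_cast this
  have t3 : 1 ≤ |τ| := le_trans (by nlinarith) t1
  have t4 : |τ| ≤ (⌊Real.exp (η * V)⌋₊ : ℝ) ^ (4 / η) := by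
    refine le_trans ?_ (Real.rpow_le_rpow (Real.exp_pos _).le hN (div_pos (by norm_num) hη).le)
    rw [← Real.exp_mul, show η * V / 2 * (4 / η) = V + V by field_simp; ring, Real.exp_add]
    have e3 : 4 ≤ Real.exp V := by
      have := Real.quadratic_le_exp_of_nonneg (show 0 ≤ V by linarith)
      nlinarith
    exact t2.trans (mul_le_mul_of_nonneg_right e3 (Real.exp_pos V).le)
  have key := h ⌊Real.exp (η * V)⌋₊ ⌊Real.exp (2 * V)⌋₊ 1 0 τ hN1 le_rfl zero_le_one (by norm_num)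
    t3 t4
  have e4 : (fun n : ℕ => (((n : ℝ) ^ (-(1 : ℝ)) : ℝ) : ℂ)) = fun n : ℕ => 1 / (n : ℂ) := by
    funext n
    rw [Real.rpow_neg_one, ofReal_inv, ofReal_natCast, one_div]
  rw [e4, Real.rpow_zero, mul_one] at key
  refine key.trans ?_
  have b1 : Real.log (⌊Real.exp (2 * V)⌋₊ : ℝ) ≤ 2 * V := by
    rcases Nat.eq_zero_or_pos ⌊Real.exp (2 * V)⌋₊ with h0 | h0
    · rw [h0, Nat.cast_zero, Real.log_zero]
      linarith
    · rw [Real.log_le_iff_le_exp (by exact_mod_cast h0)]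
      exact Nat.floor_le (Real.exp_pos _).le
  have b0 : Real.exp (η * V / 2) ^ (-c) = Real.exp (-(c * η / 4 * V)) * Real.exp (-(c * η / 4 * V)) := by
    rw [← Real.exp_mul, ← Real.exp_add]
    ring_nf
  have b2 : |τ| ^ (-c) ≤ Real.exp (η * V / 2) ^ (-c) :=
    Real.rpow_le_rpow_of_nonpos (Real.exp_pos _) (le_trans (by nlinarith) t1) (by linarith)
  have b3 : (⌊Real.exp (η * V)⌋₊ : ℝ) ^ (-c) ≤ Real.exp (η * V / 2) ^ (-c) :=
    Real.rpow_le_rpow_of_nonpos (Real.exp_pos _) hN (by linarith)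
  have b4 : C * (1 + 2 * V) * 2 ≤ Real.exp (c * η / 4 * V) := by
    have := Real.quadratic_le_exp_of_nonneg (mul_nonneg hβ.le (show 0 ≤ V by linarith))
    have b5 := mul_le_mul_of_nonneg_right v3 (show 0 ≤ V by linarith)
    have b6 := mul_nonneg hβ.le (show 0 ≤ V by linarith)
    have b7 := mul_le_mul_of_nonneg_left v2 (show 0 ≤ C by linarith)
    nlinarith
  have b8 : Real.exp (c * η / 4 * V) * Real.exp (-(c * η / 4 * V)) = 1 := by
    rw [← Real.exp_add, add_neg_cancel, Real.exp_zero]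
  have b9 := Real.exp_pos (-(c * η / 4 * V))
  calc C * (1 + Real.log (⌊Real.exp (2 * V)⌋₊ : ℝ)) *
        (|τ| ^ (-c) + (⌊Real.exp (η * V)⌋₊ : ℝ) ^ (-c))
      ≤ C * (1 + 2 * V) * (2 * Real.exp (η * V / 2) ^ (-c)) :=
        mul_le_mul (mul_le_mul_of_nonneg_left (by linarith) (by linarith)) (by linarith)
          (add_nonneg (Real.rpow_nonneg (abs_nonneg _) _) (Real.rpow_nonneg (Nat.cast_nonneg _) _))
          (mul_nonneg (by linarith) (by linarith))
    _ = C * (1 + 2 * V) * 2 * Real.exp (-(c * η / 4 * V)) * Real.exp (-(c * η / 4 * V)) := by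
        rw [b0]
        ring
    _ ≤ Real.exp (c * η / 4 * V) * Real.exp (-(c * η / 4 * V)) * Real.exp (-(c * η / 4 * V)) :=
        mul_le_mul_of_nonneg_right (mul_le_mul_of_nonneg_right b4 b9.le) b9.le
    _ = _ := by rw [b8, one_mul, neg_mul]

end Pool.Agent.MP_ca0a54_nt.BH.DY
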