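import Pool.Agent.MP_ca0a54_nt.BH.Basic

/-! The entropy decrement for the Liouville function in the logarithmic mean. -/

open Complex MeasureTheory Filter Topology

namespace Pool.Agent.MP_ca0a54_nt.BH.ENT

open Pool.Agent.MP_4b405e_nt.H17 (Sp MP)

/-- The harmonic sum. -/
noncomputable def W (K : ℕ) : ℝ := ∑ k : Fin K, 1 / ((k : ℕ) + 1 : ℝ)

theorem W_pos {K : ℕ} (hK : 1 ≤ K) : 0 < W K :=
  Finset.sum_pos (fun _ _ => by positivity) ⟨⟨0, hK⟩, Finset.mem_univ _⟩

theorem W_le (K : ℕ) : W K ≤ 1 + Real.log K := by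
  refine le_trans (le_of_eq ?_) (harmonic_le_one_add_log K)
  unfold W harmonic
  rw [Fin.sum_univ_eq_sum_range fun k : ℕ => 1 / ((k : ℝ) + 1)]
  simp

/-- The blocks of length `M` with harmonic weights. -/
noncomputable def sp (K M : ℕ) [NeZero M] (hK : 1 ≤ K) : Sp where
  Ω := Fin K × ZMod M
  fin := inferInstance
  p ω := 1 / ((ω.1 : ℕ) + 1 : ℝ) / (M * W K)
  pos ω := by
    have := W_pos hK
    have := NeZero.pos M
    positivity
  tot := by
    have h1 := W_pos hK
    have h2 := NeZero.pos M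
    rw [Fintype.sum_prod_type]
    simp only [Finset.sum_const, Finset.card_univ, ZMod.card, nsmul_eq_mul]
    rw [← Finset.mul_sum, ← Finset.sum_div]
    change (M : ℝ) * (W K / (M * W K)) = 1
    field_simp

/-- The cyclic shift inside the blocks. -/
def sh {K M : ℕ} (ω : Fin K × ZMod M) : Fin K × ZMod M := (ω.1, ω.2 + 1)

theorem sh_iter {K M : ℕ} (j : ℕ) (ω : Fin K × ZMod M) : sh^[j] ω = (ω.1, ω.2 + j) := by
  induction j with
  | zero => simp
  | succ j ih => rw [Function.iterate_succ_apply', ih, sh, Nat.cast_succ, add_assoc]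

theorem mp_sh (K M : ℕ) [NeZero M] (hK : 1 ≤ K) : MP (sp K M hK) (sp K M hK) sh := fun _ =>
  Fintype.sum_equiv ((Equiv.refl (Fin K)).prodCongr (Equiv.addRight (1 : ZMod M))) _ _
    fun _ => rfl

/-- The integer attached to a point. -/
def pt {K M : ℕ} (ω : Fin K × ZMod M) : ℕ := (ω.1 + 1) * M + ω.2.val

theorem FA_le {x : ℕ → ℝ} (hx : ∀ j, |x j| ≤ 1) (y : ℕ) {P : Finset ℕ} {B : ℕ}
    (hP : ∀ p ∈ P, p ≤ B) (h H : ℕ) : |FA x y P h H| ≤ P.card * H * (B + 1) := by
  unfold FA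
  refine (Finset.abs_sum_le_sum_abs _ _).trans ((Finset.sum_le_card_nsmul _ _
    ((H : ℝ) * (B + 1)) fun p hp => ?_).trans_eq (by rw [nsmul_eq_mul, mul_assoc]))
  refine (Finset.abs_sum_le_sum_abs _ _).trans ((Finset.sum_le_card_nsmul _ _
    ((B : ℝ) + 1) fun j _ => ?_).trans_eq (by rw [nsmul_eq_mul, Finset.card_range]))
  have h1 : (p : ℝ) ≤ B := by exact_mod_cast hP p hp
  have h0 : (0 : ℝ) ≤ p := Nat.cast_nonneg p
  have h2 : |(if p ∣ y + j then (p : ℝ) else 0) - 1| ≤ B + 1 := by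
    split_ifs <;> rw [abs_le] <;> constructor <;> linarith
  rw [abs_mul, abs_mul]
  exact (mul_le_of_le_one_right (abs_nonneg _)
    (mul_le_one₀ (hx _) (abs_nonneg _) (hx _))).trans h2

theorem FA_congr {x x' : ℕ → ℝ} {y y' h H : ℕ} {P : Finset ℕ} (hx : ∀ j < 2 * H, x j = x' j)
    (hP : ∀ p ∈ P, p * h ≤ H ∧ ∀ j, p ∣ y + j ↔ p ∣ y' + j) :
    FA x y P h H = FA x' y' P h H := by
  refine Finset.sum_congr rfl fun p hp => Finset.sum_congr rfl fun j hj => ?_
  have h1 := Finset.mem_range.1 hj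
  have h2 := (hP p hp).1
  rw [hx j (by omega), hx _ (by omega)]
  simp only [(hP p hp).2 j]

theorem cover {f : ℕ → ℝ} {D : ℝ} (hf : ∀ n, 0 ≤ f n) (hD : ∀ n, f n ≤ D) (N M : ℕ) [NeZero M] :
    LS N f ≤ M * D + ∑ ω : Fin (N / M) × ZMod M, f (pt ω) / ((((ω.1 : ℕ) : ℝ) + 1) * M) := by
  have hM := NeZero.pos M
  unfold LS
  rw [← Finset.sum_filter_add_sum_filter_not _ fun n => n < M]
  refine add_le_add ?_ ?_
  · refine (Finset.sum_le_card_nsmul _ _ D fun n hn => ?_).trans ?_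
    · exact (div_le_self (hf n)
        (by exact_mod_cast (Finset.mem_Icc.1 (Finset.mem_filter.1 hn).1).1)).trans (hD n)
    · rw [nsmul_eq_mul]
      refine mul_le_mul_of_nonneg_right ?_ ((hf 0).trans (hD 0))
      exact_mod_cast (Finset.card_le_card fun n hn =>
        Finset.mem_range.2 (Finset.mem_filter.1 hn).2).trans_eq (Finset.card_range M)
  · calc _ ≤ ∑ n ∈ Finset.univ.image (pt (K := N / M) (M := M)), f n / n := by
          refine Finset.sum_le_sum_of_subset_of_nonneg (fun n hn => ?_)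
            fun n _ _ => div_nonneg (hf n) (Nat.cast_nonneg n)
          obtain ⟨h1, h2⟩ := Finset.mem_filter.1 hn
          have h3 : 1 ≤ n / M := Nat.div_pos (not_lt.1 h2) hM
          have h4 : n / M ≤ N / M := Nat.div_le_div_right (Finset.mem_Icc.1 h1).2
          refine Finset.mem_image.2 ⟨(⟨n / M - 1, by omega⟩, (n : ZMod M)), Finset.mem_univ _, ?_⟩
          simp only [pt, ZMod.val_natCast]
          rw [Nat.sub_add_cancel h3, Nat.div_add_mod']
      _ ≤ ∑ ω : Fin (N / M) × ZMod M, f (pt ω) / pt ω :=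
          Finset.sum_image_le_of_nonneg fun n _ => div_nonneg (hf n) (Nat.cast_nonneg n)
      _ ≤ _ := Finset.sum_le_sum fun ω _ => div_le_div_of_nonneg_left (hf _) (by positivity)
          (by exact_mod_cast Nat.le_add_right _ _)

theorem bad_le (M B : ℕ) [NeZero M] :
    ∑ r : ZMod M, (if M < r.val + B then (1 : ℝ) else 0) ≤ B := by
  rw [Finset.sum_boole]
  have h : (Finset.univ.filter fun r : ZMod M => M < r.val + B).card ≤
      (Finset.Ico (M - B) M).card := by
    refine Finset.card_le_card_of_injOn (fun r => r.val) (fun r hr => ?_)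
      (ZMod.val_injective M).injOn
    have h1 := (Finset.mem_filter.1 hr).2
    exact Finset.mem_coe.2 (Finset.mem_Ico.2 ⟨Nat.sub_le_of_le_add h1.le, ZMod.val_lt r⟩)
  rw [Nat.card_Ico] at h
  exact_mod_cast h.trans (by omega)

theorem core {N M B h H : ℕ} [NeZero M] (hK : 1 ≤ N / M) {P : Finset ℕ} (hh : 1 ≤ h)
    (hH : H ≤ B) (hP : ∀ p ∈ P, p * h ≤ H ∧ p ∣ M) {δ : ℝ}
    (hM : (B + 1) * (2 * B : ℕ) ≤ δ * M)
    (hE : (sp (N / M) M hK).E (fun ω => |FA (fun j => lam (pt (sh^[j] ω))) ω.2.val P h H|) ≤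
      δ * P.card * H) :
    LS N (fun n => |FA (fun j => lam (n + j)) n P h H|) ≤
      P.card * H * (M * (B + 1) + 2 * δ * W (N / M)) := by
  have hM0 : (0 : ℝ) < M := by exact_mod_cast NeZero.pos M
  have hW := W_pos hK
  have hD : ∀ n, |FA (fun j => lam (n + j)) n P h H| ≤ P.card * H * (B + 1) := fun n =>
    FA_le (fun _ => abs_lam_le _) n
      (fun p hp => (Nat.le_mul_of_pos_right p hh).trans ((hP p hp).1.trans hH)) h H
  set D : ℝ := P.card * H * (B + 1) with hDe
  have h1 : ∀ ω : Fin (N / M) × ZMod M, |FA (fun j => lam (pt ω + j)) (pt ω) P h H| ≤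
      |FA (fun j => lam (pt (sh^[j] ω))) ω.2.val P h H| +
        D * if M < ω.2.val + 2 * B then (1 : ℝ) else 0 := by
    intro ω
    split_ifs with hb
    · linarith [hD (pt ω), abs_nonneg (FA (fun j => lam (pt (sh^[j] ω))) ω.2.val P h H)]
    · rw [mul_zero, add_zero, FA_congr (x' := fun j => lam (pt (sh^[j] ω))) (y' := ω.2.val)]
      · intro j hj
        have hj' : j < M := by omega
        rw [sh_iter, pt, pt, ZMod.val_add, ZMod.val_natCast, Nat.mod_eq_of_lt hj',
          Nat.mod_eq_of_lt (by omega), add_assoc]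
      · refine fun p hp => ⟨(hP p hp).1, fun j => ?_⟩
        rw [pt, add_assoc]
        exact Nat.dvd_add_right ((hP p hp).2.mul_left _)
  have h2 : ∑ ω : Fin (N / M) × ZMod M,
      |FA (fun j => lam (pt (sh^[j] ω))) ω.2.val P h H| / ((((ω.1 : ℕ) : ℝ) + 1) * M) =
      W (N / M) * (sp (N / M) M hK).E
        fun ω => |FA (fun j => lam (pt (sh^[j] ω))) ω.2.val P h H| := by
    unfold Sp.E
    rw [Finset.mul_sum]
    refine Finset.sum_congr rfl fun ω _ => ?_
    simp only [sp]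
    field_simp
  have h3 : ∑ ω : Fin (N / M) × ZMod M,
      (D * if M < ω.2.val + 2 * B then (1 : ℝ) else 0) / ((((ω.1 : ℕ) : ℝ) + 1) * M) =
      W (N / M) * (D / M * ∑ r : ZMod M, if M < r.val + 2 * B then (1 : ℝ) else 0) := by
    rw [Fintype.sum_prod_type, W, Finset.sum_mul]
    refine Finset.sum_congr rfl fun k _ => ?_
    rw [Finset.mul_sum, Finset.mul_sum]
    refine Finset.sum_congr rfl fun r _ => ?_
    field_simp
  have h4 : D / M * (∑ r : ZMod M, if M < r.val + 2 * B then (1 : ℝ) else 0) ≤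
      δ * P.card * H := by
    refine (mul_le_mul_of_nonneg_left (bad_le M (2 * B)) (by positivity)).trans ?_
    rw [div_mul_eq_mul_div, div_le_iff₀ hM0, hDe]
    have := mul_le_mul_of_nonneg_left hM (by positivity : (0 : ℝ) ≤ P.card * H)
    linarith
  refine (cover (fun _ => abs_nonneg _) hD N M).trans ?_
  refine (add_le_add le_rfl (Finset.sum_le_sum fun ω _ =>
    div_le_div_of_nonneg_right (h1 ω) (by positivity))).trans ?_
  simp only [add_div]
  rw [Finset.sum_add_distrib, h2, h3]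
  have h5 := mul_le_mul_of_nonneg_left hE hW.le
  have h6 := mul_le_mul_of_nonneg_left h4 hW.le
  rw [hDe] at *
  linarith

theorem ent (hd : DecrStmt) : EntStmt := by
  intro h H₀ c ε P hh hc hε hA
  obtain ⟨H₁, hH₁⟩ := eventually_atTop.1 hA
  obtain ⟨G, Q, hQ, hG, hd⟩ := hd h (max H₀ H₁) c (ε / 4) P hh hc (by positivity) hA
  refine ⟨G, fun H hH => (le_max_left _ _).trans (hG H hH).1, ?_⟩
  set B := G.sup id with hB
  obtain ⟨m, hm⟩ := exists_nat_ge (((B : ℝ) + 1) * (2 * B : ℕ) / (ε / 4))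
  set M := Q * (m + 1) with hM
  have : NeZero M := ⟨by positivity⟩
  have hM1 : ((B : ℝ) + 1) * (2 * B : ℕ) ≤ ε / 4 * M := by
    rw [div_le_iff₀' (by positivity)] at hm
    refine hm.trans (mul_le_mul_of_nonneg_left ?_ (by positivity))
    exact_mod_cast (Nat.le_succ m).trans (Nat.le_mul_of_pos_left _ hQ)
  have hlog := (Real.tendsto_log_atTop.comp tendsto_natCast_atTop_atTop).eventually_ge_atTop
    ((M * (B + 1) + ε / 2) / (ε / 2))
  filter_upwards [hlog, eventually_ge_atTop M] with N hN hNM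
  have hK : 1 ≤ N / M := Nat.div_pos hNM (NeZero.pos M)
  obtain ⟨H, hH, hE⟩ := hd (sp (N / M) M hK) sh (fun ω => lam (pt ω)) (fun ω => ω.2.val)
    (mp_sh _ _ hK) (fun ω => lam_eq (le_add_right (Nat.mul_pos (Nat.succ_pos _) (NeZero.pos M))))
    fun ω => Nat.ModEq.of_mul_right (m + 1) ((ZMod.natCast_eq_natCast_iff _ _ M).1 (by simp [sh]))
  refine ⟨H, hH, (core hK hh (Finset.le_sup (f := id) hH) (fun p hp =>
    ⟨((hH₁ H ((le_max_right _ _).trans (hG H hH).1)).1 p hp).2,
      ((hG H hH).2 p hp).mul_right _⟩) hM1 hE).trans ?_⟩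
  have h1 : W (N / M) ≤ 1 + Real.log N := (W_le _).trans (add_le_add le_rfl
    (Real.log_le_log (by exact_mod_cast hK) (by exact_mod_cast Nat.div_le_self N M)))
  rw [Function.comp_apply, div_le_iff₀' (by positivity)] at hN
  have h2 : M * (B + 1) + 2 * (ε / 4) * W (N / M) ≤ ε * Real.log N := by nlinarith
  calc _ ≤ (P H).card * H * (ε * Real.log N) := mul_le_mul_of_nonneg_left h2 (by positivity)
    _ = _ := by ring

end Pool.Agent.MP_ca0a54_nt.BH.ENT
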