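import Pool.Agent.MP_ca0a54_nt.BH.Basic
import Pool.Agent.MP_ca0a54_nt.L0.ZetaA
import Pool.Agent.MP_ca0a54_nt.H47.PrA
import Pool.Agent.MP_ca0a54_nt.H88.AR1

/-! Sums over primes and logarithms of `L`-functions; the ratio of two values of zeta. -/

open Complex Filter Topology ArithmeticFunction

namespace Pool.Agent.MP_ca0a54_nt.BH.EUL

theorem lamb : H47.Lam := H88.ar1.2.2.2.2.2.2.2

theorem term_eq (f : ℕ → ℂ) (a t : ℝ) {n : ℕ} (hn : 1 ≤ n) :
    LSeries.term f (1 + (a : ℝ) + I * t) n =
      f n * ((Real.exp (-(1 + a) * Real.log n) : ℝ) * ei (-(t * Real.log n))) := by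
  have h0 : n ≠ 0 := by omega
  rw [LSeries.term_of_ne_zero h0, div_eq_mul_inv, ← cpow_neg,
    cpow_def_of_ne_zero (by exact_mod_cast h0), ← natCast_log, ei, ofReal_exp, ← exp_add]
  refine congrArg (fun w => f n * exp w) ?_
  push_cast
  ring

theorem norm_le_of_hasSum {u : ℕ → ℂ} {S : ℂ} {C : ℝ} (h : HasSum u S) (h0 : u 0 = 0)
    (hb : ∀ N : ℕ, ∑ n ∈ Finset.Icc 1 N, ‖u n‖ ≤ C) : ‖S‖ ≤ C := by
  refine le_of_tendsto' h.tendsto_sum_nat.norm fun N => (norm_sum_le _ _).trans ?_
  have h1 : Finset.range N ⊆ insert 0 (Finset.Icc 1 N) := fun n hn => by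
    rw [Finset.mem_range] at hn
    rw [Finset.mem_insert, Finset.mem_Icc]
    omega
  refine (Finset.sum_le_sum_of_subset_of_nonneg h1 fun _ _ _ => norm_nonneg _).trans ?_
  rw [Finset.sum_insert (by simp), h0, norm_zero, zero_add]
  exact hb N

theorem small {x : ℝ} (h0 : 0 ≤ x) (h1 : x ≤ 1) : 1 - Real.exp (-x) ≤ 3 * (x * Real.exp (-x)) := by
  have h2 := Real.add_one_le_exp (-x)
  have h3 : Real.exp (-1) ≤ Real.exp (-x) := Real.exp_le_exp.2 (by linarith)
  have h4 : 1 ≤ 3 * Real.exp (-1) := by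
    rw [Real.exp_neg, ← div_eq_mul_inv, le_div_iff₀ (Real.exp_pos 1)]
    linarith [Real.exp_one_lt_d9]
  nlinarith

/-- The indicator of an interval and the difference of two exponentials. -/
theorem ind_le {u v : ℝ} (hv : 0 ≤ v) (h : v ≤ u) :
    |(if 1 < u ∧ v ≤ 1 then (1 : ℝ) else 0) - (Real.exp (-v) - Real.exp (-u))| ≤
      3 * (u * Real.exp (-u)) + 3 * (v * Real.exp (-v)) := by
  have hu : 0 ≤ u := hv.trans h
  have e1 := Real.exp_pos (-u)
  have e2 := Real.exp_pos (-v)
  have e3 : Real.exp (-u) ≤ Real.exp (-v) := Real.exp_le_exp.2 (by linarith)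
  have e4 : Real.exp (-v) ≤ 1 := Real.exp_le_one_iff.2 (by linarith)
  have p1 : 0 ≤ u * Real.exp (-u) := by positivity
  have p2 : 0 ≤ v * Real.exp (-v) := by positivity
  rw [abs_le]
  split_ifs with hc
  · have h1 := small hv hc.2
    have h2 : Real.exp (-u) ≤ u * Real.exp (-u) := le_mul_of_one_le_left e1.le hc.1.le
    constructor <;> linarith
  · rcases le_or_gt u 1 with h1 | h1
    · have h2 := small hu h1
      constructor <;> linarith
    · have h2 : 1 < v := lt_of_not_ge fun h3 => hc ⟨h1, h3⟩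
      have h3 : Real.exp (-v) ≤ v * Real.exp (-v) := le_mul_of_one_le_left e2.le h2.le
      constructor <;> linarith

/-- The real weight of the number `n`. -/
theorem weight_le {y z : ℝ} (hy : 1 ≤ y) (hz : y ≤ z) {n : ℕ} (hn : 1 ≤ n) :
    |(if n ∈ prm y z then 1 / (n : ℝ) else 0) - vonMangoldt n / Real.log n *
      (Real.exp (-(1 + 1 / z) * Real.log n) - Real.exp (-(1 + 1 / y) * Real.log n))| ≤
      (if ¬ n.Prime then vonMangoldt n / n else 0) +
        3 / y * (vonMangoldt n * Real.exp (-(1 + 1 / y) * Real.log n)) +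
        3 / z * (vonMangoldt n * Real.exp (-(1 + 1 / z) * Real.log n)) := by
  have hy0 : 0 < y := by linarith
  have hz0 : 0 < z := by linarith
  have hn0 : (0 : ℝ) < n := by exact_mod_cast hn
  have hΛ : 0 ≤ vonMangoldt n := vonMangoldt_nonneg
  rcases hn.eq_or_lt with rfl | hn1
  · have : 1 ∉ prm y z := fun h => Nat.not_prime_one (mem_prm.1 h).1
    simp [this]
  have hL : 0 < Real.log n := Real.log_pos (by exact_mod_cast hn1)
  rw [H47.exp_split hn, H47.exp_split hn]
  set L := Real.log n with hLd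
  have h1 := ind_le (u := L / y) (v := L / z) (by positivity)
    (div_le_div_of_nonneg_left hL.le hy0 hz)
  simp only [one_lt_div hy0, div_le_one hz0] at h1
  have e1 : -(1 / y) * L = -(L / y) := by ring
  have e2 : -(1 / z) * L = -(L / z) := by ring
  rw [e1, e2]
  set a := Real.exp (-(L / y))
  set b := Real.exp (-(L / z))
  set c : ℝ := if y < L ∧ L ≤ z then 1 else 0 with hc
  have hw : 0 ≤ vonMangoldt n / L / n := by positivity
  have h2 : |vonMangoldt n / L / n * (c - (b - a))| ≤
      3 / y * (vonMangoldt n * (a / n)) + 3 / z * (vonMangoldt n * (b / n)) := by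
    rw [abs_mul, abs_of_nonneg hw]
    refine (mul_le_mul_of_nonneg_left h1 hw).trans (le_of_eq ?_)
    field_simp
  have h3 : |(if n ∈ prm y z then 1 / (n : ℝ) else 0) - vonMangoldt n / L / n * c| ≤
      if ¬ n.Prime then vonMangoldt n / n else 0 := by
    by_cases hp : n.Prime
    · have e3 : vonMangoldt n / L = 1 := by
        rw [vonMangoldt_apply_prime hp, div_self hL.ne']
      rw [e3, if_neg (not_not.2 hp), hc]
      simp only [mem_prm, hp, true_and, ← hLd]
      split_ifs <;> simp
    · rw [if_neg fun h => hp (mem_prm.1 h).1, if_pos hp, zero_sub, abs_neg, hc]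
      split_ifs with h4
      · rw [mul_one, abs_of_nonneg hw]
        exact div_le_div_of_nonneg_right (div_le_self hΛ (by linarith [h4.1])) hn0.le
      · rw [mul_zero, abs_zero]
        positivity
  have e4 : (if n ∈ prm y z then 1 / (n : ℝ) else 0) - vonMangoldt n / L * (b / n - a / n) =
      ((if n ∈ prm y z then 1 / (n : ℝ) else 0) - vonMangoldt n / L / n * c) +
        vonMangoldt n / L / n * (c - (b - a)) := by ring
  rw [e4]
  refine (abs_add_le _ _).trans ?_
  linarith

theorem log_norm_L {q : ℕ} [NeZero q] (χ : DirichletCharacter ℂ q) {s : ℂ} (hs : 1 < s.re) :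
    Real.log ‖χ.LFunction s‖ =
      (LSeries (fun n : ℕ => χ n * vonMangoldt n / Real.log n) s).re := by
  rw [χ.LFunction_eq_LSeries hs, ← χ.LSeries_eq_exp_LSeries hs, norm_exp, Real.log_exp]

theorem summ {q : ℕ} (χ : DirichletCharacter ℂ q) {s : ℂ} (hs : 1 < s.re) :
    LSeriesSummable (fun n : ℕ => χ n * vonMangoldt n / Real.log n) s := by
  refine LSeriesSummable_of_bounded_of_one_lt_re (m := 1) (fun n _ => ?_) hs
  rw [norm_div, norm_mul, norm_real, norm_real, Real.norm_of_nonneg vonMangoldt_nonneg,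
    Real.norm_of_nonneg (Real.log_natCast_nonneg n)]
  refine div_le_one_of_le₀ ?_ (Real.log_natCast_nonneg n)
  exact (mul_le_of_le_one_left vonMangoldt_nonneg (χ.norm_le_one _)).trans vonMangoldt_le_log

theorem eul : EulStmt := by
  obtain ⟨C₀, hC0, hC⟩ := H47.pp
  refine ⟨C₀ + 72, by linarith, fun q _ χ y z t hy hz => ?_⟩
  have hy0 : 0 < y := by linarith
  have hz0 : 0 < z := by linarith
  have hre : ∀ x : ℝ, 0 < x → 1 < (1 + (1 / x : ℝ) + I * t : ℂ).re := fun x hx => by
    have : 0 < 1 / x := by positivity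
    simpa using hx
  rw [log_norm_L χ (hre z hz0), log_norm_L χ (hre y hy0), ← sub_re, ← sub_re]
  refine (abs_re_le_norm _).trans ?_
  have h1 : HasSum (fun n : ℕ => if n ∈ prm y z then χ n / n * ei (-(t * Real.log n)) else 0)
      (dir (fun p => χ p / p) (prm y z) t) := by
    have h2 := hasSum_sum_of_ne_finset_zero (L := SummationFilter.unconditional ℕ)
      (f := fun n : ℕ => if n ∈ prm y z then χ n / n * ei (-(t * Real.log n)) else 0)
      (s := prm y z) fun n hn => if_neg hn
    rwa [Finset.sum_congr rfl fun n hn => if_pos hn] at h2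
  refine norm_le_of_hasSum
    (h1.sub ((summ χ (hre z hz0)).hasSum.sub (summ χ (hre y hy0)).hasSum)) ?_ fun N => ?_
  · have : 0 ∉ prm y z := fun h => Nat.not_prime_zero (mem_prm.1 h).1
    simp [this]
  have h3 := lamb (1 / y) N (by positivity) ((div_le_one hy0).2 hy)
  have h4 := lamb (1 / z) N (by positivity) ((div_le_one hz0).2 (hy.trans hz))
  have h5 := hC N
  rw [Finset.sum_filter] at h5
  have h6 : 3 / y * (12 / (1 / y)) = 36 := by field_simp; norm_num
  have h7 : 3 / z * (12 / (1 / z)) = 36 := by field_simp; norm_num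
  have h8 := mul_le_mul_of_nonneg_left h3 (by positivity : 0 ≤ 3 / y)
  have h9 := mul_le_mul_of_nonneg_left h4 (by positivity : 0 ≤ 3 / z)
  rw [h6, Finset.mul_sum] at h8
  rw [h7, Finset.mul_sum] at h9
  have h10 := add_le_add (add_le_add h5 h8) h9
  rw [← Finset.sum_add_distrib, ← Finset.sum_add_distrib] at h10
  refine (Finset.sum_le_sum fun n hn => ?_).trans (h10.trans_eq (by ring))
  have hn1 := (Finset.mem_Icc.1 hn).1
  refine le_trans ?_ (weight_le hy hz hn1)
  rw [term_eq _ _ _ hn1, term_eq _ _ _ hn1]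
  have e : (if n ∈ prm y z then χ n / n * ei (-(t * Real.log n)) else 0) -
      (χ n * vonMangoldt n / Real.log n * ((Real.exp (-(1 + 1 / z) * Real.log n) : ℝ) *
        ei (-(t * Real.log n))) - χ n * vonMangoldt n / Real.log n *
        ((Real.exp (-(1 + 1 / y) * Real.log n) : ℝ) * ei (-(t * Real.log n)))) =
      χ n * ei (-(t * Real.log n)) * (((if n ∈ prm y z then 1 / (n : ℝ) else 0) -
        vonMangoldt n / Real.log n * (Real.exp (-(1 + 1 / z) * Real.log n) -
        Real.exp (-(1 + 1 / y) * Real.log n)) : ℝ) : ℂ) := by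
    generalize Real.exp (-(1 + 1 / z) * Real.log n) = a
    generalize Real.exp (-(1 + 1 / y) * Real.log n) = b
    generalize ei (-(t * Real.log n)) = w
    generalize Real.log n = L
    split_ifs <;> push_cast <;> ring
  rw [e, norm_mul, norm_mul, norm_ei, mul_one, norm_real, Real.norm_eq_abs]
  exact mul_le_of_le_one_left (abs_nonneg _) (χ.norm_le_one _)

theorem sum_le {α : ℝ} (hα : 0 < α) (N : ℕ) :
    ∑ n ∈ Finset.Icc 1 N, Real.exp (-(1 + α) * Real.log n) ≤ 1 + 1 / α := by
  have key : ∀ M : ℕ, ∑ n ∈ Finset.Icc 1 (M + 1), Real.exp (-(1 + α) * Real.log n) ≤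
      1 + (1 - Real.exp (-α * Real.log (M + 1 : ℕ))) / α := by
    intro M
    induction M with
    | zero => simp
    | succ M ih =>
      rw [Finset.sum_Icc_succ_top (by omega), H47.exp_split (by omega : 1 ≤ M + 1 + 1)]
      have h0 : (0 : ℝ) < (M + 1 : ℕ) := by positivity
      have h1 : (0 : ℝ) < (M + 1 + 1 : ℕ) := by positivity
      have h2 := Real.log_le_sub_one_of_pos (div_pos h0 h1)
      rw [Real.log_div h0.ne' h1.ne'] at h2
      have h3 : ((M + 1 : ℕ) : ℝ) / (M + 1 + 1 : ℕ) - 1 = -(1 / (M + 1 + 1 : ℕ)) := by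
        push_cast
        field_simp
        ring
      rw [h3] at h2
      generalize Real.log (M + 1 : ℕ) = a at *
      generalize Real.log (M + 1 + 1 : ℕ) = b at *
      generalize ((M + 1 + 1 : ℕ) : ℝ) = x at *
      have h4 : Real.exp (-α * a) = Real.exp (-α * b) * Real.exp (α * (b - a)) := by
        rw [← Real.exp_add]
        exact congrArg Real.exp (by ring)
      have h5 := Real.add_one_le_exp (α * (b - a))
      have h6 : α * (1 / x) ≤ α * (b - a) := mul_le_mul_of_nonneg_left (by linarith) hα.le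
      have h7 : Real.exp (-α * b) * (α * (1 / x) + 1) ≤ Real.exp (-α * a) := by
        rw [h4]
        exact mul_le_mul_of_nonneg_left (by linarith) (Real.exp_pos _).le
      have h8 : Real.exp (-α * b) / x ≤ (Real.exp (-α * a) - Real.exp (-α * b)) / α := by
        rw [le_div_iff₀ hα]
        calc _ = Real.exp (-α * b) * (α * (1 / x) + 1) - Real.exp (-α * b) := by ring
          _ ≤ _ := by linarith
      have h9 : (1 - Real.exp (-α * b)) / α = (1 - Real.exp (-α * a)) / α +
          (Real.exp (-α * a) - Real.exp (-α * b)) / α := by ring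
      linarith
  rcases N with _ | M
  · simp only [Finset.Icc_eq_empty_of_lt zero_lt_one, Finset.sum_empty]
    positivity
  · refine (key M).trans (add_le_add le_rfl (div_le_div_of_nonneg_right ?_ hα.le))
    linarith [Real.exp_pos (-α * Real.log (M + 1 : ℕ))]

theorem inv_le {α : ℝ} (hα : 0 < α) (τ : ℝ) :
    1 ≤ (1 + 1 / α) * ‖riemannZeta (1 + (α : ℝ) + I * τ)‖ := by
  have hs : 1 < (1 + (α : ℝ) + I * τ : ℂ).re := by simpa using hα
  have h0 := riemannZeta_ne_zero_of_one_lt_re hs
  have hm : ∀ n : ℕ, ‖((moebius n : ℤ) : ℂ)‖ ≤ 1 := fun n => by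
    have := abs_moebius_le_one (n := n)
    rw [norm_intCast]
    exact_mod_cast this
  have h1 : ‖(riemannZeta (1 + (α : ℝ) + I * τ))⁻¹‖ ≤ 1 + 1 / α := by
    rw [L0.ZetaA.inv_zeta_eq _ hs]
    refine norm_le_of_hasSum
      (LSeriesSummable_of_bounded_of_one_lt_re (fun n _ => hm n) hs).hasSum (by simp) fun N => ?_
    refine (Finset.sum_le_sum fun n hn => ?_).trans (sum_le hα N)
    rw [term_eq _ _ _ (Finset.mem_Icc.1 hn).1, norm_mul, norm_mul, norm_ei, mul_one, norm_real,
      Real.norm_of_nonneg (Real.exp_pos _).le]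
    exact mul_le_of_le_one_left (Real.exp_pos _).le (hm n)
  rwa [norm_inv, inv_eq_one_div, div_le_iff₀ (norm_pos_iff.2 h0)] at h1

theorem rat' : LbdStmt → LanStmt → RatStmt := by
  intro hL hN A hA
  have hA0 : 0 < A := by linarith
  obtain ⟨r, hr0, hr1, hV⟩ := hL (1 / (32 * A)) (by positivity)
  set c := 1 / (32 * A) * r with hc
  have hc0 : 0 < c := by positivity
  filter_upwards [hV, eventually_ge_atTop (8 * A / r), eventually_ge_atTop (2 * A),
    eventually_ge_atTop (4 / c ^ 2), eventually_ge_atTop 1] with V hV h1 h2 h3 h4 y z τ hy hz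
    hyV hτ hτV
  have hV0 : 0 < V := by linarith
  have hy2 : 2 ≤ y := le_trans (by rw [le_div_iff₀ hA0]; exact h2) hy
  have hy0 : 0 < y := by linarith
  have hz0 : 0 < z := by linarith
  have hiy : 1 / y ≤ A / V := by
    rw [div_le_div_iff₀ hy0 hV0]
    rw [div_le_iff₀ hA0] at hy
    linarith
  have hiy2 : 1 / y ≤ 1 / 2 := one_div_le_one_div_of_le two_pos hy2
  have hiy0 : 0 < 1 / y := by positivity
  have hiz0 : 0 < 1 / z := by positivity
  have hyz : 1 / z ≤ 1 / y := one_div_le_one_div_of_le hy0 hz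
  have hAV : A / V ≤ r / 8 := by
    rw [div_le_iff₀ hr0] at h1
    rw [div_le_div_iff₀ hV0 (by norm_num)]
    linarith
  set s : ℂ := 1 + (1 / y : ℝ) + I * τ with hs
  have hre : s.re = 1 + 1 / y := by simp [hs]
  have him : s.im = τ := by simp [hs]
  have hb : ∀ w ∈ Metric.ball (0 : ℂ) r, |w.re| < r ∧ |w.im| < r := fun w hw => by
    rw [mem_ball_zero_iff] at hw
    exact ⟨(abs_re_le_norm w).trans_lt hw, (abs_im_le_norm w).trans_lt hw⟩
  have hi : ∀ w ∈ Metric.ball (0 : ℂ) r, 1 ≤ |(s + w).im| ∧ |(s + w).im| ≤ Real.exp (3 * V) := by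
    intro w hw
    have h5 := (hb w hw).2
    rw [add_im, him]
    have h6 := abs_add_le τ w.im
    have h7 := abs_sub_abs_le_abs_add τ w.im
    have h8 : Real.exp (3 * V) = Real.exp (2 * V) * Real.exp V := by
      rw [← Real.exp_add]
      exact congrArg Real.exp (by ring)
    have h9 := Real.add_one_le_exp V
    have h10 := Real.add_one_le_exp (2 * V)
    exact ⟨by linarith, by nlinarith⟩
  have hlow : 1 ≤ Real.exp (c * V) * ‖riemannZeta s‖ := by
    refine (inv_le hiy0 τ).trans (mul_le_mul_of_nonneg_right ?_ (norm_nonneg _))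
    rw [one_div_one_div]
    have h5 := Real.quadratic_le_exp_of_nonneg (x := c * V) (by positivity)
    rw [div_le_iff₀ (by positivity)] at h3
    have h6 : 0 ≤ c * V := by positivity
    nlinarith
  have key := hN (fun w => riemannZeta (s + w)) r (2 * (c * V)) (1 / y - 1 / z) hr0
    (by positivity) (by linarith) (by linarith) (fun w hw => ?_) ?_ (fun w hw => ?_)
    (fun w hw h0 => ?_)
  · have e1 : s + -((1 / y - 1 / z : ℝ) : ℂ) = 1 + (1 / z : ℝ) + I * τ := by
      rw [hs]
      push_cast
      ring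
    simp only [e1, add_zero] at key
    refine key.trans (mul_le_mul_of_nonneg_right ?_ (norm_nonneg _))
    have h5 : 16 * (2 * (c * V)) * (1 / y - 1 / z) / r ≤ 1 := by
      have h6 : 16 * (2 * (c * V)) * (A / V) / r = 1 := by
        rw [hc]
        field_simp
        norm_num
      refine le_trans ?_ h6.le
      gcongr
      linarith
    linarith [Real.exp_le_exp.2 h5, Real.exp_one_lt_d9]
  · refine DifferentiableAt.differentiableWithinAt ?_
    refine (differentiableAt_riemannZeta fun h => ?_).comp w (by fun_prop)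
    have h5 := (hi w hw).1
    rw [h] at h5
    norm_num at h5
  · rw [add_zero]
    exact riemannZeta_ne_zero_of_one_lt_re (by linarith)
  · have h5 := abs_lt.1 (hb w hw).1
    have h6 := hV (s + w) (by rw [add_re]; linarith) (by rw [add_re]; linarith) (hi w hw).1
      (hi w hw).2
    simp only [add_zero]
    rw [two_mul, Real.exp_add, mul_assoc]
    exact h6.trans (le_mul_of_one_le_right (Real.exp_pos _).le hlow)
  · by_contra h5
    refine riemannZeta_ne_zero_of_one_le_re (s := s + w) ?_ h0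
    rw [add_re]
    linarith [not_le.1 h5]

end Pool.Agent.MP_ca0a54_nt.BH.EUL
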