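import Pool.Agent.MP_ca0a54_nt.BH.FINa

/-! The contribution of the exceptional set. -/

open Complex MeasureTheory Filter Topology

namespace Pool.Agent.MP_ca0a54_nt.BH.FIN

/-- The weight. -/
noncomputable def wt (u : ℝ) : ENNReal := ENNReal.ofReal ((3 * Real.sinc (3 * u / 2)) ^ 2)

theorem measurable_wt : Measurable wt := by
  unfold wt
  exact (((Real.continuous_sinc.comp (by fun_prop)).const_mul 3).pow 2).measurable.ennreal_ofReal

theorem swap (gal : GalStmt) (g : ℕ → ℂ) (a b : ℝ) (U : Set ℝ) :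
    ∫⁻ v in Set.Icc a b, ∫⁻ t in U, nsq (FF g v t) ≤
      ∫⁻ u, (∫⁻ t in U, nsq (dir (fun n => g n / n) (iv a (b + 3)) (t + u))) * wt u := by
  set W : ℝ → ℝ → ℂ := fun v t => ∑ n ∈ (iv a (b + 3)).filter
    fun n : ℕ => v < Real.log n ∧ Real.log n ≤ v + 3, g n / n * ei (-(t * Real.log n)) with hW
  have h1 : ∀ v ∈ Set.Icc a b, ∀ t, FF g v t = W v t := fun v hv t => by
    simp only [hW, FF, dir]
    refine Finset.sum_congr ?_ fun _ _ => rfl
    ext n
    rw [Finset.mem_filter, mem_iv, mem_iv]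
    exact ⟨fun h => ⟨⟨h.1, by linarith [hv.1, h.2.1], by linarith [hv.2, h.2.2]⟩, h.2⟩,
      fun h => ⟨h.1.1, h.2⟩⟩
  have h2 : Measurable (Function.uncurry fun v t => nsq (W v t)) := by
    refine measurable_nsq.comp ?_
    simp only [hW, Finset.sum_filter]
    refine Finset.measurable_sum _ fun n _ => Measurable.ite ?_ (by fun_prop) measurable_const
    exact (measurableSet_lt measurable_fst measurable_const).inter
      (measurableSet_le measurable_const (measurable_fst.add_const 3))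
  have h3 : Measurable (Function.uncurry fun t u : ℝ =>
      nsq (dir (fun n => g n / n) (iv a (b + 3)) (t + u)) * wt u) :=
    (measurable_nsq.comp ((continuous_dir _ _).measurable.comp
      (measurable_fst.add measurable_snd))).mul (measurable_wt.comp measurable_snd)
  calc _ = ∫⁻ v in Set.Icc a b, ∫⁻ t in U, nsq (W v t) :=
        setLIntegral_congr_fun measurableSet_Icc fun v hv => by simp only [h1 v hv]
    _ ≤ ∫⁻ v, ∫⁻ t in U, nsq (W v t) := setLIntegral_le_lintegral _ _
    _ = ∫⁻ t in U, ∫⁻ v, nsq (W v t) := lintegral_lintegral_swap h2.aemeasurable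
    _ ≤ ∫⁻ t in U, ∫⁻ u, nsq (dir (fun n => g n / n) (iv a (b + 3)) (t + u)) * wt u := by
        refine lintegral_mono fun t => ?_
        have h4 := gal 3 (fun n => g n / n * ei (-(t * Real.log n))) (iv a (b + 3)) three_pos
        simp only [dir_add]
        refine le_trans (le_mul_of_one_le_left' ?_) h4.le
        exact ENNReal.one_le_ofReal.2 (by linarith [Real.pi_gt_three])
    _ = ∫⁻ u, ∫⁻ t in U, nsq (dir (fun n => g n / n) (iv a (b + 3)) (t + u)) * wt u :=
        lintegral_lintegral_swap h3.aemeasurable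
    _ = _ := lintegral_congr fun u => lintegral_mul_const' _ _ ENNReal.ofReal_ne_top

theorem wt_le {R u : ℝ} (hR : 0 < R) (hu : R ≤ |u|) :
    wt u ≤ ENNReal.ofReal (8 / R ^ 2 * (1 + (u / R) ^ 2)⁻¹) := by
  refine ENNReal.ofReal_le_ofReal ?_
  have h0 : 0 < |u| := hR.trans_le hu
  have hu0 : u ≠ 0 := abs_pos.1 h0
  have h1 : R ^ 2 ≤ u ^ 2 := by
    rw [← sq_abs u]
    exact pow_le_pow_left₀ hR.le hu 2
  have e1 : (3 * Real.sinc (3 * u / 2)) ^ 2 = 4 * Real.sin (3 * u / 2) ^ 2 / u ^ 2 := by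
    rw [Real.sinc_of_ne_zero (by positivity)]
    field_simp
    ring
  have e2 : 8 / R ^ 2 * (1 + (u / R) ^ 2)⁻¹ = 8 / (R ^ 2 + u ^ 2) := by
    field_simp
  rw [e1, e2, div_le_div_iff₀ (by positivity) (by positivity)]
  nlinarith [Real.sin_sq_le_one (3 * u / 2), sq_nonneg (Real.sin (3 * u / 2)), sq_nonneg R,
    mul_le_mul_of_nonneg_right (Real.sin_sq_le_one (3 * u / 2)) (by positivity : 0 ≤ R ^ 2 + u ^ 2)]

theorem lint_tail {R : ℝ} (hR : 0 < R) :
    ∫⁻ u : ℝ, ENNReal.ofReal (8 / R ^ 2 * (1 + (u / R) ^ 2)⁻¹) =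
      ENNReal.ofReal (8 * Real.pi / R) := by
  rw [← ofReal_integral_eq_lintegral_ofReal
    ((integrable_inv_one_add_sq.comp_div hR.ne').const_mul _)
    (Eventually.of_forall fun u => by positivity), integral_const_mul,
    Measure.integral_comp_div fun x : ℝ => (1 + x ^ 2)⁻¹, integral_univ_inv_one_add_sq,
    abs_of_pos hR, smul_eq_mul]
  congr 1
  field_simp

theorem shift (F : ℝ → ENNReal) (U : Set ℝ) (u : ℝ) :
    ∫⁻ t in U, F (t + u) = ∫⁻ s in (fun s => s + -u) ⁻¹' U, F s := by
  rw [← (measurePreserving_add_right volume u).setLIntegral_comp_preimage_emb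
    (MeasurableEquiv.addRight u).measurableEmbedding F]
  congr 2
  ext t
  simp

theorem fin : FejStmt → GalStmt → HmStmt → MertStmt → FinStmt := by
  intro fej gal hm mert g hg hp η ε hη hη' hε
  set w := ∫ u : ℝ, (3 * Real.sinc (3 * u / 2)) ^ 2 with hw
  have hw0 : 0 ≤ w := integral_nonneg fun u => sq_nonneg _
  have hw1 : ∫⁻ u, wt u = ENNReal.ofReal w :=
    (ofReal_integral_eq_lintegral_ofReal (fej 3 three_pos).2.1
      (Eventually.of_forall fun u => sq_nonneg _)).symm
  obtain ⟨β, hβ, H⟩ := key hm mert hg hp hη hη' (ε := ε / (2 * (w + 1))) (by positivity)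
  refine ⟨min β (1 / 2), lt_min hβ one_half_pos, ?_⟩
  have hT : ∀ᶠ V : ℝ in atTop, (V / 2) ^ 2 * Real.exp (-(V / 2)) ≤ 1 / (128 * Real.pi) :=
    ((Real.tendsto_pow_mul_exp_neg_atTop_nhds_zero 2).comp
      (tendsto_id.atTop_div_const two_pos)).eventually_le_const (by positivity)
  filter_upwards [H, hT, eventually_ge_atTop 4, eventually_ge_atTop (2 / ε)] with V H hT h4 hV U
    hU hU1 hU2
  have hV0 : 0 < V := by linarith
  have hR := Real.exp_pos V
  refine (swap gal g _ _ U).trans ?_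
  set G := dir (fun n => g n / n) (iv (η * V) (V + 3)) with hG
  have hb : ∀ t, nsq (G t) ≤ ENNReal.ofReal ((2 * V) ^ 2) := fun t => by
    refine ENNReal.ofReal_le_ofReal (pow_le_pow_left₀ (norm_nonneg _) ?_ 2)
    have h1 := sum_inv_iv (v := η * V) (w := V + 3) (by nlinarith)
    have h2 := min_le_left 1 (Real.exp (-(η * V)))
    have h3 : ∑ n ∈ iv (η * V) (V + 3), ‖g n / n‖ ≤ ∑ n ∈ iv (η * V) (V + 3), 1 / (n : ℝ) :=
      Finset.sum_le_sum fun n _ => by
        rw [norm_div, norm_natCast]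
        exact div_le_div_of_nonneg_right (hg.bd n) (Nat.cast_nonneg n)
    have h5 := norm_dir_le (fun n => g n / n) (iv (η * V) (V + 3)) t
    nlinarith
  have h1 : ∀ u, (∫⁻ t in U, nsq (G (t + u))) * wt u ≤
      ENNReal.ofReal (ε / (2 * (w + 1)) * V) * wt u +
        ENNReal.ofReal ((2 * V) ^ 2 * Real.exp (V / 2)) *
          ENNReal.ofReal (8 / Real.exp V ^ 2 * (1 + (u / Real.exp V) ^ 2)⁻¹) := fun u => by
    rcases le_total |u| (Real.exp V) with hu | hu
    · refine le_add_right (mul_le_mul_left ?_ _)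
      rw [shift (fun t => nsq (G t))]
      refine H _ (measurable_add_const _ hU) (fun s hs => ?_) ?_
      · have h2 := hU1 hs
        have h3 := abs_le.1 hu
        constructor <;> linarith [h2.1, h2.2, h3.1, h3.2]
      · rw [measure_preimage_add_right]
        exact hU2.trans (ENNReal.ofReal_le_ofReal (Real.exp_le_exp.2
          (mul_le_mul_of_nonneg_right (min_le_left _ _) hV0.le)))
    · refine le_add_left (mul_le_mul' ?_ (wt_le hR hu))
      refine (lintegral_mono fun t => hb _).trans ?_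
      rw [setLIntegral_const, ENNReal.ofReal_mul (sq_nonneg _)]
      refine mul_le_mul_right (hU2.trans (ENNReal.ofReal_le_ofReal (Real.exp_le_exp.2 ?_))) _
      linarith [mul_le_mul_of_nonneg_right (min_le_right β (1 / 2)) hV0.le]
  refine (lintegral_mono h1).trans ?_
  rw [lintegral_add_left (measurable_wt.const_mul _),
    lintegral_const_mul' _ _ ENNReal.ofReal_ne_top, lintegral_const_mul' _ _ ENNReal.ofReal_ne_top,
    hw1, lint_tail hR, ← ENNReal.ofReal_mul (by positivity), ← ENNReal.ofReal_mul (by positivity),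
    ← ENNReal.ofReal_add (by positivity) (by positivity)]
  refine ENNReal.ofReal_le_ofReal ?_
  have h2 : ε / (2 * (w + 1)) * V * w ≤ ε * V / 2 := by
    rw [div_mul_eq_mul_div, div_mul_eq_mul_div, div_le_div_iff₀ (by positivity) two_pos]
    nlinarith [mul_pos hε hV0]
  have h3 : (2 * V) ^ 2 * Real.exp (V / 2) * (8 * Real.pi / Real.exp V) =
      (V / 2) ^ 2 * Real.exp (-(V / 2)) * (128 * Real.pi) := by
    have e : Real.exp (V / 2) / Real.exp V = Real.exp (-(V / 2)) := by
      rw [← Real.exp_sub]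
      congr 1
      ring
    rw [← e]
    ring
  have h5 := (le_div_iff₀ (by positivity)).1 hT
  have h6 := (div_le_iff₀ hε).1 hV
  linarith

end Pool.Agent.MP_ca0a54_nt.BH.FIN
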