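import Pool.Agent.MP_ca0a54_nt.BH.Basic

/-! The long polynomial is small on sparse sets. -/

open Complex MeasureTheory Filter Topology

namespace Pool.Agent.MP_ca0a54_nt.BH.FIN

/-- The number of representations. -/
noncomputable def cnt (B I : Finset ℕ) (n : ℕ) : ℝ :=
  ∑ p ∈ B, if p ∣ n ∧ n / p ∈ I then 1 else 0

/-- The coefficients of the product. -/
noncomputable def ee (B I : Finset ℕ) (n : ℕ) : ℝ :=
  (if n ∈ I then 1 else 0) - cnt B I n / rcp B

theorem sum_mul_eq (f : ℕ → ℂ) {I J : Finset ℕ} {p : ℕ} (hp : 0 < p)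
    (h : ∀ m ∈ I, p * m ∈ J) :
    ∑ m ∈ I, f (p * m) = ∑ n ∈ J, if p ∣ n ∧ n / p ∈ I then f n else 0 := by
  rw [← Finset.sum_filter]
  refine Finset.sum_nbij' (fun m => p * m) (fun n => n / p) ?_ ?_ ?_ ?_ fun _ _ => rfl
  · intro m hm
    refine Finset.mem_filter.2 ⟨h m hm, dvd_mul_right _ _, ?_⟩
    rwa [Nat.mul_div_cancel_left _ hp]
  · intro n hn
    exact (Finset.mem_filter.1 hn).2.2
  · intro m _
    exact Nat.mul_div_cancel_left _ hp
  · intro n hn
    exact Nat.mul_div_cancel' (Finset.mem_filter.1 hn).2.1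

theorem dir_mul {g : ℕ → ℂ} (hg : CM g) {B I J : Finset ℕ} (hB : ∀ p ∈ B, 0 < p) (hI : 0 ∉ I)
    (h : ∀ p ∈ B, ∀ m ∈ I, p * m ∈ J) (t : ℝ) :
    dir (fun p => g p / p) B t * dir (fun n => g n / n) I t =
      ∑ n ∈ J, (cnt B I n : ℂ) * (g n / n * ei (-(t * Real.log n))) := by
  unfold dir cnt
  rw [Finset.sum_mul_sum]
  have h1 : ∀ p ∈ B, ∑ m ∈ I, g p / p * ei (-(t * Real.log p)) * (g m / m * ei (-(t * Real.log m))) =
      ∑ n ∈ J, if p ∣ n ∧ n / p ∈ I then g n / n * ei (-(t * Real.log n)) else 0 := fun p hp => by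
    rw [← sum_mul_eq (fun n => g n / n * ei (-(t * Real.log n))) (hB p hp) (h p hp)]
    refine Finset.sum_congr rfl fun m hm => ?_
    have hm0 : (m : ℝ) ≠ 0 := Nat.cast_ne_zero.2 fun e => hI (e ▸ hm)
    have hp0 : (p : ℝ) ≠ 0 := Nat.cast_ne_zero.2 (hB p hp).ne'
    rw [hg.mul, Nat.cast_mul, Nat.cast_mul, Real.log_mul hp0 hm0, mul_add, neg_add, ei_add]
    ring
  rw [Finset.sum_congr rfl h1, Finset.sum_comm]
  refine Finset.sum_congr rfl fun n _ => ?_
  push_cast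
  rw [Finset.sum_mul]
  refine Finset.sum_congr rfl fun p _ => ?_
  split_ifs <;> simp

theorem dir_ee {g : ℕ → ℂ} (hg : CM g) {B I J : Finset ℕ} (hB : ∀ p ∈ B, 0 < p) (hI : 0 ∉ I)
    (h : ∀ p ∈ B, ∀ m ∈ I, p * m ∈ J) (hIJ : I ⊆ J) (t : ℝ) :
    (1 - dir (fun p => g p / p) B t / (rcp B : ℝ)) * dir (fun n => g n / n) I t =
      dir (fun n => (ee B I n : ℂ) * g n / n) J t := by
  rw [sub_mul, one_mul, div_mul_eq_mul_div, dir_mul hg hB hI h]
  have h1 : dir (fun n => g n / n) I t =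
      ∑ n ∈ J, if n ∈ I then g n / n * ei (-(t * Real.log n)) else 0 := by
    rw [← Finset.sum_filter, Finset.filter_mem_eq_inter, Finset.inter_eq_right.2 hIJ]
    rfl
  rw [h1, Finset.sum_div, ← Finset.sum_sub_distrib]
  unfold dir ee
  refine Finset.sum_congr rfl fun n _ => ?_
  by_cases hn : n ∈ I <;> simp only [hn, if_true, if_false] <;> push_cast <;> ring

theorem log_div {p n : ℕ} (hp : 0 < p) (hn : 1 ≤ n) (h : p ∣ n) :
    1 ≤ n / p ∧ Real.log (n / p : ℕ) = Real.log n - Real.log p := by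
  obtain ⟨m, rfl⟩ := h
  have hm : 1 ≤ m := Nat.pos_of_mul_pos_left hn
  rw [Nat.mul_div_cancel_left _ hp, Nat.cast_mul,
    Real.log_mul (Nat.cast_ne_zero.2 hp.ne') (Nat.cast_ne_zero.2 (by omega))]
  exact ⟨hm, by ring⟩

theorem ee_sq_le {a b w y z : ℝ} (hL : 0 < rcp (prm y z)) {n : ℕ}
    (hn : n ∈ iv a w) :
    ee (prm y z) (iv a b) n ^ 2 ≤ 2 * (om (prm y z) n / rcp (prm y z) - 1) ^ 2 +
      3 * (if n ∈ iv a (a + z) then 1 else 0) + 3 * (if n ∈ iv b (b + z) then 1 else 0) := by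
  obtain ⟨h1, h2, -⟩ := mem_iv.1 hn
  have c0 : 0 ≤ cnt (prm y z) (iv a b) n / rcp (prm y z) :=
    div_nonneg (Finset.sum_nonneg fun p _ => by split_ifs <;> norm_num) hL.le
  have c1 : cnt (prm y z) (iv a b) n / rcp (prm y z) ≤ om (prm y z) n / rcp (prm y z) := by
    refine div_le_div_of_nonneg_right ?_ hL.le
    rw [om_eq]
    refine Finset.sum_le_sum fun p _ => ?_
    by_cases h : p ∣ n
    · rw [if_pos h]
      split_ifs <;> norm_num
    · simp [h]
  have c2 : ee (prm y z) (iv a b) n ^ 2 ≤ 2 * (om (prm y z) n / rcp (prm y z) - 1) ^ 2 + 3 := by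
    unfold ee
    split_ifs <;> nlinarith [sq_nonneg (om (prm y z) n / rcp (prm y z) - 2)]
  have s0 := sq_nonneg (om (prm y z) n / rcp (prm y z) - 1)
  by_cases e1 : n ∈ iv a (a + z)
  · rw [if_pos e1]
    split_ifs <;> linarith
  by_cases e2 : n ∈ iv b (b + z)
  · rw [if_pos e2, if_neg e1]
    linarith
  rw [if_neg e1, if_neg e2]
  have g1 : a + z < Real.log n := by
    by_contra hc
    exact e1 (mem_iv.2 ⟨h1, h2, not_lt.1 hc⟩)
  rcases le_or_gt (Real.log n) b with g2 | g2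
  · have : cnt (prm y z) (iv a b) n = om (prm y z) n := by
      rw [om_eq]
      refine Finset.sum_congr rfl fun p hp => ?_
      obtain ⟨p1, -, p3⟩ := mem_prm.1 hp
      refine if_congr ⟨fun h => h.1, fun h => ⟨h, ?_⟩⟩ rfl rfl
      obtain ⟨q1, q2⟩ := log_div p1.pos h1 h
      have := Real.log_natCast_nonneg p
      exact mem_iv.2 ⟨q1, by linarith, by linarith⟩
    unfold ee
    rw [if_pos (mem_iv.2 ⟨h1, h2, g2⟩), this]
    nlinarith
  · have g3 : b + z < Real.log n := by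
      by_contra hc
      exact e2 (mem_iv.2 ⟨h1, g2, not_lt.1 hc⟩)
    have : cnt (prm y z) (iv a b) n = 0 := by
      refine Finset.sum_eq_zero fun p hp => if_neg fun h => ?_
      obtain ⟨p1, -, p3⟩ := mem_prm.1 hp
      obtain ⟨-, q2⟩ := log_div p1.pos h1 h.1
      have := (mem_iv.1 h.2).2.2
      linarith
    unfold ee
    rw [if_neg fun h => absurd (mem_iv.1 h).2.2 (not_le.2 g2), this]
    simp only [zero_div, sub_zero]
    nlinarith

theorem sum_ite_le (J : Finset ℕ) {a z : ℝ} (hz : 0 ≤ z) :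
    ∑ n ∈ J, (if n ∈ iv a (a + z) then (1 : ℝ) else 0) / n ≤ z + 1 := by
  have h1 := sum_inv_iv (v := a) (w := a + z) (by linarith)
  have h2 := min_le_left 1 (Real.exp (-a))
  have h3 : ∑ n ∈ J, (if n ∈ iv a (a + z) then (1 : ℝ) else 0) / n ≤
      ∑ n ∈ iv a (a + z), 1 / (n : ℝ) := by
    simp only [ite_div, zero_div]
    rw [← Finset.sum_filter]
    exact Finset.sum_le_sum_of_subset_of_nonneg (fun n hn => (Finset.mem_filter.1 hn).2)
      fun n _ _ => by positivity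
  linarith

theorem sum_ee {g : ℕ → ℂ} (hg : CM g) {a b w y z : ℝ} (hz : 0 ≤ z) (hza : z ≤ a) (haw : a ≤ w)
    (hL : 0 < rcp (prm y z)) :
    ∑ n ∈ iv a w, ‖(ee (prm y z) (iv a b) n : ℂ) * g n‖ ^ 2 / n ≤
      10 * (w - a + 1) / rcp (prm y z) + 6 * (z + 1) := by
  have h1 := tk_long (prm y z) (fun p hp => (mem_prm.1 hp).1) hL (v := a) (w := w)
    (((Nat.cast_le.2 (Finset.card_filter_le _ _)).trans (card_iv_le y z)).trans
      (Real.exp_le_exp.2 hza)) haw
  have h2 := sum_ite_le (iv a w) (a := a) hz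
  have h3 := sum_ite_le (iv a w) (a := b) hz
  calc _ ≤ ∑ n ∈ iv a w, (2 * ((om (prm y z) n / rcp (prm y z) - 1) ^ 2 / n) +
        3 * ((if n ∈ iv a (a + z) then (1 : ℝ) else 0) / n) +
        3 * ((if n ∈ iv b (b + z) then (1 : ℝ) else 0) / n)) := by
        refine Finset.sum_le_sum fun n hn => ?_
        have h4 : ‖(ee (prm y z) (iv a b) n : ℂ) * g n‖ ^ 2 ≤ ee (prm y z) (iv a b) n ^ 2 := by
          rw [norm_mul, norm_real, mul_pow, Real.norm_eq_abs, sq_abs]
          exact mul_le_of_le_one_right (sq_nonneg _) (pow_le_one₀ (norm_nonneg _) (hg.bd n))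
        refine (div_le_div_of_nonneg_right (h4.trans (ee_sq_le hL hn))
          (Nat.cast_nonneg n)).trans_eq ?_
        ring
    _ ≤ _ := by
        rw [Finset.sum_add_distrib, Finset.sum_add_distrib, ← Finset.mul_sum, ← Finset.mul_sum,
          ← Finset.mul_sum]
        have e : 10 * (w - a + 1) / rcp (prm y z) = 2 * (5 * (w - a + 1) / rcp (prm y z)) := by
          ring
        linarith

theorem nsq_le {P G : ℂ} {c : ℝ} (hc : 0 < c) (h : P.re ≤ 1 - c / 2) :
    nsq G ≤ ENNReal.ofReal (4 / c ^ 2) * nsq ((1 - P) * G) := by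
  unfold nsq
  rw [← ENNReal.ofReal_mul (by positivity)]
  refine ENNReal.ofReal_le_ofReal ?_
  have h1 : c / 2 ≤ ‖1 - P‖ := le_trans (by simp only [sub_re, one_re]; linarith) (re_le_norm _)
  have h2 := pow_le_pow_left₀ (by positivity) h1 2
  rw [norm_mul, mul_pow, ← mul_assoc]
  refine le_mul_of_one_le_left (sq_nonneg _) ?_
  rw [div_mul_eq_mul_div, le_div_iff₀ (by positivity)]
  linarith

theorem key (hm : HmStmt) (mert : MertStmt) {g : ℕ → ℂ} (hg : CM g) (hp : Pret g) {η ε : ℝ}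
    (hη : 0 < η) (hη' : η ≤ 1 / 2) (hε : 0 < ε) :
    ∃ β : ℝ, 0 < β ∧ ∀ᶠ V : ℝ in atTop, ∀ U : Set ℝ, MeasurableSet U →
      U ⊆ Set.Icc (-(2 * Real.exp V)) (2 * Real.exp V) →
      volume U ≤ ENNReal.ofReal (Real.exp (β * V)) →
      ∫⁻ t in U, nsq (dir (fun n => g n / n) (iv (η * V) (V + 3)) t) ≤ ENNReal.ofReal (ε * V) := by
  obtain ⟨β, C, hβ, hC, hm⟩ := hm η hη (by linarith)
  obtain ⟨M, hM, mert⟩ := mert
  obtain ⟨c, C', hc, -, hC', hp⟩ := hp
  set D := 4 / c ^ 2 * C with hD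
  have hD0 : 0 < D := by positivity
  set δ := min η (ε / (18 * D)) with hδ
  have hδ0 : 0 < δ := lt_min hη (by positivity)
  have hδ1 : δ ≤ η := min_le_left _ _
  have hδ2 : δ * (18 * D) ≤ ε := (le_div_iff₀ (by positivity)).1 (min_le_right _ _)
  set L := max (2 * C' / c) (90 * D / ε) with hL
  have hL0 : 0 < L := lt_max_of_lt_right (by positivity)
  set E := Real.exp (M * (L + M)) with hE
  have hE1 : 1 ≤ E := Real.one_le_exp (by positivity)
  have hA : 1 ≤ E / δ := by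
    rw [le_div_iff₀ hδ0]
    linarith
  refine ⟨β, hβ, ?_⟩
  filter_upwards [hm, hp (E / δ) hA, eventually_ge_atTop 6, eventually_ge_atTop (M * (E / δ)),
    eventually_ge_atTop (18 * D / ε)] with V hm hp h6 hV1 hV2 U hU hU1 hU2
  have hV0 : 0 < V := by linarith
  have hy : M ≤ V / (E / δ) := (le_div_iff₀ (by positivity)).2 hV1
  have hq : δ * V / (V / (E / δ)) = E := by field_simp
  have hyz : V / (E / δ) ≤ δ * V := by
    rwa [← one_le_div₀ (by positivity), hq]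
  have hz1 : δ * V ≤ η * V := mul_le_mul_of_nonneg_right hδ1 hV0.le
  have hz2 : η * V ≤ V / 2 := by nlinarith
  set B := prm (V / (E / δ)) (δ * V) with hB
  have hLB : L ≤ rcp B := by
    have h1 := mert _ _ hy hyz
    rw [← hB, hq, hE, Real.log_exp, mul_div_cancel_left₀ _ (by positivity : M ≠ 0)] at h1
    linarith
  have hB0 : 0 < rcp B := hL0.trans_le hLB
  have h1 : ∀ t ∈ U, nsq (dir (fun n => g n / n) (iv (η * V) (V + 3)) t) ≤
      ENNReal.ofReal (4 / c ^ 2) * nsq (dir (fun n => (ee B (iv (η * V) (V + 3)) n : ℂ) * g n / n)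
        (iv (η * V) (2 * V)) t) := fun t ht => by
    rw [← dir_ee hg (B := B) (fun p hp => (mem_prm.1 hp).1.pos) (zero_notMem_iv _ _)]
    · refine nsq_le hc ?_
      have h2 := hp _ _ t le_rfl hyz (by linarith) (abs_le.2 (hU1 ht))
      have h3 : 2 * C' ≤ rcp B * c :=
        (div_le_iff₀ hc).1 ((le_max_left _ _).trans hLB)
      rw [← hB] at h2
      rw [div_ofReal_re, div_le_iff₀ hB0]
      nlinarith
    · intro p hp m hm
      obtain ⟨p1, -, p3⟩ := mem_prm.1 hp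
      obtain ⟨m1, m2, m3⟩ := mem_iv.1 hm
      have := Real.log_natCast_nonneg p
      rw [mem_iv, Nat.cast_mul,
        Real.log_mul (Nat.cast_ne_zero.2 p1.ne_zero) (Nat.cast_ne_zero.2 (by omega))]
      exact ⟨Nat.mul_pos p1.pos m1, by linarith, by linarith⟩
    · intro m hm
      obtain ⟨m1, m2, m3⟩ := mem_iv.1 hm
      exact mem_iv.2 ⟨m1, m2, by linarith⟩
  refine (setLIntegral_mono' hU h1).trans ?_
  rw [lintegral_const_mul' _ _ ENNReal.ofReal_ne_top]
  refine (mul_le_mul_right (hm U _ hU hU1 hU2) _).trans ?_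
  rw [← ENNReal.ofReal_mul (by positivity), ← mul_assoc, ← hD]
  refine ENNReal.ofReal_le_ofReal ?_
  have h2 := sum_ee hg (b := V + 3) (w := 2 * V) (by positivity) hz1 (by linarith) hB0
  rw [← hB] at h2
  refine (mul_le_mul_of_nonneg_left h2 hD0.le).trans ?_
  have h3 : 90 * D ≤ rcp B * ε := (div_le_iff₀ hε).1 ((le_max_right _ _).trans hLB)
  have h4 : 18 * D ≤ V * ε := (div_le_iff₀ hε).1 hV2
  have h5 : D * (10 * (2 * V - η * V + 1) / rcp B) ≤ ε * V / 3 := by
    rw [← mul_div_assoc, div_le_iff₀ hB0]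
    have h6 : 2 * V - η * V + 1 ≤ 3 * V := by nlinarith
    nlinarith [mul_le_mul_of_nonneg_left h6 hD0.le, mul_le_mul_of_nonneg_right h3 hV0.le]
  nlinarith [mul_le_mul_of_nonneg_right hδ2 hV0.le]

end Pool.Agent.MP_ca0a54_nt.BH.FIN
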