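import Pool.Agent.MP_ca0a54_nt.BH.Basic

/-! Row GAL: the kernel of Fejer and the identity of Gallagher. -/

open Complex MeasureTheory Filter Topology

namespace Pool.Agent.MP_ca0a54_nt.BH.GAL

theorem mul_sinc (x : ℝ) : x * Real.sinc x = Real.sin x := by
  rcases eq_or_ne x 0 with rfl | h
  · simp
  · rw [Real.sinc_of_ne_zero h, mul_div_cancel₀ _ h]

theorem int_cos (θ ξ : ℝ) :
    ∫ t in (0 : ℝ)..θ, 2 * (θ - t) * Real.cos (ξ * t) = (θ * Real.sinc (θ * ξ / 2)) ^ 2 := by
  rcases eq_or_ne ξ 0 with rfl | h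
  · simp only [zero_mul, Real.cos_zero, mul_one, mul_zero, zero_div, Real.sinc_zero]
    rw [intervalIntegral.integral_const_mul, intervalIntegral.integral_sub (by simp) (by simp)]
    simp
    ring
  rw [intervalIntegral.integral_eq_sub_of_hasDerivAt
    (f := fun t => 2 * ((θ - t) * Real.sin (ξ * t) / ξ - Real.cos (ξ * t) / ξ ^ 2))
    (fun t _ => ?_) (Continuous.intervalIntegrable (by fun_prop) _ _)]
  · have h1 : θ * Real.sinc (θ * ξ / 2) = 2 * Real.sin (θ * ξ / 2) / ξ := by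
      rw [← mul_sinc]
      field_simp
    have h2 : Real.cos (ξ * θ) = 1 - 2 * Real.sin (θ * ξ / 2) ^ 2 := by
      rw [← Real.cos_two_mul_eq_one_sub]
      congr 1
      ring
    rw [h1, h2]
    simp only [sub_self, zero_mul, mul_zero, Real.sin_zero, Real.cos_zero]
    field_simp
    ring
  · have h1 : HasDerivAt (fun t => ξ * t) ξ t := by simpa using (hasDerivAt_id t).const_mul ξ
    refine (((((hasDerivAt_id t).const_sub θ).mul h1.sin).div_const ξ).sub
      (h1.cos.div_const (ξ ^ 2))).const_mul 2 |>.congr_deriv ?_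
    simp only [id]
    field_simp
    ring

theorem supp {θ : ℝ} (g : ℝ → ℂ) :
    Function.support (fun t => ((max (θ - |t|) 0 : ℝ) : ℂ) * g t) ⊆ Set.Ioc (-θ) θ := by
  intro t ht
  have h1 : |t| < θ := by
    by_contra h
    exact ht (by simp only [max_eq_right (sub_nonpos.2 (not_lt.1 h)), ofReal_zero, zero_mul])
  exact ⟨(abs_lt.1 h1).1, (abs_lt.1 h1).2.le⟩

theorem fej1 {θ : ℝ} (hθ : 0 < θ) (ξ : ℝ) :
    ∫ t : ℝ, ((max (θ - |t|) 0 : ℝ) : ℂ) * ei (-(ξ * t)) =
      (((θ * Real.sinc (θ * ξ / 2)) ^ 2 : ℝ) : ℂ) := by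
  set f : ℝ → ℂ := fun t => ((max (θ - |t|) 0 : ℝ) : ℂ) * ei (-(ξ * t)) with hf
  have hc : Continuous f := by fun_prop
  have h1 := intervalIntegral.integral_comp_neg (a := 0) (b := θ) f
  rw [neg_zero] at h1
  rw [← intervalIntegral.integral_eq_integral_of_support_subset (supp _),
    ← intervalIntegral.integral_add_adjacent_intervals (b := 0) (hc.intervalIntegrable _ _)
      (hc.intervalIntegrable _ _), ← h1, ← intervalIntegral.integral_add (f := fun x => f (-x))
      ((hc.comp continuous_neg).intervalIntegrable _ _) (hc.intervalIntegrable _ _), ← int_cos,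
    ← intervalIntegral.integral_ofReal]
  refine intervalIntegral.integral_congr fun t ht => ?_
  rw [Set.uIcc_of_le hθ.le] at ht
  simp only [hf, abs_neg, abs_of_nonneg ht.1, max_eq_left (sub_nonneg.2 ht.2), ei]
  push_cast
  rw [mul_assoc, mul_left_comm, two_cos]
  ring_nf

theorem fej2 (θ : ℝ) : Integrable fun u : ℝ => (θ * Real.sinc (θ * u / 2)) ^ 2 := by
  have := Real.continuous_sinc
  refine (integrable_inv_one_add_sq.const_mul (θ ^ 2 + 4)).mono'
    (Continuous.aestronglyMeasurable (by fun_prop)) (ae_of_all _ fun u => ?_)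
  have h1 := mul_sinc (θ * u / 2)
  have h2 := Real.sin_sq_le_one (θ * u / 2)
  have h3 := (sq_le_one_iff_abs_le_one _).2 (Real.abs_sinc_le_one (θ * u / 2))
  rw [← h1] at h2
  rw [Real.norm_of_nonneg (sq_nonneg _), le_mul_inv_iff₀ (by positivity)]
  nlinarith [mul_le_mul_of_nonneg_left h3 (sq_nonneg θ)]

theorem fej : FejStmt := by
  refine fun θ hθ => ⟨fej1 hθ, fej2 θ, fun x => ?_⟩
  set f : ℝ → ℂ := fun t => ((max (θ - |t|) 0 : ℝ) : ℂ) with hf
  have hc : Continuous f := by fun_prop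
  have hi : Integrable f := by
    refine (integrableOn_iff_integrable_of_support_subset (s := Set.Ioc (-θ) θ) ?_).1
      (hc.integrableOn_Icc.mono_set Set.Ioc_subset_Icc_self)
    simpa only [mul_one] using supp (θ := θ) fun _ => 1
  have h1 : FourierTransform.fourier f =
      fun w : ℝ => (((θ * Real.sinc (θ * (2 * Real.pi * w) / 2)) ^ 2 : ℝ) : ℂ) := by
    ext w
    rw [Real.fourier_real_eq_integral_exp_smul, ← fej1 hθ]
    congr 1
    ext t
    rw [smul_eq_mul, mul_comm, ei, mul_comm I]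
    congr 4
    ring
  have hp : 0 < 2 * Real.pi := by positivity
  have h2 := congrFun (hc.fourierInv_fourier_eq hi
    (h1 ▸ ((fej2 θ).comp_mul_left' hp.ne').ofReal)) x
  rw [h1, Real.fourierInv_eq'] at h2
  have h3 := Measure.integral_comp_mul_left
    (fun u : ℝ => (((θ * Real.sinc (θ * u / 2)) ^ 2 : ℝ) : ℂ) * ei (u * x)) (2 * Real.pi)
  rw [abs_of_pos (inv_pos.2 hp), eq_inv_smul_iff₀ hp.ne'] at h3
  rw [← h3, ofReal_mul, real_smul]
  congr 1
  refine Eq.trans ?_ h2
  congr 1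
  ext w
  rw [smul_eq_mul, mul_comm, ei, mul_comm I]
  congr 4
  simp only [RCLike.inner_apply, conj_trivial]
  ring

theorem lint {f : ℝ → ℝ} (h0 : ∀ x, 0 ≤ f x) (S : Finset ℕ) (G : ℕ → ℕ → ℝ → ℂ)
    (hG : ∀ n m, Integrable (G n m)) (h : ∀ x, (f x : ℂ) = ∑ n ∈ S, ∑ m ∈ S, G n m x) :
    ∫⁻ x, ENNReal.ofReal (f x) = ENNReal.ofReal (∫ x, f x) ∧
      ((∫ x, f x : ℝ) : ℂ) = ∑ n ∈ S, ∑ m ∈ S, ∫ x, G n m x := by
  have h1 : ∀ n, Integrable fun x => ∑ m ∈ S, G n m x := fun n =>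
    integrable_finsetSum _ fun m _ => hG n m
  have h2 : Integrable fun x => (f x : ℂ) := by
    simp only [h]
    exact integrable_finsetSum _ fun n _ => h1 n
  refine ⟨(ofReal_integral_eq_lintegral_ofReal (by simpa using h2.re) (ae_of_all _ h0)).symm, ?_⟩
  rw [← integral_complex_ofReal]
  simp only [h]
  rw [integral_finsetSum _ fun n _ => h1 n]
  exact Finset.sum_congr rfl fun n _ => integral_finsetSum _ fun m _ => hG n m

theorem win (θ v : ℝ) (c : ℕ → ℂ) (S : Finset ℕ) :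
    ((‖∑ n ∈ S.filter fun n : ℕ => v < Real.log n ∧ Real.log n ≤ v + θ, c n‖ ^ 2 : ℝ) : ℂ) =
      ∑ n ∈ S, ∑ m ∈ S, (Set.Ico (max (Real.log n - θ) (Real.log m - θ))
        (min (Real.log n) (Real.log m))).indicator (fun _ => c n * (starRingEnd ℂ) (c m)) v := by
  rw [ofReal_pow, ← mul_conj', map_sum, Finset.sum_filter, Finset.sum_filter,
    Finset.sum_mul_sum]
  refine Finset.sum_congr rfl fun n _ => Finset.sum_congr rfl fun m _ => ?_
  simp only [Set.indicator_apply, Set.mem_Ico, max_le_iff, lt_min_iff, sub_le_iff_le_add,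
    ite_mul, mul_ite, zero_mul, mul_zero, ← ite_and]
  exact if_congr (by tauto) rfl rfl

theorem sqr (k u : ℝ) (c : ℕ → ℂ) (S : Finset ℕ) : ((‖dir c S u‖ ^ 2 * k : ℝ) : ℂ) =
    ∑ n ∈ S, ∑ m ∈ S, c n * (starRingEnd ℂ) (c m) *
      ((k : ℂ) * ei (u * (Real.log m - Real.log n))) := by
  rw [ofReal_mul, ofReal_pow, ← mul_conj', dir, map_sum, Finset.sum_mul_sum, Finset.sum_mul]
  refine Finset.sum_congr rfl fun n _ => ?_
  rw [Finset.sum_mul]
  refine Finset.sum_congr rfl fun m _ => ?_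
  rw [map_mul, conj_ei, show u * (Real.log m - Real.log n) =
    -(u * Real.log n) + - -(u * Real.log m) by ring, ei_add]
  ring

theorem gal : FejStmt → GalStmt := by
  intro hF θ c S hθ
  obtain ⟨-, h2, h3⟩ := hF θ hθ
  obtain ⟨a1, a2⟩ := lint (fun _ => sq_nonneg _) S _ (fun n m =>
    (integrable_indicator_iff measurableSet_Ico).2 (integrableOn_const measure_Ico_lt_top.ne))
    fun v => win θ v c S
  have h5 : ∀ x : ℝ, Integrable fun u : ℝ =>
      (((θ * Real.sinc (θ * u / 2)) ^ 2 : ℝ) : ℂ) * ei (u * x) := fun x =>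
    h2.ofReal.mul_bdd (c := 1) (Continuous.aestronglyMeasurable (by fun_prop))
      (ae_of_all _ fun u => (norm_ei _).le)
  obtain ⟨b1, b2⟩ := lint (fun _ => mul_nonneg (sq_nonneg _) (sq_nonneg _)) S _
    (fun n m => (h5 _).const_mul _) fun u => sqr ((θ * Real.sinc (θ * u / 2)) ^ 2) u c S
  have h6 : ∀ u : ℝ, nsq (dir c S u) * ENNReal.ofReal ((θ * Real.sinc (θ * u / 2)) ^ 2) =
      ENNReal.ofReal (‖dir c S u‖ ^ 2 * (θ * Real.sinc (θ * u / 2)) ^ 2) := fun u =>
    (ENNReal.ofReal_mul (sq_nonneg _)).symm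
  simp only [h6]
  unfold nsq
  rw [a1, b1, ← ENNReal.ofReal_mul (by positivity)]
  refine congrArg ENNReal.ofReal (ofReal_injective ?_)
  rw [ofReal_mul, a2, b2, Finset.mul_sum]
  refine Finset.sum_congr rfl fun n _ => ?_
  rw [Finset.mul_sum]
  refine Finset.sum_congr rfl fun m _ => ?_
  have h4 : min (Real.log n) (Real.log m) - max (Real.log n - θ) (Real.log m - θ) =
      θ - |Real.log m - Real.log n| := by
    rw [max_sub_sub_right, ← max_sub_min_eq_abs]
    ring
  rw [integral_const_mul, h3, integral_indicator_const _ measurableSet_Ico, Real.volume_real_Ico,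
    h4, real_smul]
  push_cast
  ring

end Pool.Agent.MP_ca0a54_nt.BH.GAL
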