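import Pool.Agent.MP_ca0a54_nt.BH.Basic

/-! The Gibbs variational inequality and the Hoeffding bound for sums over residue classes. -/

open Finset

namespace Pool.Agent.MP_ca0a54_nt.BH.GH

open Pool.Agent.MP_4b405e_nt.H17

theorem E_sum (S : Sp) {β : Type} (T : Finset β) (f : β → S.Ω → ℝ) :
    S.E (fun ω => ∑ t ∈ T, f t ω) = ∑ t ∈ T, S.E (f t) := by
  unfold Sp.E
  simp only [mul_sum]
  exact sum_comm

theorem gibbs : GibbsStmt := by
  intro S α β X Y T φ B hT hB
  set U : S.Ω → α × β := fun ω => (X ω, Y ω) with hU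
  have hne : Nonempty S.Ω := by
    by_contra hh
    rw [not_nonempty_iff] at hh
    have := S.tot
    simp at this
  obtain ⟨ω0⟩ := hne
  have hc : (0 : ℝ) < T.card := by exact_mod_cast card_pos.2 ⟨_, hT ω0⟩
  have hE := Real.exp_pos B
  have key : S.E (fun ω => S.mass X (X ω) * (Real.exp (φ (X ω) (Y ω)) / S.mass U (U ω))) ≤
      T.card * Real.exp B := by
    have e1 : ∀ ω, S.mass X (X ω) * (Real.exp (φ (X ω) (Y ω)) / S.mass U (U ω)) =
        S.E fun x => ∑ t ∈ T, ind (U ω = (X x, t)) *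
          (Real.exp (φ (X x) t) / S.mass U (X x, t)) := by
      intro ω
      refine (S.E_mul (fun x => ind (X x = X ω)) _).symm.trans (S.E_congr fun x => ?_)
      rw [sum_eq_single (Y ω)]
      · by_cases h : X x = X ω
        · rw [h, ind_pos rfl, ind_pos rfl]
        · rw [ind_neg h, ind_neg (P := U ω = _) fun hh => h (congrArg Prod.fst hh).symm,
            zero_mul, zero_mul]
      · intro t _ ht
        rw [ind_neg (P := U ω = _) fun hh => ht (congrArg Prod.snd hh).symm, zero_mul]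
      · intro hh
        exact absurd (hT ω) hh
    rw [S.E_congr e1, S.E_comm]
    refine (S.E_mono fun x => ?_).trans (S.E_const _).le
    rw [E_sum]
    refine le_trans (sum_le_sum fun t _ => ?_) (hB x)
    rw [S.E_mul]
    change S.mass U (X x, t) * _ ≤ _
    rw [mul_div_assoc', mul_comm, mul_div_assoc]
    exact mul_le_of_le_one_right (Real.exp_pos _).le (div_self_le_one _)
  have step : ∀ ω, Real.log (S.mass X (X ω)) + (φ (X ω) (Y ω) - Real.log (S.mass U (U ω))) -
      (Real.log T.card + B) ≤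
      S.mass X (X ω) * (Real.exp (φ (X ω) (Y ω)) / S.mass U (U ω)) / (T.card * Real.exp B) -
        1 := by
    intro ω
    have p1 := S.mass_pos X ω
    have p2 := S.mass_pos U ω
    have p3 := Real.exp_pos (φ (X ω) (Y ω))
    have h := Real.log_le_sub_one_of_pos (x := S.mass X (X ω) *
      (Real.exp (φ (X ω) (Y ω)) / S.mass U (U ω)) / (T.card * Real.exp B)) (by positivity)
    rwa [Real.log_div (by positivity) (by positivity), Real.log_mul p1.ne' (by positivity),
      Real.log_div p3.ne' p2.ne', Real.log_mul hc.ne' hE.ne', Real.log_exp, Real.log_exp] at h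
  have h1 := S.E_mono step
  rw [S.E_sub, S.E_add, S.E_sub, S.E_sub, S.E_const, S.E_const, S.E_div] at h1
  have h2 := (div_le_one (mul_pos hc hE)).2 key
  unfold Sp.H
  linarith

theorem crt {a b : ℕ} (h : a.Coprime b) (ha : a ≠ 0) (hb : b ≠ 0) (F G : ℕ → ℝ)
    (hF : Function.Periodic F a) (hG : Function.Periodic G b) :
    ∑ y ∈ range (a * b), F y * G y = (∑ y ∈ range a, F y) * ∑ y ∈ range b, G y := by
  rw [sum_mul_sum, ← sum_product']
  refine sum_bij (fun y _ => (y % a, y % b)) (fun y _ => ?_) (fun y hy z hz e => ?_)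
    (fun x hx => ?_) fun y _ => ?_
  · exact mem_product.2 ⟨mem_range.2 (Nat.mod_lt _ (Nat.pos_of_ne_zero ha)),
      mem_range.2 (Nat.mod_lt _ (Nat.pos_of_ne_zero hb))⟩
  · exact Nat.ModEq.eq_of_lt_of_lt ((Nat.modEq_and_modEq_iff_modEq_mul h).1
      ⟨congrArg Prod.fst e, congrArg Prod.snd e⟩) (mem_range.1 hy) (mem_range.1 hz)
  · obtain ⟨h1, h2⟩ := mem_product.1 hx
    refine ⟨Nat.chineseRemainder h x.1 x.2,
      mem_range.2 (Nat.chineseRemainder_lt_mul h _ _ ha hb), Prod.ext ?_ ?_⟩
    · exact Eq.trans (Nat.chineseRemainder h x.1 x.2).2.1 (Nat.mod_eq_of_lt (mem_range.1 h1))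
    · exact Eq.trans (Nat.chineseRemainder h x.1 x.2).2.2 (Nat.mod_eq_of_lt (mem_range.1 h2))
  · rw [hF.map_mod_nat, hG.map_mod_nat]

theorem exp_le {x b : ℝ} (h : |x| ≤ b) :
    Real.exp x ≤ Real.exp (b ^ 2 / 2) + x * (Real.sinh b / b) := by
  refine le_trans ?_ (add_le_add_left (Real.cosh_le_exp_half_sq b) _)
  rcases ((abs_nonneg x).trans h).eq_or_lt with hb | hb
  · subst hb
    rw [abs_nonpos_iff.1 h]
    simp
  · obtain ⟨h1, h2⟩ := abs_le.1 h
    have h3 := convexOn_exp.2 (Set.mem_univ b) (Set.mem_univ (-b))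
      (div_nonneg (by linarith) (by linarith) : 0 ≤ (b + x) / (2 * b))
      (div_nonneg (by linarith) (by linarith) : 0 ≤ (b - x) / (2 * b))
      (by field_simp; ring)
    simp only [smul_eq_mul] at h3
    have e : (b + x) / (2 * b) * b + (b - x) / (2 * b) * -b = x := by
      field_simp
      ring
    rw [e] at h3
    refine h3.trans (le_of_eq ?_)
    rw [Real.cosh_eq, Real.sinh_eq]
    field_simp
    ring

theorem one_side (P : Finset ℕ) (f : ℕ → ℕ → ℝ) (b : ℝ) (h1 : ∀ p ∈ P, p.Prime)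
    (h2 : ∀ p ∈ P, ∀ r, f p (r + p) = f p r) (h3 : ∀ p ∈ P, ∑ r ∈ range p, f p r = 0)
    (h4 : ∀ p ∈ P, ∀ r, |f p r| ≤ b) :
    ∑ y ∈ range (∏ p ∈ P, p), Real.exp (∑ p ∈ P, f p y) ≤
      ((∏ p ∈ P, p : ℕ) : ℝ) * Real.exp (b ^ 2 * P.card / 2) := by
  induction P using Finset.induction_on with
  | empty => simp
  | insert q s hq ih =>
    have m := mem_insert_self q s
    have hs : ∀ p ∈ s, p ∈ insert q s := fun p hp => mem_insert_of_mem hp
    have ih' := ih (fun p hp => h1 p (hs p hp)) (fun p hp => h2 p (hs p hp))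
      (fun p hp => h3 p (hs p hp)) fun p hp => h4 p (hs p hp)
    have hco : q.Coprime (∏ p ∈ s, p) := Nat.Coprime.prod_right fun p hp =>
      (Nat.coprime_primes (h1 q m) (h1 p (hs p hp))).2 fun e => hq (e ▸ hp)
    have hG : Function.Periodic (fun y => Real.exp (∑ p ∈ s, f p y)) (∏ p ∈ s, p) := by
      intro y
      refine congrArg Real.exp (sum_congr rfl fun p hp => ?_)
      have hp' : Function.Periodic (f p) p := h2 p (hs p hp)
      obtain ⟨k, hk⟩ := dvd_prod_of_mem (fun p : ℕ => p) hp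
      rw [hk, ← hp'.map_mod_nat, Nat.add_mul_mod_self_left, hp'.map_mod_nat]
    have hF : Function.Periodic (fun y => Real.exp (f q y)) q := fun y =>
      congrArg Real.exp (h2 q m y)
    have h5 : ∑ y ∈ range q, Real.exp (f q y) ≤ q * Real.exp (b ^ 2 / 2) := by
      refine (sum_le_sum fun y _ => exp_le (h4 q m y)).trans (le_of_eq ?_)
      rw [sum_add_distrib, ← sum_mul, h3 q m, sum_const, card_range, nsmul_eq_mul, zero_mul,
        add_zero]
    simp only [prod_insert hq, sum_insert hq, Real.exp_add]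
    rw [crt hco (h1 q m).ne_zero (prod_ne_zero_iff.2 fun p hp => (h1 p (hs p hp)).ne_zero) _ _
      hF hG]
    refine (mul_le_mul h5 ih' (sum_nonneg fun _ _ => (Real.exp_pos _).le) (by positivity)).trans
      (le_of_eq ?_)
    rw [card_insert_of_notMem hq, Nat.cast_mul, Nat.cast_succ,
      show b ^ 2 * ((s.card : ℝ) + 1) / 2 = b ^ 2 / 2 + b ^ 2 * s.card / 2 by ring, Real.exp_add]
    ring

theorem hoef : HoefStmt := by
  intro P f b h1 h2 h3 h4
  have a1 := one_side P f b h1 h2 h3 h4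
  have a2 := one_side P (fun p r => -f p r) b h1 (fun p hp r => by rw [h2 p hp r])
    (fun p hp => by rw [sum_neg_distrib, h3 p hp, neg_zero]) fun p hp r => by
      rw [abs_neg]
      exact h4 p hp r
  simp only [sum_neg_distrib] at a2
  have h5 : ∀ z : ℝ, Real.exp |z| ≤ Real.exp z + Real.exp (-z) := fun z => by
    rcases abs_choice z with h | h <;> rw [h] <;> linarith [Real.exp_pos z, Real.exp_pos (-z)]
  refine (sum_le_sum fun y _ => h5 _).trans ?_
  rw [sum_add_distrib]
  linarith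

end Pool.Agent.MP_ca0a54_nt.BH.GH
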