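import Pool.Agent.MP_ca0a54_nt.BH.Basic
import Pool.Agent.MP_ca0a54_nt.L0.Factor

/-! Landau's lemma. -/

open Complex Metric

namespace Pool.Agent.MP_ca0a54_nt.BH.LAN

theorem maxmod {f : ℂ → ℂ} {r C : ℝ} (hr : 0 < r) (hf : DifferentiableOn ℂ f (ball 0 r))
    (hC : ∀ z : ℂ, ‖z‖ = 3 * r / 4 → ‖f z‖ ≤ C) {z : ℂ} (hz : ‖z‖ ≤ 3 * r / 4) : ‖f z‖ ≤ C := by
  have h0 : (3 * r / 4 : ℝ) ≠ 0 := by positivity
  refine norm_le_of_forall_mem_frontier_norm_le (U := ball 0 (3 * r / 4)) isBounded_ball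
    (DifferentiableOn.diffContOnCl (hf.mono ?_)) (fun w hw => hC w ?_) ?_
  · rw [closure_ball _ h0]
    exact closedBall_subset_ball (by linarith)
  · rwa [frontier_ball _ h0, mem_sphere_zero_iff_norm] at hw
  · rwa [closure_ball _ h0, mem_closedBall_zero_iff]

theorem key {r M δ : ℝ} (hr : 0 < r) (hM : 0 < M) (hδ : 0 ≤ δ) (hδr : δ ≤ r / 8) (n : ℕ) :
    ∀ (f : ℂ → ℂ) (B : ℝ), DifferentiableOn ℂ f (ball 0 r) → f 0 ≠ 0 →
      (∀ z : ℂ, ‖z‖ = 3 * r / 4 → ‖f z‖ ≤ B * ‖f 0‖) → B < 2 ^ n / 2 → B ≤ Real.exp M →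
      (∀ z ∈ ball (0 : ℂ) r, f z = 0 → z.re ≤ -δ) →
      ‖f (-δ)‖ ≤ Real.exp (16 * M * δ / r) * ‖f 0‖ := by
  induction n with
  | zero =>
    intro f B hf h0 hB hn _ _
    have h1 := maxmod hr hf hB (z := 0) (by rw [norm_zero]; positivity)
    have h2 := norm_pos_iff.2 h0
    nlinarith
  | succ n ih =>
    intro f B hf h0 hB hn hBM hz
    have hf0 := norm_pos_iff.2 h0
    have hB1 : 1 ≤ B := by
      have h1 := maxmod hr hf hB (z := 0) (by rw [norm_zero]; positivity)
      nlinarith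
    by_cases hex : ∃ ρ ∈ ball (0 : ℂ) (r / 4), f ρ = 0
    · obtain ⟨ρ, hρ, hfρ⟩ := hex
      rw [mem_ball_zero_iff] at hρ
      have hρr : ρ ∈ ball (0 : ℂ) r := mem_ball_zero_iff.2 (by linarith)
      have hfac : ∀ z, f z = (z - ρ) * dslope f ρ z := fun z => by
        have := sub_smul_dslope f ρ z
        rw [hfρ, sub_zero, smul_eq_mul] at this
        exact this.symm
      have h00 : -ρ * dslope f ρ 0 = f 0 := by rw [hfac 0, zero_sub]
      have h1 := ih (fun z => -ρ * dslope f ρ z) (B / 2)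
        (((differentiableOn_dslope (isOpen_ball.mem_nhds hρr)).2 hf).const_mul _)
        (by rwa [h00]) (fun z hz' => ?_) (by rw [pow_succ] at hn; linarith) (by linarith)
        (fun z hz' h => hz z hz' ?_)
      · rw [h00] at h1
        refine le_trans ?_ h1
        rw [hfac, norm_mul, norm_mul, norm_neg]
        refine mul_le_mul_of_nonneg_right ?_ (norm_nonneg _)
        have h2 := hz ρ hρr hfρ
        refine (sq_le_sq₀ (norm_nonneg _) (norm_nonneg _)).1 ?_
        rw [Complex.sq_norm, Complex.sq_norm, normSq_apply, normSq_apply]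
        simp only [sub_re, neg_re, ofReal_re, sub_im, neg_im, ofReal_im]
        nlinarith
      · have h2 := hB z hz'
        rw [hfac z, norm_mul] at h2
        have h3 : r / 2 ≤ ‖z - ρ‖ := by linarith [norm_sub_norm_le z ρ]
        rw [h00, norm_mul, norm_neg]
        nlinarith [norm_nonneg (dslope f ρ z)]
      · have hρ0 : ρ ≠ 0 := fun h => h0 (h ▸ hfρ)
        rw [hfac, (mul_eq_zero.1 h).resolve_left (neg_ne_zero.2 hρ0), mul_zero]
    · push Not at hex
      obtain ⟨h, hd, hh⟩ := L0.Factor.exists_log f 0 (r / 4)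
        (hf.mono (ball_subset_ball (by linarith))) hex
      have hm0 : (0 : ℂ) ∈ ball (0 : ℂ) (r / 4) := mem_ball_self (by positivity)
      have hnδ : ‖(-δ : ℂ)‖ = δ := by rw [norm_neg, norm_real, Real.norm_of_nonneg hδ]
      have hmδ : (-δ : ℂ) ∈ ball (0 : ℂ) (r / 4) := mem_ball_zero_iff.2 (by linarith)
      have hq : ∀ w ∈ ball (0 : ℂ) (r / 4), ‖f w‖ = Real.exp (h w - h 0).re * ‖f 0‖ := by
        intro w hw
        rw [hh w hw, hh 0 hm0, norm_exp, norm_exp, ← Real.exp_add, sub_re, sub_add_cancel]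
      have h1 := borelCaratheodory_zero (f := fun w => h w - h 0) hM (hd.sub_const _)
        (fun w hw => ?_) (by positivity) hmδ (sub_self _)
      · rw [hq _ hmδ]
        refine mul_le_mul_of_nonneg_right (Real.exp_le_exp.2 ((re_le_norm _).trans
          (h1.trans ?_))) hf0.le
        rw [hnδ, div_le_div_iff₀ (by linarith) hr]
        nlinarith [mul_nonneg (mul_nonneg hM.le hδ) (by linarith : 0 ≤ r / 8 - δ)]
      · have h2 := maxmod hr hf hB (z := w) (by linarith [mem_ball_zero_iff.1 hw])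
        rw [hq w hw] at h2
        exact Real.exp_le_exp.1 ((le_of_mul_le_mul_right h2 hf0).trans hBM)

theorem lan : LanStmt := by
  intro f r M δ hr hM hδ hδr hf h0 hB hz
  obtain ⟨n, hn⟩ := pow_unbounded_of_one_lt (2 * Real.exp M) (one_lt_two (α := ℝ))
  exact key hr hM hδ hδr n f (Real.exp M) hf h0
    (fun z hz' => hB z (mem_ball_zero_iff.2 (by linarith))) (by linarith) le_rfl hz

end Pool.Agent.MP_ca0a54_nt.BH.LAN
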