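import Pool.Agent.MP_ca0a54_nt.BH.Basic
import Pool.Agent.MP_ca0a54_nt.L0.ZetaA

/-! An upper bound for zeta close to the line of real part one. -/

open Complex Filter Topology Finset

namespace Pool.Agent.MP_ca0a54_nt.BH.LBD

open Pool.Agent.MP_ca0a54_nt.L0.ZetaA

lemma sum_tm (s : ℂ) (M : ℕ) : ∑ n ∈ range M, tm n s =
    (s - 1) * dir (fun n => (((n : ℝ) ^ (-s.re) : ℝ) : ℂ)) (Ioc 0 M) s.im - 1 +
      pw (1 - s) (M + 1) := by
  induction M with
  | zero => simp [dir, pw]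
  | succ M ih =>
    have e : pw (-s) (M + 1) = ((((M + 1 : ℕ) : ℝ) ^ (-s.re) : ℝ) : ℂ) *
        ei (-(s.im * Real.log (M + 1 : ℕ))) := by
      rw [Real.rpow_def_of_pos (by positivity), ofReal_exp, ei, ← exp_add, pw]
      congr 1
      conv_lhs => rw [← re_add_im s]
      push_cast
      ring
    rw [sum_range_succ, ih, dir, dir, sum_Ioc_succ_top (Nat.zero_le M), ← e, tm]
    push_cast
    ring

/-- the approximation of zeta by a finite sum -/
lemma approx : ∃ W : ℝ, 0 ≤ W ∧ ∀ (s : ℂ) (M : ℕ), 1 / 2 ≤ s.re → s ≠ 1 → 1 ≤ M →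
    ‖riemannZeta s‖ ≤ ‖dir (fun n => (((n : ℝ) ^ (-s.re) : ℝ) : ℂ)) (Ioc 0 M) s.im‖ +
      (M + 1 : ℝ) ^ (1 - s.re) / ‖s - 1‖ + ‖s‖ * (M : ℝ) ^ (-(1 / 8) : ℝ) * W := by
  have hW : Summable fun n : ℕ => ((n + 1 : ℕ) : ℝ) ^ (-(9 / 8) : ℝ) :=
    (summable_nat_add_iff (f := fun n : ℕ => (n : ℝ) ^ (-(9 / 8) : ℝ)) 1).2
      (Real.summable_nat_rpow.2 (by norm_num))
  refine ⟨∑' n : ℕ, ((n + 1 : ℕ) : ℝ) ^ (-(9 / 8) : ℝ), tsum_nonneg fun _ => by positivity,
    fun s M hs h1 hM => ?_⟩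
  have hM0 : (0 : ℝ) < M := by exact_mod_cast hM
  have sm : Summable fun n => tm n s :=
    .of_norm_bounded (summable_Z'.mul_left _) fun n => norm_tm_le n s (by linarith)
  have e := sm.sum_add_tsum_nat_add M
  rw [tsum_tm s (by linarith), sum_tm] at e
  have t := tsum_of_norm_bounded (f := fun n => tm (n + M) s)
    (hW.hasSum.mul_left (‖s - 1‖ * (‖s‖ * (M : ℝ) ^ (-(1 / 8) : ℝ)))) fun n => by
      refine (norm_tm_le _ s (by linarith)).trans ?_
      rw [LSeries.norm_term_eq, if_neg (by omega), mul_assoc, mul_assoc, mul_assoc]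
      simp only [Pi.one_apply, norm_one, ofReal_re]
      rw [one_div, ← Real.rpow_neg (by positivity),
        show (-(5 / 4) : ℝ) = -(1 / 8) + -(9 / 8) by norm_num, Real.rpow_add (by positivity)]
      gcongr _ * (_ * (?_ * ?_))
      · exact Real.rpow_le_rpow_of_nonpos hM0 (by exact_mod_cast (by omega)) (by norm_num)
      · exact Real.rpow_le_rpow_of_nonpos (by positivity) (by exact_mod_cast (by omega))
          (by norm_num)
  have n0 : 0 < ‖s - 1‖ := norm_pos_iff.2 (sub_ne_zero.2 h1)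
  rw [riemannZeta_eq_inv_sub_mul h1, norm_mul, norm_inv, inv_mul_le_iff₀ n0,
    eq_add_of_sub_eq e.symm, mul_add, mul_add, mul_div_cancel₀ _ n0.ne', ← norm_mul,
    show (1 - s.re) = (1 - s).re by simp, ← norm_pw _ (by positivity), ← mul_assoc]
  refine le_trans (le_of_eq ?_) ((norm_add₃_le).trans (add_le_add_right t _))
  congr 1
  ring

lemma head {N : ℕ} {σ r : ℝ} (τ : ℝ) (hr : 0 ≤ r) (h : 1 - r ≤ σ) :
    ‖dir (fun n => (((n : ℝ) ^ (-σ) : ℝ) : ℂ)) (Ioc 0 N) τ‖ ≤ (N : ℝ) ^ r * (1 + Real.log N) := by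
  refine (norm_dir_le _ _ _).trans (le_trans ?_
    (mul_le_mul_of_nonneg_left (LS_one_le N) (by positivity)))
  rw [LS, mul_sum]
  refine sum_le_sum fun n hn => ?_
  obtain ⟨n1, n2⟩ := mem_Icc.1 hn
  have n3 : (1 : ℝ) ≤ n := by exact_mod_cast n1
  rw [norm_real, Real.norm_of_nonneg (by positivity), one_div, ← Real.rpow_neg_one]
  calc (n : ℝ) ^ (-σ) ≤ (n : ℝ) ^ (r + -1) := Real.rpow_le_rpow_of_exponent_le n3 (by linarith)
    _ ≤ _ := by
      rw [Real.rpow_add (by linarith)]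
      gcongr

lemma ev {a : ℝ} (b : ℝ) (ha : 0 < a) : ∀ᶠ V : ℝ in atTop, b * V ≤ Real.exp (a * V) := by
  filter_upwards [eventually_ge_atTop 0, eventually_ge_atTop (2 * b / a ^ 2)] with V h0 h
  rw [div_le_iff₀ (by positivity)] at h
  nlinarith [Real.quadratic_le_exp_of_nonneg (mul_nonneg ha.le h0), mul_nonneg ha.le h0,
    mul_le_mul_of_nonneg_right h h0]

theorem lbd : DyStmt → LbdStmt := by
  intro hD κ hκ
  obtain ⟨W, hW, hA⟩ := approx
  obtain ⟨c, C, c0, c1, hC, hD⟩ := hD (max 1 (6 / κ)) (le_max_left _ _)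
  obtain ⟨r, r0, r1, r2⟩ : ∃ r : ℝ, 0 < r ∧ 8 * r ≤ c ∧ 48 * r ≤ c * κ :=
    ⟨min (c / 8) (c * κ / 48), by positivity, by linarith [min_le_left (c / 8) (c * κ / 48)],
      by linarith [min_le_right (c / 8) (c * κ / 48)]⟩
  refine ⟨r, r0, by linarith, ?_⟩
  filter_upwards [eventually_ge_atTop 1, ev ((Real.exp 5 * (2 + 2 * C) + 3 * W) * (35 + κ / 2))
    (a := κ * r / 2) (by positivity)] with V hV hE s s1 s2 s3 s4
  obtain ⟨u, hu⟩ : ∃ u, u = κ * V / 2 := ⟨_, rfl⟩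
  have u0 : 0 ≤ u := by rw [hu]; positivity
  obtain ⟨l, hl⟩ : ∃ l, |s.im| = Real.exp l := ⟨_, (Real.exp_log (by linarith)).symm⟩
  have l0 : 0 ≤ l := by rwa [hl, Real.one_le_exp_iff] at s3
  have l1 : l ≤ 3 * V := by rwa [hl, Real.exp_le_exp] at s4
  have ce : ∀ x : ℝ, 0 ≤ x → ∃ N : ℕ, 1 ≤ N ∧ Real.exp x ≤ N ∧ (N + 1 : ℝ) ≤ Real.exp (x + 2) := by
    intro x hx
    have a := Real.one_le_exp hx
    refine ⟨⌈Real.exp x⌉₊, Nat.ceil_pos.2 (Real.exp_pos x), Nat.le_ceil _, ?_⟩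
    rw [Real.exp_add]
    nlinarith [Nat.ceil_lt_add_one (Real.exp_pos x).le, Real.add_one_le_exp 2]
  obtain ⟨N, N1, N2, N3⟩ := ce u u0
  obtain ⟨M, M1, M2, M3⟩ := ce (u + 2 + 8 * l) (by linarith)
  have NM : N ≤ M := by
    have : Real.exp (u + 2) ≤ Real.exp (u + 2 + 8 * l) := Real.exp_le_exp.2 (by linarith)
    exact_mod_cast (by linarith : (N : ℝ) ≤ M)
  have pw_le : ∀ x y : ℝ, 0 ≤ x → x ≤ Real.exp y → x ^ r ≤ Real.exp (y * r) := fun x y h0 h => by
    rw [Real.exp_mul]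
    gcongr
  have lg : ∀ (n : ℕ) (y : ℝ), 1 ≤ n → n + 1 ≤ Real.exp y → Real.log n ≤ y := fun n y h0 h =>
    (Real.log_le_iff_le_exp (by exact_mod_cast h0)).2 (by linarith)
  obtain ⟨E, hE'⟩ : ∃ E, E = Real.exp (κ * r / 2 * V) := ⟨_, rfl⟩
  have E1 : 1 ≤ E := hE' ▸ Real.one_le_exp (by positivity)
  have bE : ∀ x : ℝ, x ≤ u * r + 5 → Real.exp x ≤ Real.exp 5 * E := fun x h => by
    rw [hE', ← Real.exp_add]
    exact Real.exp_le_exp.2 (by rw [hu] at h; linarith)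
  obtain ⟨Y, hY⟩ : ∃ Y, Y = (35 + κ / 2) * V := ⟨_, rfl⟩
  have Y1 : 5 + u + 8 * l ≤ Y := by rw [hY, hu]; linarith
  have X0 : 0 ≤ Real.exp 5 * E := by positivity
  have q1 := mul_le_mul_of_nonneg_left r1 l0
  have q2 := mul_le_mul_of_nonneg_left c1 l0
  have q3 := mul_le_mul_of_nonneg_left l1 r0.le
  have q4 := mul_le_mul_of_nonneg_left r2 (zero_le_one.trans hV)
  have b1 := (head (N := N) s.im r0.le s1).trans (mul_le_mul ((pw_le _ _ (Nat.cast_nonneg N)
    (le_trans (by linarith) N3)).trans (bE _ (by linarith))) (show _ ≤ Y by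
      linarith [lg N _ N1 N3]) (by linarith [Real.log_natCast_nonneg N]) X0)
  have b2 := hD N M s.re r s.im N1 r0.le (by linarith) s1 s3 (by
    refine s4.trans (le_trans ?_ (Real.rpow_le_rpow_of_exponent_le (by exact_mod_cast N1)
      (le_max_right _ _)))
    refine le_trans (le_of_eq ?_) (Real.rpow_le_rpow (Real.exp_pos u).le N2 (by positivity))
    rw [← Real.exp_mul, hu]
    congr 1
    field_simp
    ring)
  have mr := pw_le _ _ (by positivity) M3
  have mr' : (M : ℝ) ^ r ≤ Real.exp ((u + 2 + 8 * l + 2) * r) :=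
    le_trans (by gcongr; linarith) mr
  have b3 : (M : ℝ) ^ r * (|s.im| ^ (-c) + (N : ℝ) ^ (-c)) ≤ 2 * (Real.exp 5 * E) := by
    have a := Real.rpow_le_rpow_of_nonpos (Real.exp_pos u) N2 (neg_nonpos.2 c0.le)
    rw [← Real.exp_mul] at a
    rw [hl, ← Real.exp_mul]
    refine (mul_le_mul mr' (add_le_add_right a _) (by positivity) (by positivity)).trans ?_
    rw [mul_add, ← Real.exp_add, ← Real.exp_add, two_mul]
    refine add_le_add (bE _ (by linarith)) (bE _ ?_)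
    have : u * c = c * κ * V / 2 := by rw [hu]; ring
    linarith
  have b4 : (M + 1 : ℝ) ^ (1 - s.re) / ‖s - 1‖ ≤ Real.exp 5 * E := by
    have a : Real.exp l ≤ ‖s - 1‖ := by
      rw [← hl]
      simpa using abs_im_le_norm (s - 1)
    refine le_trans ?_ (bE ((u + 2 + 8 * l + 2) * r - l) (by linarith))
    rw [Real.exp_sub]
    exact div_le_div₀ (by positivity) ((Real.rpow_le_rpow_of_exponent_le
      (by linarith [Nat.cast_nonneg (α := ℝ) M]) (by linarith)).trans mr) (Real.exp_pos l) a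
  have b5 : ‖s‖ * (M : ℝ) ^ (-(1 / 8) : ℝ) ≤ 3 := by
    have a := Real.rpow_le_rpow_of_nonpos (Real.exp_pos _)
      ((Real.exp_le_exp.2 (by linarith : 8 * l ≤ _)).trans M2) (by norm_num : (-(1 / 8) : ℝ) ≤ 0)
    rw [← Real.exp_mul, show 8 * l * -(1 / 8) = -l by ring] at a
    have b : ‖s‖ ≤ 3 * Real.exp l := by
      have := norm_le_abs_re_add_abs_im s
      rw [abs_of_nonneg (by linarith : 0 ≤ s.re)] at this
      linarith
    refine (mul_le_mul b a (by positivity) (by positivity)).trans_eq ?_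
    rw [mul_assoc, ← Real.exp_add]
    simp
  have b6 := hA s M (by linarith) (by rintro rfl; norm_num at s3) M1
  rw [dir, ← sum_Ioc_consecutive _ (Nat.zero_le N) NM] at b6
  have b7 := b6.trans (add_le_add (add_le_add ((norm_add_le _ _).trans (add_le_add b1 b2)) b4)
    (mul_le_mul_of_nonneg_right b5 hW))
  have b8 : C * (1 + Real.log M) * (M : ℝ) ^ r * (|s.im| ^ (-c) + (N : ℝ) ^ (-c)) ≤
      C * Y * (2 * (Real.exp 5 * E)) := by
    rw [mul_assoc]
    refine mul_le_mul ?_ b3 (by positivity) (mul_nonneg (by linarith) (by linarith))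
    exact mul_le_mul_of_nonneg_left (by linarith [lg M _ M1 M3]) (by linarith)
  rw [mul_assoc, ← hY, ← hE'] at hE
  have Y2 : 1 ≤ Y := by linarith
  calc _ ≤ (Real.exp 5 * (2 + 2 * C) + 3 * W) * Y * E := by
        linarith [le_mul_of_one_le_right X0 Y2,
          le_mul_of_one_le_right hW (one_le_mul_of_one_le_of_one_le Y2 E1)]
    _ ≤ E * E := by gcongr
    _ = _ := by rw [hE', ← Real.exp_add]; congr 1; ring

end Pool.Agent.MP_ca0a54_nt.BH.LBD
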