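import Pool.Agent.MP_ca0a54_nt.BH.Basic
import Pool.Agent.MP_ca0a54_nt.P.MER

/-! The measure of the exceptional set and a lower bound for sums over primes. -/

open Complex MeasureTheory Filter Topology

namespace Pool.Agent.MP_ca0a54_nt.BH.MEAS

theorem dir_one (t : ℝ) : dir (fun m => if m = 1 then 1 else 0) (iv (-1) (-1 + 3)) t = 1 := by
  unfold dir
  rw [Finset.sum_eq_single 1]
  · simp [ei_zero]
  · intro b _ hb
    simp [hb]
  · intro h
    exact absurd (mem_iv.2 (by norm_num)) h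

theorem blk {C : ℝ}
    (hM : ∀ (Q : Finset ℕ) (a c : ℕ → ℂ) (w u T : ℝ) (l : ℕ),
      (∀ p ∈ Q, p.Prime ∧ w ≤ Real.log p ∧ Real.log p ≤ w + 1) → (∀ p, ‖a p‖ ≤ 1 / p) →
      (∀ m, ‖c m‖ ≤ 1 / m) → 1 ≤ T → T ≤ Real.exp (u + l * w) →
      ∫⁻ t in Set.Icc (-T) T, nsq (dir a Q t ^ l * dir c (iv u (u + 3)) t) ≤
        ENNReal.ofReal (C * (2 * l).factorial * (4 + l)))
    (g : ℕ → ℂ) (hg : ∀ n, ‖g n‖ ≤ 1) {a V : ℝ} (β : ℝ) (ha : 1 ≤ a) (hV : 0 ≤ V) (b k : ℕ)
    (hk : V ≤ -1 + k * (b / a)) :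
    volume ({t | Real.exp (-β * (b / a)) < ‖QB g a b t‖} ∩ Set.Icc (-Real.exp V) (Real.exp V)) ≤
      ENNReal.ofReal (Real.exp (2 * β * (b / a) * k) * (C * (2 * k).factorial * (4 + k))) := by
  have ha0 : 0 < a := by linarith
  have h1 := hM ((stg a).filter fun p : ℕ => ⌊a * Real.log p⌋₊ = b) (fun p => g p / p)
    (fun m => if m = 1 then 1 else 0) (b / a) (-1) (Real.exp V) k (fun p hp => by
      obtain ⟨h1, h2⟩ := Finset.mem_filter.1 hp
      have h3 := (mem_prm.1 h1).1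
      have h4 : 0 ≤ a * Real.log p := mul_nonneg ha0.le (Real.log_natCast_nonneg p)
      have h5 := Nat.floor_le h4
      have h6 := Nat.lt_floor_add_one (a * Real.log p)
      rw [h2] at h5 h6
      refine ⟨h3, by rw [div_le_iff₀ ha0]; linarith, ?_⟩
      rw [div_add_one ha0.ne', le_div_iff₀ ha0]
      linarith)
    (fun p => by
      rw [norm_div, norm_natCast]
      exact div_le_div_of_nonneg_right (hg p) (Nat.cast_nonneg p))
    (fun m => by
      by_cases h : m = 1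
      · simp [h]
      · simp [h])
    (Real.one_le_exp hV) (Real.exp_le_exp.2 hk)
  simp only [dir_one, mul_one] at h1
  have hme : Measurable fun t => nsq (QB g a b t ^ k) := by
    unfold QB
    exact measurable_nsq.comp ((continuous_dir _ _).pow k).measurable
  have h2 := mul_meas_ge_le_lintegral (μ := volume.restrict
    (Set.Icc (-Real.exp V) (Real.exp V))) hme (ENNReal.ofReal (Real.exp (-(2 * β * (b / a) * k))))
  rw [Measure.restrict_apply' measurableSet_Icc] at h2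
  have h3 := h2.trans h1
  have h4 : {t | Real.exp (-β * (b / a)) < ‖QB g a b t‖} ⊆
      {t | ENNReal.ofReal (Real.exp (-(2 * β * (b / a) * k))) ≤ nsq (QB g a b t ^ k)} := by
    intro t ht
    refine ENNReal.ofReal_le_ofReal ?_
    rw [norm_pow, ← pow_mul, show -(2 * β * (b / a) * k) = (k * 2 : ℕ) * (-β * (b / a)) by
      push_cast; ring, Real.exp_nat_mul]
    exact pow_le_pow_left₀ (Real.exp_pos _).le (le_of_lt ht) _
  refine (measure_mono (Set.inter_subset_inter_left _ h4)).trans ?_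
  rw [ENNReal.ofReal_mul (Real.exp_pos _).le]
  refine le_trans (le_of_eq ?_) (mul_le_mul_right h3 _)
  rw [← mul_assoc, ← ENNReal.ofReal_mul (Real.exp_pos _).le, ← Real.exp_add, add_neg_cancel,
    Real.exp_zero, ENNReal.ofReal_one, one_mul]

theorem num {C α β V a w : ℝ} (hC : 1 ≤ C) (hα : 0 < α) (hα' : α ≤ 1 / 4)
    (hβ' : β ≤ 2 * α) (hV : 1 ≤ V) (h1 : Real.log V ^ 8 ≤ α / 4 * V) (h2 : 4 ≤ Real.log V)
    (h3 : 20 / α ≤ Real.log V) (ha : Real.log V ≤ a) (ha' : a ≤ Real.log V ^ 2)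
    (hw : a ^ 2 - 1 ≤ w) (hw' : w ≤ a ^ 3) :
    Real.exp (2 * β * w * ⌈(V + 1) / w⌉₊) *
      (C * (2 * ⌈(V + 1) / w⌉₊).factorial * (4 + ⌈(V + 1) / w⌉₊)) ≤
      5 * C * V * Real.exp (5 * α * V) := by
  set L := Real.log V with hL
  set k := ⌈(V + 1) / w⌉₊ with hk
  have hL1 : 1 ≤ L := by linarith
  have hL2 : 16 ≤ L ^ 2 := by nlinarith
  have ha2 : L ^ 2 ≤ a ^ 2 := pow_le_pow_left₀ (by linarith) ha 2
  have hw0 : 0 < w := by linarith
  have hk0 : (0 : ℝ) ≤ k := Nat.cast_nonneg k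
  have hk1 : (k : ℝ) ≤ (V + 1) / w + 1 := (Nat.ceil_lt_add_one (by positivity)).le
  have hk2 : k * w ≤ V + 1 + w := by
    have := mul_le_mul_of_nonneg_right hk1 hw0.le
    rwa [add_mul, div_mul_cancel₀ _ hw0.ne', one_mul] at this
  have h6 : w ≤ α / 4 * V := by
    refine hw'.trans (le_trans ?_ h1)
    refine (pow_le_pow_left₀ (by linarith) ha' 3).trans ?_
    rw [← pow_mul]
    exact pow_le_pow_right₀ hL1 (by norm_num)
  have h7 : 1 ≤ α / 4 * V := (one_le_pow₀ hL1).trans h1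
  have h8 : 2 * β * w * k ≤ 4 * α * V + α / 2 * V := by
    have e1 : 2 * β * w * k ≤ 4 * α * (k * w) := by
      have : 0 ≤ (k : ℝ) * w := by positivity
      nlinarith
    have e2 : 4 * α * (k * w) ≤ 4 * α * (V + 1 + w) := mul_le_mul_of_nonneg_left hk2 (by positivity)
    have e3 : 4 * α * (1 + w) ≤ 1 + w := by nlinarith
    nlinarith
  have h9 : k * L ^ 2 ≤ 5 * V := by
    have e1 : L ^ 2 ≤ 2 * w := by linarith
    have e2 : k * L ^ 2 ≤ k * (2 * w) := mul_le_mul_of_nonneg_left e1 hk0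
    have e3 : α / 4 * V ≤ V / 16 := by nlinarith
    nlinarith
  have h10 : 2 * (k : ℝ) ≤ V := by nlinarith
  have h11 : ((2 * k).factorial : ℝ) ≤ Real.exp (α / 2 * V) := by
    have e1 : ((2 * k).factorial : ℝ) ≤ ((2 * k : ℕ) : ℝ) ^ (2 * k) := by
      exact_mod_cast Nat.factorial_le_pow (2 * k)
    have e2 : ((2 * k : ℕ) : ℝ) ^ (2 * k) ≤ V ^ (2 * k) :=
      pow_le_pow_left₀ (by positivity) (by push_cast; exact h10) _
    refine e1.trans (e2.trans ?_)
    rw [← Real.exp_log (show 0 < V by linarith), ← Real.exp_nat_mul, Real.exp_log (by linarith)]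
    refine Real.exp_le_exp.2 ?_
    rw [← hL]
    push_cast
    have e3 : 20 ≤ α * L := by
      rw [div_le_iff₀ hα] at h3
      linarith
    have e4 : 0 ≤ (k : ℝ) * L := by positivity
    have e5 : 20 * (k * L) ≤ α * L * (k * L) := mul_le_mul_of_nonneg_right e3 e4
    have e6 : α * (k * L ^ 2) ≤ α * (5 * V) := mul_le_mul_of_nonneg_left h9 hα.le
    nlinarith
  have h12 : 4 + (k : ℝ) ≤ 5 * V := by linarith
  calc _ ≤ Real.exp (4 * α * V + α / 2 * V) * (C * Real.exp (α / 2 * V) * (5 * V)) := by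
        gcongr
    _ = _ := by
        rw [show 5 * α * V = 4 * α * V + α / 2 * V + α / 2 * V by ring,
          Real.exp_add _ (α / 2 * V), Real.exp_add _ (α / 2 * V), Real.exp_add _ (α / 2 * V)]
        ring

theorem meas : MomStmt → MeasStmt := by
  rintro ⟨C, hC, hM⟩ α hα hα'
  have e1 := (Real.isLittleO_pow_log_id_atTop (n := 8)).bound (show 0 < α / 4 by positivity)
  filter_upwards [e1, eventually_ge_atTop 1, Real.tendsto_log_atTop.eventually_ge_atTop 4,
    Real.tendsto_log_atTop.eventually_ge_atTop (20 / α), eventually_ge_atTop (60 * C / α ^ 3)]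
    with V h1 hV h2 h3 h4 g a β hg ha ha' _ hβ'
  rw [Real.norm_of_nonneg (by positivity), id, Real.norm_of_nonneg (by linarith)] at h1
  have ha1 : 1 ≤ a := by linarith
  have ha0 : 0 < a := by linarith
  set B := (stg a).image fun p : ℕ => ⌊a * Real.log p⌋₊ with hB
  have hsub : Set.Icc (-Real.exp V) (Real.exp V) \ Sml g a β ⊆ ⋃ b ∈ B,
      {t | Real.exp (-β * (b / a)) < ‖QB g a b t‖} ∩ Set.Icc (-Real.exp V) (Real.exp V) := by
    rintro t ⟨ht, hs⟩
    simp only [Sml, Set.mem_ofPred_eq, not_forall, not_le] at hs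
    obtain ⟨b, hb⟩ := hs
    refine Set.mem_biUnion (x := b) ?_ ⟨hb, ht⟩
    by_contra hn
    have : (stg a).filter (fun p : ℕ => ⌊a * Real.log p⌋₊ = b) = ∅ :=
      Finset.filter_eq_empty_iff.2 fun p hp e => hn (Finset.mem_image.2 ⟨p, hp, e⟩)
    rw [QB, this, dir, Finset.sum_empty, norm_zero] at hb
    exact absurd hb (not_lt.2 (Real.exp_pos _).le)
  have hb : ∀ b ∈ B, a ^ 2 - 1 ≤ (b : ℝ) / a ∧ (b : ℝ) ≤ a ^ 4 := by
    intro b hb
    obtain ⟨p, hp, rfl⟩ := Finset.mem_image.1 hb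
    obtain ⟨-, h5, h6⟩ := mem_prm.1 hp
    have h7 : 0 ≤ a * Real.log p := mul_nonneg ha0.le (Real.log_natCast_nonneg p)
    have h8 := Nat.floor_le h7
    have h9 := Nat.lt_floor_add_one (a * Real.log p)
    refine ⟨?_, by nlinarith⟩
    rw [le_div_iff₀ ha0]
    nlinarith
  have hcard : (B.card : ℝ) ≤ 2 * V := by
    have h5 : B ⊆ Finset.range (⌊a ^ 4⌋₊ + 1) := fun b h =>
      Finset.mem_range.2 (Nat.lt_succ_of_le (Nat.le_floor (hb b h).2))
    have h6 : (B.card : ℝ) ≤ ⌊a ^ 4⌋₊ + 1 := by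
      exact_mod_cast (Finset.card_le_card h5).trans_eq (Finset.card_range _)
    have h7 : (⌊a ^ 4⌋₊ : ℝ) ≤ a ^ 4 := Nat.floor_le (by positivity)
    have h8 : a ^ 4 ≤ Real.log V ^ 8 := by
      refine (pow_le_pow_left₀ ha0.le ha' 4).trans_eq ?_
      rw [← pow_mul]
    nlinarith
  refine (measure_mono hsub).trans ((measure_biUnion_finset_le B _).trans ?_)
  have hone : ∀ b ∈ B, volume ({t | Real.exp (-β * (b / a)) < ‖QB g a b t‖} ∩
      Set.Icc (-Real.exp V) (Real.exp V)) ≤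
      ENNReal.ofReal (5 * C * V * Real.exp (5 * α * V)) := by
    intro b h
    obtain ⟨h5, h6⟩ := hb b h
    have h7 : (b : ℝ) / a ≤ a ^ 3 := by
      rw [div_le_iff₀ ha0]
      linarith [show a ^ 3 * a = a ^ 4 by ring]
    have h8 : 0 < (b : ℝ) / a := by nlinarith
    refine (blk hM g hg β ha1 (by linarith) b ⌈(V + 1) / (b / a)⌉₊ ?_).trans
      (ENNReal.ofReal_le_ofReal (num hC hα hα' hβ' hV h1 h2 h3 ha ha' h5 h7))
    have h9 := Nat.le_ceil ((V + 1) / (b / a))
    rw [div_le_iff₀ h8] at h9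
    linarith
  refine (Finset.sum_le_card_nsmul _ _ _ hone).trans ?_
  rw [nsmul_eq_mul, ← ENNReal.ofReal_natCast, ← ENNReal.ofReal_mul (Nat.cast_nonneg _)]
  refine ENNReal.ofReal_le_ofReal ?_
  have h5 : 10 * C * V ^ 2 ≤ Real.exp (α * V) := by
    refine le_trans ?_ (Real.pow_div_factorial_le_exp (α * V) (by positivity) 3)
    rw [div_le_iff₀ (by positivity)] at h4
    have h6 := mul_le_mul_of_nonneg_right h4 (sq_nonneg V)
    norm_num [Nat.factorial]
    nlinarith
  calc (B.card : ℝ) * (5 * C * V * Real.exp (5 * α * V))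
      ≤ 2 * V * (5 * C * V * Real.exp (5 * α * V)) := by gcongr
    _ = 10 * C * V ^ 2 * Real.exp (5 * α * V) := by ring
    _ ≤ Real.exp (α * V) * Real.exp (5 * α * V) := by gcongr
    _ = _ := by
        rw [← Real.exp_add]
        congr 1
        ring

theorem rcp_add {u v w : ℝ} (h1 : u ≤ v) (h2 : v ≤ w) (f : ℕ → ℝ) :
    ∑ p ∈ prm u w, f p = ∑ p ∈ prm u v, f p + ∑ p ∈ prm v w, f p := by
  unfold prm iv
  simp only [Finset.sum_filter]
  rw [Finset.sum_Ioc_consecutive _ (Nat.floor_le_floor (Real.exp_le_exp.2 h1))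
    (Nat.floor_le_floor (Real.exp_le_exp.2 h2))]

theorem M_sub {u v : ℝ} (h : u ≤ v) :
    P.MER.M (Real.exp v) = P.MER.M (Real.exp u) + ∑ p ∈ prm u v, Real.log p / p := by
  unfold P.MER.M prm iv
  simp only [Finset.sum_filter]
  have e : ∀ M : ℕ, Finset.Icc 1 M = Finset.Ioc 0 M := fun M => rfl
  rw [e, e, Finset.sum_Ioc_consecutive _ (Nat.zero_le _)
    (Nat.floor_le_floor (Real.exp_le_exp.2 h))]

theorem mert : MertStmt := by
  obtain ⟨C, hC, hM⟩ := P.MER.mertens
  have hb : ∀ y : ℝ, 4 * C + 4 ≤ y → 1 / 4 ≤ rcp (prm y (2 * y)) := by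
    intro y hy
    have h1 := M_sub (show y ≤ 2 * y by linarith)
    have h2 := abs_le.1 (hM y (by linarith))
    have h3 := abs_le.1 (hM (2 * y) (by linarith))
    have h4 : ∑ p ∈ prm y (2 * y), Real.log p / p ≤ 2 * y * rcp (prm y (2 * y)) := by
      rw [rcp, Finset.mul_sum]
      refine Finset.sum_le_sum fun p hp => ?_
      rw [mul_one_div]
      exact div_le_div_of_nonneg_right (mem_prm.1 hp).2.2 (Nat.cast_nonneg p)
    by_contra h
    have h5 := mul_lt_mul_of_pos_left (not_le.1 h) (show 0 < 2 * y by linarith)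
    linarith [h2.2, h3.1]
  have hc : ∀ (j : ℕ) (y z : ℝ), 4 * C + 4 ≤ y → 2 ^ j * y ≤ z → (j : ℝ) / 4 ≤ rcp (prm y z) := by
    intro j
    induction j with
    | zero => intro y z _ _; simpa using rcp_nonneg _
    | succ j ih =>
      intro y z hy hz
      have h1 := ih (2 * y) z (by linarith) (by rw [pow_succ] at hz; linarith)
      have h2 := hb y hy
      have h3 : (1 : ℝ) ≤ 2 ^ j := one_le_pow₀ one_le_two
      have h4 := rcp_add (show y ≤ 2 * y by linarith)
        (show 2 * y ≤ z by rw [pow_succ] at hz; nlinarith) fun p => 1 / (p : ℝ)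
      unfold rcp at *
      push_cast
      linarith
  refine ⟨4 * C + 4, by linarith, fun y z hy hz => ?_⟩
  have hy0 : 0 < y := by linarith
  have h1 : 1 ≤ z / y := (one_le_div hy0).2 hz
  obtain ⟨j, h2, h3⟩ := exists_nat_pow_near h1 one_lt_two
  have h4 := hc j y z hy ((le_div_iff₀ hy0).1 h2)
  have h5 := Real.log_le_log (by linarith) h3.le
  rw [Real.log_pow] at h5
  have h6 := Real.log_nonneg h1
  have h7 : Real.log (z / y) / (4 * C + 4) ≤ Real.log (z / y) / 4 :=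
    div_le_div_of_nonneg_left h6 (by norm_num) (by linarith)
  have h8 : (0 : ℝ) ≤ j := Nat.cast_nonneg j
  push_cast at h5
  nlinarith [Real.log_two_lt_d9]

end Pool.Agent.MP_ca0a54_nt.BH.MEAS
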