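import Pool.Agent.MP_ca0a54_nt.BH.Basic

/-! The mean square of a power of a prime polynomial times a short polynomial. -/

open Complex MeasureTheory Filter Topology

namespace Pool.Agent.MP_ca0a54_nt.BH.MOM

theorem om_nonneg (Q : Finset ℕ) (n : ℕ) : 0 ≤ om Q n := Nat.cast_nonneg _

theorem om_le_of_dvd (Q : Finset ℕ) {m n : ℕ} (h : m ∣ n) : om Q m ≤ om Q n := by
  unfold om
  exact Nat.cast_le.2 (Finset.card_le_card fun p hp => by
    rw [Finset.mem_filter] at hp ⊢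
    exact ⟨hp.1, hp.2.trans h⟩)

theorem step (Q : Finset ℕ) (a d : ℕ → ℂ) (w y z : ℝ) (k : ℕ)
    (hQ : ∀ p ∈ Q, p.Prime ∧ w ≤ Real.log p ∧ Real.log p ≤ w + 1) (ha : ∀ p, ‖a p‖ ≤ 1 / p)
    (hd : ∀ n, ‖d n‖ ≤ om Q n ^ k / n) :
    ∃ d' : ℕ → ℂ, (∀ n, ‖d' n‖ ≤ om Q n ^ (k + 1) / n) ∧
      ∀ t, dir a Q t * dir d (iv y z) t = dir d' (iv (y + w) (z + (w + 1))) t := by
  refine ⟨fun n => ∑ x ∈ (Q ×ˢ iv y z).filter fun x => x.1 * x.2 = n, a x.1 * d x.2,
    fun n => ?_, fun t => ?_⟩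
  · have h1 : ∀ x ∈ (Q ×ˢ iv y z).filter fun x => x.1 * x.2 = n,
        ‖a x.1 * d x.2‖ ≤ om Q n ^ k / n := by
      intro x hx
      obtain ⟨-, rfl⟩ := Finset.mem_filter.1 hx
      have h2 : om Q x.2 ^ k ≤ om Q (x.1 * x.2) ^ k :=
        pow_le_pow_left₀ (om_nonneg _ _) (om_le_of_dvd Q (dvd_mul_left _ _)) k
      rw [norm_mul]
      refine (mul_le_mul (ha _) (hd _) (norm_nonneg _) (by positivity)).trans ?_
      rw [div_mul_div_comm, one_mul, Nat.cast_mul]
      exact div_le_div_of_nonneg_right h2 (by positivity)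
    have h3 : (((Q ×ˢ iv y z).filter fun x => x.1 * x.2 = n).card : ℝ) ≤ om Q n := by
      unfold om
      refine Nat.cast_le.2 (Finset.card_le_card_of_injOn Prod.fst (fun x hx => ?_) ?_)
      · obtain ⟨h, rfl⟩ := Finset.mem_filter.1 (Finset.mem_coe.1 hx)
        exact Finset.mem_coe.2
          (Finset.mem_filter.2 ⟨(Finset.mem_product.1 h).1, dvd_mul_right _ _⟩)
      · intro x hx x' hx' h
        obtain ⟨h4, h5⟩ := Finset.mem_filter.1 (Finset.mem_coe.1 hx)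
        obtain ⟨-, h6⟩ := Finset.mem_filter.1 (Finset.mem_coe.1 hx')
        refine Prod.ext h (Nat.eq_of_mul_eq_mul_left (hQ _ (Finset.mem_product.1 h4).1).1.pos ?_)
        rw [h5, ← h6, h]
    refine (norm_sum_le _ _).trans ((Finset.sum_le_card_nsmul _ _ _ h1).trans ?_)
    rw [nsmul_eq_mul, pow_succ', mul_div_assoc]
    exact mul_le_mul_of_nonneg_right h3 (div_nonneg (pow_nonneg (om_nonneg _ _) _) n.cast_nonneg)
  · have hm : ∀ x ∈ Q ×ˢ iv y z, x.1 * x.2 ∈ iv (y + w) (z + (w + 1)) := by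
      intro x hx
      obtain ⟨h1, h2⟩ := Finset.mem_product.1 hx
      obtain ⟨hp, h3, h4⟩ := hQ _ h1
      obtain ⟨h5, h6, h7⟩ := mem_iv.1 h2
      rw [mem_iv, Nat.cast_mul, Real.log_mul (Nat.cast_ne_zero.2 hp.ne_zero)
        (Nat.cast_ne_zero.2 (by omega))]
      exact ⟨Nat.mul_pos hp.pos h5, by linarith, by linarith⟩
    unfold dir
    rw [Finset.sum_mul_sum, ← Finset.sum_product', ← Finset.sum_fiberwise_of_maps_to hm]
    refine Finset.sum_congr rfl fun n _ => ?_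
    rw [Finset.sum_mul]
    refine Finset.sum_congr rfl fun x hx => ?_
    obtain ⟨h, rfl⟩ := Finset.mem_filter.1 hx
    obtain ⟨h1, h2⟩ := Finset.mem_product.1 h
    rw [Nat.cast_mul, Real.log_mul (Nat.cast_ne_zero.2 (hQ _ h1).1.ne_zero)
      (Nat.cast_ne_zero.2 (by have := (mem_iv.1 h2).1; omega)), mul_add, neg_add, ei_add]
    ring

theorem prod_form (Q : Finset ℕ) (a c : ℕ → ℂ) (w u : ℝ)
    (hQ : ∀ p ∈ Q, p.Prime ∧ w ≤ Real.log p ∧ Real.log p ≤ w + 1) (ha : ∀ p, ‖a p‖ ≤ 1 / p)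
    (hc : ∀ m, ‖c m‖ ≤ 1 / m) (l : ℕ) :
    ∃ d : ℕ → ℂ, (∀ n, ‖d n‖ ≤ om Q n ^ l / n) ∧
      ∀ t, dir a Q t ^ l * dir c (iv u (u + 3)) t =
        dir d (iv (u + l * w) (u + l * w + (3 + l))) t := by
  induction l with
  | zero => exact ⟨c, by simpa using hc, fun t => by simp⟩
  | succ l ih =>
    obtain ⟨d, hd, he⟩ := ih
    obtain ⟨d', hd', he'⟩ := step Q a d w (u + l * w) (u + l * w + (3 + l)) l hQ ha hd
    refine ⟨d', hd', fun t => ?_⟩
    rw [pow_succ', mul_assoc, he, he']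
    congr 2 <;> push_cast <;> ring

theorem sum_dvd (g : ℕ → ℝ) {p : ℕ} (hp : 0 < p) (y D : ℝ) :
    ∑ n ∈ iv y (y + D), (if p ∣ n then g n else 0) =
      ∑ m ∈ iv (y - Real.log p) (y - Real.log p + D), g (p * m) := by
  have hp' : (p : ℝ) ≠ 0 := Nat.cast_ne_zero.2 hp.ne'
  rw [← Finset.sum_filter]
  symm
  refine Finset.sum_bij (fun m _ => p * m) (fun m hm => ?_) (fun m _ m' _ h => ?_)
    (fun n hn => ?_) fun _ _ => rfl
  · obtain ⟨h1, h2, h3⟩ := mem_iv.1 hm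
    rw [Finset.mem_filter, mem_iv, Nat.cast_mul, Real.log_mul hp' (Nat.cast_ne_zero.2 (by omega))]
    exact ⟨⟨Nat.mul_pos hp h1, by linarith, by linarith⟩, dvd_mul_right _ _⟩
  · exact Nat.eq_of_mul_eq_mul_left hp h
  · obtain ⟨h, m, rfl⟩ := Finset.mem_filter.1 hn
    obtain ⟨h1, h2, h3⟩ := mem_iv.1 h
    have hm : 1 ≤ m := Nat.pos_of_mul_pos_left h1
    rw [Nat.cast_mul, Real.log_mul hp' (Nat.cast_ne_zero.2 (by omega))] at h2 h3
    exact ⟨m, mem_iv.2 ⟨hm, by linarith, by linarith⟩, rfl⟩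

theorem sum_three (Q : Finset ℕ) (hQ : ∀ p ∈ Q, p.Prime) {D : ℝ} (hD : 0 ≤ D) (y : ℝ) :
    ∑ n ∈ iv y (y + D), (3 : ℝ) ^ (Q.filter fun p => p ∣ n).card / n ≤
      (D + 1) * Real.exp (2 * rcp Q) := by
  induction Q using Finset.induction_on generalizing y with
  | empty =>
    have h := sum_inv_iv (v := y) (w := y + D) (by linarith)
    have h2 := min_le_left 1 (Real.exp (-y))
    simp only [Finset.filter_empty, Finset.card_empty, pow_zero, rcp, Finset.sum_empty, mul_zero,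
      Real.exp_zero, mul_one]
    linarith
  | insert p Q hp ih =>
    have hpp := hQ p (Finset.mem_insert_self _ _)
    have hQ' : ∀ q ∈ Q, q.Prime := fun q hq => hQ q (Finset.mem_insert_of_mem hq)
    have hp0 : (0 : ℝ) < p := by exact_mod_cast hpp.pos
    have h1 : ∀ n : ℕ, (3 : ℝ) ^ ((insert p Q).filter fun q => q ∣ n).card / n =
        (3 : ℝ) ^ (Q.filter fun q => q ∣ n).card / n +
          2 * if p ∣ n then (3 : ℝ) ^ (Q.filter fun q => q ∣ n).card / n else 0 := by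
      intro n
      rw [Finset.filter_insert]
      split_ifs
      · rw [Finset.card_insert_of_notMem fun h => hp (Finset.mem_filter.1 h).1]
        ring
      · ring
    have h2 : ∀ m : ℕ, (3 : ℝ) ^ (Q.filter fun q => q ∣ p * m).card / (p * m : ℕ) =
        1 / p * ((3 : ℝ) ^ (Q.filter fun q => q ∣ m).card / m) := by
      intro m
      have : (Q.filter fun q => q ∣ p * m) = Q.filter fun q => q ∣ m := by
        refine Finset.filter_congr fun q hq => ⟨fun h => ?_, fun h => h.mul_left p⟩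
        refine ((hQ' q hq).dvd_mul.1 h).resolve_left fun h' => hp ?_
        rwa [← (Nat.prime_dvd_prime_iff_eq (hQ' q hq) hpp).1 h']
      rw [this, Nat.cast_mul, div_mul_div_comm, one_mul]
    simp only [h1]
    rw [Finset.sum_add_distrib, ← Finset.mul_sum, sum_dvd _ hpp.pos]
    simp only [h2]
    rw [← Finset.mul_sum]
    have h3 := ih hQ' y
    have h4 := mul_le_mul_of_nonneg_left (ih hQ' (y - Real.log p)) (one_div_pos.2 hp0).le
    have h5 : rcp (insert p Q) = 1 / p + rcp Q := Finset.sum_insert hp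
    have h6 := Real.add_one_le_exp (2 * (1 / (p : ℝ)))
    have h7 : 0 ≤ (D + 1) * Real.exp (2 * rcp Q) := by positivity
    rw [h5, mul_add, Real.exp_add]
    nlinarith [mul_le_mul_of_nonneg_left h6 h7]

theorem rcp_le (Q : Finset ℕ) (w : ℝ)
    (hQ : ∀ p ∈ Q, p.Prime ∧ w ≤ Real.log p ∧ Real.log p ≤ w + 1) : rcp Q ≤ 3 := by
  have h := sum_inv_iv (v := w - 1) (w := w + 1) (by linarith)
  have h2 := min_le_left 1 (Real.exp (-(w - 1)))
  have h3 : rcp Q ≤ ∑ n ∈ iv (w - 1) (w + 1), 1 / (n : ℝ) :=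
    Finset.sum_le_sum_of_subset_of_nonneg (fun p hp => mem_iv.2
      ⟨(hQ p hp).1.one_le, by linarith [(hQ p hp).2.1], (hQ p hp).2.2⟩) fun _ _ _ => by positivity
  linarith

theorem om_pow_le (Q : Finset ℕ) (n k : ℕ) :
    om Q n ^ k ≤ k.factorial * (3 : ℝ) ^ (Q.filter fun p => p ∣ n).card := by
  have h := Real.pow_div_factorial_le_exp (om Q n) (om_nonneg Q n) k
  rw [div_le_iff₀' (by positivity)] at h
  refine h.trans (mul_le_mul_of_nonneg_left ?_ (by positivity))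
  rw [om, ← Real.exp_one_pow]
  exact pow_le_pow_left₀ (Real.exp_pos 1).le (by linarith [Real.exp_one_lt_d9]) _

theorem mom : MvStmt → MomStmt := by
  rintro ⟨C, hC, hmv⟩
  refine ⟨C * (2 * Real.exp 6), ?_, fun Q a c w u T l hQ ha hc hT hTe => ?_⟩
  · nlinarith [Real.add_one_le_exp 6]
  obtain ⟨d, hd, he⟩ := prod_form Q a c w u hQ ha hc l
  have h := (hmv d _ 0 T (zero_notMem_iv (u + l * w) (u + l * w + (3 + l))) hT).2.1
  rw [zero_sub, zero_add] at h
  simp only [he]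
  refine h.trans (ENNReal.ofReal_le_ofReal ?_)
  have h1 : ∀ n ∈ iv (u + l * w) (u + l * w + (3 + l)), (T + n) * ‖d n‖ ^ 2 ≤
      2 * (2 * l).factorial * ((3 : ℝ) ^ (Q.filter fun p => p ∣ n).card / n) := by
    intro n hn
    obtain ⟨h2, h3, -⟩ := mem_iv.1 hn
    have hn0 : (0 : ℝ) < n := by exact_mod_cast h2
    have h4 : T ≤ n := hTe.trans ((Real.lt_log_iff_exp_lt hn0).1 h3).le
    have h5 : ‖d n‖ ^ 2 ≤ (om Q n ^ l / n) ^ 2 := pow_le_pow_left₀ (norm_nonneg _) (hd n) 2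
    have h6 := om_pow_le Q n (2 * l)
    calc (T + n) * ‖d n‖ ^ 2 ≤ (n + n) * (om Q n ^ l / n) ^ 2 := by gcongr
      _ = 2 * om Q n ^ (2 * l) / n := by
        field_simp
        ring
      _ ≤ 2 * ((2 * l).factorial * (3 : ℝ) ^ (Q.filter fun p => p ∣ n).card) / n := by gcongr
      _ = _ := by ring
  have h2 := sum_three Q (fun p hp => (hQ p hp).1) (D := 3 + l) (by positivity) (u + l * w)
  have h3 : Real.exp (2 * rcp Q) ≤ Real.exp 6 :=
    Real.exp_le_exp.2 (by linarith [rcp_le Q w hQ])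
  have h4 := Finset.sum_le_sum h1
  rw [← Finset.mul_sum] at h4
  calc C * ∑ n ∈ iv (u + l * w) (u + l * w + (3 + l)), (T + n) * ‖d n‖ ^ 2
      ≤ C * (2 * (2 * l).factorial * ((3 + l + 1) * Real.exp 6)) := by
        refine mul_le_mul_of_nonneg_left (h4.trans ?_) (by linarith)
        refine mul_le_mul_of_nonneg_left (h2.trans ?_) (by positivity)
        gcongr
    _ = _ := by ring

end Pool.Agent.MP_ca0a54_nt.BH.MOM
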