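import Pool.Agent.MP_ca0a54_nt.BH.Basic

/-! Short sums of multiplicative functions are small in the logarithmic mean: the assembly. -/

open Complex MeasureTheory Filter Topology

namespace Pool.Agent.MP_ca0a54_nt.BH.MRG

theorem sinc_le {k x δ : ℝ} (hk : 0 < k) (hx : 1 ≤ |x|) (h : 8 ≤ δ * k ^ 2) :
    Real.sinc (k * x / 2) ^ 2 ≤ δ * (1 / (1 + x ^ 2)) := by
  have h1 : 1 ≤ x ^ 2 := by rw [← sq_abs]; nlinarith
  have h2 : x ≠ 0 := by rintro rfl; norm_num at h1
  have h3 : k * x / 2 ≠ 0 := by positivity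
  rw [Real.sinc_of_ne_zero h3, div_pow, mul_one_div, div_le_div_iff₀ (by positivity) (by positivity)]
  have h4 := Real.sin_sq_le_one (k * x / 2)
  have h5 := mul_le_mul_of_nonneg_right h4 (by positivity : 0 ≤ 1 + x ^ 2)
  have h6 := mul_le_mul_of_nonneg_right h (sq_nonneg x)
  nlinarith

theorem sinc_sq_le_one (x : ℝ) : Real.sinc x ^ 2 ≤ 1 := by
  rw [← sq_abs]
  exact pow_le_one₀ (abs_nonneg _) (Real.abs_sinc_le_one x)

theorem coef_le {g : ℕ → ℂ} (hg : ∀ n, ‖g n‖ ≤ 1) {v T : ℝ} (hT : T ≤ Real.exp v) :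
    ∑ n ∈ iv v (v + 3), (T + n) * ‖g n / n‖ ^ 2 ≤ 8 := by
  have h1 := sum_inv_iv (v := v) (w := v + 3) (by linarith)
  have h2 := min_le_left 1 (Real.exp (-v))
  have h3 : ∑ n ∈ iv v (v + 3), (T + n) * ‖g n / n‖ ^ 2 ≤
      ∑ n ∈ iv v (v + 3), 2 * (1 / (n : ℝ)) := by
    refine Finset.sum_le_sum fun n hn => ?_
    obtain ⟨a, b, -⟩ := mem_iv.1 hn
    have hn0 : (0 : ℝ) < n := by exact_mod_cast a
    have h4 := (Real.lt_log_iff_exp_lt hn0).1 b
    rw [norm_div, norm_natCast]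
    calc (T + n) * (‖g n‖ / n) ^ 2 ≤ (2 * n : ℝ) * (‖g n‖ / n) ^ 2 := by gcongr; linarith
      _ ≤ (2 * n : ℝ) * (1 / n) ^ 2 := by gcongr; exact hg n
      _ = _ := by field_simp
  rw [← Finset.mul_sum] at h3
  linarith

/-- The split of the integral of Parseval type. -/
theorem split (F : ℝ → ℂ) (hF : Continuous F) {U : Set ℝ} (hU : MeasurableSet U) {k T δ : ℝ}
    (hk : 0 < k) (hT : 0 < T) (hδ : 0 ≤ δ) (h : 8 ≤ δ * k ^ 2) :
    ∫⁻ u : ℝ, nsq (F u) * ENNReal.ofReal (Real.sinc (k * (u / T) / 2) ^ 2) ≤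
      (∫⁻ t in Set.Icc (-T) T \ U, nsq (F t)) + (∫⁻ t in U, nsq (F t)) +
        ENNReal.ofReal δ * ∫⁻ t, nsq (F t) * ENNReal.ofReal (1 / (1 + (t / T) ^ 2)) := by
  have hm : Measurable fun t => nsq (F t) := measurable_nsq.comp hF.measurable
  have hD : MeasurableSet (Set.Icc (-T) T \ U) := measurableSet_Icc.diff hU
  rw [← lintegral_indicator hD, ← lintegral_indicator hU,
    ← lintegral_add_left (hm.indicator hD), ← lintegral_const_mul' _ _ ENNReal.ofReal_ne_top,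
    ← lintegral_add_left ((hm.indicator hD).fun_add (hm.indicator hU))]
  refine lintegral_mono fun u => ?_
  have h1 : nsq (F u) * ENNReal.ofReal (Real.sinc (k * (u / T) / 2) ^ 2) ≤ nsq (F u) :=
    mul_le_of_le_one_right' (ENNReal.ofReal_le_one.2 (sinc_sq_le_one _))
  by_cases hu : u ∈ U
  · refine h1.trans (le_add_right (le_add_left ?_))
    rw [Set.indicator_of_mem hu]
  by_cases hI : u ∈ Set.Icc (-T) T
  · refine h1.trans (le_add_right (le_add_right ?_))
    rw [Set.indicator_of_mem (show u ∈ Set.Icc (-T) T \ U from ⟨hI, hu⟩)]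
  · refine le_add_left ?_
    have h2 : 1 ≤ |u / T| := by
      rw [abs_div, abs_of_pos hT, le_div_iff₀ hT, one_mul]
      by_contra hc
      exact hI (abs_le.1 (not_le.1 hc).le)
    rw [mul_left_comm, ← ENNReal.ofReal_mul hδ]
    exact mul_le_mul_right (ENNReal.ofReal_le_ofReal (sinc_le hk h2 h)) _

/-- A logarithmic sum as an average of sums over short ranges. -/
theorem avg (f : ℕ → ℝ) (hf : ∀ n, 0 ≤ f n) (S : Finset ℕ) {a b : ℝ}
    (hS : ∀ n ∈ S, 1 ≤ n ∧ a + 1 ≤ Real.log n ∧ Real.log n ≤ b) :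
    ENNReal.ofReal (∑ n ∈ S, f n) ≤
      ∫⁻ v in Set.Icc a b, ENNReal.ofReal (∑ n ∈ iv v (v + 1), f n) := by
  have h1 (n : ℕ) : ENNReal.ofReal (f n) = ∫⁻ v, (Set.Ico (Real.log n - 1) (Real.log n)).indicator
      (fun _ => ENNReal.ofReal (f n)) v := by
    rw [lintegral_indicator_const measurableSet_Ico, Real.volume_Ico]
    simp
  rw [ENNReal.ofReal_sum_of_nonneg fun n _ => hf n, Finset.sum_congr rfl fun n _ => h1 n,
    ← lintegral_finsetSum _ fun n _ => measurable_const.indicator measurableSet_Ico,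
    ← lintegral_indicator measurableSet_Icc]
  refine lintegral_mono fun v => ?_
  classical
  by_cases hv : v ∈ Set.Icc a b
  · rw [Set.indicator_of_mem hv, ENNReal.ofReal_sum_of_nonneg fun n _ => hf n]
    simp only [Set.indicator_apply]
    rw [← Finset.sum_filter]
    refine Finset.sum_le_sum_of_subset fun n hn => ?_
    obtain ⟨h2, h3, h4⟩ := Finset.mem_filter.1 hn
    exact mem_iv.2 ⟨(hS n h2).1, h4, by linarith⟩
  · refine le_of_eq_of_le (Finset.sum_eq_zero fun n hn => Set.indicator_of_notMem ?_ _) zero_le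
    rintro ⟨h2, h3⟩
    obtain ⟨-, h4, h5⟩ := hS n hn
    exact hv ⟨by linarith, by linarith⟩

theorem LS_split (f : ℕ → ℝ) {B a : ℝ} (hB : 0 ≤ B) (ha : 0 ≤ a) (hf : ∀ n, f n ≤ B) (N : ℕ) :
    LS N f ≤ B * (a + 3) +
      ∑ n ∈ (Finset.Icc 1 N).filter fun n : ℕ => a + 1 ≤ Real.log n, f n / n := by
  unfold LS
  rw [← Finset.sum_filter_add_sum_filter_not (Finset.Icc 1 N) fun n : ℕ => a + 1 ≤ Real.log n,
    add_comm]
  refine add_le_add_left ?_ _
  have h1 := sum_inv_iv (v := -1) (w := a + 1) (by linarith)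
  have h2 := min_le_left 1 (Real.exp (-(-1)))
  calc _ ≤ ∑ n ∈ (Finset.Icc 1 N).filter fun n : ℕ => ¬ a + 1 ≤ Real.log n, B * (1 / (n : ℝ)) :=
        Finset.sum_le_sum fun n _ => by
          rw [mul_one_div]
          exact div_le_div_of_nonneg_right (hf n) (Nat.cast_nonneg n)
    _ ≤ ∑ n ∈ iv (-1) (a + 1), B * (1 / (n : ℝ)) := by
        refine Finset.sum_le_sum_of_subset_of_nonneg (fun n hn => ?_) fun n _ _ => by positivity
        obtain ⟨h3, h4⟩ := Finset.mem_filter.1 hn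
        exact mem_iv.2 ⟨(Finset.mem_Icc.1 h3).1, by linarith [Real.log_natCast_nonneg n],
          (not_le.1 h4).le⟩
    _ ≤ _ := by
        rw [← Finset.mul_sum]
        exact mul_le_mul_of_nonneg_left (h1.trans (by linarith)) hB

theorem mr : MvStmt → ParsStmt → ChainStmt → FinStmt → MrStmt := by
  rintro ⟨C₁, hC₁, mv⟩ ⟨C₂, hC₂, pars⟩ chain fin g hg hp ε hε
  obtain ⟨δ, hδ, hδ1, hδε⟩ : ∃ δ : ℝ, 0 < δ ∧ δ ≤ 1 / 2 ∧ δ * (2 + C₂ * (3 + 8 * C₁)) ≤ ε := by
    have h : 0 < 2 + C₂ * (3 + 8 * C₁) := by positivity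
    exact ⟨min (1 / 2) (ε / (2 + C₂ * (3 + 8 * C₁))), by positivity, min_le_left _ _,
      (le_div_iff₀ h).1 (min_le_right _ _)⟩
  obtain ⟨β, hβ, hfin⟩ := fin g hg hp δ δ hδ hδ1 hδ
  obtain ⟨H, hH, hch⟩ := chain (min (1 / 8) (β / 6)) δ δ (by positivity) (min_le_left _ _) hδ hδ
  have hH0 : 0 < H := by linarith
  have tK : Tendsto (fun K : ℕ => δ * K / H) atTop atTop :=
    (tendsto_natCast_atTop_atTop.const_mul_atTop hδ).atTop_div_const hH0
  filter_upwards [tK.eventually_ge_atTop (1 + 8 / δ), eventually_ge_atTop 1] with K hK hK1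
  have tV : Tendsto (fun V : ℝ => δ * V) atTop atTop := tendsto_id.const_mul_atTop hδ
  have hev := ((hfin.and hch).and (tV.eventually_ge_atTop 3)).and
    ((Real.tendsto_exp_atTop.comp tV).eventually_ge_atTop (K + H))
  filter_upwards [(Real.tendsto_log_atTop.comp tendsto_natCast_atTop_atTop).eventually hev]
    with N hN
  obtain ⟨⟨⟨h1, h2⟩, h3⟩, h4⟩ := hN
  simp only [Function.comp] at h1 h2 h3 h4
  obtain ⟨V, hV⟩ : ∃ V, V = Real.log N := ⟨_, rfl⟩
  rw [← hV] at h1 h2 h3 h4 ⊢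
  have hV0 : 0 ≤ V := by
    by_contra hc
    nlinarith
  obtain ⟨U, hU, hU1, hU2, hU3⟩ := h2 g hg
  have h5 := h1 U hU hU1 (hU2.trans (ENNReal.ofReal_le_ofReal (Real.exp_le_exp.2 (by
    have := mul_le_mul_of_nonneg_right (min_le_right (1 / 8) (β / 6)) hV0
    linarith))))
  have hK0 : (0 : ℝ) ≤ K := Nat.cast_nonneg K
  have h8 : 0 < 8 / δ := by positivity
  have hk : 8 ≤ δ * (δ * K / H) ^ 2 := by
    have a1 : 8 / δ ≤ (δ * K / H) ^ 2 := by nlinarith
    rw [div_le_iff₀ hδ] at a1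
    linarith
  have hH' : 1 ≤ δ * K := by
    have a1 : 1 ≤ δ * K / H := by linarith
    rw [le_div_iff₀ hH0] at a1
    linarith
  have key (v : ℝ) (hv : v ∈ Set.Icc (δ * V) V) :
      ENNReal.ofReal (∑ n ∈ iv v (v + 1), ‖∑ j ∈ Finset.range K, g (n + j)‖ ^ 2 / n) ≤
        ENNReal.ofReal (C₂ * K ^ 2 * (δ * (2 + 8 * C₁))) +
          ENNReal.ofReal (C₂ * K ^ 2) * ∫⁻ t in U, nsq (FF g v t) := by
    have a1 : K + H ≤ Real.exp v := h4.trans (Real.exp_le_exp.2 hv.1)
    have a2 : 1 ≤ Real.exp v / H := by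
      rw [le_div_iff₀ hH0]
      linarith
    have a3 := pars g K (δ * K) v hg.bd hK1 hH' (by linarith) (by nlinarith)
    have a4 := split (FF g v) (continuous_dir _ _) hU (k := δ * K / H) (T := Real.exp v / H)
      (by linarith) (by linarith) hδ.le hk
    have e (u : ℝ) : δ * K / H * (u / (Real.exp v / H)) / 2 = δ * K * Real.exp (-v) * u / 2 := by
      rw [Real.exp_neg]
      field_simp
    simp only [e] at a4
    have a5 := (mv (fun n => g n / n) (iv v (v + 3)) 0 (Real.exp v / H) (zero_notMem_iv _ _)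
      a2).2.2.trans (ENNReal.ofReal_le_ofReal (mul_le_mul_of_nonneg_left
        (coef_le hg.bd (div_le_self (Real.exp_pos v).le hH)) (by linarith)))
    have a6 := a4.trans (add_le_add (add_le_add_left (hU3 v hv.1 hv.2) _)
      (mul_le_mul_right a5 _))
    refine a3.trans ((add_le_add_left (mul_le_mul_right a6 _) _).trans ?_)
    have p1 : 0 ≤ C₂ * (K : ℝ) ^ 2 := by positivity
    have p2 : 0 ≤ δ * (C₁ * 8) := by positivity
    rw [add_right_comm (ENNReal.ofReal δ), mul_add, add_right_comm, ← ENNReal.ofReal_mul hδ.le,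
      ← ENNReal.ofReal_add hδ.le p2, ← ENNReal.ofReal_mul p1,
      ← ENNReal.ofReal_add (by positivity) (by positivity)]
    refine add_le_add_left (ENNReal.ofReal_le_ofReal ?_) _
    nlinarith [mul_le_mul_of_nonneg_left hδ1 (mul_nonneg p1 hδ.le), mul_nonneg p1 hδ.le]
  have h6 := avg (fun n => ‖∑ j ∈ Finset.range K, g (n + j)‖ ^ 2 / n) (fun n => by positivity)
    ((Finset.Icc 1 N).filter fun n : ℕ => δ * V + 1 ≤ Real.log n) (a := δ * V) (b := V)
    fun n hn => by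
      obtain ⟨a1, a2⟩ := Finset.mem_filter.1 hn
      obtain ⟨a3, a4⟩ := Finset.mem_Icc.1 a1
      exact ⟨a3, a2, hV ▸ Real.log_le_log (by exact_mod_cast a3) (by exact_mod_cast a4)⟩
  have p1 : 0 ≤ C₂ * (K : ℝ) ^ 2 := by positivity
  have p2 : 0 ≤ C₂ * (K : ℝ) ^ 2 * (δ * (2 + 8 * C₁)) := by positivity
  have p3 : 0 ≤ δ * V := by positivity
  have h7 := h6.trans (setLIntegral_mono' measurableSet_Icc key)
  rw [lintegral_add_left measurable_const, lintegral_const_mul' _ _ ENNReal.ofReal_ne_top,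
    setLIntegral_const, Real.volume_Icc] at h7
  have h9 := h7.trans (add_le_add
    (mul_le_mul_right (ENNReal.ofReal_le_ofReal (sub_le_self V p3)) _) (mul_le_mul_right h5 _))
  rw [← ENNReal.ofReal_mul p2, ← ENNReal.ofReal_mul p1,
    ← ENNReal.ofReal_add (by positivity) (by positivity),
    ENNReal.ofReal_le_ofReal_iff (by positivity)] at h9
  have h10 := LS_split (fun n => ‖∑ j ∈ Finset.range K, g (n + j)‖ ^ 2) (B := (K : ℝ) ^ 2)
    (by positivity) p3 (fun n => by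
      gcongr
      refine (norm_sum_le_of_le _ fun j _ => hg.bd _).trans ?_
      simp) N
  have p4 : 0 ≤ (K : ℝ) ^ 2 * V := by positivity
  have h11 := mul_le_mul_of_nonneg_right hδε p4
  have h12 := mul_le_mul_of_nonneg_left h3 (sq_nonneg (K : ℝ))
  nlinarith

end Pool.Agent.MP_ca0a54_nt.BH.MRG
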