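import Pool.Agent.MP_ca0a54_nt.BH.Basic

/-! The sharp mean value theorem for Dirichlet polynomials. -/

open Complex MeasureTheory Filter Topology

namespace Pool.Agent.MP_ca0a54_nt.BH.MV

theorem sinc_ge {x : ℝ} (hx : |x| ≤ 1) : 1 / 2 ≤ Real.sinc x := by
  have key : ∀ y : ℝ, 0 < y → y ≤ 1 → 1 / 2 ≤ Real.sinc y := fun y h0 h1 => by
    rw [Real.sinc_of_ne_zero h0.ne', le_div_iff₀ h0]
    have h := Real.sin_gt_sub_cube h0
    have h2 : y ^ 3 ≤ y := by
      have : y ^ 2 ≤ 1 := by nlinarith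
      nlinarith
    linarith
  rcases lt_trichotomy x 0 with h | h | h
  · rw [← Real.sinc_neg]
    exact key _ (by linarith) (by rw [abs_of_neg h] at hx; exact hx)
  · subst h
    rw [Real.sinc_zero]
    norm_num
  · exact key _ h (by rw [abs_of_pos h] at hx; exact hx)

theorem card_win {S : Finset ℕ} (hS : 0 ∉ S) {θ v : ℝ} (h0 : 0 < θ) (h1 : θ ≤ 1) {n : ℕ}
    (hn : n ∈ S.filter fun n : ℕ => v < Real.log n ∧ Real.log n ≤ v + θ) :
    ((S.filter fun n : ℕ => v < Real.log n ∧ Real.log n ≤ v + θ).card : ℝ) ≤ 2 * n * θ + 1 := by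
  have hsub : (S.filter fun n : ℕ => v < Real.log n ∧ Real.log n ≤ v + θ) ⊆ iv v (v + θ) := by
    intro m hm
    rw [Finset.mem_filter] at hm
    refine mem_iv.2 ⟨Nat.one_le_iff_ne_zero.2 fun h => hS (h ▸ hm.1), hm.2⟩
  have h2 : ((iv v (v + θ)).card : ℝ) ≤ Real.exp (v + θ) - Real.exp v + 1 := by
    unfold iv
    have hle : ⌊Real.exp v⌋₊ ≤ ⌊Real.exp (v + θ)⌋₊ :=
      Nat.floor_le_floor (Real.exp_le_exp.2 (by linarith))
    rw [Nat.card_Ioc, Nat.cast_sub hle]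
    have := Nat.floor_le (Real.exp_pos (v + θ)).le
    have := Nat.lt_floor_add_one (Real.exp v)
    linarith
  have h3 := (mem_iv.1 (hsub hn))
  have hn0 : (0 : ℝ) < n := by exact_mod_cast h3.1
  have h4 : Real.exp v < n := (Real.lt_log_iff_exp_lt hn0).1 h3.2.1
  have h5 : Real.exp θ - 1 ≤ 2 * θ := by
    have := Real.abs_exp_sub_one_le (x := θ) (by rw [abs_of_pos h0]; exact h1)
    rw [abs_of_pos h0] at this
    exact (le_abs_self _).trans this
  have h6 : ((S.filter fun n : ℕ => v < Real.log n ∧ Real.log n ≤ v + θ).card : ℝ) ≤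
      (iv v (v + θ)).card := by exact_mod_cast Finset.card_le_card hsub
  rw [Real.exp_add] at h2
  have h7 := Real.exp_pos v
  nlinarith

theorem win_le (c : ℕ → ℂ) {S : Finset ℕ} (hS : 0 ∉ S) {θ : ℝ} (h0 : 0 < θ) (h1 : θ ≤ 1) (v : ℝ) :
    nsq (∑ n ∈ S.filter fun n : ℕ => v < Real.log n ∧ Real.log n ≤ v + θ, c n) ≤
      ∑ n ∈ S, (Set.Ico (Real.log n - θ) (Real.log n)).indicator
        (fun _ => ENNReal.ofReal ((2 * n * θ + 1) * ‖c n‖ ^ 2)) v := by
  set W := S.filter fun n : ℕ => v < Real.log n ∧ Real.log n ≤ v + θ with hW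
  have h2 : ‖∑ n ∈ W, c n‖ ^ 2 ≤ ∑ n ∈ W, (2 * n * θ + 1) * ‖c n‖ ^ 2 := by
    calc ‖∑ n ∈ W, c n‖ ^ 2 ≤ (∑ n ∈ W, ‖c n‖) ^ 2 :=
          pow_le_pow_left₀ (norm_nonneg _) (norm_sum_le _ _) 2
      _ ≤ W.card * ∑ n ∈ W, ‖c n‖ ^ 2 := sq_sum_le_card_mul_sum_sq
      _ = ∑ n ∈ W, W.card * ‖c n‖ ^ 2 := Finset.mul_sum _ _ _
      _ ≤ _ := Finset.sum_le_sum fun n hn =>
          mul_le_mul_of_nonneg_right (card_win hS h0 h1 hn) (sq_nonneg _)
  refine (ENNReal.ofReal_le_ofReal h2).trans (le_of_eq ?_)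
  rw [ENNReal.ofReal_sum_of_nonneg fun n _ => by positivity, hW, Finset.sum_filter]
  refine Finset.sum_congr rfl fun n _ => ?_
  by_cases h : v < Real.log n ∧ Real.log n ≤ v + θ
  · rw [if_pos h, Set.indicator_of_mem (Set.mem_Ico.2 ⟨by linarith [h.2], h.1⟩)]
  · rw [if_neg h, Set.indicator_of_notMem fun h' => h ⟨h'.2, by linarith [h'.1]⟩]

theorem int_win (c : ℕ → ℂ) {S : Finset ℕ} (hS : 0 ∉ S) {θ : ℝ} (h0 : 0 < θ) (h1 : θ ≤ 1) :
    ∫⁻ v : ℝ, nsq (∑ n ∈ S.filter fun n : ℕ => v < Real.log n ∧ Real.log n ≤ v + θ, c n) ≤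
      ENNReal.ofReal (∑ n ∈ S, (2 * n * θ + 1) * ‖c n‖ ^ 2 * θ) := by
  refine (lintegral_mono fun v => win_le c hS h0 h1 v).trans (le_of_eq ?_)
  rw [lintegral_finsetSum _ fun n _ => measurable_const.indicator measurableSet_Ico,
    ENNReal.ofReal_sum_of_nonneg fun n _ => by positivity]
  refine Finset.sum_congr rfl fun n _ => ?_
  rw [lintegral_indicator_const measurableSet_Ico, Real.volume_Ico, sub_sub_cancel,
    ← ENNReal.ofReal_mul (by positivity)]

theorem core (hG : GalStmt) (c : ℕ → ℂ) {S : Finset ℕ} (hS : 0 ∉ S) {T : ℝ} (hT : 1 ≤ T) :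
    ∫⁻ t in Set.Icc (-T) T, nsq (dir c S t) ≤
      ENNReal.ofReal (64 * ∑ n ∈ S, (T + n) * ‖c n‖ ^ 2) := by
  have hT0 : 0 < T := by linarith
  have h0 : 0 < 1 / T := by positivity
  have h1 : 1 / T ≤ 1 := (div_le_one hT0).2 hT
  have h2 := hG (1 / T) c S h0
  have h3 := int_win c hS h0 h1
  have h4 : ∫⁻ t in Set.Icc (-T) T, nsq (dir c S t) ≤ ENNReal.ofReal (4 * T ^ 2) *
      ∫⁻ u : ℝ, nsq (dir c S u) * ENNReal.ofReal ((1 / T * Real.sinc (1 / T * u / 2)) ^ 2) := by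
    rw [← lintegral_const_mul' _ _ ENNReal.ofReal_ne_top]
    refine (setLIntegral_mono' measurableSet_Icc fun t ht => ?_).trans
      (setLIntegral_le_lintegral _ _)
    rw [mul_left_comm, ← ENNReal.ofReal_mul (by positivity)]
    refine le_mul_of_one_le_right' (ENNReal.one_le_ofReal.2 ?_)
    have h5 : |1 / T * t / 2| ≤ 1 := by
      rw [abs_div, abs_mul, abs_of_pos h0, abs_two, div_le_one two_pos, one_div, inv_mul_le_iff₀ hT0]
      have := abs_le.2 ⟨ht.1, ht.2⟩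
      linarith
    have h6 := sinc_ge h5
    have h7 : 4 * T ^ 2 * (1 / T * Real.sinc (1 / T * t / 2)) ^ 2 =
        (2 * Real.sinc (1 / T * t / 2)) ^ 2 := by
      field_simp
      ring
    rw [h7]
    nlinarith
  rw [← h2] at h4
  refine h4.trans ((mul_le_mul_right (mul_le_mul_right h3 _) _).trans ?_)
  rw [← ENNReal.ofReal_mul (by positivity), ← ENNReal.ofReal_mul (by positivity)]
  refine ENNReal.ofReal_le_ofReal ?_
  rw [← mul_assoc, Finset.mul_sum, Finset.mul_sum]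
  refine Finset.sum_le_sum fun n _ => ?_
  have h8 : 4 * T ^ 2 * (2 * Real.pi) * ((2 * n * (1 / T) + 1) * ‖c n‖ ^ 2 * (1 / T)) =
      8 * Real.pi * (2 * n + T) * ‖c n‖ ^ 2 := by
    field_simp
    ring
  rw [h8, ← mul_assoc]
  refine mul_le_mul_of_nonneg_right ?_ (sq_nonneg _)
  have h9 := Real.pi_le_four
  have h10 : (0 : ℝ) ≤ n := Nat.cast_nonneg n
  have h11 := Real.pi_pos
  nlinarith

theorem core' (hG : GalStmt) (c : ℕ → ℂ) {S : Finset ℕ} (hS : 0 ∉ S) (s : ℝ) {T : ℝ}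
    (hT : 1 ≤ T) : ∫⁻ t in Set.Icc (s - T) (s + T), nsq (dir c S t) ≤
      ENNReal.ofReal (64 * ∑ n ∈ S, (T + n) * ‖c n‖ ^ 2) := by
  have h := core hG (fun n => c n * ei (-(s * Real.log n))) hS hT
  simp only [norm_mul, norm_ei, mul_one, ← dir_add] at h
  refine le_trans (le_of_eq ?_) h
  rw [← lintegral_indicator measurableSet_Icc, ← lintegral_indicator measurableSet_Icc,
    ← lintegral_add_left_eq_self _ s]
  refine lintegral_congr fun t => ?_
  by_cases ht : t ∈ Set.Icc (-T) T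
  · rw [Set.indicator_of_mem ht,
      Set.indicator_of_mem (Set.mem_Icc.2 ⟨by linarith [ht.1], by linarith [ht.2]⟩)]
  · rw [Set.indicator_of_notMem ht,
      Set.indicator_of_notMem fun h' => ht ⟨by linarith [h'.1], by linarith [h'.2]⟩]

theorem summ : Summable fun k : ℤ => 1 / (1 + (k : ℝ) ^ 2) := by
  have h : Summable fun n : ℕ => 1 / (1 + (n : ℝ) ^ 2) := by
    rw [← summable_nat_add_iff 1]
    refine Summable.of_nonneg_of_le (fun n => by positivity) (fun n => ?_)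
      ((summable_nat_add_iff 1).2 (Real.summable_one_div_nat_pow.2 one_lt_two))
    exact one_div_le_one_div_of_le (by positivity) (by linarith)
  exact Summable.of_nat_of_neg (by simpa using h) (by simpa using h)

theorem third (hG : GalStmt) (c : ℕ → ℂ) {S : Finset ℕ} (hS : 0 ∉ S) {T : ℝ} (hT : 1 ≤ T) :
    ∫⁻ t : ℝ, nsq (dir c S t) * ENNReal.ofReal (1 / (1 + (t / T) ^ 2)) ≤
      ENNReal.ofReal ((∑' k : ℤ, 1 / (1 + (k : ℝ) ^ 2)) *
        (64 * ∑ n ∈ S, (T + n) * ‖c n‖ ^ 2)) := by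
  have hT0 : 0 < T := by linarith
  have hU : (⋃ k : ℤ, Set.Icc (2 * k * T - T) (2 * k * T + T)) = Set.univ := by
    refine Set.eq_univ_of_forall fun t => Set.mem_iUnion.2 ⟨⌊(t + T) / (2 * T)⌋, ?_, ?_⟩
    · have := Int.floor_le ((t + T) / (2 * T))
      rw [le_div_iff₀ (by positivity)] at this
      linarith
    · have := Int.lt_floor_add_one ((t + T) / (2 * T))
      rw [div_lt_iff₀ (by positivity)] at this
      linarith
  rw [← setLIntegral_univ, ← hU]
  refine (lintegral_iUnion_le _ _).trans ?_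
  rw [ENNReal.ofReal_mul (tsum_nonneg fun k => by positivity),
    ENNReal.ofReal_tsum_of_nonneg (fun k => by positivity) summ, ← ENNReal.tsum_mul_right]
  refine ENNReal.tsum_le_tsum fun k => ?_
  refine le_trans ?_ (mul_le_mul_right (core' hG c hS (2 * k * T) hT) _)
  rw [← lintegral_const_mul' _ _ ENNReal.ofReal_ne_top]
  refine setLIntegral_mono' measurableSet_Icc fun t ht => ?_
  rw [mul_comm]
  refine mul_le_mul_left (ENNReal.ofReal_le_ofReal
    (one_div_le_one_div_of_le (by positivity) ?_)) _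
  have h1 : 2 * (k : ℝ) - 1 ≤ t / T := by
    rw [le_div_iff₀ hT0]
    linarith [ht.1]
  have h2 : t / T ≤ 2 * (k : ℝ) + 1 := by
    rw [div_le_iff₀ hT0]
    linarith [ht.2]
  rcases lt_trichotomy k 0 with h | h | h
  · have h3 : (k : ℝ) ≤ -1 := by exact_mod_cast (by omega : k ≤ -1)
    nlinarith
  · subst h
    simp only [Int.cast_zero]
    nlinarith [sq_nonneg (t / T)]
  · have h3 : (1 : ℝ) ≤ k := by exact_mod_cast (by omega : 1 ≤ k)
    nlinarith

theorem mv : GalStmt → MvStmt := by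
  intro hG
  set B : ℝ := ∑' k : ℤ, 1 / (1 + (k : ℝ) ^ 2) with hB
  have hB0 : 0 ≤ B := tsum_nonneg fun k => by positivity
  refine ⟨64 * (1 + B), by linarith, fun c S s T hS hT => ?_⟩
  have hX : 0 ≤ ∑ n ∈ S, (T + n) * ‖c n‖ ^ 2 :=
    Finset.sum_nonneg fun n _ => by positivity
  have h2 : ∫⁻ t in Set.Icc (s - T) (s + T), nsq (dir c S t) ≤
      ENNReal.ofReal (64 * (1 + B) * ∑ n ∈ S, (T + n) * ‖c n‖ ^ 2) :=
    (core' hG c hS s hT).trans (ENNReal.ofReal_le_ofReal (by nlinarith))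
  refine ⟨?_, h2, (third hG c hS hT).trans (ENNReal.ofReal_le_ofReal (by nlinarith))⟩
  have hc : Continuous fun t => ‖dir c S t‖ ^ 2 := by fun_prop
  rw [intervalIntegral.integral_of_le (by linarith), ← integral_Icc_eq_integral_Ioc,
    ← ENNReal.ofReal_le_ofReal_iff (by positivity),
    ofReal_integral_eq_lintegral_ofReal (hc.integrableOn_Icc)
      (Eventually.of_forall fun t => by positivity)]
  exact h2

end Pool.Agent.MP_ca0a54_nt.BH.MV
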