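import Pool.Agent.MP_ca0a54_nt.BH.Basic

/-! Short sums versus the Dirichlet polynomial. -/

open Complex MeasureTheory Filter Topology

namespace Pool.Agent.MP_ca0a54_nt.BH.PARS

theorem nsq_eq (z : ℂ) : nsq z = ‖z‖ₑ ^ 2 := by
  rw [nsq, ENNReal.ofReal_pow (norm_nonneg _), ofReal_norm]

/-- Cauchy-Schwarz. -/
theorem cs {f : ℝ → ℂ} (hf : Measurable f) (s : Set ℝ) :
    nsq (∫ y in s, f y) ≤ volume s * ∫⁻ y in s, nsq (f y) := by
  have h := ENNReal.lintegral_mul_le_Lp_mul_Lq (volume.restrict s) Real.HolderConjugate.two_two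
    (f := fun _ => 1) (g := fun y => ‖f y‖ₑ) aemeasurable_const hf.enorm.aemeasurable
  simp only [Pi.mul_apply, one_mul, lintegral_const, Measure.restrict_apply_univ,
    ENNReal.rpow_two, one_pow] at h
  simp only [nsq_eq]
  refine (pow_le_pow_left' ((enorm_integral_le_lintegral_enorm _).trans h) 2).trans (le_of_eq ?_)
  have e : ∀ x : ENNReal, (x ^ (1 / 2 : ℝ)) ^ 2 = x := fun x => by
    rw [← ENNReal.rpow_two, ← ENNReal.rpow_mul]
    norm_num
  rw [mul_pow, e, e]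

/-- Overlapping intervals. -/
theorem overlap {F : ℝ → ENNReal} (hF : Measurable F) (T : Finset ℕ) (K : ℕ) (B : ℝ)
    (hT : ∀ n ∈ T, (n : ℝ) + K ≤ B) :
    ∑ n ∈ T, ∫⁻ y in Set.Ioc (n : ℝ) (n + K), F y ≤ K * ∫⁻ y in Set.Ioc 0 B, F y := by
  classical
  simp only [← lintegral_indicator measurableSet_Ioc]
  rw [← lintegral_finsetSum _ fun n _ => hF.indicator measurableSet_Ioc,
    ← lintegral_const_mul _ (hF.indicator measurableSet_Ioc)]
  refine lintegral_mono fun y => ?_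
  simp only [Set.indicator_apply]
  rw [← Finset.sum_filter, Finset.sum_const, nsmul_eq_mul]
  split_ifs with hy
  · refine mul_le_mul_left ?_ _
    have h1 : (T.filter fun n : ℕ => y ∈ Set.Ioc (n : ℝ) (n + K)) ⊆
        Finset.Ico (⌈y⌉₊ - K) ⌈y⌉₊ := by
      intro n hn
      obtain ⟨h2, h3⟩ := (Finset.mem_filter.1 hn).2
      have h4 : ⌈y⌉₊ ≤ n + K := Nat.ceil_le.2 (by exact_mod_cast h3)
      exact Finset.mem_Ico.2 ⟨by omega, Nat.lt_ceil.2 h2⟩
    have h2 := Finset.card_le_card h1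
    rw [Nat.card_Ico] at h2
    exact_mod_cast h2.trans (by omega)
  · rw [Finset.filter_false_of_mem]
    · simp
    · intro n hn h
      exact hy ⟨(Nat.cast_nonneg n).trans_lt h.1, h.2.trans (hT n hn)⟩

/-- The window sums in the multiplicative variable. -/
noncomputable def win (c : ℕ → ℂ) (S : Finset ℕ) (q y : ℝ) : ℂ :=
  ∑ m ∈ S, (Set.Ico (m * q) (m : ℝ)).indicator (fun _ => c m) y

theorem measurable_win (c : ℕ → ℂ) (S : Finset ℕ) (q : ℝ) : Measurable (win c S q) :=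
  Finset.measurable_sum _ fun _ _ => measurable_const.indicator measurableSet_Ico

theorem win_exp (c : ℕ → ℂ) {S : Finset ℕ} (hS : 0 ∉ S) (θ w : ℝ) :
    win c S (Real.exp (-θ)) (Real.exp w) =
      ∑ n ∈ S.filter fun n : ℕ => w < Real.log n ∧ Real.log n ≤ w + θ, c n := by
  classical
  rw [win, Finset.sum_filter]
  refine Finset.sum_congr rfl fun m hm => ?_
  have h0 : (0 : ℝ) < m := by
    exact_mod_cast Nat.pos_of_ne_zero fun h => hS (h ▸ hm)
  have h1 : Real.exp w ∈ Set.Ico (m * Real.exp (-θ)) (m : ℝ) ↔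
      w < Real.log m ∧ Real.log m ≤ w + θ := by
    rw [Set.mem_Ico, Real.lt_log_iff_exp_lt h0, Real.log_le_iff_le_exp h0, Real.exp_add,
      Real.exp_neg, ← div_eq_mul_inv, div_le_iff₀ (Real.exp_pos θ), and_comm]
  simp only [Set.indicator_apply, h1]

/-- Change of variables. -/
theorem subst (F : ℝ → ENNReal) (b : ℝ) :
    ∫⁻ y in Set.Ioc 0 (Real.exp b), F y ≤
      ENNReal.ofReal (Real.exp b) * ∫⁻ w : ℝ, F (Real.exp w) := by
  rw [← Real.image_exp_Iic, lintegral_image_eq_lintegral_abs_deriv_mul measurableSet_Iic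
    (fun x _ => (Real.hasDerivAt_exp x).hasDerivWithinAt) Real.exp_injective.injOn,
    ← lintegral_const_mul' _ _ ENNReal.ofReal_ne_top]
  refine le_trans (setLIntegral_mono' measurableSet_Iic fun w hw => ?_)
    (setLIntegral_le_lintegral (Set.Iic b) _)
  refine mul_le_mul_left (ENNReal.ofReal_le_ofReal ?_) _
  rw [abs_of_pos (Real.exp_pos w)]
  exact Real.exp_le_exp.2 hw

/-- The length of the intersection. -/
noncomputable def len (q x y : ℝ) (m : ℕ) : ℝ :=
  volume.real (Set.Ioc x y ∩ Set.Ico (m * q) (m : ℝ))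

theorem integral_win (c : ℕ → ℂ) (S : Finset ℕ) (q x y : ℝ) :
    ∫ t in Set.Ioc x y, win c S q t = ∑ m ∈ S, (len q x y m : ℂ) * c m := by
  unfold win
  rw [integral_finsetSum _ fun m _ => (integrable_const _).indicator measurableSet_Ico]
  refine Finset.sum_congr rfl fun m _ => ?_
  rw [setIntegral_indicator measurableSet_Ico, setIntegral_const, real_smul, len]

theorem len_nonneg (q x y : ℝ) (m : ℕ) : 0 ≤ len q x y m := measureReal_nonneg

theorem len_le {q : ℝ} (hq : q ≤ 1) (x y : ℝ) (m : ℕ) : len q x y m ≤ m * (1 - q) := by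
  have h0 : (0 : ℝ) ≤ m := Nat.cast_nonneg m
  refine (measureReal_mono Set.inter_subset_right (by simp)).trans (le_of_eq ?_)
  rw [Real.volume_real_Ico_of_le (by nlinarith)]
  ring

theorem len_full {q x y : ℝ} (hq : q ≤ 1) {m : ℕ} (h1 : x < m * q) (h2 : (m : ℝ) ≤ y) :
    len q x y m = m * (1 - q) := by
  have h0 : (0 : ℝ) ≤ m := Nat.cast_nonneg m
  have h3 : Set.Ico (m * q) (m : ℝ) ⊆ Set.Ioc x y :=
    fun t ht => ⟨h1.trans_le ht.1, ht.2.le.trans h2⟩
  rw [len, Set.inter_eq_right.2 h3, Real.volume_real_Ico_of_le (by nlinarith)]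
  ring

theorem len_zero {q x y : ℝ} {m : ℕ} (h : (m : ℝ) ≤ x ∨ y < m * q) : len q x y m = 0 := by
  have : Set.Ioc x y ∩ Set.Ico (m * q) (m : ℝ) = ∅ := by
    refine Set.eq_empty_of_forall_notMem fun t ht => ?_
    rcases h with h | h
    · linarith [ht.1.1, ht.2.2]
    · linarith [ht.1.2, ht.2.1]
  rw [len, this, measureReal_empty]

theorem card_bad {θ q : ℝ} (h0 : 0 < θ) (h1 : θ ≤ 1 / 2) (hq : 1 - θ ≤ q) (S : Finset ℕ) (x : ℕ) :
    ∑ m ∈ S, (if x ≤ m ∧ m * q ≤ x then (1 : ℝ) else 0) ≤ 2 * x * θ + 1 := by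
  classical
  rw [Finset.sum_boole]
  have hx : (0 : ℝ) ≤ x := Nat.cast_nonneg x
  have h2 : (S.filter fun m : ℕ => x ≤ m ∧ m * q ≤ x) ⊆ Finset.Icc x (x + ⌊2 * x * θ⌋₊) := by
    intro m hm
    obtain ⟨h3, h4⟩ := (Finset.mem_filter.1 hm).2
    refine Finset.mem_Icc.2 ⟨h3, ?_⟩
    obtain ⟨d, rfl⟩ := Nat.exists_eq_add_of_le h3
    refine Nat.add_le_add_left (Nat.le_floor ?_) _
    have hd : (0 : ℝ) ≤ d := Nat.cast_nonneg d
    push_cast at h4
    nlinarith [mul_le_mul_of_nonneg_left hq (add_nonneg hx hd), mul_nonneg hd (sub_nonneg.2 h1)]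
  have h3 := Finset.card_le_card h2
  rw [Nat.card_Icc, show x + ⌊2 * x * θ⌋₊ + 1 - x = ⌊2 * x * θ⌋₊ + 1 by omega] at h3
  have h4 : (⌊2 * x * θ⌋₊ : ℝ) ≤ 2 * x * θ := Nat.floor_le (by positivity)
  have h5 : (((S.filter fun m : ℕ => x ≤ m ∧ m * q ≤ x).card : ℕ) : ℝ) ≤ ⌊2 * x * θ⌋₊ + 1 := by
    exact_mod_cast h3
  linarith

/-- The short sum is close to an average of window sums. -/
theorem approx {g : ℕ → ℂ} (hg : ∀ n, ‖g n‖ ≤ 1) {θ q : ℝ} (h0 : 0 < θ) (h1 : θ ≤ 1 / 2)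
    (hq : 1 - θ ≤ q) (hq' : q ≤ 1 - θ + θ ^ 2) {S : Finset ℕ} (hS : 0 ∉ S) {n K : ℕ}
    (hn : Finset.Ico n (n + K) ⊆ S) :
    ‖∑ j ∈ Finset.range K, g (n + j) -
        (θ⁻¹ : ℝ) * ∫ t in Set.Ioc (n : ℝ) (n + K), win (fun m => g m / m) S q t‖ ≤
      K * θ + (2 * n * θ + 1) + (2 * (n + K : ℕ) * θ + 1) := by
  classical
  have hq1 : q ≤ 1 := by nlinarith
  have e1 : ∑ j ∈ Finset.range K, g (n + j) =
      ∑ m ∈ S, if m ∈ Finset.Ico n (n + K) then g m else 0 := by
    rw [← Finset.sum_filter, Finset.filter_mem_eq_inter, Finset.inter_eq_right.2 hn,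
      Finset.sum_Ico_eq_sum_range, Nat.add_sub_cancel_left]
  have e2 : ∑ m ∈ S, (if m ∈ Finset.Ico n (n + K) then θ else 0) = K * θ := by
    rw [← Finset.sum_filter, Finset.filter_mem_eq_inter, Finset.inter_eq_right.2 hn,
      Finset.sum_const, Nat.card_Ico, Nat.add_sub_cancel_left, nsmul_eq_mul]
  rw [e1, integral_win, Finset.mul_sum, ← Finset.sum_sub_distrib]
  refine le_trans ?_ (add_le_add (add_le_add e2.le (card_bad h0 h1 hq S n))
    (card_bad h0 h1 hq S (n + K)))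
  rw [← Finset.sum_add_distrib, ← Finset.sum_add_distrib]
  refine norm_sum_le_of_le _ fun m hm => ?_
  have hm0 : (0 : ℝ) < m := by
    exact_mod_cast Nat.pos_of_ne_zero fun h => hS (h ▸ hm)
  have hmc : (m : ℂ) ≠ 0 := by exact_mod_cast hm0.ne'
  set ω : ℝ := len q n (n + K) m / (m * θ) with hω
  have e3 : (if m ∈ Finset.Ico n (n + K) then g m else 0) -
      ((θ⁻¹ : ℝ) : ℂ) * ((len q n (n + K) m : ℂ) * (g m / m)) =
      g m * (((if m ∈ Finset.Ico n (n + K) then 1 else 0) - ω : ℝ) : ℂ) := by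
    have hθ : (θ : ℂ) ≠ 0 := by exact_mod_cast h0.ne'
    rw [hω]
    split_ifs
    · push_cast
      field_simp
    · push_cast
      field_simp
      ring
  rw [e3, norm_mul, norm_real, Real.norm_eq_abs]
  refine (mul_le_of_le_one_left (abs_nonneg _) (hg m)).trans ?_
  have hω0 : 0 ≤ ω := div_nonneg (len_nonneg _ _ _ _) (by positivity)
  have hω1 : ω ≤ 1 := by
    rw [hω, div_le_one (by positivity)]
    exact (len_le hq1 _ _ _).trans (mul_le_mul_of_nonneg_left (by linarith) hm0.le)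
  by_cases a1 : m ∈ Finset.Ico n (n + K)
  · have a2 := Finset.mem_Ico.1 a1
    rw [if_pos a1, if_pos a1, if_neg (fun h : n + K ≤ m ∧ _ => by omega), add_zero,
      abs_of_nonneg (by linarith)]
    split_ifs with a3
    · linarith
    · have a4 : (n : ℝ) < m * q := by
        by_contra h
        exact a3 ⟨a2.1, not_lt.1 h⟩
      have a5 : len q n (n + K) m = m * (1 - q) :=
        len_full hq1 a4 (by exact_mod_cast a2.2.le)
      have a6 : 1 - θ ≤ ω := by
        rw [hω, a5, le_div_iff₀ (by positivity)]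
        nlinarith [mul_le_mul_of_nonneg_left hq' hm0.le]
      linarith
  · rw [if_neg a1, if_neg a1, zero_sub, abs_neg, abs_of_nonneg hω0, zero_add]
    by_cases a2 : n + K ≤ m ∧ (m : ℝ) * q ≤ (n + K : ℕ)
    · rw [if_pos a2]
      split_ifs <;> linarith
    · have a3 : len q n (n + K) m = 0 := by
        refine len_zero ?_
        rcases lt_or_ge m n with h | h
        · exact Or.inl (by exact_mod_cast h.le)
        · have h2 : n + K ≤ m := by
            by_contra h3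
            exact a1 (Finset.mem_Ico.2 ⟨h, by omega⟩)
          refine Or.inr ?_
          by_contra h3
          exact a2 ⟨h2, by push_cast; exact not_lt.1 h3⟩
      rw [hω, a3, zero_div]
      split_ifs <;> norm_num

theorem pars (gal : GalStmt) : ParsStmt := by
  refine ⟨1500, by norm_num, fun g K H v hg hK hH hKv hHv => ?_⟩
  set E := Real.exp v with hE
  have hE0 : 0 < E := Real.exp_pos v
  set θ := H * Real.exp (-v) with hθ
  have hθE : θ * E = H := by
    rw [hθ, hE, mul_assoc, ← Real.exp_add]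
    simp
  have h0 : 0 < θ := by positivity
  have h1 : θ ≤ 1 / 2 := by nlinarith
  have hq : 1 - θ ≤ Real.exp (-θ) := by linarith [Real.add_one_le_exp (-θ)]
  have hq' : Real.exp (-θ) ≤ 1 - θ + θ ^ 2 := by
    have := Real.abs_exp_sub_one_sub_id_le (x := -θ) (by rw [abs_neg, abs_of_pos h0]; linarith)
    have h2 := (abs_le.1 this).2
    nlinarith
  set S := iv v (v + 3) with hS
  set f := win (fun m => g m / m) S (Real.exp (-θ)) with hf
  set J := ∫⁻ u : ℝ, nsq (FF g v u) * ENNReal.ofReal (Real.sinc (θ * u / 2) ^ 2) with hJ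
  have hfm : Measurable f := measurable_win _ _ _
  have x1 : Real.exp (v + 1) ≤ 3 * E := by
    rw [Real.exp_add]
    nlinarith [Real.exp_one_lt_d9]
  have x2 : 4 * E ≤ Real.exp (v + 2) ∧ Real.exp (v + 2) ≤ 9 * E := by
    rw [Real.exp_add, show (2 : ℝ) = 1 + 1 by norm_num, Real.exp_add]
    have a1 : 4 ≤ Real.exp 1 * Real.exp 1 := by nlinarith [Real.exp_one_gt_d9]
    have a2 : Real.exp 1 * Real.exp 1 ≤ 9 := by nlinarith [Real.exp_one_lt_d9, Real.exp_pos 1]
    constructor <;> nlinarith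
  have x3 : Real.exp (v + 2) ≤ Real.exp (v + 3) := Real.exp_le_exp.2 (by linarith)
  have hn : ∀ n ∈ iv v (v + 1), E < n ∧ (n : ℝ) ≤ 3 * E := fun n hn => by
    obtain ⟨a1, a2⟩ := Finset.mem_Ioc.1 hn
    exact ⟨(Nat.floor_lt hE0.le).1 a1, ((Nat.le_floor_iff (Real.exp_pos _).le).1 a2).trans x1⟩
  -- the window sums against the Dirichlet polynomial
  have k1 : ∫⁻ w : ℝ, nsq (f (Real.exp w)) ≤ ENNReal.ofReal (θ ^ 2) * J := by
    have a1 := gal θ (fun m => g m / m) S h0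
    have a0 : 0 ∉ S := zero_notMem_iv v (v + 3)
    simp only [hf, win_exp _ a0]
    rw [hJ, ← lintegral_const_mul' _ _ ENNReal.ofReal_ne_top]
    refine le_trans (le_mul_of_one_le_left' ?_) (a1.trans_le (lintegral_mono fun u => le_of_eq ?_))
    · exact ENNReal.one_le_ofReal.2 (by linarith [Real.pi_gt_three])
    · rw [mul_pow, ENNReal.ofReal_mul (by positivity), FF]
      ring
  have k2 : ∑ n ∈ iv v (v + 1), nsq (∫ t in Set.Ioc (n : ℝ) (n + K), f t) ≤
      ENNReal.ofReal (K * K * (9 * E) * θ ^ 2) * J := by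
    have a1 := overlap (F := fun y => nsq (f y)) (measurable_nsq.comp hfm) (iv v (v + 1)) K
      (Real.exp (v + 2)) fun n h => by linarith [(hn n h).2, x2.1]
    have a2 := subst (fun y => nsq (f y)) (v + 2)
    calc ∑ n ∈ iv v (v + 1), nsq (∫ t in Set.Ioc (n : ℝ) (n + K), f t)
        ≤ ∑ n ∈ iv v (v + 1), (K : ENNReal) * ∫⁻ y in Set.Ioc (n : ℝ) (n + K), nsq (f y) := by
          refine Finset.sum_le_sum fun n _ => (cs hfm _).trans (le_of_eq ?_)
          simp
      _ ≤ K * (K * (ENNReal.ofReal (9 * E) * (ENNReal.ofReal (θ ^ 2) * J))) := by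
          rw [← Finset.mul_sum]
          refine mul_le_mul_right (a1.trans (mul_le_mul_right (a2.trans ?_) _)) _
          exact mul_le_mul' (ENNReal.ofReal_le_ofReal x2.2) k1
      _ = _ := by
          rw [ENNReal.ofReal_mul (p := K * K * (9 * E)) (by positivity),
            ENNReal.ofReal_mul (p := K * K) (by positivity),
            ENNReal.ofReal_mul (p := K) (by positivity), ENNReal.ofReal_natCast]
          ring
  have k3 : ∀ n ∈ iv v (v + 1), ‖∑ j ∈ Finset.range K, g (n + j)‖ ^ 2 / n ≤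
      2 / (θ ^ 2 * E) * ‖∫ t in Set.Ioc (n : ℝ) (n + K), f t‖ ^ 2 + 2 * (17 * H) ^ 2 * (1 / n) := by
    intro n h
    obtain ⟨a1, a2⟩ := hn n h
    have hn0 : (0 : ℝ) < n := hE0.trans a1
    have a3 := approx hg h0 h1 hq hq' (zero_notMem_iv v (v + 3)) (n := n) (K := K) fun m hm => by
      obtain ⟨b1, b2⟩ := Finset.mem_Ico.1 hm
      have b3 : (m : ℝ) ≤ n + K := by exact_mod_cast b2.le
      exact Finset.mem_Ioc.2 ⟨(Finset.mem_Ioc.1 h).1.trans_le b1,
        Nat.le_floor (by linarith [x2.1])⟩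
    rw [← hS, ← hf] at a3
    set T := ∑ j ∈ Finset.range K, g (n + j)
    set I := ∫ t in Set.Ioc (n : ℝ) (n + K), f t
    have a4 : ‖T - (θ⁻¹ : ℝ) * I‖ ≤ 17 * H := by
      refine a3.trans ?_
      push_cast
      nlinarith [mul_le_mul_of_nonneg_left hKv h0.le, mul_le_mul_of_nonneg_left a2 h0.le]
    have a5 : ‖T‖ ≤ θ⁻¹ * ‖I‖ + 17 * H := by
      have b1 := norm_add_le ((θ⁻¹ : ℝ) * I) (T - (θ⁻¹ : ℝ) * I)
      rw [add_sub_cancel, norm_mul, norm_real, Real.norm_of_nonneg (by positivity)] at b1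
      linarith
    have a6 : ‖T‖ ^ 2 ≤ 2 * (θ⁻¹ * ‖I‖) ^ 2 + 2 * (17 * H) ^ 2 := by
      refine (pow_le_pow_left₀ (norm_nonneg _) a5 2).trans ?_
      nlinarith [sq_nonneg (θ⁻¹ * ‖I‖ - 17 * H)]
    calc ‖T‖ ^ 2 / n ≤ (2 * (θ⁻¹ * ‖I‖) ^ 2 + 2 * (17 * H) ^ 2) / n := by gcongr
      _ = 2 * (θ⁻¹ * ‖I‖) ^ 2 / n + 2 * (17 * H) ^ 2 * (1 / n) := by ring
      _ ≤ 2 * (θ⁻¹ * ‖I‖) ^ 2 / E + 2 * (17 * H) ^ 2 * (1 / n) := by gcongr
      _ = _ := by field_simp
  have k4 : ∑ n ∈ iv v (v + 1), ‖∑ j ∈ Finset.range K, g (n + j)‖ ^ 2 / n ≤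
      2 / (θ ^ 2 * E) * ∑ n ∈ iv v (v + 1), ‖∫ t in Set.Ioc (n : ℝ) (n + K), f t‖ ^ 2 +
        1500 * H ^ 2 := by
    refine (Finset.sum_le_sum k3).trans ?_
    rw [Finset.sum_add_distrib, ← Finset.mul_sum, ← Finset.mul_sum]
    have a1 := sum_inv_iv (v := v) (w := v + 1) (by linarith)
    have a2 : ∑ n ∈ iv v (v + 1), 1 / (n : ℝ) ≤ 2 := by
      linarith [min_le_left 1 (Real.exp (-v))]
    nlinarith [mul_le_mul_of_nonneg_left a2 (sq_nonneg H)]
  refine (ENNReal.ofReal_le_ofReal k4).trans (ENNReal.ofReal_add_le.trans (add_le_add_left ?_ _))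
  rw [ENNReal.ofReal_mul (by positivity), ENNReal.ofReal_sum_of_nonneg fun _ _ => by positivity]
  refine (mul_le_mul_right k2 _).trans ?_
  rw [← mul_assoc, ← ENNReal.ofReal_mul (by positivity)]
  refine mul_le_mul_left (ENNReal.ofReal_le_ofReal ?_) _
  have e : 2 / (θ ^ 2 * E) * (K * K * (9 * E) * θ ^ 2) = 18 * (K : ℝ) ^ 2 := by
    field_simp
    ring
  rw [e]
  nlinarith [sq_nonneg (K : ℝ)]

end Pool.Agent.MP_ca0a54_nt.BH.PARS
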