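import Pool.Agent.MP_ca0a54_nt.BH.Basic

/-! The Liouville function twisted by a character does not pretend to be `n ^ (i t)`. -/

open Complex MeasureTheory Filter Topology

namespace Pool.Agent.MP_ca0a54_nt.BH.PRET

theorem norm_one_sub_pow {z : ℂ} (hz : ‖z‖ = 1) (m : ℕ) : ‖1 - z ^ m‖ ≤ m * ‖1 - z‖ := by
  induction m with
  | zero => simp
  | succ m ih =>
    have : 1 - z ^ (m + 1) = (1 - z ^ m) + z ^ m * (1 - z) := by ring
    rw [this]
    refine (norm_add_le _ _).trans ?_
    rw [norm_mul, norm_pow, hz, one_pow, one_mul]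
    push_cast
    linarith

theorem normSq_one_sub {z : ℂ} (hz : ‖z‖ = 1) : ‖1 - z‖ ^ 2 = 2 * (1 - z.re) := by
  have h : z.re ^ 2 + z.im ^ 2 = 1 := by
    have := Complex.sq_norm z
    rw [hz, Complex.normSq_apply] at this
    nlinarith
  rw [Complex.sq_norm, Complex.normSq_apply]
  simp only [Complex.sub_re, Complex.one_re, Complex.sub_im, Complex.one_im]
  nlinarith

theorem re_pow_le {z : ℂ} (hz : ‖z‖ = 1) (m : ℕ) :
    1 - (z ^ m).re ≤ (m : ℝ) ^ 2 * (1 - z.re) := by
  have h1 := normSq_one_sub hz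
  have h2 := normSq_one_sub (z := z ^ m) (by rw [norm_pow, hz, one_pow])
  have h3 := pow_le_pow_left₀ (norm_nonneg _) (norm_one_sub_pow hz m) 2
  rw [mul_pow, h1, h2] at h3
  linarith

theorem ei_pow (x : ℝ) (m : ℕ) : ei x ^ m = ei (m * x) := by
  rw [ei, ei, ← Complex.exp_nat_mul]
  congr 1
  push_cast
  ring

theorem re_le {q : ℕ} (hq0 : 0 < q) (χ : DirichletCharacter ℂ q) (x : ℝ) {p : ℕ}
    (hp : p.Prime) :
    1 - (ei ((2 * q.totient : ℕ) * x)).re ≤
      ((2 * q.totient : ℕ) : ℝ) ^ 2 * (1 - ((lam p * χ p : ℂ) * ei x).re) := by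
  have hφ : 1 ≤ q.totient := Nat.totient_pos.2 hq0
  by_cases hu : IsUnit (p : ZMod q)
  · obtain ⟨u, hu⟩ := hu
    have h1 : χ p ^ q.totient = 1 := by
      rw [← hu, ← map_pow, ← Units.val_pow_eq_pow_val, ZMod.pow_totient, Units.val_one, map_one]
    have hz : ‖(lam p * χ p : ℂ) * ei x‖ = 1 := by
      rw [norm_mul, norm_ei, mul_one, lam_prime hp, norm_mul, ← hu, χ.unit_norm_eq_one]
      simp
    have h2 := re_pow_le hz (2 * q.totient)
    have h3 : ((lam p * χ p : ℂ) * ei x) ^ (2 * q.totient) = ei ((2 * q.totient : ℕ) * x) := by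
      rw [mul_pow, ei_pow, lam_prime hp, mul_pow, pow_mul, mul_comm 2 q.totient,
        pow_mul (χ p), h1]
      simp
    rwa [h3] at h2
  · have h2 : (2 : ℝ) ≤ ((2 * q.totient : ℕ) : ℝ) := by
      exact_mod_cast (by omega : 2 ≤ 2 * q.totient)
    have h3 := (abs_le.1 ((abs_re_le_norm (ei ((2 * q.totient : ℕ) * x))).trans
      (norm_ei _).le)).1
    rw [χ.map_nonunit hu, mul_zero, zero_mul, Complex.zero_re]
    nlinarith

theorem re_dir (c : ℕ → ℂ) (S : Finset ℕ) (t : ℝ) :
    (dir (fun p => c p / p) S t).re = ∑ p ∈ S, (c p * ei (-(t * Real.log p))).re / p := by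
  unfold dir
  rw [re_sum]
  refine Finset.sum_congr rfl fun p _ => ?_
  rw [div_mul_eq_mul_div, div_natCast_re]

/-- The logarithm of the modulus of a function without zeros is bounded on a box. -/
theorem exists_bd {F : ℂ → ℂ} (hF : Continuous F) (h0 : ∀ s : ℂ, 1 ≤ s.re → F s ≠ 0) :
    ∃ C : ℝ, 0 ≤ C ∧ ∀ a t : ℝ, 0 ≤ a → a ≤ 1 → |t| ≤ 2 →
      |Real.log ‖F (1 + a + I * t)‖| ≤ C := by
  have hc : ContinuousOn (fun x : ℝ × ℝ => Real.log ‖F (1 + x.1 + I * x.2)‖)
      (Set.Icc 0 1 ×ˢ Set.Icc (-2) 2) := by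
    refine ContinuousOn.log (Continuous.continuousOn (by fun_prop)) fun x hx => ?_
    refine norm_ne_zero_iff.2 (h0 _ ?_)
    have := hx.1.1
    simpa using this
  obtain ⟨C, hC⟩ := (isCompact_Icc.prod isCompact_Icc).exists_bound_of_continuousOn hc
  refine ⟨max C 0, le_max_right _ _, fun a t ha ha1 ht => le_max_of_le_left ?_⟩
  exact hC (a, t) ⟨⟨ha, ha1⟩, abs_le.1 ht⟩

theorem small (q : ℕ) [NeZero q] (χ : DirichletCharacter ℂ q) :
    ∃ C : ℝ, 0 ≤ C ∧ ∀ a b t : ℝ, 0 < b → b ≤ a → a ≤ 1 → |t| ≤ 2 →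
      Real.log ‖χ.LFunction (1 + a + I * t)‖ - Real.log ‖χ.LFunction (1 + b + I * t)‖ ≤ C := by
  by_cases hχ : χ = 1
  · subst hχ
    have hne : ∀ s : ℂ, 1 ≤ s.re → DirichletCharacter.LFunctionTrivChar₁ q s ≠ 0 := by
      intro s hs
      by_cases h1 : s = 1
      · subst h1
        exact DirichletCharacter.LFunctionTrivChar₁_apply_one_ne_zero q
      · rw [DirichletCharacter.LFunctionTrivChar₁, Function.update_of_ne h1]
        exact mul_ne_zero (sub_ne_zero.2 h1)
          (DirichletCharacter.LFunction_ne_zero_of_one_le_re 1 (.inr h1) hs)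
    obtain ⟨C, hC0, hC⟩ :=
      exists_bd (DirichletCharacter.differentiable_LFunctionTrivChar₁ q).continuous hne
    have key : ∀ a t : ℝ, 0 < a → Real.log ‖DirichletCharacter.LFunctionTrivChar₁ q
        (1 + a + I * t)‖ = Real.log (a ^ 2 + t ^ 2) / 2 +
          Real.log ‖(1 : DirichletCharacter ℂ q).LFunction (1 + a + I * t)‖ := by
      intro a t ha
      have h1 : (1 + a + I * t : ℂ) ≠ 1 := fun h => by
        have := congrArg re h
        simp at this
        linarith
      have h2 := DirichletCharacter.LFunction_ne_zero_of_one_le_re (1 : DirichletCharacter ℂ q)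
        (.inr h1) (by simpa using ha.le)
      rw [DirichletCharacter.LFunctionTrivChar₁, Function.update_of_ne h1, norm_mul,
        Real.log_mul (norm_ne_zero_iff.2 (sub_ne_zero.2 h1)) (norm_ne_zero_iff.2 h2)]
      congr 1
      rw [← Real.log_sqrt (by positivity), ← norm_add_mul_I]
      congr 2
      ring
    refine ⟨2 * C, by positivity, fun a b t hb hab ha ht => ?_⟩
    have h1 := abs_le.1 (hC a t (hb.le.trans hab) ha ht)
    have h2 := abs_le.1 (hC b t hb.le (hab.trans ha) ht)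
    rw [key a t (hb.trans_le hab)] at h1
    rw [key b t hb] at h2
    have h3 : Real.log (b ^ 2 + t ^ 2) ≤ Real.log (a ^ 2 + t ^ 2) :=
      Real.log_le_log (by positivity) (by nlinarith)
    linarith [h1.2, h2.1]
  · obtain ⟨C, hC0, hC⟩ := exists_bd (DirichletCharacter.differentiable_LFunction hχ).continuous
      fun s hs => DirichletCharacter.LFunction_ne_zero_of_one_le_re χ (.inl hχ) hs
    refine ⟨2 * C, by positivity, fun a b t hb hab ha ht => ?_⟩
    have h1 := abs_le.1 (hC a t (hb.le.trans hab) ha ht)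
    have h2 := abs_le.1 (hC b t hb.le (hab.trans ha) ht)
    linarith [h1.2, h2.1]

theorem pret : EulStmt → RatStmt → PretStmt := by
  rintro ⟨C, hC0, hE⟩ hR q _ χ
  have hq0 : 0 < q := NeZero.pos q
  have hφ : 1 ≤ q.totient := Nat.totient_pos.2 hq0
  obtain ⟨D, hD0, hD⟩ := small q χ
  obtain ⟨m, hm⟩ : ∃ m : ℕ, m = 2 * q.totient := ⟨_, rfl⟩
  have hm1 : (1 : ℝ) ≤ m := by exact_mod_cast (by omega : 1 ≤ m)
  have hm2 : (1 : ℝ) ≤ (m : ℝ) ^ 2 := one_le_pow₀ hm1
  have hc1 : 1 / (m : ℝ) ^ 2 ≤ 1 := by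
    rw [div_le_one (by positivity)]
    exact hm2
  refine ⟨1 / (m : ℝ) ^ 2, C + D + 2, by positivity, hc1, by positivity, fun A hA => ?_⟩
  filter_upwards [hR A hA, eventually_ge_atTop A,
    Real.tendsto_exp_atTop.eventually_ge_atTop (2 * (m : ℝ))] with V hV hVA hVm y z t hy hyz hz ht
  have hy1 : 1 ≤ y := le_trans (by rwa [le_div_iff₀ (by linarith), one_mul]) hy
  have hz0 : 0 < 1 / z := by
    have : 0 < z := by linarith
    positivity
  have hzy : 1 / z ≤ 1 / y := one_div_le_one_div_of_le (by linarith) hyz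
  have hr := rcp_nonneg (prm y z)
  rcases le_total |t| 2 with h2 | h2
  · have h1 : (dir (fun p => (lam p * χ p : ℂ) / p) (prm y z) t).re =
        -(dir (fun p => χ p / p) (prm y z) t).re := by
      rw [re_dir fun p => (lam p * χ p : ℂ), re_dir fun p => χ p, ← Finset.sum_neg_distrib]
      refine Finset.sum_congr rfl fun p hp => ?_
      rw [lam_prime (mem_prm.1 hp).1, ← neg_div, ← neg_re]
      congr 2
      push_cast
      ring
    have h3 := (abs_le.1 (hE q χ y z t hy1 hyz)).1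
    have h4 := hD (1 / y) (1 / z) t hz0 hzy (by rw [div_le_one (by linarith)]; exact hy1) h2
    have h5 : 0 ≤ (1 - 1 / (m : ℝ) ^ 2) * rcp (prm y z) := mul_nonneg (by linarith) hr
    rw [h1]
    linarith
  · have habs : |(m : ℝ) * t| = m * |t| := by rw [abs_mul, Nat.abs_cast]
    have hE0 := Real.exp_pos V
    have h3 := hV y z (m * t) hy hyz (hyz.trans hz) (by rw [habs]; nlinarith) (by
      rw [habs, two_mul V, Real.exp_add]
      nlinarith [mul_le_mul_of_nonneg_left ht (by linarith : (0 : ℝ) ≤ m)])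
    have h4 := (abs_le.1 (hE 1 1 y z (m * t) hy1 hyz)).2
    rw [DirichletCharacter.LFunction_modOne_eq] at h4
    have hn : ∀ a : ℝ, 0 < a → 0 < ‖riemannZeta (1 + a + I * ((m * t : ℝ) : ℂ))‖ := fun a ha =>
      norm_pos_iff.2 (riemannZeta_ne_zero_of_one_lt_re (by simpa using ha))
    have h5 := Real.log_le_log (hn _ hz0) h3
    rw [Real.log_mul (by norm_num) (hn _ (hz0.trans_le hzy)).ne'] at h5
    have h6 : Real.log 3 ≤ 2 := by
      linarith [Real.log_le_sub_one_of_pos (by norm_num : (0 : ℝ) < 3)]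
    have h7 : rcp (prm y z) -
        (dir (fun p => (1 : DirichletCharacter ℂ 1) p / p) (prm y z) (m * t)).re ≤
        (m : ℝ) ^ 2 * (rcp (prm y z) -
          (dir (fun p => (lam p * χ p : ℂ) / p) (prm y z) t).re) := by
      rw [re_dir fun p => (lam p * χ p : ℂ), re_dir fun p => (1 : DirichletCharacter ℂ 1) p, rcp,
        ← Finset.sum_sub_distrib, ← Finset.sum_sub_distrib, Finset.mul_sum]
      refine Finset.sum_le_sum fun p hp => ?_
      rw [← sub_div, ← sub_div, ← mul_div_assoc]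
      refine div_le_div_of_nonneg_right ?_ (Nat.cast_nonneg _)
      have h8 := re_le hq0 χ (-(t * Real.log p)) (mem_prm.1 hp).1
      rw [← hm] at h8
      rw [Subsingleton.elim (p : ZMod 1) 1, map_one, one_mul,
        show -((m : ℝ) * t * Real.log p) = m * -(t * Real.log p) by ring]
      exact h8
    have h9 : (rcp (prm y z) - (C + 2)) / (m : ℝ) ^ 2 ≤ rcp (prm y z) -
        (dir (fun p => (lam p * χ p : ℂ) / p) (prm y z) t).re := by
      rw [div_le_iff₀ (by positivity)]
      linarith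
    have h10 : (C + 2) / (m : ℝ) ^ 2 ≤ C + 2 := div_le_self (by positivity) hm2
    rw [sub_div] at h9
    have h11 : (1 - 1 / (m : ℝ) ^ 2) * rcp (prm y z) =
        rcp (prm y z) - rcp (prm y z) / (m : ℝ) ^ 2 := by ring
    rw [h11]
    linarith

end Pool.Agent.MP_ca0a54_nt.BH.PRET
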