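import Pool.Agent.MP_ca0a54_nt.BH.Basic

/-! Short sums of the Liouville function twisted by a rational additive character. -/

open Complex Filter Topology

namespace Pool.Agent.MP_ca0a54_nt.BH.RATL

theorem short_zero : Short fun _ => 0 := fun ε hε =>
  Eventually.of_forall fun K => Eventually.of_forall fun N => by
    have h := Real.log_natCast_nonneg N
    simp only [Finset.sum_const_zero, norm_zero, LS]
    simp only [ne_eq, OfNat.ofNat_ne_zero, not_false_eq_true, zero_pow, zero_div,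
      Finset.sum_const_zero]
    positivity

theorem short_add {f g : ℕ → ℂ} (hf : Short f) (hg : Short g) : Short fun n => f n + g n := by
  intro ε hε
  filter_upwards [hf (ε / 4) (by positivity), hg (ε / 4) (by positivity)] with K h1 h2
  filter_upwards [h1, h2] with N h3 h4
  have h5 : LS N (fun n => ‖∑ j ∈ Finset.range K, (f (n + j) + g (n + j))‖ ^ 2) ≤
      LS N fun n => 2 * ‖∑ j ∈ Finset.range K, f (n + j)‖ ^ 2 +
        2 * ‖∑ j ∈ Finset.range K, g (n + j)‖ ^ 2 := by
    refine LS_mono fun n _ _ => ?_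
    rw [Finset.sum_add_distrib]
    set z := ∑ j ∈ Finset.range K, f (n + j)
    set w := ∑ j ∈ Finset.range K, g (n + j)
    have h1 := norm_add_le z w
    nlinarith [norm_nonneg (z + w), norm_nonneg z, norm_nonneg w, sq_nonneg (‖z‖ - ‖w‖)]
  rw [LS_add, LS_mul, LS_mul] at h5
  linarith

theorem short_mul {g : ℕ → ℂ} (c : ℂ) (hg : Short g) : Short fun n => c * g n := by
  intro ε hε
  filter_upwards [hg (ε / (‖c‖ ^ 2 + 1)) (by positivity)] with K h1
  filter_upwards [h1] with N h2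
  have h3 : LS N (fun n => ‖∑ j ∈ Finset.range K, c * g (n + j)‖ ^ 2) ≤
      LS N fun n => (‖c‖ ^ 2 + 1) * ‖∑ j ∈ Finset.range K, g (n + j)‖ ^ 2 := by
    refine LS_mono fun n _ _ => ?_
    rw [← Finset.mul_sum, norm_mul, mul_pow]
    nlinarith [sq_nonneg ‖∑ j ∈ Finset.range K, g (n + j)‖]
  rw [LS_mul] at h3
  refine h3.trans ((mul_le_mul_of_nonneg_left h2 (by positivity)).trans (le_of_eq ?_))
  field_simp

theorem short_sum {ι : Type*} (S : Finset ι) (f : ι → ℕ → ℂ) (hf : ∀ i ∈ S, Short (f i)) :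
    Short fun n => ∑ i ∈ S, f i n := by
  classical
  induction S using Finset.induction_on with
  | empty => simpa using short_zero
  | insert a S ha ih =>
    simp only [Finset.sum_insert ha]
    exact short_add (hf a (Finset.mem_insert_self _ _))
      (ih fun i hi => hf i (Finset.mem_insert_of_mem hi))

/-- The function supported on the multiples of `d`. -/
noncomputable def dil (d : ℕ) (g : ℕ → ℂ) (n : ℕ) : ℂ := if d ∣ n then g (n / d) else 0

theorem block {d : ℕ} (hd : 1 ≤ d) (g : ℕ → ℂ) (n : ℕ) :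
    ∑ j ∈ Finset.range d, dil d g (n + j) = g ((n + d - 1) / d) := by
  have h1 := Nat.div_add_mod (n + d - 1) d
  have h2 := Nat.mod_lt (n + d - 1) hd
  set m := (n + d - 1) / d
  set r := (n + d - 1) % d
  have h3 : n + (d - 1 - r) = d * m := by omega
  rw [Finset.sum_eq_single (d - 1 - r)]
  · unfold dil
    rw [h3, if_pos (dvd_mul_right _ _), Nat.mul_div_cancel_left _ hd]
  · intro j hj hne
    unfold dil
    rw [if_neg]
    rintro ⟨k, hk⟩
    have hj' := Finset.mem_range.1 hj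
    rcases lt_trichotomy k m with h | h | h
    · have := Nat.mul_le_mul_left d (Nat.succ_le_of_lt h)
      rw [Nat.mul_succ] at this
      omega
    · subst h
      omega
    · have := Nat.mul_le_mul_left d (Nat.succ_le_of_lt h)
      rw [Nat.mul_succ] at this
      omega
  · intro h
    exact absurd (Finset.mem_range.2 (by omega)) h

theorem blocks {d : ℕ} (hd : 1 ≤ d) (g : ℕ → ℂ) (n K : ℕ) :
    ∑ j ∈ Finset.range (d * K), dil d g (n + j) =
      ∑ i ∈ Finset.range K, g ((n + d - 1) / d + i) := by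
  induction K with
  | zero => simp
  | succ K ih =>
    rw [Nat.mul_succ, Finset.sum_range_add, ih, Finset.sum_range_succ]
    congr 1
    have h := block hd g (n + d * K)
    simp only [add_assoc] at h
    simp only [h]
    congr 1
    have e : n + (d * K + d) - 1 = n + d - 1 + d * K := by omega
    rw [e, Nat.add_mul_div_left _ _ hd]

theorem dil_sum_le {d : ℕ} (hd : 1 ≤ d) {g : ℕ → ℂ} (hg : ∀ n, ‖g n‖ ≤ 1) (n K : ℕ) :
    ‖∑ j ∈ Finset.range K, dil d g (n + j)‖ ^ 2 ≤
      2 * ‖∑ i ∈ Finset.range (K / d), g ((n + d - 1) / d + i)‖ ^ 2 + 2 * (d : ℝ) ^ 2 := by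
  have e : ∑ j ∈ Finset.range K, dil d g (n + j) =
      ∑ i ∈ Finset.range (K / d), g ((n + d - 1) / d + i) +
        ∑ j ∈ Finset.range (K % d), dil d g (n + (d * (K / d) + j)) := by
    conv_lhs => rw [← Nat.div_add_mod K d]
    rw [Finset.sum_range_add, blocks hd]
  rw [e]
  set z := ∑ i ∈ Finset.range (K / d), g ((n + d - 1) / d + i)
  set w := ∑ j ∈ Finset.range (K % d), dil d g (n + (d * (K / d) + j))
  have h1 : ‖w‖ ≤ d := by
    refine (norm_sum_le_of_le (n := fun _ => (1 : ℝ)) _ fun j _ => ?_).trans ?_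
    · unfold dil
      split_ifs
      · exact hg _
      · simp
    · simpa using (Nat.mod_lt K hd).le
  have h2 := norm_add_le z w
  have h3 : ‖w‖ ^ 2 ≤ (d : ℝ) ^ 2 := by gcongr
  nlinarith [norm_nonneg (z + w), norm_nonneg z, norm_nonneg w, sq_nonneg (‖z‖ - ‖w‖)]

theorem LS_ceil {d : ℕ} (hd : 1 ≤ d) {F : ℕ → ℝ} (hF : ∀ n, 0 ≤ F n) (N : ℕ) :
    LS N (fun n => F ((n + d - 1) / d)) ≤ d * LS N F := by
  have hle : ∀ n, 1 ≤ n → 1 ≤ (n + d - 1) / d ∧ (n + d - 1) / d ≤ n := fun n hn => by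
    refine ⟨(Nat.le_div_iff_mul_le hd).2 (by omega), Nat.div_le_of_le_mul ?_⟩
    obtain ⟨a, rfl⟩ := Nat.exists_eq_add_of_le hd
    obtain ⟨b, rfl⟩ := Nat.exists_eq_add_of_le hn
    have : (1 + a) * (1 + b) = 1 + a + b + a * b := by ring
    omega
  unfold LS
  have hm : ∀ n ∈ Finset.Icc 1 N, (n + d - 1) / d ∈ Finset.Icc 1 N := fun n hn => by
    have h := Finset.mem_Icc.1 hn
    exact Finset.mem_Icc.2 ⟨(hle n h.1).1, (hle n h.1).2.trans h.2⟩
  rw [← Finset.sum_fiberwise_of_maps_to hm, Finset.mul_sum]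
  refine Finset.sum_le_sum fun m _ => ?_
  have h1 : ∀ n ∈ (Finset.Icc 1 N).filter fun n => (n + d - 1) / d = m,
      F ((n + d - 1) / d) / n ≤ F m / m := fun n hn => by
    obtain ⟨h1, h2⟩ := Finset.mem_filter.1 hn
    have h3 := hle n (Finset.mem_Icc.1 h1).1
    rw [h2] at h3 ⊢
    exact div_le_div_of_nonneg_left (hF m) (by exact_mod_cast h3.1) (by exact_mod_cast h3.2)
  refine (Finset.sum_le_card_nsmul _ _ _ h1).trans ?_
  rw [nsmul_eq_mul]
  refine mul_le_mul_of_nonneg_right ?_ (div_nonneg (hF m) (Nat.cast_nonneg m))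
  have h2 : ((Finset.Icc 1 N).filter fun n => (n + d - 1) / d = m) ⊆
      Finset.Ico (d * m + 1 - d) (d * m + 1) := fun n hn => by
    obtain ⟨-, h2⟩ := Finset.mem_filter.1 hn
    have h1 := Nat.div_add_mod (n + d - 1) d
    have h3 := Nat.mod_lt (n + d - 1) hd
    rw [h2] at h1
    exact Finset.mem_Ico.2 (by omega)
  have h3 := Finset.card_le_card h2
  rw [Nat.card_Ico] at h3
  exact_mod_cast h3.trans (by omega)

theorem short_dil {d : ℕ} (hd : 1 ≤ d) {g : ℕ → ℂ} (hb : ∀ n, ‖g n‖ ≤ 1) (hg : Short g) :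
    Short (dil d g) := by
  intro ε hε
  have hd0 : (0 : ℝ) < d := by exact_mod_cast hd
  filter_upwards [(Nat.tendsto_div_const_atTop (by omega : d ≠ 0)).eventually
    (hg (ε / (4 * d)) (by positivity)),
    tendsto_natCast_atTop_atTop.eventually_ge_atTop (8 * (d : ℝ) ^ 2 / ε),
    eventually_ge_atTop 1] with K h1 hK hK1
  filter_upwards [h1, eventually_ge_atTop 3] with N h2 hN
  have hL : 1 ≤ Real.log N := by
    rw [Real.le_log_iff_exp_le (by positivity)]
    have : (3 : ℝ) ≤ N := by exact_mod_cast hN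
    linarith [Real.exp_one_lt_d9]
  have h3 := LS_mono (N := N) fun n _ _ => dil_sum_le hd hb n K
  have h4 := LS_ceil hd (F := fun m => ‖∑ i ∈ Finset.range (K / d), g (m + i)‖ ^ 2)
    (fun _ => by positivity) N
  have h5 := LS_le (N := N) (f := fun _ => 2 * (d : ℝ) ^ 2) (by positivity) fun _ _ _ => le_rfl
  rw [LS_add, LS_mul] at h3
  have h6 : ((K / d : ℕ) : ℝ) ^ 2 ≤ (K : ℝ) ^ 2 := by
    gcongr
    exact Nat.div_le_self K d
  have h7 : (d : ℝ) * (ε / (4 * d) * ((K / d : ℕ) : ℝ) ^ 2 * Real.log N) ≤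
      ε / 4 * K ^ 2 * Real.log N := by
    have e : (d : ℝ) * (ε / (4 * d) * ((K / d : ℕ) : ℝ) ^ 2 * Real.log N) =
        ε / 4 * ((K / d : ℕ) : ℝ) ^ 2 * Real.log N := by field_simp
    rw [e]
    gcongr
  have h8 := mul_le_mul_of_nonneg_left h2 hd0.le
  have h9 : 8 * (d : ℝ) ^ 2 ≤ ε * K ^ 2 := by
    rw [div_le_iff₀ hε] at hK
    have : (1 : ℝ) ≤ K := by exact_mod_cast hK1
    nlinarith [mul_le_mul_of_nonneg_left this (by positivity : 0 ≤ ε * K)]
  have h10 := mul_le_mul_of_nonneg_right h9 (zero_le_one.trans hL)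
  have h11 := mul_le_mul_of_nonneg_left hL (by positivity : 0 ≤ (d : ℝ) ^ 2)
  nlinarith

/-- The Liouville function on a residue class. -/
noncomputable def cl (q r n : ℕ) : ℂ := if n ≡ r [MOD q] then (lam n : ℂ) else 0

theorem norm_cl (q r n : ℕ) : ‖cl q r n‖ ≤ 1 := by
  unfold cl
  split_ifs
  · rw [norm_real, Real.norm_eq_abs]
    exact abs_lam_le n
  · simp

theorem short_cop
    (H : ∀ (q : ℕ) [NeZero q] (χ : DirichletCharacter ℂ q), Short fun n => lam n * χ n)
    {q r : ℕ} (hq : 1 ≤ q) (h : r.Coprime q) : Short (cl q r) := by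
  have : NeZero q := ⟨by omega⟩
  have hu : IsUnit (r : ZMod q) := (ZMod.isUnit_iff_coprime r q).2 h
  have hφ : (q.totient : ℂ) ≠ 0 := by exact_mod_cast (Nat.totient_pos.2 hq).ne'
  have e : cl q r = fun n : ℕ => ∑ χ : DirichletCharacter ℂ q,
      (χ (r : ZMod q)⁻¹ / q.totient) * (lam n * χ n) := by
    funext n
    have h1 := DirichletCharacter.sum_char_inv_mul_char_eq ℂ hu (n : ZMod q)
    have h2 : ∑ χ : DirichletCharacter ℂ q, (χ (r : ZMod q)⁻¹ / q.totient) * (lam n * χ n) =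
        lam n / q.totient * ∑ χ : DirichletCharacter ℂ q, χ (r : ZMod q)⁻¹ * χ n := by
      rw [Finset.mul_sum]
      exact Finset.sum_congr rfl fun χ _ => by ring
    rw [h2, h1]
    unfold cl
    by_cases hn : n ≡ r [MOD q]
    · rw [if_pos hn, if_pos ((ZMod.natCast_eq_natCast_iff _ _ _).2 hn.symm)]
      field_simp
    · rw [if_neg hn, if_neg fun h3 => hn ((ZMod.natCast_eq_natCast_iff _ _ _).1 h3).symm, mul_zero]
  rw [e]
  exact short_sum _ _ fun χ _ => short_mul _ (H q χ)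

theorem cl_mul {d : ℕ} (hd : 1 ≤ d) (q r : ℕ) :
    cl (d * q) (d * r) = fun n => (lam d : ℂ) * dil d (cl q r) n := by
  funext n
  unfold dil
  by_cases h : d ∣ n
  · obtain ⟨m, rfl⟩ := h
    rw [if_pos (dvd_mul_right _ _), Nat.mul_div_cancel_left _ hd]
    unfold cl
    by_cases hm : m ≡ r [MOD q]
    · rw [if_pos hm, if_pos (hm.mul_left' d), lam_mul]
      push_cast
      rfl
    · rw [if_neg hm, if_neg fun h3 => hm (Nat.ModEq.mul_left_cancel' (by omega) h3), mul_zero]
  · rw [if_neg h, mul_zero]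
    unfold cl
    exact if_neg fun h3 => h ((h3.dvd_iff (dvd_mul_right _ _)).2 (dvd_mul_right _ _))

theorem short_cl
    (H : ∀ (q : ℕ) [NeZero q] (χ : DirichletCharacter ℂ q), Short fun n => lam n * χ n)
    {q : ℕ} (hq : 1 ≤ q) (r : ℕ) : Short (cl q r) := by
  have hd : 0 < Nat.gcd r q := Nat.gcd_pos_of_pos_right r hq
  have h1 := Nat.coprime_div_gcd_div_gcd hd
  have h2 := Nat.mul_div_cancel' (Nat.gcd_dvd_left r q)
  have h3 := Nat.mul_div_cancel' (Nat.gcd_dvd_right r q)
  have h4 : 1 ≤ q / Nat.gcd r q := Nat.div_pos (Nat.gcd_le_right r hq) hd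
  have h5 := cl_mul hd (q / Nat.gcd r q) (r / Nat.gcd r q)
  rw [h2, h3] at h5
  rw [h5]
  exact short_mul _ (short_dil hd (norm_cl _ _) (short_cop H h4 h1))

theorem ei_per (α : ℚ) (n : ℕ) :
    ei (2 * Real.pi * α * n) = ei (2 * Real.pi * α * (n % α.den : ℕ)) := by
  have h1 : (n : ℝ) = α.den * (n / α.den : ℕ) + (n % α.den : ℕ) := by
    exact_mod_cast (Nat.div_add_mod n α.den).symm
  have h2 : (α : ℝ) * α.den = α.num := by exact_mod_cast Rat.mul_den_eq_num α
  have h3 : 2 * Real.pi * α * n = (α.num * (n / α.den : ℕ) : ℤ) * (2 * Real.pi) +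
      2 * Real.pi * α * (n % α.den : ℕ) := by
    conv_lhs => rw [h1]
    rw [Int.cast_mul, ← h2, Int.cast_natCast]
    ring
  rw [h3, ei_add]
  have h4 : ∀ k : ℤ, ei (k * (2 * Real.pi)) = 1 := fun k => by
    unfold ei
    rw [← exp_int_mul_two_pi_mul_I k]
    congr 1
    push_cast
    ring
  rw [h4, one_mul]

theorem ratl : RatlStmt := by
  intro H α
  have e : tw α = fun n => ∑ r ∈ Finset.range α.den,
      ei (2 * Real.pi * α * r) * cl α.den r n := by
    funext n
    rw [Finset.sum_eq_single (n % α.den)]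
    · unfold tw cl
      rw [if_pos (Nat.mod_modEq n _).symm, ei_per α n, mul_comm]
    · intro r hr hne
      unfold cl
      rw [if_neg, mul_zero]
      intro h
      exact hne (Eq.trans h (Nat.mod_eq_of_lt (Finset.mem_range.1 hr))).symm
    · intro h
      exact absurd (Finset.mem_range.2 (Nat.mod_lt n α.pos)) h
  rw [e]
  exact short_sum _ _ fun r _ => short_mul _ (short_cl H α.pos r)

end Pool.Agent.MP_ca0a54_nt.BH.RATL
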