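import Pool.Agent.MP_ca0a54_nt.BH.Basic

/-! The bilinear approximation is small on the sets where the block sums are small. -/

open Complex MeasureTheory Filter Topology

namespace Pool.Agent.MP_ca0a54_nt.BH.STEP

/-- The block number `b` of the stage. -/
noncomputable def blk (a : ℝ) (b : ℕ) : Finset ℕ :=
  (stg a).filter fun p : ℕ => ⌊a * Real.log p⌋₊ = b

theorem QB_eq (g : ℕ → ℂ) (a : ℝ) (b : ℕ) (t : ℝ) :
    QB g a b t = dir (fun p => g p / p) (blk a b) t := rfl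

theorem mem_blk {a : ℝ} (ha : 1 ≤ a) {b p : ℕ} (hp : p ∈ blk a b) :
    (p.Prime ∧ b / a ≤ Real.log p ∧ Real.log p ≤ b / a + 1) ∧
      a ^ 2 - 1 ≤ b / a ∧ b / a ≤ a ^ 3 := by
  obtain ⟨h1, rfl⟩ := Finset.mem_filter.1 hp
  obtain ⟨h2, h3, h4⟩ := mem_prm.1 h1
  have ha0 : 0 < a := by linarith
  have h5 : (⌊a * Real.log p⌋₊ : ℝ) / a ≤ Real.log p := by
    rw [div_le_iff₀' ha0]
    exact Nat.floor_le (mul_nonneg ha0.le (Real.log_natCast_nonneg p))
  have h6 : Real.log p ≤ ⌊a * Real.log p⌋₊ / a + 1 := by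
    have := Nat.lt_floor_add_one (a * Real.log p)
    rw [← sub_le_iff_le_add, le_div_iff₀ ha0]
    nlinarith
  exact ⟨⟨h2, h5, h6⟩, by linarith, by linarith⟩

theorem range_of_ne {a : ℝ} (ha : 1 ≤ a) {g : ℕ → ℂ} {b : ℕ} {t : ℝ} (h : QB g a b t ≠ 0) :
    a ^ 2 - 1 ≤ b / a ∧ b / a ≤ a ^ 3 := by
  rcases (blk a b).eq_empty_or_nonempty with h1 | ⟨p, hp⟩
  · rw [QB_eq, h1] at h
    simp [dir] at h
  · exact (mem_blk ha hp).2

theorem card_le {a : ℝ} (ha : 1 ≤ a) : ((⌊a ^ 4⌋₊ + 1 : ℕ) : ℝ) ≤ 2 * a ^ 4 := by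
  have h1 : (⌊a ^ 4⌋₊ : ℝ) ≤ a ^ 4 := Nat.floor_le (by positivity)
  have h2 : 1 ≤ a ^ 4 := one_le_pow₀ ha
  push_cast
  linarith

theorem nsq_sum_le (s : Finset ℕ) (z : ℕ → ℂ) :
    nsq (∑ b ∈ s, z b) ≤ ENNReal.ofReal s.card * ∑ b ∈ s, nsq (z b) := by
  unfold nsq
  rw [← ENNReal.ofReal_sum_of_nonneg (fun _ _ => by positivity),
    ← ENNReal.ofReal_mul (by positivity)]
  refine ENNReal.ofReal_le_ofReal
    ((pow_le_pow_left₀ (norm_nonneg _) (norm_sum_le _ _) 2).trans ?_)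
  exact sq_sum_le_card_mul_sum_sq

theorem meas {f : ℝ → ℂ} (hf : Continuous f) : Measurable fun t => nsq (f t) :=
  measurable_nsq.comp hf.measurable

theorem cont_QB (g : ℕ → ℂ) (a : ℝ) (b : ℕ) : Continuous (QB g a b) := continuous_dir _ _

theorem cont_FF (g : ℕ → ℂ) (v : ℝ) : Continuous (FF g v) := continuous_dir _ _

theorem sum_le {s : Finset ℕ} {f : ℕ → ENNReal} {B n : ℝ} (hB : 0 ≤ B) (hn : (s.card : ℝ) ≤ n)
    (h : ∀ b ∈ s, f b ≤ ENNReal.ofReal B) : ∑ b ∈ s, f b ≤ ENNReal.ofReal (n * B) := by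
  refine (Finset.sum_le_sum h).trans ?_
  rw [← ENNReal.ofReal_sum_of_nonneg fun _ _ => hB, Finset.sum_const, nsmul_eq_mul]
  exact ENNReal.ofReal_le_ofReal (mul_le_mul_of_nonneg_right hn hB)

theorem bil_le (g : ℕ → ℂ) {a : ℝ} (ha : 1 ≤ a) (v : ℝ) (E : Set ℝ) {B : ℝ} (hB : 0 ≤ B)
    (h : ∀ b : ℕ, a ^ 2 - 1 ≤ b / a → b / a ≤ a ^ 3 →
      ∫⁻ t in E, nsq (QB g a b t * FF g (v - b / a) t) ≤ ENNReal.ofReal B) :
    ∫⁻ t in E, nsq (Bil g a v t) ≤ ENNReal.ofReal (4 * a ^ 8 * B) := by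
  have h' : ∀ b : ℕ, ∫⁻ t in E, nsq (QB g a b t * FF g (v - b / a) t) ≤ ENNReal.ofReal B := by
    intro b
    by_cases h1 : ∀ t, QB g a b t = 0
    · simp [h1, nsq]
    · obtain ⟨t, ht⟩ := not_forall.1 h1
      exact h b (range_of_ne ha ht).1 (range_of_ne ha ht).2
  have hm : ∀ b : ℕ, Measurable fun t => nsq (QB g a b t * FF g (v - b / a) t) := fun b =>
    meas ((cont_QB g a b).mul (cont_FF g _))
  have hc := card_le ha
  refine (lintegral_mono fun t => nsq_sum_le _ _).trans ?_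
  rw [lintegral_const_mul _ (Finset.measurable_sum _ fun b _ => hm b),
    lintegral_finsetSum _ fun b _ => hm b, Finset.card_range]
  calc _ ≤ ENNReal.ofReal (2 * a ^ 4) * ENNReal.ofReal (2 * a ^ 4 * B) :=
        mul_le_mul' (ENNReal.ofReal_le_ofReal hc)
          (sum_le hB (by rwa [Finset.card_range]) fun b _ => h' b)
    _ = _ := by
        rw [← ENNReal.ofReal_mul (by positivity)]
        congr 1
        ring

theorem norm_div_le {g : ℕ → ℂ} (hg : ∀ n, ‖g n‖ ≤ 1) (n : ℕ) : ‖g n / n‖ ≤ 1 / n := by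
  rw [norm_div, norm_natCast]
  exact div_le_div_of_nonneg_right (hg n) (Nat.cast_nonneg n)

theorem nsq_le {z w : ℂ} {x : ℝ} (h : ‖z‖ ≤ Real.exp x * ‖w‖) :
    nsq z ≤ ENNReal.ofReal (Real.exp (2 * x)) * nsq w := by
  unfold nsq
  rw [← ENNReal.ofReal_mul (Real.exp_pos _).le, two_mul, Real.exp_add, ← sq, ← mul_pow]
  exact ENNReal.ofReal_le_ofReal (pow_le_pow_left₀ (norm_nonneg _) h 2)

theorem st1 (hm : MomStmt) : St1Stmt := by
  obtain ⟨C, hC, hm⟩ := hm
  intro α hα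
  filter_upwards [H10.ev_pow (16 * C) (2 * α) (by positivity) 9, eventually_ge_atTop (2 : ℝ)]
    with a h1 h2 g α' v T hg hα' hT hTv
  refine (bil_le g (by linarith) v _ (B := Real.exp (2 * (-α * a)) * (C * 4)) (by positivity)
    fun b hb hb' => ?_).trans (ENNReal.ofReal_le_ofReal ?_)
  · have h3 := hm ∅ (fun _ => 0) (fun n => g n / n) 0 (v - b / a) T 0 (by simp)
      (fun p => by simp) (norm_div_le hg) hT
      (hTv.trans (Real.exp_le_exp.2 (by linarith)))
    simp only [pow_zero, one_mul, mul_zero, Nat.factorial_zero, Nat.cast_one, mul_one,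
      Nat.cast_zero, add_zero] at h3
    have hF := meas (cont_FF g (v - b / a))
    calc _ ≤ ∫⁻ t in Set.Icc (-T) T ∩ Sml g a α',
          ENNReal.ofReal (Real.exp (2 * (-α * a))) * nsq (FF g (v - b / a) t) := by
          refine setLIntegral_mono (hF.const_mul _) fun t ht => nsq_le ?_
          rw [norm_mul]
          refine mul_le_mul_of_nonneg_right ((ht.2 b).trans (Real.exp_le_exp.2 ?_))
            (norm_nonneg _)
          have : a ≤ b / a := by nlinarith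
          nlinarith
      _ ≤ _ := by
          rw [lintegral_const_mul _ hF, ENNReal.ofReal_mul (Real.exp_pos _).le]
          exact mul_le_mul' le_rfl ((lintegral_mono_set Set.inter_subset_left).trans h3)
  · rw [le_div_iff₀ (by linarith), show 2 * (-α * a) = -(2 * α * a) by ring, Real.exp_neg]
    have h3 := Real.exp_pos (2 * α * a)
    calc _ = 16 * C * a ^ 9 / Real.exp (2 * α * a) := by field_simp; ring
      _ ≤ 1 := (div_le_one h3).2 h1

theorem num {a w w' C : ℝ} (hC : 0 ≤ C) (ha : 2 ≤ a) (h6 : 6 * a ^ 4 ≤ Real.exp (1 / 6 * a))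
    (hw : (a ^ 2) ^ 2 - 1 ≤ w) (hw2 : w ≤ (a ^ 2) ^ 3) (hw' : a ^ 2 - 1 ≤ w') :
    Real.exp (2 * (-(7 / 2 * (w / a)))) * (C * (2 * ⌈w / w'⌉₊).factorial * (4 + ⌈w / w'⌉₊)) ≤
      Real.exp (-a) * (C * (7 * a ^ 4)) := by
  have ha0 : 0 < a := by linarith
  have h4 : 4 ≤ a ^ 2 := by nlinarith
  have h5 : a ^ 2 ≤ w := by nlinarith
  have hw0 : 0 < w := by linarith
  set l := ⌈w / w'⌉₊ with hl
  have h1 : (l : ℝ) ≤ 3 * (w / a ^ 2) := by
    have h7 : (l : ℝ) < w / w' + 1 := Nat.ceil_lt_add_one (div_nonneg hw0.le (by linarith))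
    have h8 : w / w' ≤ w / (a ^ 2 / 2) :=
      div_le_div_of_nonneg_left hw0.le (by positivity) (by linarith)
    have h9 : 1 ≤ w / a ^ 2 := (one_le_div (by positivity)).2 h5
    have h10 : w / (a ^ 2 / 2) = 2 * (w / a ^ 2) := by field_simp
    linarith
  have h2 : w / a ^ 2 ≤ a ^ 4 := by
    rw [div_le_iff₀ (by positivity)]
    linarith [show (a ^ 2) ^ 3 = a ^ 4 * a ^ 2 by ring]
  have h3 : ((2 * l).factorial : ℝ) ≤ Real.exp (w / a) := by
    have h7 : (((2 * l : ℕ) : ℝ)) ≤ Real.exp (1 / 6 * a) := by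
      push_cast
      linarith
    calc ((2 * l).factorial : ℝ) ≤ ((2 * l : ℕ) : ℝ) ^ (2 * l) := by
          exact_mod_cast Nat.factorial_le_pow (2 * l)
      _ ≤ Real.exp (1 / 6 * a) ^ (2 * l) := pow_le_pow_left₀ (by positivity) h7 _
      _ = Real.exp (a * (l / 3)) := by
          rw [← Real.exp_nat_mul]
          congr 1
          push_cast
          ring
      _ ≤ _ := by
          refine Real.exp_le_exp.2 ?_
          have h8 : w / a = a * (w / a ^ 2) := by field_simp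
          rw [h8]
          exact mul_le_mul_of_nonneg_left (by linarith) ha0.le
  have h7 : 4 + (l : ℝ) ≤ 7 * a ^ 4 := by
    have : 1 ≤ a ^ 4 := one_le_pow₀ (by linarith)
    linarith
  have h8 : a ≤ w / a := by
    rw [le_div_iff₀ ha0]
    linarith [sq a]
  calc _ ≤ Real.exp (2 * (-(7 / 2 * (w / a)))) * (C * Real.exp (w / a) * (7 * a ^ 4)) := by gcongr
    _ = Real.exp (2 * (-(7 / 2 * (w / a))) + w / a) * (C * (7 * a ^ 4)) := by
        rw [Real.exp_add]
        ring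
    _ ≤ _ := by
        gcongr
        linarith

theorem point {g : ℕ → ℂ} {a α α' w t : ℝ} {z F : ℂ} (ha : 2 ≤ a) (hα : 0 ≤ α)
    (hαα : α + 4 / a ≤ α') (hα' : α' ≤ 1 / 4) (hw : (a ^ 2) ^ 2 - 1 ≤ w)
    (hz : ‖z‖ ≤ Real.exp (-α' * w)) (ht : t ∉ Sml g a α) :
    ∃ r : ℕ, (a ^ 2 - 1 ≤ r / a ∧ r / a ≤ a ^ 3) ∧ nsq (z * F) ≤
      ENNReal.ofReal (Real.exp (2 * (-(7 / 2 * (w / a))))) *
        nsq (QB g a r t ^ ⌈w / (r / a)⌉₊ * F) := by
  obtain ⟨r, hr⟩ := not_forall.1 ht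
  have hr := not_le.1 hr
  have h0 : QB g a r t ≠ 0 := norm_pos_iff.1 ((Real.exp_pos _).trans hr)
  have h1 := range_of_ne (by linarith) h0
  refine ⟨r, h1, nsq_le ?_⟩
  obtain ⟨h1, h2⟩ := h1
  set w' : ℝ := r / a
  have ha0 : 0 < a := by linarith
  have h4 : 4 ≤ a ^ 2 := by nlinarith
  have hw0 : 0 < w := by nlinarith
  have hw' : 0 < w' := by linarith
  set l := ⌈w / w'⌉₊ with hl
  have h7 : (l : ℝ) * w' ≤ w + w' := by
    have h : (l : ℝ) < w / w' + 1 := Nat.ceil_lt_add_one (div_pos hw0 hw').le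
    have h' := mul_le_mul_of_nonneg_right h.le hw'.le
    rwa [add_mul, div_mul_cancel₀ _ hw'.ne', one_mul] at h'
  have h8 : w' ≤ 2 * (w / a) := by
    refine h2.trans ?_
    rw [← mul_div_assoc, le_div_iff₀ ha0]
    nlinarith
  have h9 : 4 / a * w ≤ (α' - α) * w := mul_le_mul_of_nonneg_right (by linarith) hw0.le
  have h10 : 4 / a * w = 4 * (w / a) := by ring
  have h11 : 0 < 4 / a := by positivity
  have h12 : α * w' ≤ 1 / 4 * w' := mul_le_mul_of_nonneg_right (by linarith) hw'.le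
  have h13 : α * (l * w') ≤ α * (w + w') := mul_le_mul_of_nonneg_left h7 hα
  rw [norm_mul, norm_mul, norm_pow, ← mul_assoc]
  refine mul_le_mul_of_nonneg_right (hz.trans ?_) (norm_nonneg _)
  calc _ ≤ Real.exp (-(7 / 2 * (w / a))) * Real.exp (-α * w') ^ l := by
        rw [← Real.exp_nat_mul, ← Real.exp_add]
        exact Real.exp_le_exp.2 (by nlinarith)
    _ ≤ _ := by gcongr

theorem st2 (hm : MomStmt) : St2Stmt := by
  obtain ⟨C, hC, hm⟩ := hm
  filter_upwards [H10.ev_pow (56 * C) 1 one_pos 25, H10.ev_pow 6 (1 / 6) (by norm_num) 4,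
    eventually_ge_atTop (2 : ℝ)] with a h1 h6 h2 g α α' v T hg hα hαα hα' hT hTv
  have ha : 1 ≤ a := by linarith
  refine (bil_le g (one_le_pow₀ ha) v _
    (B := 2 * a ^ 4 * (Real.exp (-a) * (C * (7 * a ^ 4)))) (by positivity)
    fun b hb hb' => ?_).trans (ENNReal.ofReal_le_ofReal ?_)
  · set w : ℝ := b / a ^ 2
    set R := (Finset.range (⌊a ^ 4⌋₊ + 1)).filter fun r : ℕ => a ^ 2 - 1 ≤ r / a with hR
    have hF : ∀ r : ℕ, Measurable fun t => ENNReal.ofReal (Real.exp (2 * (-(7 / 2 * (w / a))))) *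
        nsq (QB g a r t ^ ⌈w / (r / a)⌉₊ * FF g (v - w) t) := fun r =>
      (meas (((cont_QB g a r).pow _).mul (cont_FF g _))).const_mul _
    calc _ ≤ ∫⁻ t in (Set.Icc (-T) T ∩ Sml g (a ^ 2) α') \ Sml g a α,
          ∑ r ∈ R, ENNReal.ofReal (Real.exp (2 * (-(7 / 2 * (w / a))))) *
            nsq (QB g a r t ^ ⌈w / (r / a)⌉₊ * FF g (v - w) t) := by
          refine setLIntegral_mono (Finset.measurable_sum _ fun r _ => hF r) fun t ht => ?_
          obtain ⟨r, ⟨h3, h4⟩, h5⟩ := point (F := FF g (v - w) t) h2 hα hαα hα' hb (ht.1.2 b) ht.2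
          refine h5.trans (Finset.single_le_sum (f := fun r : ℕ =>
            ENNReal.ofReal (Real.exp (2 * (-(7 / 2 * (w / a))))) *
              nsq (QB g a r t ^ ⌈w / (r / a)⌉₊ * FF g (v - w) t)) (fun _ _ => zero_le) ?_)
          refine Finset.mem_filter.2 ⟨Finset.mem_range.2 (Nat.lt_succ_of_le (Nat.le_floor ?_)), h3⟩
          rw [div_le_iff₀ (by linarith)] at h4
          exact h4.trans_eq (by ring)
      _ ≤ _ := by
          rw [lintegral_finsetSum _ fun r _ => hF r]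
          refine sum_le (by positivity) (le_trans ?_ (card_le ha)) fun r hr => ?_
          · exact_mod_cast (Finset.card_filter_le _ _).trans_eq (Finset.card_range _)
          have h3 := (Finset.mem_filter.1 hr).2
          have h4 : 0 < r / a := by nlinarith
          have h5 : w ≤ ⌈w / (r / a)⌉₊ * (r / a) := (div_le_iff₀ h4).1 (Nat.le_ceil _)
          have h7 := hm (blk a r) (fun n => g n / n) (fun n => g n / n) (r / a) (v - w) T
            ⌈w / (r / a)⌉₊ (fun p hp => (mem_blk ha hp).1) (norm_div_le hg) (norm_div_le hg) hT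
            (hTv.trans (Real.exp_le_exp.2 (by linarith)))
          rw [lintegral_const_mul' _ _ ENNReal.ofReal_ne_top]
          refine (mul_le_mul' le_rfl ((lintegral_mono_set
            (Set.sdiff_subset.trans Set.inter_subset_left)).trans h7)).trans ?_
          rw [← ENNReal.ofReal_mul (Real.exp_pos _).le]
          exact ENNReal.ofReal_le_ofReal (num (by linarith) h2 h6 hb hb' h3)
  · rw [le_div_iff₀ (by linarith), Real.exp_neg]
    rw [one_mul] at h1
    have h3 := Real.exp_pos a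
    calc _ = 56 * C * a ^ 25 / Real.exp a := by field_simp; ring
      _ ≤ 1 := (div_le_one h3).2 h1

end Pool.Agent.MP_ca0a54_nt.BH.STEP
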