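import Pool.Agent.MP_ca0a54_nt.BH.Basic

/-!
Exponential sums with the logarithm: reduction to polynomial phases.
-/

open Finset

namespace Pool.Agent.MP_ca0a54_nt.BH.WLOG

/-- Splitting a sum into blocks. -/
theorem blocks (f : ℕ → ℂ) {B M : ℕ} {E : ℝ} (hB : 1 ≤ B) (hE : 0 ≤ E)
    (h : ∀ a M' : ℕ, a ≤ M → M' ≤ B → ‖∑ m ∈ range M', f (a + m)‖ ≤ E * B) (N : ℕ) :
    N ≤ M → ‖∑ m ∈ range N, f m‖ ≤ E * (N + B) := by
  induction N using Nat.strong_induction_on with
  | _ N ih =>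
    intro hN
    by_cases h1 : N ≤ B
    · have := h 0 N (Nat.zero_le _) h1
      simp only [zero_add] at this
      exact this.trans (mul_le_mul_of_nonneg_left (le_add_of_nonneg_left (by positivity)) hE)
    · obtain ⟨L, rfl⟩ : ∃ L, N = L + B := ⟨N - B, by omega⟩
      rw [sum_range_add]
      refine (norm_add_le _ _).trans ?_
      have h2 := ih L (by omega) (by omega)
      have h3 := h L B (by omega) le_rfl
      push_cast
      linarith

/-- The Taylor polynomial of the phase. -/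
noncomputable def tp (k : ℕ) (τ y : ℝ) : Polynomial ℝ :=
  ∑ i ∈ range k, Polynomial.monomial (i + 1) (τ * (-y⁻¹) ^ (i + 1) / (i + 1))

theorem tp_deg (k : ℕ) (τ y : ℝ) : (tp k τ y).natDegree ≤ k :=
  Polynomial.natDegree_sum_le_of_forall_le _ _ fun _ hi =>
    (Polynomial.natDegree_monomial_le _).trans (mem_range.1 hi)

theorem tp_coeff (k : ℕ) (τ : ℝ) {y : ℝ} (hy : 0 < y) :
    |(tp (k + 1) τ y).coeff (k + 1)| = |τ| / ((k + 1) * y ^ (k + 1)) := by
  rw [tp, Polynomial.finsetSum_coeff, sum_eq_single k (fun i _ hi => by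
    rw [Polynomial.coeff_monomial, if_neg (by omega)]) (by simp), Polynomial.coeff_monomial,
    if_pos rfl, abs_div, abs_mul, abs_pow, abs_neg, abs_inv, abs_of_pos hy,
    abs_of_pos (by positivity : (0 : ℝ) < k + 1), inv_pow]
  field_simp

theorem tp_eval (k : ℕ) (τ : ℝ) {y m z : ℝ} (hy : 0 < y) (hm : 0 ≤ m) (hz : m / y ≤ z)
    (hz' : z ≤ 1 / 2) :
    |-(τ * Real.log (y + m)) - (-(τ * Real.log y) + (tp k τ y).eval m)| ≤
      2 * |τ| * z ^ (k + 1) := by
  have h0 : 0 ≤ m / y := by positivity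
  have h1 : |-(m / y)| = m / y := by rw [abs_neg, abs_of_nonneg h0]
  have h2 := Real.abs_log_sub_add_sum_range_le (x := -(m / y)) (by rw [h1]; linarith) k
  have e1 : (tp k τ y).eval m = τ * ∑ i ∈ range k, (-(m / y)) ^ (i + 1) / (i + 1) := by
    rw [tp, Polynomial.eval_finsetSum, mul_sum]
    refine sum_congr rfl fun i _ => ?_
    rw [Polynomial.eval_monomial, show -(m / y) = -y⁻¹ * m by ring, mul_pow]
    ring
  have e2 : Real.log (y + m) = Real.log y + Real.log (1 - -(m / y)) := by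
    rw [← Real.log_mul hy.ne' (by linarith)]
    congr 1
    field_simp
    ring
  rw [h1] at h2
  have h3 : (m / y) ^ (k + 1) / (1 - m / y) ≤ 2 * z ^ (k + 1) := by
    rw [div_le_iff₀ (by linarith)]
    have h4 := pow_le_pow_left₀ h0 hz (k + 1)
    have h5 : 0 ≤ z ^ (k + 1) := pow_nonneg (h0.trans hz) _
    nlinarith
  rw [e1, e2, show -(τ * (Real.log y + Real.log (1 - -(m / y)))) - (-(τ * Real.log y) +
      τ * ∑ i ∈ range k, (-(m / y)) ^ (i + 1) / (i + 1)) =
      -τ * (∑ i ∈ range k, (-(m / y)) ^ (i + 1) / (i + 1) + Real.log (1 - -(m / y))) by ring,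
    abs_mul, abs_neg, mul_comm 2, mul_assoc]
  exact mul_le_mul_of_nonneg_left (h2.trans h3) (abs_nonneg _)

/-- The bound in terms of a root of `|τ|`. -/
theorem core (hW : WpolyStmt) (k : ℕ) : ∃ c C : ℝ, 0 < c ∧ c ≤ 1 ∧ 1 ≤ C ∧
    ∀ (x τ u : ℝ) (M : ℕ), (M : ℝ) ≤ x → 1 ≤ u → |τ| = u ^ (2 * k + 3) → u ^ 4 ≤ x →
    ‖∑ m ∈ range M, ei (-(τ * Real.log (x + m)))‖ ≤ C * x * u ^ (-c) := by
  obtain ⟨c, C, hc0, hc1, hC, h⟩ := hW (k + 1) (by omega)
  obtain ⟨G, hG⟩ : ∃ G : ℝ, G = (k + 1) * 4 ^ (k + 1) := ⟨_, rfl⟩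
  have hG1 : 1 ≤ G := by
    rw [hG]
    exact one_le_mul_of_one_le_of_one_le (by simp) (one_le_pow₀ (by norm_num))
  obtain ⟨F, hF⟩ : ∃ F : ℝ, F = (k + 1).factorial := ⟨_, rfl⟩
  have hF0 : 0 ≤ F := by rw [hF]; positivity
  have hD : 0 ≤ C * (G + 1) := by positivity
  refine ⟨c, 2 * (C * (G + 1) + 2) + (F + 2), hc0, hc1, by linarith, fun x τ u M hM hu hτ hx => ?_⟩
  have hu0 : 0 < u := by linarith
  have hx0 : 0 < x := lt_of_lt_of_le (by positivity) hx
  have huc : u⁻¹ ≤ u ^ (-c) := by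
    rw [← Real.rpow_neg_one]
    exact Real.rpow_le_rpow_of_exponent_le hu (by linarith)
  have hw : 0 < u ^ (-c) := Real.rpow_pos_of_pos hu0 _
  by_cases hs : u ≤ F + 2
  · have h1 : ‖∑ m ∈ range M, ei (-(τ * Real.log (x + m)))‖ ≤ M :=
      (norm_sum_le _ _).trans (by simp [norm_ei])
    have h2 : 1 ≤ (F + 2) * u ^ (-c) :=
      le_trans (by rw [← div_eq_mul_inv, le_div_iff₀ hu0]; linarith)
        (mul_le_mul_of_nonneg_left huc (by positivity))
    have h3 : 0 ≤ 2 * (C * (G + 1) + 2) * x * u ^ (-c) := by positivity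
    nlinarith
  push Not at hs
  have hu2 : 2 ≤ u := by linarith
  obtain ⟨B, hB⟩ : ∃ B : ℕ, B = ⌊x / u ^ 2⌋₊ := ⟨_, rfl⟩
  have hq : u ^ 2 ≤ x / u ^ 2 := by
    rw [le_div_iff₀ (by positivity)]
    linarith
  have hB1 : (B : ℝ) ≤ x / u ^ 2 := hB ▸ Nat.floor_le (by positivity)
  have hB2 : x / u ^ 2 / 2 ≤ B := by
    have := Nat.lt_floor_add_one (x / u ^ 2)
    rw [← hB] at this
    nlinarith
  have hB3 : u ≤ B := by nlinarith
  have hB4 : 1 ≤ B := by exact_mod_cast hu.trans hB3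
  have hB5 : (B : ℝ) ≤ x := hB1.trans (div_le_self hx0.le (one_le_pow₀ hu))
  have key := blocks (fun m => ei (-(τ * Real.log (x + m)))) (M := M)
    (E := (C * (G + 1) + 2) * u ^ (-c)) hB4 (by positivity) (fun a M' ha hM' => by
      have ha' : (a : ℝ) ≤ x := le_trans (by exact_mod_cast ha) hM
      obtain ⟨y, hy⟩ : ∃ y : ℝ, y = x + a := ⟨_, rfl⟩
      have hy1 : x ≤ y := by rw [hy]; exact le_add_of_nonneg_right (by positivity)
      have hy2 : y ≤ 2 * x := by linarith
      have hy0 : 0 < y := by linarith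
      have hco := tp_coeff k τ hy0
      have k0 : 0 < |(tp (k + 1) τ y).coeff (k + 1)| := by
        rw [hco, hτ]
        positivity
      have k1 := h (tp (k + 1) τ y) B M' (tp_deg _ _ _) (abs_pos.1 k0) hB4 hM' (by
        rw [hco, hτ, ← hF, Nat.add_sub_cancel]
        calc u ^ (2 * k + 3) / ((k + 1) * y ^ (k + 1)) * F * (B : ℝ) ^ k
            ≤ u ^ (2 * k + 3) / (1 * x ^ (k + 1)) * u * (x / u ^ 2) ^ k := by
              gcongr
              · simp
              · linarith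
          _ = u ^ 4 / x := by
              rw [div_pow]
              field_simp
              ring
          _ ≤ Real.pi := by
              rw [div_le_iff₀ hx0]
              nlinarith [Real.pi_gt_three])
      have k2 : u / G ≤ |(tp (k + 1) τ y).coeff (k + 1)| * (B : ℝ) ^ (k + 1) := by
        rw [hco, hτ, hG]
        calc u / ((k + 1) * 4 ^ (k + 1))
            = u ^ (2 * k + 3) / ((k + 1) * (2 * x) ^ (k + 1)) * (x / u ^ 2 / 2) ^ (k + 1) := by
              rw [show (4 : ℝ) = 2 * 2 by norm_num]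
              simp only [mul_pow, div_pow]
              field_simp
              ring
          _ ≤ _ := by gcongr
      have k3 : (|(tp (k + 1) τ y).coeff (k + 1)| * (B : ℝ) ^ (k + 1)) ^ (-c) ≤ G * u ^ (-c) := by
        refine (Real.rpow_le_rpow_of_nonpos (by positivity) k2 (by linarith)).trans ?_
        rw [Real.div_rpow hu0.le (by linarith), Real.rpow_neg (by linarith : 0 ≤ G),
          div_inv_eq_mul, mul_comm]
        refine mul_le_mul_of_nonneg_right ?_ hw.le
        simpa using Real.rpow_le_rpow_of_exponent_le hG1 hc1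
      have k4 : (B : ℝ) ^ (-c) ≤ u ^ (-c) := Real.rpow_le_rpow_of_nonpos hu0 hB3 (by linarith)
      have k5 : ∀ m ∈ range M', ‖ei (-(τ * Real.log (x + (a + m : ℕ)))) -
          ei (-(τ * Real.log y)) * ei ((tp (k + 1) τ y).eval (m : ℝ))‖ ≤ 2 * u ^ (-c) := by
        intro m hm
        have hm' : (m : ℝ) ≤ B := by exact_mod_cast (mem_range.1 hm).le.trans hM'
        rw [← ei_add, Nat.cast_add, ← add_assoc, ← hy]
        refine (norm_ei_sub _ _).trans ((tp_eval (k + 1) τ (z := (u ^ 2)⁻¹) hy0 (by positivity)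
          ?_ ?_).trans ?_)
        · rw [div_le_iff₀ hy0]
          refine hm'.trans (hB1.trans ?_)
          rw [div_eq_inv_mul]
          gcongr
        · rw [inv_le_comm₀ (by positivity) (by norm_num)]
          nlinarith
        · rw [hτ, show 2 * u ^ (2 * k + 3) * (u ^ 2)⁻¹ ^ (k + 1 + 1) = 2 * u⁻¹ by
            rw [inv_pow]
            field_simp
            ring]
          linarith
      have k6 := (norm_sum_le _ _).trans (sum_le_sum k5)
      rw [sum_sub_distrib, ← mul_sum, sum_const, card_range, nsmul_eq_mul] at k6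
      have k7 := norm_le_norm_add_norm_sub' (∑ m ∈ range M', ei (-(τ * Real.log (x + (a + m : ℕ)))))
        (ei (-(τ * Real.log y)) * ∑ m ∈ range M', ei ((tp (k + 1) τ y).eval (m : ℝ)))
      rw [norm_mul, norm_ei, one_mul] at k7
      have k8 : (M' : ℝ) * (2 * u ^ (-c)) ≤ B * (2 * u ^ (-c)) := by gcongr
      have k9 := mul_le_mul_of_nonneg_left (add_le_add k3 k4) (by positivity : 0 ≤ C * B)
      linarith) M le_rfl
  refine key.trans ?_
  have h1 : (C * (G + 1) + 2) * u ^ (-c) * (M + B) ≤ (C * (G + 1) + 2) * u ^ (-c) * (x + x) := by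
    gcongr
  have h2 : 0 ≤ (F + 2) * x * u ^ (-c) := by positivity
  linarith

theorem wlog' (hW : WpolyStmt) : WlogStmt := by
  intro A hA
  obtain ⟨c, C, hc0, hc1, hC, h⟩ := core hW ⌈2 * A⌉₊
  obtain ⟨n, hn⟩ : ∃ n : ℕ, n = 2 * ⌈2 * A⌉₊ + 3 := ⟨_, rfl⟩
  have hn1 : 4 * A ≤ n := by
    have := Nat.le_ceil (2 * A)
    rw [hn]
    push_cast
    linarith
  have hn0 : (1 : ℝ) ≤ n := by linarith
  refine ⟨c / n, C, by positivity, (div_le_self hc0.le hn0).trans hc1, hC,
    fun x τ M hx hM h1 h2 => ?_⟩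
  have h0 : 0 ≤ |τ| := abs_nonneg _
  have h3 := h x τ (|τ| ^ (n : ℝ)⁻¹) M hM (Real.one_le_rpow h1 (by positivity))
    (by rw [← hn, Real.rpow_inv_natCast_pow h0 (by omega)]) (by
      calc (|τ| ^ (n : ℝ)⁻¹) ^ 4 ≤ ((x ^ A) ^ (n : ℝ)⁻¹) ^ 4 := by gcongr
        _ = x ^ (A * (n : ℝ)⁻¹ * (4 : ℕ)) := by
            rw [Real.rpow_mul_natCast (by linarith), Real.rpow_mul (by linarith)]
        _ ≤ x ^ (1 : ℝ) := Real.rpow_le_rpow_of_exponent_le hx (by
            rw [← div_eq_mul_inv, div_mul_eq_mul_div, div_le_one (by linarith)]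
            push_cast
            linarith)
        _ = x := Real.rpow_one x)
  rw [← Real.rpow_mul h0, show (n : ℝ)⁻¹ * -c = -(c / n) by ring] at h3
  exact h3.trans (mul_le_mul_of_nonneg_left (le_add_of_nonneg_right (by positivity))
    (by positivity))

end Pool.Agent.MP_ca0a54_nt.BH.WLOG
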