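import Pool.Agent.MP_ca0a54_nt.BH.Basic

/-! Weyl differencing for polynomial phases with a small leading coefficient. -/

open Complex Finset

namespace Pool.Agent.MP_ca0a54_nt.BH.WPOLY

theorem ei_sub_one {t : ℝ} (h : |t| ≤ Real.pi) : 2 / Real.pi * |t| ≤ ‖ei t - 1‖ := by
  unfold ei
  rw [Complex.norm_exp_I_mul_ofReal_sub_one, Real.norm_eq_abs, abs_mul, abs_two]
  have h1 := Real.mul_abs_le_abs_sin (x := t / 2) (by rw [abs_div, abs_two]; linarith)
  rw [abs_div, abs_two] at h1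
  linarith

theorem lin_sum {t : ℝ} (h0 : t ≠ 0) (h : |t| ≤ Real.pi) (g : ℝ) (N : ℕ) :
    ‖∑ m ∈ range N, ei (t * m + g)‖ ≤ Real.pi / |t| := by
  have h1 : (ei t - 1) * ∑ m ∈ range N, ei (t * m + g) = ei (t * N + g) - ei g := by
    induction N with
    | zero => simp
    | succ N ih =>
      rw [sum_range_succ, mul_add, ih, show t * ((N + 1 : ℕ) : ℝ) + g = t + (t * N + g) by
        push_cast; ring, ei_add t]
      ring
  have h2 : ‖ei t - 1‖ * ‖∑ m ∈ range N, ei (t * m + g)‖ ≤ 2 := by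
    rw [← norm_mul, h1]
    refine (norm_sub_le _ _).trans ?_
    rw [norm_ei, norm_ei]
    norm_num
  have h3 := ei_sub_one h
  have h4 : 0 < |t| := abs_pos.2 h0
  have h5 := Real.pi_pos
  rw [div_mul_eq_mul_div, div_le_iff₀ h5] at h3
  rw [le_div_iff₀ h4]
  nlinarith [norm_nonneg (∑ m ∈ range N, ei (t * m + g))]

theorem triv (f : ℕ → ℝ) (N : ℕ) : ‖∑ m ∈ range N, ei (f m)‖ ≤ N := by
  refine (norm_sum_le _ _).trans (le_of_eq ?_)
  simp [norm_ei]

theorem sq_sum (u : ℕ → ℂ) (hu : ∀ m, ‖u m‖ = 1) (N : ℕ) :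
    ‖∑ m ∈ range N, u m‖ ^ 2 = N + 2 * (∑ r ∈ range N, ∑ m ∈ range (N - (r + 1)),
      u (m + (r + 1)) * (starRingEnd ℂ) (u m)).re := by
  induction N with
  | zero => simp
  | succ N ih =>
    have e : ∑ r ∈ range (N + 1), ∑ m ∈ range (N + 1 - (r + 1)),
        u (m + (r + 1)) * (starRingEnd ℂ) (u m) = ∑ r ∈ range N, ∑ m ∈ range (N - (r + 1)),
        u (m + (r + 1)) * (starRingEnd ℂ) (u m) + u N * (starRingEnd ℂ) (∑ m ∈ range N, u m) := by
      rw [sum_range_succ, Nat.sub_self, sum_range_zero, add_zero, map_sum,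
        ← sum_range_reflect (fun m => (starRingEnd ℂ) (u m)) N, mul_sum, ← sum_add_distrib]
      refine sum_congr rfl fun r hr => ?_
      have hr' := mem_range.1 hr
      rw [show N + 1 - (r + 1) = N - (r + 1) + 1 by omega, sum_range_succ,
        show N - (r + 1) + (r + 1) = N by omega, show N - 1 - r = N - (r + 1) by omega]
    rw [e, sum_range_succ, add_re, Complex.sq_norm, add_comm _ (u N), normSq_add,
      normSq_eq_norm_sq, normSq_eq_norm_sq, hu, ih]
    push_cast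
    ring

theorem sq_le (f : ℕ → ℝ) (N : ℕ) :
    ‖∑ m ∈ range N, ei (f m)‖ ^ 2 ≤ N + 2 * ∑ r ∈ range N,
      ‖∑ m ∈ range (N - (r + 1)), ei (f (m + (r + 1)) - f m)‖ := by
  rw [sq_sum (fun m => ei (f m)) (fun m => norm_ei _) N]
  have h : ∀ r m : ℕ, ei (f (m + (r + 1))) * (starRingEnd ℂ) (ei (f m)) =
      ei (f (m + (r + 1)) - f m) := fun r m => by rw [conj_ei, ← ei_add, sub_eq_add_neg]
  simp only [h]
  have h1 := (re_le_norm _).trans (norm_sum_le (range N) fun r =>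
    ∑ m ∈ range (N - (r + 1)), ei (f (m + (r + 1)) - f m))
  linarith

theorem diff_deg {k : ℕ} {P : Polynomial ℝ} (hP : P.natDegree ≤ k + 1) (r : ℝ) :
    (Polynomial.taylor r P - P).natDegree ≤ k := by
  refine Polynomial.natDegree_le_iff_coeff_eq_zero.2 fun n hn => ?_
  have h1 : (Polynomial.hasseDeriv n P).natDegree ≤ 0 :=
    (Polynomial.natDegree_hasseDeriv_le P n).trans (by omega)
  rw [Polynomial.coeff_sub, Polynomial.taylor_coeff, Polynomial.eq_C_of_natDegree_le_zero h1,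
    Polynomial.eval_C, Polynomial.hasseDeriv_coeff]
  simp

theorem diff_coeff {k : ℕ} {P : Polynomial ℝ} (hP : P.natDegree ≤ k + 1) (r : ℝ) :
    (Polynomial.taylor r P - P).coeff k = (k + 1) * P.coeff (k + 1) * r := by
  have h1 : (Polynomial.hasseDeriv k P).natDegree ≤ 1 :=
    (Polynomial.natDegree_hasseDeriv_le P k).trans (by omega)
  rw [Polynomial.coeff_sub, Polynomial.taylor_coeff,
    Polynomial.eq_X_add_C_of_natDegree_le_one h1]
  simp only [Polynomial.eval_add, Polynomial.eval_mul, Polynomial.eval_C, Polynomial.eval_X,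
    Polynomial.hasseDeriv_coeff]
  rw [add_comm 1 k, Nat.choose_succ_self_right]
  simp

/-- The statement for one degree. -/
def W (k : ℕ) (c C : ℝ) : Prop :=
  ∀ (P : Polynomial ℝ) (M M' : ℕ), P.natDegree ≤ k → P.coeff k ≠ 0 → 1 ≤ M → M' ≤ M →
  |P.coeff k| * k.factorial * (M : ℝ) ^ (k - 1) ≤ Real.pi →
  ‖∑ m ∈ Finset.range M', ei (P.eval (m : ℝ))‖ ≤
    C * M * ((|P.coeff k| * (M : ℝ) ^ k) ^ (-c) + (M : ℝ) ^ (-c))

theorem base : W 1 1 4 := by
  intro P M M' hP h0 hM _ hπ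
  have hM0 : (0 : ℝ) < M := by exact_mod_cast hM
  have ha : 0 < |P.coeff 1| := abs_pos.2 h0
  have e : ∀ m : ℝ, P.eval m = P.coeff 1 * m + P.coeff 0 := fun m => by
    conv_lhs => rw [Polynomial.eq_X_add_C_of_natDegree_le_one hP]
    simp
  simp only [e]
  refine (lin_sum h0 (by simpa using hπ) _ _).trans ?_
  rw [Real.rpow_neg_one, Real.rpow_neg_one, pow_one]
  have h1 : Real.pi / |P.coeff 1| = Real.pi * M * (|P.coeff 1| * M)⁻¹ := by field_simp
  rw [h1]
  have h2 : (0 : ℝ) ≤ (M : ℝ)⁻¹ := by positivity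
  have h3 : (0 : ℝ) ≤ (|P.coeff 1| * M)⁻¹ := by positivity
  exact mul_le_mul (mul_le_mul_of_nonneg_right Real.pi_le_four hM0.le) (by linarith) h3
    (by positivity)

theorem card_le (N : ℕ) {t : ℝ} (ht : 0 ≤ t) (B : ℝ) (hB : 0 ≤ B) :
    ∑ r ∈ range N, (if ((r + 1 : ℕ) : ℝ) ≤ t then B else 0) ≤ t * B := by
  rw [← sum_filter, sum_const, nsmul_eq_mul]
  refine mul_le_mul_of_nonneg_right (le_trans ?_ (Nat.floor_le ht)) hB
  have h : (range N).filter (fun r : ℕ => ((r + 1 : ℕ) : ℝ) ≤ t) ⊆ range ⌊t⌋₊ := fun r hr =>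
    mem_range.2 (Nat.le_floor (mem_filter.1 hr).2)
  have h1 := card_le_card h
  rw [card_range] at h1
  exact_mod_cast h1

theorem step {k : ℕ} (hk : 1 ≤ k) {c C : ℝ} (hc : 0 < c) (hc1 : c ≤ 1) (hC : 1 ≤ C)
    (h : W k c C) : W (k + 1) (c / 4) (2 + 2 * C) := by
  intro P M M' hP h0 hM hM' hπ
  have hM1 : (1 : ℝ) ≤ M := by exact_mod_cast hM
  have hM0 : (0 : ℝ) < M := by linarith
  have hMM : (M' : ℝ) ≤ M := by exact_mod_cast hM'
  set α := P.coeff (k + 1) with hα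
  have ha : 0 < |α| := abs_pos.2 h0
  set x : ℝ := |α| * (M : ℝ) ^ (k + 1) with hx
  have hx0 : 0 < x := by positivity
  set a : ℝ := x ^ (-(c / 4)) with haa
  set b : ℝ := (M : ℝ) ^ (-(c / 4)) with hbb
  have ha0 : 0 < a := Real.rpow_pos_of_pos hx0 _
  have hb0 : 0 < b := Real.rpow_pos_of_pos hM0 _
  rcases le_total x 1 with hx1 | hx1
  · have h1 : 1 ≤ a := Real.one_le_rpow_of_pos_of_le_one_of_nonpos hx0 hx1 (by linarith)
    refine (triv (fun m => P.eval (m : ℝ)) M').trans (hMM.trans ?_)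
    have h2 : (M : ℝ) ≤ (2 + 2 * C) * M := by nlinarith
    nlinarith
  have ea : a ^ 2 = x ^ (-(c / 2)) := by
    rw [haa, ← Real.rpow_natCast, ← Real.rpow_mul hx0.le]
    congr 1
    push_cast
    ring
  have eb : b ^ 2 = (M : ℝ) ^ (-(c / 2)) := by
    rw [hbb, ← Real.rpow_natCast, ← Real.rpow_mul hM0.le]
    congr 1
    push_cast
    ring
  have hb1 : (M : ℝ) ^ (-c) ≤ b ^ 2 := by
    rw [eb]
    exact Real.rpow_le_rpow_of_exponent_le hM1 (by linarith)
  have hb2 : 1 ≤ M * b ^ 2 := by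
    have h1 : (M : ℝ) ^ (-1 : ℝ) ≤ b ^ 2 := by
      rw [eb]
      exact Real.rpow_le_rpow_of_exponent_le hM1 (by linarith)
    rw [Real.rpow_neg_one] at h1
    have h2 := mul_le_mul_of_nonneg_left h1 hM0.le
    rwa [mul_inv_cancel₀ hM0.ne'] at h2
  have hxa : x ^ (1 / 2 : ℝ) ≤ x * a ^ 2 := by
    rw [ea, ← Real.rpow_one_add' hx0.le (by linarith)]
    exact Real.rpow_le_rpow_of_exponent_le hx1 (by linarith)
  have key : ∀ r ∈ range M', ‖∑ m ∈ range (M' - (r + 1)),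
      ei (P.eval ((m + (r + 1) : ℕ) : ℝ) - P.eval (m : ℝ))‖ ≤
      (if ((r + 1 : ℕ) : ℝ) ≤ M * a ^ 2 then (M : ℝ) else 0) + C * M * (a ^ 2 + b ^ 2) := by
    intro r hr
    have hr' : r + 1 ≤ M := (mem_range.1 hr).trans_le hM'
    have hr1 : ((r + 1 : ℕ) : ℝ) ≤ M := by exact_mod_cast hr'
    have hr0 : (0 : ℝ) < (r + 1 : ℕ) := by positivity
    split_ifs with hs
    · refine (triv (fun m => P.eval ((m + (r + 1) : ℕ) : ℝ) - P.eval (m : ℝ)) _).trans ?_
      have h1 : ((M' - (r + 1) : ℕ) : ℝ) ≤ M := by exact_mod_cast (by omega : M' - (r + 1) ≤ M)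
      have h2 : 0 ≤ C * M * (a ^ 2 + b ^ 2) := by positivity
      linarith
    · have hs' := (not_le.1 hs).le
      have e1 := diff_coeff hP ((r + 1 : ℕ) : ℝ)
      have e2 : |(Polynomial.taylor ((r + 1 : ℕ) : ℝ) P - P).coeff k| =
          (k + 1) * |α| * (r + 1 : ℕ) := by
        rw [e1, abs_mul, abs_mul, abs_of_pos hr0, abs_of_pos (by positivity)]
      have h1 := h (Polynomial.taylor ((r + 1 : ℕ) : ℝ) P - P) M (M' - (r + 1)) (diff_deg hP _)
        (abs_pos.1 (by rw [e2]; positivity)) hM (by omega) (by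
          refine le_trans ?_ hπ
          rw [e2, Nat.factorial_succ, Nat.add_sub_cancel]
          have e3 : (M : ℝ) ^ k = M * (M : ℝ) ^ (k - 1) := by
            rw [← pow_succ', Nat.sub_add_cancel hk]
          rw [e3]
          have h2 : (0 : ℝ) ≤ (k + 1) * |α| * k.factorial * (M : ℝ) ^ (k - 1) := by positivity
          have h3 := mul_le_mul_of_nonneg_left hr1 h2
          push_cast at h3 ⊢
          linarith)
      simp only [Polynomial.eval_sub, Polynomial.taylor_eval] at h1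
      rw [zero_add]
      simp only [Nat.cast_add _ (r + 1)]
      refine h1.trans (mul_le_mul_of_nonneg_left (add_le_add ?_ hb1) (by positivity))
      have h2 : x ^ (1 / 2 : ℝ) ≤
          |(Polynomial.taylor ((r + 1 : ℕ) : ℝ) P - P).coeff k| * (M : ℝ) ^ k := by
        refine hxa.trans ?_
        rw [e2, hx, pow_succ]
        have h3 : (0 : ℝ) ≤ |α| * (M : ℝ) ^ k := by positivity
        have h4 := mul_le_mul_of_nonneg_left hs' h3
        have h5 : (0 : ℝ) ≤ k * (|α| * (M : ℝ) ^ k * (r + 1 : ℕ)) := by positivity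
        nlinarith
      refine (Real.rpow_le_rpow_of_nonpos (Real.rpow_pos_of_pos hx0 _) h2 (by linarith)).trans
        (le_of_eq ?_)
      rw [ea, ← Real.rpow_mul hx0.le]
      congr 1
      ring
  have h1 := sq_le (fun m => P.eval (m : ℝ)) M'
  have h2 := sum_le_sum key
  rw [sum_add_distrib, sum_const, card_range, nsmul_eq_mul] at h2
  have h3 := card_le M' (t := M * a ^ 2) (by positivity) (M : ℝ) hM0.le
  have h4 : (M' : ℝ) * (C * M * (a ^ 2 + b ^ 2)) ≤ M * (C * M * (a ^ 2 + b ^ 2)) :=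
    mul_le_mul_of_nonneg_right hMM (by positivity)
  have h5 : (M : ℝ) ≤ M * (M * b ^ 2) := le_mul_of_one_le_right hM0.le hb2
  have h6 : ‖∑ m ∈ range M', ei (P.eval (m : ℝ))‖ ^ 2 ≤
      (2 + 2 * C) * (M ^ 2 * (a ^ 2 + b ^ 2)) := by
    have h7 : (0 : ℝ) ≤ M * (M * b ^ 2) := by positivity
    nlinarith
  refine le_of_sq_le_sq (h6.trans ?_) (by positivity)
  have h8 : (M : ℝ) ^ 2 * (a ^ 2 + b ^ 2) ≤ M ^ 2 * (a + b) ^ 2 :=
    mul_le_mul_of_nonneg_left (by nlinarith [mul_pos ha0 hb0]) (by positivity)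
  have h9 : 2 + 2 * C ≤ (2 + 2 * C) ^ 2 := by nlinarith
  calc (2 + 2 * C) * ((M : ℝ) ^ 2 * (a ^ 2 + b ^ 2))
      ≤ (2 + 2 * C) ^ 2 * (M ^ 2 * (a + b) ^ 2) :=
        mul_le_mul h9 h8 (by positivity) (by positivity)
    _ = _ := by ring

theorem wpoly : WpolyStmt := by
  intro k hk
  induction k, hk using Nat.le_induction with
  | base => exact ⟨1, 4, one_pos, le_rfl, by norm_num, base⟩
  | succ k hk ih =>
    obtain ⟨c, C, hc, hc1, hC, h⟩ := ih
    exact ⟨c / 4, 2 + 2 * C, by positivity, by linarith, by linarith, step hk hc hc1 hC h⟩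

end Pool.Agent.MP_ca0a54_nt.BH.WPOLY
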