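import Pool.Agent.MP_ca0a54_nt.BH.Basic
import Pool.Agent.MP_ca0a54_nt.H24.Main

/-! From the local inequality and the Chowla bound to the final statement. -/

open Complex MeasureTheory Filter Topology

namespace Pool.Agent.MP_ca0a54_nt.BH.ZFIN

open Pool.Agent.MP_ca0a54_nt.H24

/-- The properties of a local weight. -/
structure Wt (Λ s : ℝ) (u : ℝ → ℂ) : Prop where
  bd : ∀ v, ‖u v‖ ≤ 2
  lip : ∀ v w, ‖u v - u w‖ ≤ Λ * |v - w|
  supp : ∀ v, Λ < |v - s| → u v = 0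

theorem cutoff (f : ℕ → ℂ) {N M : ℕ} (h : N ≤ M) :
    LC M (fun m => if m ≤ N then f m else 0) = LC N f := by
  unfold LC
  rw [← Finset.sum_subset (Finset.Icc_subset_Icc_right h)]
  · refine Finset.sum_congr rfl fun m hm => ?_
    beta_reduce
    rw [if_pos (Finset.mem_Icc.1 hm).2]
  · intro m hm hm'
    rw [Finset.mem_Icc] at hm hm'
    beta_reduce
    rw [if_neg (by omega), zero_div]

theorem loc (h1 : Z1Stmt) (hd : ZdStmt) (ho : Zo1Stmt) (hw : Zo2Stmt) (C : ℝ) :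
    ∃ (K : ℕ) (Λ H : ℝ), 1 ≤ Λ ∧ 1 ≤ H ∧ ∀ᶠ T : ℝ in atTop,
      ¬ Gap T ((1 / 2 - C / Real.log T) * (2 * Real.pi / Real.log T)) →
      ∃ u : ℕ → ℝ → ℂ, (∀ h ∈ Finset.Icc 1 K, Wt Λ (Real.log T) (u h)) ∧
        ∀ M : ℕ, ⌈H * T⌉₊ ≤ M → 1 ≤ -(∑ h ∈ Finset.Icc 1 K,
          LC M fun m => u h (Real.log m) * (lam m * lam (m + h) : ℝ)).im := by
  obtain ⟨C₀, h1⟩ := h1
  obtain ⟨C₁, hd⟩ := hd
  have hπ := Real.pi_gt_three
  have hπ4 := Real.pi_lt_four
  set c : ℝ := 2 * Real.pi * |C| + 1 with hc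
  have hc0 : 0 ≤ c := by positivity
  set H : ℝ := Real.exp (max 0 (c + C₁ + C₀ + 5)) with hH
  have hH1 : 1 ≤ H := Real.one_le_exp (le_max_left _ _)
  have hlH : c + C₁ + C₀ + 5 ≤ Real.log H := by
    rw [hH, Real.log_exp]
    exact le_max_right _ _
  obtain ⟨K, hK1, hK⟩ := ((eventually_ge_atTop 1).and (ho H hH1)).exists
  obtain ⟨Λ, hΛ, hw⟩ := hw H K hH1 hK1
  refine ⟨K, Λ, H, hΛ, hH1, ?_⟩
  filter_upwards [h1 (2 * H) (by linarith), hd c H hc0 hH1, hK, hw, eventually_ge_atTop (1 : ℝ),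
    Real.tendsto_log_atTop.eventually (eventually_ge_atTop (c + 4))] with T h1 hd hK hw hT hL hG
  set L := Real.log T with hLd
  have hL0 : 0 < L := by linarith
  set a : ℝ := (Real.pi - c / L) / L with ha
  have hcL : c / L ≤ 1 := by
    rw [div_le_one hL0]
    linarith
  have hcL0 : 0 ≤ c / L := by positivity
  have a1 : 1 / L ≤ a := div_le_div_of_nonneg_right (by linarith) hL0.le
  have a4 : a ≤ 4 / L := div_le_div_of_nonneg_right (by linarith) hL0.le
  have a0 : 0 ≤ a := le_trans (by positivity) a1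
  have a5 : a ≤ 1 := a4.trans (by rw [div_le_one hL0]; linarith)
  have aδ : a < (1 / 2 - C / L) * (2 * Real.pi / L) := by
    have e : (1 / 2 - C / L) * (2 * Real.pi / L) = (Real.pi - 2 * Real.pi * C / L) / L := by
      field_simp
    rw [e, ha]
    refine div_lt_div_of_pos_right ?_ hL0
    have : 2 * Real.pi * C / L < c / L := by
      refine div_lt_div_of_pos_right ?_ hL0
      have := mul_le_mul_of_nonneg_left (le_abs_self C) (by positivity : 0 ≤ 2 * Real.pi)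
      linarith
    linarith
  obtain ⟨U, hU⟩ := clean_of_no_pair T _ (by linarith) (a0.trans_lt aδ) hG
  set N := ⌈H * T⌉₊ with hN
  have hHT : T ≤ H * T := le_mul_of_one_le_left (by linarith) hH1
  have n1 : T ≤ N := hHT.trans (Nat.le_ceil _)
  have n2 : (N : ℝ) ≤ 2 * H * T := by
    have := Nat.ceil_lt_add_one (by linarith : 0 ≤ H * T)
    linarith
  have hlc : ∀ n, ‖lc n‖ ≤ 1 := fun n => by
    unfold lc
    rw [norm_real]
    exact abs_lam_le n
  have z1 := h1 a _ U N lc a1 a4 aδ hU n1 n2 hlc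
  have zo := hK a a0 a4
  have hw' : ∀ h : ℕ, ∃ u : ℝ → ℂ, h ∈ Finset.Icc 1 K → Wt Λ L u ∧ ∀ M : ℕ, N ≤ M →
      LS M (fun m => ‖u (Real.log m) - if m ≤ N - h then gg T a h (Real.log m) else 0‖) ≤
        2 / K := fun h => by
    by_cases hh : h ∈ Finset.Icc 1 K
    · obtain ⟨u, u1, u2, u3, u4⟩ := hw a h a0 a5 (Finset.mem_Icc.1 hh).1 (Finset.mem_Icc.1 hh).2
      exact ⟨u, fun _ => ⟨⟨u1, u2, u3⟩, u4⟩⟩
    · exact ⟨0, fun h' => absurd h' hh⟩
  choose u hu using hw'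
  set σ := ei (-(a * L / 2)) with hσ
  have hσ1 : ‖σ‖ = 1 := norm_ei _
  refine ⟨fun h v => σ * u h v, fun h hh => ⟨fun v => ?_, fun v w => ?_, fun v hv => ?_⟩,
    fun M hM => ?_⟩
  · rw [norm_mul, hσ1, one_mul]
    exact (hu h hh).1.bd v
  · rw [← mul_sub, norm_mul, hσ1, one_mul]
    exact (hu h hh).1.lip v w
  · show σ * u h v = 0
    rw [(hu h hh).1.supp v hv, mul_zero]
  set A := ∑ h ∈ Finset.Icc 1 K, LC M fun m => u h (Real.log m) * (lam m * lam (m + h) : ℝ)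
    with hA
  set A' := ∑ h ∈ Finset.Icc 1 K,
    LC (N - h) fun m => gg T a h (Real.log m) * (lam m * lam (m + h) : ℝ) with hA'
  have e1 : (∑ h ∈ Finset.Icc 1 K,
      LC M fun m => σ * u h (Real.log m) * (lam m * lam (m + h) : ℝ)) = σ * A := by
    rw [hA, Finset.mul_sum]
    refine Finset.sum_congr rfl fun h _ => ?_
    rw [← LC_mul]
    simp only [mul_assoc]
  have e2 : ‖A - A'‖ ≤ 2 := by
    rw [hA, hA', ← Finset.sum_sub_distrib]
    have hK0 : (0 : ℝ) < K := by exact_mod_cast hK1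
    refine (norm_sum_le _ _).trans ((Finset.sum_le_card_nsmul _ _ (2 / K : ℝ) fun h hh => ?_).trans
      (le_of_eq ?_))
    · rw [← cutoff _ ((Nat.sub_le N h).trans hM), ← LC_sub]
      refine (norm_LC_le _ _).trans ((LS_mono fun m _ _ => ?_).trans ((hu h hh).2 M hM))
      have e : u h (Real.log m) * (lam m * lam (m + h) : ℝ) -
          (if m ≤ N - h then gg T a h (Real.log m) * (lam m * lam (m + h) : ℝ) else 0) =
          (u h (Real.log m) - if m ≤ N - h then gg T a h (Real.log m) else 0) *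
            (lam m * lam (m + h) : ℝ) := by
        split_ifs <;> ring
      rw [e, norm_mul, norm_real, Real.norm_eq_abs, abs_mul]
      exact mul_le_of_le_one_right (norm_nonneg _)
        (mul_le_one₀ (abs_lam_le _) (abs_nonneg _) (abs_lam_le _))
    · rw [nsmul_eq_mul, Nat.card_Icc, Nat.add_sub_cancel]
      field_simp
  have e3 : σ * A = σ * form T a N lc - σ * diag a N -
      σ * ((form T a N lc - diag a N - A') - (A - A')) := by ring
  have e4 : ‖σ * ((form T a N lc - diag a N - A') - (A - A'))‖ ≤ 4 := by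
    rw [norm_mul, hσ1, one_mul]
    linarith [norm_sub_le (form T a N lc - diag a N - A') (A - A')]
  have e5 := (abs_le.1 ((abs_im_le_norm _).trans e4)).1
  rw [e1, e3, sub_im, sub_im]
  linarith

theorem count (B : Finset ℕ) (s : ℕ → ℝ) (Λ v : ℝ) (hΛ : 1 ≤ Λ)
    (hs : ∀ j ∈ B, j * Real.log 2 ≤ s j ∧ s j ≤ (j + 1) * Real.log 2) :
    ((B.filter fun j => |v - s j| ≤ Λ).card : ℝ) ≤ 5 * Λ := by
  set F := B.filter fun j => |v - s j| ≤ Λ with hF
  rcases F.eq_empty_or_nonempty with h | h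
  · rw [h]
    simp
    linarith
  have h2 := Real.log_two_gt_d9
  have hsub : F ⊆ Finset.Icc (F.min' h) (F.min' h + ⌊3 * Λ + 1⌋₊) := fun j hj => by
    refine Finset.mem_Icc.2 ⟨F.min'_le j hj, ?_⟩
    obtain ⟨b1, b2⟩ := Finset.mem_filter.1 hj
    obtain ⟨c1, c2⟩ := Finset.mem_filter.1 (F.min'_mem h)
    obtain ⟨k, hk⟩ := Nat.exists_eq_add_of_le (F.min'_le j hj)
    have k1 := (hs j b1).1
    have k2 := (hs _ c1).2
    rw [abs_le] at b2 c2
    have k3 : (j : ℝ) = F.min' h + k := by exact_mod_cast hk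
    have k4 : (k : ℝ) ≤ 3 * Λ + 1 := by
      by_contra hh
      push Not at hh
      rw [k3] at k1
      nlinarith [b2.1, c2.2]
    have := Nat.le_floor k4
    omega
  have h3 := Finset.card_le_card hsub
  rw [Nat.card_Icc] at h3
  have h4 : F.card ≤ ⌊3 * Λ + 1⌋₊ + 1 := by omega
  have h5 : (⌊3 * Λ + 1⌋₊ : ℝ) ≤ 3 * Λ + 1 := Nat.floor_le (by linarith)
  have h6 : (F.card : ℝ) ≤ ⌊3 * Λ + 1⌋₊ + 1 := by exact_mod_cast h4
  linarith

theorem glob (B : Finset ℕ) (s : ℕ → ℝ) (u : ℕ → ℝ → ℂ) (Λ : ℝ) (hΛ : 1 ≤ Λ)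
    (hs : ∀ j ∈ B, j * Real.log 2 ≤ s j ∧ s j ≤ (j + 1) * Real.log 2)
    (hu : ∀ j ∈ B, Wt Λ (s j) (u j)) :
    (∀ v, ‖∑ j ∈ B, u j v‖ ≤ 10 * Λ) ∧
      ∀ v w, ‖∑ j ∈ B, u j v - ∑ j ∈ B, u j w‖ ≤ 10 * Λ * (Λ * |v - w|) := by
  classical
  constructor
  · intro v
    rw [← Finset.sum_filter_of_ne (p := fun j => |v - s j| ≤ Λ) fun j hj h => by
      by_contra hh
      exact h ((hu j hj).supp v (not_le.1 hh))]
    refine (norm_sum_le _ _).trans ((Finset.sum_le_card_nsmul _ _ 2 fun j hj =>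
      (hu j (Finset.mem_filter.1 hj).1).bd v).trans ?_)
    rw [nsmul_eq_mul]
    linarith [count B s Λ v hΛ hs]
  · intro v w
    rw [← Finset.sum_sub_distrib, ← Finset.sum_filter_of_ne
      (p := fun j => |v - s j| ≤ Λ ∨ |w - s j| ≤ Λ) fun j hj h => by
        by_contra hh
        push Not at hh
        rw [(hu j hj).supp v hh.1, (hu j hj).supp w hh.2, sub_self] at h
        exact h rfl]
    refine (norm_sum_le _ _).trans ((Finset.sum_le_card_nsmul _ _ (Λ * |v - w|) fun j hj =>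
      (hu j (Finset.mem_filter.1 hj).1).lip v w).trans ?_)
    rw [nsmul_eq_mul, Finset.filter_or]
    refine mul_le_mul_of_nonneg_right ?_ (by positivity)
    have h1 := Finset.card_union_le (B.filter fun j => |v - s j| ≤ Λ)
      (B.filter fun j => |w - s j| ≤ Λ)
    have h2 : (((B.filter fun j => |v - s j| ≤ Λ) ∪ B.filter fun j => |w - s j| ≤ Λ).card : ℝ) ≤
        (B.filter fun j => |v - s j| ≤ Λ).card + (B.filter fun j => |w - s j| ≤ Λ).card := by
      exact_mod_cast h1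
    linarith [count B s Λ v hΛ hs, count B s Λ w hΛ hs]

theorem zfin (hc : ChStmt) (h1 : Z1Stmt) (hd : ZdStmt) (ho : Zo1Stmt) (hw : Zo2Stmt) :
    FinalStmt := by
  classical
  intro C ε hε
  obtain ⟨K, Λ, H, hΛ, hH, hloc⟩ := loc h1 hd ho hw C
  obtain ⟨T₀, hT₀⟩ := eventually_atTop.1 hloc
  obtain ⟨j₀, hj₀⟩ := pow_unbounded_of_one_lt T₀ (one_lt_two : (1 : ℝ) < 2)
  set ε' : ℝ := ε / (40 * Λ * (K + 1)) with hε'
  have hε0 : 0 < ε' := by positivity
  have hch : ∀ᶠ N : ℕ in atTop, ∀ h ∈ Finset.Icc 1 K, ∀ u : ℝ → ℂ, (∀ v, ‖u v‖ ≤ 1) →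
      (∀ v w, ‖u v - u w‖ ≤ Λ * |v - w|) →
      ‖LC N fun n => u (Real.log n) * (lam n * lam (n + h) : ℝ)‖ ≤ ε' * Real.log N :=
    (eventually_all_finset _).2 fun h hh => hc h Λ ε' (Finset.mem_Icc.1 hh).1 (by linarith) hε0
  have hM : Tendsto (fun J : ℕ => ⌈H * 2 ^ (J + 1)⌉₊) atTop atTop :=
    tendsto_nat_ceil_atTop.comp ((((tendsto_pow_atTop_atTop_of_one_lt one_lt_two).comp
      (tendsto_add_atTop_nat 1))).const_mul_atTop (by linarith))
  filter_upwards [hM.eventually hch,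
    tendsto_natCast_atTop_atTop.eventually (eventually_ge_atTop (2 * j₀ / ε)),
    tendsto_natCast_atTop_atTop.eventually (eventually_ge_atTop (Real.log H + 2))]
    with J hch hJ1 hJ2
  set M := ⌈H * 2 ^ (J + 1)⌉₊ with hMd
  set B := (Finset.Icc j₀ J).filter fun j => ∃ T : ℝ, 2 ^ j ≤ T ∧ T ≤ 2 ^ (j + 1) ∧
    ¬ Gap T ((1 / 2 - C / Real.log T) * (2 * Real.pi / Real.log T)) with hB
  refine ⟨Finset.range j₀ ∪ B, ?_, fun j hj hjB T t1 t2 => ?_⟩
  swap
  · by_contra hG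
    rw [Finset.mem_union, not_or, Finset.mem_range, not_lt] at hjB
    exact hjB.2 (Finset.mem_filter.2 ⟨Finset.mem_Icc.2 ⟨hjB.1, hj⟩, T, t1, t2, hG⟩)
  have hex : ∀ j : ℕ, ∃ (s : ℝ) (u : ℕ → ℝ → ℂ), j ∈ B →
      (j * Real.log 2 ≤ s ∧ s ≤ (j + 1) * Real.log 2) ∧ (∀ h ∈ Finset.Icc 1 K, Wt Λ s (u h)) ∧
      1 ≤ -(∑ h ∈ Finset.Icc 1 K,
        LC M fun m => u h (Real.log m) * (lam m * lam (m + h) : ℝ)).im := fun j => by
    by_cases hj : j ∈ B
    swap
    · exact ⟨0, 0, fun h => absurd h hj⟩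
    obtain ⟨b1, T, t1, t2, hG⟩ := Finset.mem_filter.1 hj
    rw [Finset.mem_Icc] at b1
    have t0 : T₀ ≤ T := hj₀.le.trans ((pow_le_pow_right₀ one_le_two b1.1).trans t1)
    obtain ⟨u, u1, u2⟩ := hT₀ T t0 hG
    have p0 : (0 : ℝ) < 2 ^ j := by positivity
    refine ⟨Real.log T, u, fun _ => ⟨⟨?_, ?_⟩, u1, u2 M (Nat.ceil_le_ceil ?_)⟩⟩
    · rw [← Real.log_pow]
      exact Real.log_le_log p0 t1
    · have := Real.log_le_log (p0.trans_le t1) t2
      rwa [Real.log_pow, Nat.cast_add_one] at this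
    · exact mul_le_mul_of_nonneg_left
        (t2.trans (pow_le_pow_right₀ one_le_two (Nat.succ_le_succ b1.2))) (by linarith)
  choose s u hsu using hex
  have hΛ0 : (0 : ℝ) < 10 * Λ := by linarith
  have hlog : Real.log M ≤ 2 * J := by
    have p1 : (1 : ℝ) ≤ H * 2 ^ (J + 1) := one_le_mul_of_one_le_of_one_le hH (one_le_pow₀ one_le_two)
    have p2 : (M : ℝ) ≤ H * 2 ^ (J + 2) := by
      have := Nat.ceil_lt_add_one (zero_le_one.trans p1)
      rw [pow_succ _ (J + 1)]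
      linarith
    have p3 := Real.log_le_log (zero_lt_one.trans_le (p1.trans (Nat.le_ceil _))) p2
    rw [Real.log_mul (by linarith) (by positivity), Real.log_pow] at p3
    push_cast at p3
    have p4 : (0 : ℝ) ≤ J := Nat.cast_nonneg J
    nlinarith [Real.log_two_lt_d9]
  have key : ∀ h ∈ Finset.Icc 1 K, ‖∑ j ∈ B,
      LC M fun m => u j h (Real.log m) * (lam m * lam (m + h) : ℝ)‖ ≤ 10 * Λ * (ε' * (2 * J)) := by
    intro h hh
    obtain ⟨g1, g2⟩ := glob B s (fun j => u j h) Λ hΛ (fun j hj => (hsu j hj).1)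
      fun j hj => (hsu j hj).2.1 h hh
    have hn : ‖(((10 * Λ)⁻¹ : ℝ) : ℂ)‖ = (10 * Λ)⁻¹ := by
      rw [norm_real, Real.norm_of_nonneg (by positivity)]
    have g3 := hch h hh (fun v => ((10 * Λ)⁻¹ : ℝ) * ∑ j ∈ B, u j h v)
      (fun v => by rw [norm_mul, hn, inv_mul_le_iff₀ hΛ0, mul_one]; exact g1 v)
      fun v w => by rw [← mul_sub, norm_mul, hn, inv_mul_le_iff₀ hΛ0]; exact g2 v w
    simp only [mul_assoc (((10 * Λ)⁻¹ : ℝ) : ℂ)] at g3
    rw [LC_mul, norm_mul, hn, inv_mul_le_iff₀ hΛ0] at g3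
    simp only [Finset.sum_mul] at g3
    rw [LC_sum] at g3
    exact g3.trans (by gcongr)
  have hcard : (B.card : ℝ) ≤ K * (10 * Λ * (ε' * (2 * J))) := by
    have c1 : (B.card : ℝ) ≤ -(∑ j ∈ B, ∑ h ∈ Finset.Icc 1 K,
        LC M fun m => u j h (Real.log m) * (lam m * lam (m + h) : ℝ)).im := by
      rw [im_sum, ← Finset.sum_neg_distrib, Finset.card_eq_sum_ones, Nat.cast_sum]
      exact Finset.sum_le_sum fun j hj => by simpa using (hsu j hj).2.2
    rw [Finset.sum_comm] at c1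
    refine c1.trans ((neg_le_abs _).trans ((abs_im_le_norm _).trans ((norm_sum_le _ _).trans
      ((Finset.sum_le_card_nsmul _ _ _ key).trans (le_of_eq ?_)))))
    rw [nsmul_eq_mul, Nat.card_Icc, Nat.add_sub_cancel]
  have c2 : ((Finset.range j₀ ∪ B).card : ℝ) ≤ j₀ + B.card := by
    have := Finset.card_union_le (Finset.range j₀) B
    rw [Finset.card_range] at this
    exact_mod_cast this
  have c3 : (j₀ : ℝ) ≤ ε * J / 2 := by
    rw [div_le_iff₀ hε] at hJ1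
    linarith
  have c4 : K * (10 * Λ * (ε' * (2 * J))) ≤ ε * J / 2 := by
    have e : (K + 1) * (10 * Λ * (ε' * (2 * J))) = ε * J / 2 := by
      rw [hε']
      field_simp
      ring
    rw [← e]
    gcongr
    linarith
  linarith

end Pool.Agent.MP_ca0a54_nt.BH.ZFIN
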