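import Pool.Agent.MP_ca0a54_nt.BH.Basic
import Pool.Agent.MP_ca0a54_nt.H88.AR1

/-! The coefficients for the Liouville mollifier and the diagonal term. -/

open Complex MeasureTheory Filter Topology

namespace Pool.Agent.MP_ca0a54_nt.BH.ZA

open Pool.Agent.MP_ca0a54_nt.H24 Pool.Agent.MP_ca0a54_nt.H88

/-- The Liouville function as an arithmetic function. -/
def la : ArithmeticFunction ℂ := ⟨lc, by simp [lc, lam_zero]⟩

theorem la_apply (n : ℕ) : la n = lc n := rfl

theorem lc_mul (m n : ℕ) : lc (m * n) = lc m * lc n := by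
  unfold lc
  rw [lam_mul]
  push_cast
  ring

theorem lc_one : lc 1 = 1 := by simp [lc, lam_one]

theorem lc_pow {p : ℕ} (hp : p.Prime) (k : ℕ) : lc (p ^ k) = (-1) ^ k := by
  induction k with
  | zero => simp [lc_one]
  | succ k ih =>
    rw [pow_succ, lc_mul, ih, pow_succ]
    simp [lc, lam_prime hp]

theorem la_mult : la.IsMultiplicative := ⟨lc_one, fun {m n} _ => lc_mul m n⟩

/-- The full convolution. -/
noncomputable def FA (v : ℂ) : ArithmeticFunction ℂ := H88.tw 0 ze * H88.tw v mu * la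

theorem FA_mult (v : ℂ) : (FA v).IsMultiplicative := (rc_mult 0 v).mul la_mult

theorem FA_apply (v : ℂ) (n : ℕ) :
    FA v n = ∑ x ∈ n.divisorsAntidiagonal, rc 0 v x.1 * lc x.2 := by
  rw [FA, ArithmeticFunction.mul_apply, rc_eq]
  rfl

theorem FA_pp (v : ℂ) {p : ℕ} (hp : p.Prime) (k : ℕ) :
    FA v (p ^ k) = ∑ j ∈ Finset.range (k + 1), rc 0 v (p ^ j) * (-1) ^ (k - j) := by
  rw [FA_apply, Nat.sum_divisorsAntidiagonal (fun a b => rc 0 v a * lc b),
    Nat.sum_divisors_prime_pow hp]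
  refine Finset.sum_congr rfl fun j hj => ?_
  rw [Nat.pow_div (by simpa [Nat.lt_succ_iff] using hj) hp.pos, lc_pow hp]

theorem FA_succ (v : ℂ) {p : ℕ} (hp : p.Prime) (k : ℕ) :
    FA v (p ^ (k + 1)) = -FA v (p ^ k) + (1 - np v p) := by
  rw [FA_pp v hp, FA_pp v hp, Finset.sum_range_succ, rc_pp 0 v k hp, np_zero, Nat.sub_self,
    ← Finset.sum_neg_distrib]
  congr 1
  · refine Finset.sum_congr rfl fun j hj => ?_
    have : k + 1 - j = k - j + 1 := by
      have := Finset.mem_range.1 hj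
      omega
    rw [this, pow_succ]
    ring
  · ring

theorem FA_even (v : ℂ) {p : ℕ} (hp : p.Prime) (k : ℕ) :
    FA v (p ^ (2 * k)) = 1 ∧ FA v (p ^ (2 * k + 1)) = -np v p := by
  induction k with
  | zero =>
    have h : FA v (p ^ (2 * 0)) = 1 := by simpa using (FA_mult v).1
    refine ⟨h, ?_⟩
    rw [FA_succ v hp, h]
    ring
  | succ k ih =>
    have h : FA v (p ^ (2 * (k + 1))) = 1 := by
      rw [show 2 * (k + 1) = 2 * k + 1 + 1 by ring, FA_succ v hp, ih.2]
      ring
    refine ⟨h, ?_⟩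
    rw [FA_succ v hp, h]
    ring

theorem np_cancel (v : ℂ) (p : ℕ) : np v p ^ 2 * np (-(2 * v)) p = 1 := by
  rw [sq, ← np_add, ← np_add, show v + v + -(2 * v) = 0 by ring, np_zero]

theorem FA_form (v : ℂ) (n : ℕ) : n ≠ 0 →
    ∃ d : ℕ, d ^ 2 ∣ n ∧ FA v n = lc n * np v n * np (-(2 * v)) d := by
  induction n using Nat.recOnPosPrimePosCoprime with
  | prime_pow p k hp _ =>
    intro _
    have hp0 := hp.ne_zero
    have hc := np_cancel v p
    obtain ⟨j, rfl | rfl⟩ := Nat.even_or_odd' k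
    · refine ⟨p ^ j, by rw [← pow_mul, mul_comm], ?_⟩
      rw [(FA_even v hp j).1, lc_pow hp, np_pow v hp0, np_pow _ hp0, pow_mul, pow_mul, mul_assoc,
        ← mul_pow, hc]
      simp
    · refine ⟨p ^ j, by rw [← pow_mul, mul_comm]; exact pow_dvd_pow _ (Nat.le_succ _), ?_⟩
      rw [(FA_even v hp j).2, lc_pow hp, np_pow v hp0, np_pow _ hp0, pow_succ, pow_succ (np v p),
        pow_mul, pow_mul]
      have : (np v p ^ 2) ^ j * np (-(2 * v)) p ^ j = 1 := by rw [← mul_pow, hc, one_pow]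
      have h1 : ((-1 : ℂ) ^ 2) ^ j = 1 := by simp
      rw [h1]
      linear_combination (np v p) * this
  | zero => exact fun h => absurd rfl h
  | one =>
    intro _
    exact ⟨1, by simp, by rw [(FA_mult v).1, lc_one, np_one, np_one]; simp⟩
  | coprime a b ha hb hab iha ihb =>
    intro _
    have ha0 : a ≠ 0 := by omega
    have hb0 : b ≠ 0 := by omega
    obtain ⟨d, hd, h1⟩ := iha ha0
    obtain ⟨e, he, h2⟩ := ihb hb0
    have hd0 : d ≠ 0 := by
      rintro rfl
      exact ha0 (by simpa using hd)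
    have he0 : e ≠ 0 := by
      rintro rfl
      exact hb0 (by simpa using he)
    refine ⟨d * e, by rw [mul_pow]; exact mul_dvd_mul hd he, ?_⟩
    rw [(FA_mult v).2 hab, h1, h2, lc_mul, np_mul v ha0 hb0, np_mul _ hd0 he0]
    ring

theorem np_I (a : ℝ) (n : ℕ) : np (I * a) n = ei (-(a * Real.log n)) := by
  unfold np ei
  congr 1
  push_cast
  ring

theorem np_I2 (a : ℝ) (n : ℕ) : np (-(2 * (I * a))) n = ei (2 * a * Real.log n) := by
  unfold np ei
  congr 1
  push_cast
  ring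

theorem cc_eq (a : ℝ) {N n : ℕ} (hn : n ≤ N) : cc a lc N n = FA (I * a) n := by
  rw [FA_apply]
  unfold cc cv
  rw [LSeries.convolution_def]
  refine Finset.sum_congr rfl fun x hx => ?_
  have h := Nat.divisor_le (Nat.snd_mem_divisors_of_mem_antidiagonal hx)
  unfold cut
  rw [if_pos (h.trans hn)]

theorem norm_lc (n : ℕ) : ‖lc n‖ ≤ 1 := by
  unfold lc
  rw [norm_real, Real.norm_eq_abs]
  exact abs_lam_le n

/-- The error weight. -/
noncomputable def ee (n : ℕ) : ℝ :=
  ∑ d ∈ Finset.Icc 1 n, if d ^ 2 ∣ n then 2 * Real.log d else 0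

theorem term_nonneg (d n : ℕ) : 0 ≤ (if d ^ 2 ∣ n then 2 * Real.log d else 0 : ℝ) := by
  have := Real.log_natCast_nonneg d
  split_ifs <;> positivity

theorem ee_le {n M : ℕ} (h : n ≤ M) :
    ee n ≤ ∑ d ∈ Finset.Icc 1 M, if d ^ 2 ∣ n then 2 * Real.log d else 0 :=
  Finset.sum_le_sum_of_subset_of_nonneg (Finset.Icc_subset_Icc_right h)
    fun d _ _ => term_nonneg d n

theorem series_bound : ∃ C : ℝ, 1 ≤ C ∧ ∀ M : ℕ,
    ∑ d ∈ Finset.Icc 1 M, 2 * Real.log d / (d : ℝ) ^ 2 ≤ C := by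
  have hs : Summable fun d : ℕ => 4 * (1 / (d : ℝ) ^ (3 / 2 : ℝ)) :=
    (Real.summable_one_div_nat_rpow.2 (by norm_num)).mul_left 4
  have h0 : ∀ d : ℕ, 0 ≤ 4 * (1 / (d : ℝ) ^ (3 / 2 : ℝ)) := fun d => by positivity
  refine ⟨1 + ∑' d : ℕ, 4 * (1 / (d : ℝ) ^ (3 / 2 : ℝ)), ?_, fun M => ?_⟩
  · have : 0 ≤ ∑' d : ℕ, 4 * (1 / (d : ℝ) ^ (3 / 2 : ℝ)) := tsum_nonneg h0
    linarith
  · have h1 := hs.sum_le_tsum (Finset.Icc 1 M) fun d _ => h0 d
    refine le_trans (Finset.sum_le_sum fun d hd => ?_) (h1.trans (by linarith))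
    have hd0 : (0 : ℝ) < d := by exact_mod_cast (Finset.mem_Icc.1 hd).1
    have h2 := Real.log_le_rpow_div hd0.le (show (0 : ℝ) < 1 / 2 by norm_num)
    have h3 : (d : ℝ) ^ 2 = (d : ℝ) ^ (1 / 2 : ℝ) * (d : ℝ) ^ (3 / 2 : ℝ) := by
      rw [← Real.rpow_add hd0, ← Real.rpow_natCast]
      norm_num
    have h4 : 0 < (d : ℝ) ^ (1 / 2 : ℝ) := Real.rpow_pos_of_pos hd0 _
    have h5 : 0 < (d : ℝ) ^ (3 / 2 : ℝ) := Real.rpow_pos_of_pos hd0 _
    rw [h3, div_le_iff₀ (mul_pos h4 h5)]
    have h6 : 4 * (1 / (d : ℝ) ^ (3 / 2 : ℝ)) * ((d : ℝ) ^ (1 / 2 : ℝ) * (d : ℝ) ^ (3 / 2 : ℝ)) =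
        4 * (d : ℝ) ^ (1 / 2 : ℝ) := by field_simp
    rw [h6]
    linarith

theorem LS_dvd (M : ℕ) {d : ℕ} (hd : 1 ≤ d) (c : ℝ) (hc : 0 ≤ c) :
    LS M (fun n => if d ∣ n then c else 0) ≤ c / d * (1 + Real.log M) := by
  have h := Pool.Agent.MP_57adf2_an.H72.sum_Ioc_div (fun n : ℕ => c / (n : ℝ)) M hd
  have e : ∀ M : ℕ, Finset.Icc 1 M = Finset.Ioc 0 M := fun M => rfl
  have h1 : LS M (fun n => if d ∣ n then c else 0) = c / d * LS (M / d) fun _ => 1 := by
    unfold LS
    rw [e, e, Finset.mul_sum]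
    calc _ = ∑ n ∈ Finset.Ioc 0 M, if d ∣ n then c / (n : ℝ) else 0 :=
          Finset.sum_congr rfl fun n _ => by by_cases hn : d ∣ n <;> simp [hn]
      _ = _ := by
          rw [← h]
          refine Finset.sum_congr rfl fun n _ => ?_
          push_cast
          rw [div_mul_div_comm, mul_one]
  rw [h1]
  refine mul_le_mul_of_nonneg_left ?_ (by positivity)
  refine le_trans ?_ (LS_one_le M)
  exact Finset.sum_le_sum_of_subset_of_nonneg (Finset.Icc_subset_Icc_right (Nat.div_le_self _ _))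
    fun n _ _ => by positivity

theorem za : ZaStmt := by
  obtain ⟨C, hC, hs⟩ := series_bound
  refine ⟨C, ee, hC, fun n => Finset.sum_nonneg fun d _ => term_nonneg d n, fun M => ?_,
    fun M => ?_, fun a N n ha h1 hn => ?_⟩
  · refine (Finset.sum_le_sum fun n hn => ee_le (Finset.mem_Icc.1 hn).2).trans ?_
    rw [Finset.sum_comm]
    refine le_trans (Finset.sum_le_sum fun d hd => ?_)
      ((Finset.sum_mul _ _ _).ge.trans (mul_le_mul_of_nonneg_right (hs M) (Nat.cast_nonneg M)))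
    have h := Pool.Agent.MP_57adf2_an.H72.sum_dvd_eq M (d ^ 2)
    have hl := Real.log_natCast_nonneg d
    have e : Finset.Icc 1 M = Finset.Ioc 0 M := rfl
    calc _ = 2 * Real.log d * ∑ n ∈ Finset.Ioc 0 M, (if d ^ 2 ∣ n then (1 : ℝ) else 0) := by
          rw [e, Finset.mul_sum]
          exact Finset.sum_congr rfl fun n _ => by split_ifs <;> simp
      _ ≤ 2 * Real.log d * ((M : ℝ) / (d : ℝ) ^ 2) := by
          rw [h]
          refine mul_le_mul_of_nonneg_left ?_ (by positivity)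
          exact_mod_cast Nat.cast_div_le (α := ℝ) (m := M) (n := d ^ 2)
      _ = _ := by ring
  · refine (LS_mono fun n _ hn => ee_le hn).trans ?_
    rw [LS_sum]
    have hM : 0 ≤ 1 + Real.log M := by
      have := Real.log_natCast_nonneg M
      linarith
    refine le_trans (Finset.sum_le_sum fun d hd => ?_)
      ((Finset.sum_mul _ _ _).ge.trans (mul_le_mul_of_nonneg_right (hs M) hM))
    have hl := Real.log_natCast_nonneg d
    have h := LS_dvd M (d := d ^ 2) (Nat.one_le_pow _ _ (Finset.mem_Icc.1 hd).1)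
      (2 * Real.log d) (by positivity)
    push_cast at h
    exact h
  · obtain ⟨d, hd, h⟩ := FA_form (I * a) n (by omega)
    have hd0 : d ≠ 0 := by
      rintro rfl
      have : n = 0 := by simpa using hd
      omega
    have hdn : d ≤ n := le_trans (by nlinarith [Nat.pos_of_ne_zero hd0]) (Nat.le_of_dvd h1 hd)
    have hl := Real.log_natCast_nonneg d
    rw [cc_eq a hn, h, np_I, np_I2, ← mul_sub_one, norm_mul, norm_mul, norm_ei, mul_one]
    have h2 := norm_ei_sub (2 * a * Real.log d) 0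
    rw [ei_zero, sub_zero, abs_of_nonneg (by positivity)] at h2
    have h3 : 2 * Real.log d ≤ ee n := by
      have := Finset.single_le_sum (f := fun d : ℕ => if d ^ 2 ∣ n then 2 * Real.log d else 0)
        (fun d _ => term_nonneg d n) (Finset.mem_Icc.2 ⟨Nat.pos_of_ne_zero hd0, hdn⟩)
      rw [if_pos hd] at this
      exact this
    calc _ ≤ 1 * (2 * a * Real.log d) :=
          mul_le_mul (norm_lc n) h2 (norm_nonneg _) zero_le_one
      _ = a * (2 * Real.log d) := by ring
      _ ≤ _ := mul_le_mul_of_nonneg_left h3 ha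

theorem step {a : ℝ} (ha : 0 ≤ a) (ha1 : a ≤ 1) {n : ℕ} (hn : 1 ≤ n) :
    ‖I * a * (ei (-(a * Real.log n)) / n) -
      (ei (-(a * Real.log n)) - ei (-(a * Real.log (n + 1 : ℕ))))‖ ≤ a * (2 / (n : ℝ) ^ 2) := by
  have h0 : (1 : ℝ) ≤ n := by exact_mod_cast hn
  have hp : (0 : ℝ) < n := by linarith
  set δ : ℝ := Real.log (n + 1 : ℕ) - Real.log n with hδ
  have hδ1 : δ = Real.log (1 + 1 / n) := by
    rw [hδ, ← Real.log_div (by positivity) hp.ne']
    congr 1
    push_cast
    field_simp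
  have hu : δ ≤ 1 / n := by
    rw [hδ1]
    have := Real.log_le_sub_one_of_pos (show (0 : ℝ) < 1 + 1 / n by positivity)
    linarith
  have hl : 1 / n - 1 / (n : ℝ) ^ 2 ≤ δ := by
    rw [hδ1]
    refine le_trans ?_ (Real.one_sub_inv_le_log_of_pos (show (0 : ℝ) < 1 + 1 / n by positivity))
    have : 1 - (1 + 1 / (n : ℝ))⁻¹ = 1 / (n + 1) := by
      field_simp
      ring
    rw [this, div_sub_div _ _ hp.ne' (by positivity), div_le_div_iff₀ (by positivity) (by positivity)]
    nlinarith [mul_pos hp hp]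
  have hn1 : 1 / (n : ℝ) ≤ 1 := by rw [div_le_one hp]; exact h0
  have hn2 : 1 / (n : ℝ) ^ 2 ≤ 1 / n := by
    refine one_div_le_one_div_of_le hp ?_
    nlinarith
  have hδ0 : 0 ≤ δ := by linarith
  have e1 : ei (-(a * Real.log (n + 1 : ℕ))) = ei (-(a * Real.log n)) * ei (-(a * δ)) := by
    rw [← ei_add]
    congr 1
    rw [hδ]
    ring
  have hx : ‖I * ((-(a * δ) : ℝ) : ℂ)‖ = a * δ := by
    rw [norm_mul, norm_I, one_mul, norm_real, Real.norm_eq_abs, abs_neg, abs_of_nonneg (by positivity)]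
  have e2 := norm_exp_sub_one_sub_id_le (x := I * ((-(a * δ) : ℝ) : ℂ))
    (by rw [hx]; nlinarith)
  rw [hx] at e2
  have e3 : I * a * (ei (-(a * Real.log n)) / n) -
      (ei (-(a * Real.log n)) - ei (-(a * Real.log (n + 1 : ℕ)))) =
      ei (-(a * Real.log n)) * ((exp (I * ((-(a * δ) : ℝ) : ℂ)) - 1 - I * ((-(a * δ) : ℝ) : ℂ)) +
        I * ((a * (1 / n - δ) : ℝ) : ℂ)) := by
    rw [e1]
    unfold ei
    push_cast
    ring
  rw [e3, norm_mul, norm_ei, one_mul]
  refine (norm_add_le _ _).trans ?_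
  rw [norm_mul, norm_I, one_mul, norm_real, Real.norm_eq_abs,
    abs_of_nonneg (mul_nonneg ha (by linarith))]
  have h5 : δ ^ 2 ≤ 1 / (n : ℝ) ^ 2 := by
    rw [← one_div_pow]
    exact pow_le_pow_left₀ hδ0 hu 2
  have h6 : (a * δ) ^ 2 ≤ a * (1 / (n : ℝ) ^ 2) := by
    calc (a * δ) ^ 2 = a * (a * δ ^ 2) := by ring
      _ ≤ a * (1 * (1 / (n : ℝ) ^ 2)) :=
          mul_le_mul_of_nonneg_left (mul_le_mul ha1 h5 (by positivity) zero_le_one) ha
      _ = _ := by ring
  have h7 : a * (1 / n - δ) ≤ a * (1 / (n : ℝ) ^ 2) := mul_le_mul_of_nonneg_left (by linarith) ha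
  have h8 : a * (2 / (n : ℝ) ^ 2) = a * (1 / (n : ℝ) ^ 2) + a * (1 / (n : ℝ) ^ 2) := by ring
  linarith

theorem tele {a : ℝ} (ha : 0 ≤ a) (ha1 : a ≤ 1) (N : ℕ) :
    ‖I * a * LC N (fun n => ei (-(a * Real.log n))) - (1 - ei (-(a * Real.log (N + 1 : ℕ))))‖ ≤
      a * (4 - 4 / ((N : ℝ) + 1)) := by
  induction N with
  | zero => simp [LC, ei_zero]
  | succ N ih =>
    have h := step ha ha1 (n := N + 1) (by omega)
    have e : I * a * LC (N + 1) (fun n => ei (-(a * Real.log n))) -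
        (1 - ei (-(a * Real.log (N + 1 + 1 : ℕ)))) =
        (I * a * LC N (fun n => ei (-(a * Real.log n))) - (1 - ei (-(a * Real.log (N + 1 : ℕ))))) +
        (I * a * (ei (-(a * Real.log (N + 1 : ℕ))) / (N + 1 : ℕ)) -
          (ei (-(a * Real.log (N + 1 : ℕ))) - ei (-(a * Real.log (N + 1 + 1 : ℕ))))) := by
      unfold LC
      rw [Finset.sum_Icc_succ_top (by omega)]
      ring
    rw [e]
    refine (norm_add_le _ _).trans ((add_le_add ih h).trans ?_)
    rw [← mul_add]
    refine mul_le_mul_of_nonneg_left ?_ ha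
    push_cast
    have h0 : (0 : ℝ) ≤ N := Nat.cast_nonneg N
    have h1 : 4 / ((N : ℝ) + 1) - 4 / ((N : ℝ) + 1 + 1) = 4 / (((N : ℝ) + 1) * (N + 1 + 1)) := by
      field_simp
      ring
    have h2 : 2 / ((N : ℝ) + 1) ^ 2 ≤ 4 / (((N : ℝ) + 1) * (N + 1 + 1)) := by
      rw [div_le_div_iff₀ (by positivity) (by positivity)]
      nlinarith
    linarith

theorem re_ei (x : ℝ) : (ei x).re = Real.cos x := by
  unfold ei
  rw [mul_comm, exp_ofReal_mul_I_re]

theorem main_im {a L : ℝ} (ha : 0 ≤ a) (ha1 : a ≤ 1) (N : ℕ) :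
    Real.cos (a * L / 2 + a * Real.log (N + 1 : ℕ)) - Real.cos (a * L / 2) - 4 * a ≤
      a * (ei (-(a * L / 2)) * LC N fun n => ei (-(a * Real.log n))).im := by
  have h := tele ha ha1 N
  set S := LC N fun n => ei (-(a * Real.log n))
  set l : ℝ := Real.log (N + 1 : ℕ)
  have h1 : ‖ei (-(a * L / 2)) * (I * a * S - (1 - ei (-(a * l))))‖ ≤ 4 * a := by
    rw [norm_mul, norm_ei, one_mul]
    refine h.trans ?_
    have : 0 ≤ a * (4 / ((N : ℝ) + 1)) := by positivity
    nlinarith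
  have h2 := (re_le_norm _).trans h1
  have e : ei (-(a * L / 2)) * (I * a * S - (1 - ei (-(a * l)))) =
      I * (a * (ei (-(a * L / 2)) * S)) - ei (-(a * L / 2)) + ei (-(a * L / 2 + a * l)) := by
    rw [neg_add, ei_add]
    ring
  rw [e, add_re, sub_re, re_ei, re_ei, Real.cos_neg, Real.cos_neg, I_mul_re, im_ofReal_mul] at h2
  linarith

theorem sin_low (x : ℝ) : x - |x| ^ 3 ≤ Real.sin x := by
  rcases le_total 0 x with h | h
  · have := Real.sin_ge_sub_cube h
    rw [abs_of_nonneg h]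
    have : 0 ≤ x ^ 3 := by positivity
    linarith
  · have := Real.le_sin h
    have : 0 ≤ |x| ^ 3 := by positivity
    linarith

theorem zd : ZaStmt → ZdStmt := by
  rintro ⟨C, e, hC, he0, -, hLS, hcc⟩
  refine ⟨12 * C + 5, fun c H hc hH => ?_⟩
  have hlH : 0 ≤ Real.log H := Real.log_nonneg hH
  set B : ℝ := 4 * (Real.log H + 1) + 2 * c with hB
  have hB0 : 4 ≤ B := by linarith
  filter_upwards [eventually_ge_atTop (H + 2),
    Real.tendsto_log_atTop.eventually (eventually_ge_atTop (B ^ 2 + c))] with T hT hL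
  set L := Real.log T with hLd
  have hBL : B ^ 2 ≤ L := by linarith
  have hL4 : 16 ≤ L := by nlinarith
  have hL0 : 0 < L := by linarith
  have hT0 : 0 < T := by linarith
  set κ : ℝ := c / L with hκ
  have hκ0 : 0 ≤ κ := by positivity
  have hκ1 : κ ≤ 1 := by
    rw [hκ, div_le_one hL0]
    nlinarith
  set a : ℝ := (Real.pi - κ) / L with ha
  have hπ3 := Real.pi_gt_three
  have hπ4 := Real.pi_lt_four
  have haL : a * L = Real.pi - κ := by
    rw [ha]
    field_simp
  have ha0 : 0 < a := div_pos (by linarith) hL0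
  have ha1 : a ≤ 1 := by
    rw [ha, div_le_one hL0]
    linarith
  set N := ⌈H * T⌉₊ with hN
  have hHT : 0 < H * T := by positivity
  have hN1 : H * T ≤ N := Nat.le_ceil _
  have hN2 : (N : ℝ) < H * T + 1 := Nat.ceil_lt_add_one hHT.le
  have hHT2 : 2 ≤ H * T := by nlinarith
  set l : ℝ := Real.log (N + 1 : ℕ) with hl
  have hlog : Real.log (H * T) = Real.log H + L := Real.log_mul (by positivity) hT0.ne'
  have hl1 : Real.log H + L ≤ l := by
    rw [← hlog, hl]
    refine Real.log_le_log hHT ?_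
    push_cast
    linarith
  have hl2 : l ≤ Real.log H + L + 1 := by
    have h2 : l ≤ Real.log (2 * (H * T)) := by
      refine Real.log_le_log (by positivity) ?_
      push_cast
      linarith
    rw [Real.log_mul (by norm_num) hHT.ne', hlog] at h2
    have := Real.log_two_lt_d9
    linarith
  have hlN : Real.log N ≤ 2 * L := by
    have h2 : Real.log N ≤ Real.log (T * T) := by
      refine Real.log_le_log (by linarith) ?_
      nlinarith
    rw [Real.log_mul hT0.ne' hT0.ne'] at h2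
    linarith
  have h1 : ‖diag a N - LC N fun n => ei (-(a * Real.log n))‖ ≤ 12 * C := by
    unfold diag
    rw [← LC_sub]
    refine (norm_LC_le _ _).trans ?_
    have h2 : LS N (fun n => ‖cc a lc N n * lc n - ei (-(a * Real.log n))‖) ≤
        LS N fun n => a * e n := by
      refine LS_mono fun n hn1 hn => ?_
      have h3 : lc n * lc n = 1 := by
        unfold lc
        rw [← ofReal_mul, lam_mul_self hn1, ofReal_one]
      have h4 : cc a lc N n * lc n - ei (-(a * Real.log n)) =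
          (cc a lc N n - lc n * ei (-(a * Real.log n))) * lc n := by
        linear_combination ei (-(a * Real.log n)) * h3
      rw [h4, norm_mul]
      calc _ ≤ a * e n * 1 := mul_le_mul (hcc a N n ha0.le hn1 hn) (norm_lc n) (norm_nonneg _)
            (mul_nonneg ha0.le (he0 n))
        _ = _ := mul_one _
    rw [LS_mul] at h2
    refine h2.trans ((mul_le_mul_of_nonneg_left (hLS N) ha0.le).trans ?_)
    calc a * (C * (1 + Real.log N)) ≤ a * (C * (3 * L)) :=
          mul_le_mul_of_nonneg_left (mul_le_mul_of_nonneg_left (by linarith) (by linarith)) ha0.le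
      _ = 3 * C * (a * L) := by ring
      _ ≤ 3 * C * 4 := mul_le_mul_of_nonneg_left (by linarith) (by linarith)
      _ = _ := by ring
  have h2 := main_im (L := L) ha0.le ha1 N
  set S := LC N fun n => ei (-(a * Real.log n))
  set x : ℝ := a * (l - L) - 3 * κ / 2 with hx
  have c1 : Real.cos (a * L / 2) ≤ κ / 2 := by
    rw [haL, show (Real.pi - κ) / 2 = Real.pi / 2 - κ / 2 by ring, Real.cos_pi_div_two_sub]
    exact Real.sin_le (by positivity)
  have c2 : Real.cos (a * L / 2 + a * l) = Real.sin x := by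
    have : a * L / 2 + a * l = x - Real.pi / 2 + 2 * Real.pi := by
      rw [hx]
      linear_combination (3 / 2 : ℝ) * haL
    rw [this, Real.cos_add_two_pi, Real.cos_sub_pi_div_two]
  have hκL : κ * L = c := by
    rw [hκ]
    field_simp
  have hxL : |x| * L ≤ B := by
    rw [← abs_of_pos hL0, ← abs_mul]
    have e1 : x * L = (Real.pi - κ) * (l - L) - 3 * c / 2 := by
      rw [hx]
      linear_combination (l - L) * haL - (3 / 2 : ℝ) * hκL
    rw [e1, abs_le]
    have e2 : 0 ≤ (Real.pi - κ) * (l - L) := mul_nonneg (by linarith) (by linarith)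
    have e3 : (Real.pi - κ) * (l - L) ≤ 4 * (Real.log H + 1) :=
      mul_le_mul (by linarith) (by linarith) (by linarith) (by norm_num)
    constructor <;> linarith
  have hx0 := abs_nonneg x
  have hx2 : |x| ^ 2 * L ≤ 1 := by
    have e1 : (|x| * L) ^ 2 ≤ L := (pow_le_pow_left₀ (by positivity) hxL 2).trans hBL
    have e2 : |x| ^ 2 * L * L ≤ 1 * L := by nlinarith
    exact le_of_mul_le_mul_right e2 hL0
  have hx1 : |x| ≤ 1 := by nlinarith
  have hx3 : |x| ^ 3 ≤ a := by
    have e1 : |x| ^ 3 * L ≤ a * L := by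
      calc |x| ^ 3 * L = |x| * (|x| ^ 2 * L) := by ring
        _ ≤ 1 * 1 := mul_le_mul hx1 hx2 (by positivity) zero_le_one
        _ ≤ _ := by linarith
    exact le_of_mul_le_mul_right e1 hL0
  have hκa : 2 * κ ≤ a * c := by
    have e1 : 2 * κ * L ≤ a * c * L := by
      calc 2 * κ * L = 2 * c := by rw [mul_assoc, hκL]
        _ ≤ (a * L) * c := mul_le_mul_of_nonneg_right (by linarith) hc
        _ = _ := by ring
    exact le_of_mul_le_mul_right e1 hL0
  have h3 : a * (Real.log H - c - 5) ≤ a * (ei (-(a * L / 2)) * S).im := by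
    have e1 := sin_low x
    have e2 : a * Real.log H ≤ a * (l - L) := mul_le_mul_of_nonneg_left (by linarith) ha0.le
    rw [c2] at h2
    nlinarith
  have h4 := le_of_mul_le_mul_left h3 ha0
  have h5 : |(ei (-(a * L / 2)) * (diag a N - S)).im| ≤ 12 * C := by
    refine (abs_im_le_norm _).trans ?_
    rw [norm_mul, norm_ei, one_mul]
    exact h1
  rw [mul_sub, sub_im, abs_le] at h5
  linarith [h5.1]

end Pool.Agent.MP_ca0a54_nt.BH.ZA
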