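import Pool.Agent.MP_ca0a54_nt.BH.Basic

/-! Row ZE: mean values of the error terms of the contour argument. -/

open Complex MeasureTheory Filter Topology

namespace Pool.Agent.MP_ca0a54_nt.BH.ZE

open Pool.Agent.MP_ca0a54_nt.L0 Pool.Agent.MP_ca0a54_nt.H24 Pool.Agent.MP_ca0a54_nt.H10

theorem int_gauss : Integrable fun x : ℝ => Real.exp (-x ^ 2) := by
  simpa using integrable_exp_neg_mul_sq (b := 1) one_pos

theorem gauss_le : ∫ x : ℝ, Real.exp (-x ^ 2) ≤ 2 := by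
  have h := integral_gaussian 1
  simp only [neg_mul, one_mul, div_one] at h
  rw [h]
  refine Real.sqrt_le_iff.2 ⟨by norm_num, ?_⟩
  linarith [Real.pi_lt_four]

/-- Smoothing by the Gaussian. -/
noncomputable def sm (φ : ℝ → ℝ) (t : ℝ) : ℝ := ∫ x : ℝ, φ (t + x) * Real.exp (-x ^ 2)

theorem sm_nonneg {φ : ℝ → ℝ} (h0 : ∀ t, 0 ≤ φ t) (t : ℝ) : 0 ≤ sm φ t :=
  integral_nonneg fun _ => mul_nonneg (h0 _) (Real.exp_pos _).le

theorem norm_term {φ : ℝ → ℝ} {B : ℝ} (h0 : ∀ t, 0 ≤ φ t) (hB : ∀ t, φ t ≤ B) (t x : ℝ) :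
    ‖φ t * Real.exp (-x ^ 2)‖ ≤ B * Real.exp (-x ^ 2) := by
  rw [Real.norm_of_nonneg (mul_nonneg (h0 _) (Real.exp_pos _).le)]
  exact mul_le_mul_of_nonneg_right (hB _) (Real.exp_pos _).le

theorem sm_cont {φ : ℝ → ℝ} {B : ℝ} (hc : Continuous φ) (h0 : ∀ t, 0 ≤ φ t) (hB : ∀ t, φ t ≤ B) :
    Continuous (sm φ) := by
  refine continuous_of_dominated (bound := fun x => B * Real.exp (-x ^ 2)) (fun t => ?_)
    (fun t => Eventually.of_forall fun x => norm_term h0 hB _ _) (int_gauss.const_mul B)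
    (Eventually.of_forall fun x => ?_)
  · exact Continuous.aestronglyMeasurable (by fun_prop)
  · fun_prop

theorem sm_int {φ : ℝ → ℝ} {B M s R : ℝ} (hc : Continuous φ) (h0 : ∀ t, 0 ≤ φ t)
    (hB : ∀ t, φ t ≤ B) (hM0 : 0 ≤ M) (hM : ∀ u, ∫ t in (u - R)..(u + R), φ t ≤ M) :
    ∫ t in (s - R)..(s + R), sm φ t ≤ 2 * M := by
  have hi : Integrable (Function.uncurry fun t x : ℝ => φ (t + x) * Real.exp (-x ^ 2))
      ((volume.restrict (Set.uIoc (s - R) (s + R))).prod volume) := by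
    have h1 : Integrable (fun _ : ℝ => B) (volume.restrict (Set.uIoc (s - R) (s + R))) :=
      (intervalIntegrable_const (c := B) (μ := volume) (a := s - R) (b := s + R)).def'
    refine (h1.mul_prod int_gauss).mono' ?_ (Eventually.of_forall fun z => norm_term h0 hB _ _)
    exact Continuous.aestronglyMeasurable (by unfold Function.uncurry; fun_prop)
  unfold sm
  rw [intervalIntegral_integral_swap hi]
  have h2 : ∀ x : ℝ, ∫ t in (s - R)..(s + R), φ (t + x) * Real.exp (-x ^ 2) ≤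
      M * Real.exp (-x ^ 2) := fun x => by
    rw [intervalIntegral.integral_mul_const, intervalIntegral.integral_comp_add_right,
      show s - R + x = s + x - R by ring, show s + R + x = s + x + R by ring]
    exact mul_le_mul_of_nonneg_right (hM _) (Real.exp_pos _).le
  have h3 : Integrable fun x : ℝ => ∫ t in (s - R)..(s + R), φ (t + x) * Real.exp (-x ^ 2) := by
    have h4 := hi.integral_prod_right
    rcases le_total (s - R) (s + R) with h | h
    · simp only [intervalIntegral.integral_of_le h]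
      simpa only [Set.uIoc_of_le h, Function.uncurry] using h4
    · simp only [intervalIntegral.integral_of_ge h]
      rw [Set.uIoc_of_ge h] at h4
      exact h4.neg
  refine (integral_mono h3 (int_gauss.const_mul M) h2).trans ?_
  rw [integral_const_mul, mul_comm]
  exact mul_le_mul_of_nonneg_right gauss_le hM0

/-- The coefficients on the line of height `y`. -/
noncomputable def co (c : ℕ → ℂ) (y : ℝ) (n : ℕ) : ℂ :=
  c n * (Real.exp ((y - 1 / 2) * Real.log n) : ℝ)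

theorem ds_eq (c : ℕ → ℂ) (S : Finset ℕ) (t y : ℝ) : ds c S (t + y * I) = dir (co c y) S t := by
  unfold ds dir co np ei
  refine Finset.sum_congr rfl fun n _ => ?_
  rw [mul_assoc, ofReal_exp, ← exp_add]
  congr 2
  generalize Real.log n = x
  push_cast
  linear_combination (-(y : ℂ) * (x : ℂ)) * I_mul_I

theorem norm_co_sq {c : ℕ → ℂ} {B : ℝ} {n : ℕ} (h : ‖c n‖ ≤ B) (y : ℝ) :
    ‖co c y n‖ ^ 2 ≤ B ^ 2 * Real.exp ((2 * y - 1) * Real.log n) := by
  unfold co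
  rw [norm_mul, norm_real, Real.norm_of_nonneg (Real.exp_pos _).le, mul_pow, ← Real.exp_nat_mul,
    show ((2 : ℕ) : ℝ) * ((y - 1 / 2) * Real.log n) = (2 * y - 1) * Real.log n by push_cast; ring]
  exact mul_le_mul_of_nonneg_right (pow_le_pow_left₀ (norm_nonneg _) h 2) (Real.exp_pos _).le

theorem er_eq (a : ℝ) (r : ℕ → ℂ) (N : ℕ) : er a r N = fun t =>
    sm (fun u => ‖dir (co (cc a r N) 0) (Finset.Icc 1 N) u‖ * ‖dir (co r 0) (Finset.Icc 1 N) u‖) t +
    sm (fun u => ‖dir (co (cc a r N) (-8)) (Finset.Ioc N (N ^ 2)) u‖ *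
      ‖dir (co r 8) (Finset.Icc 1 N) u‖) t := by
  funext t
  unfold er sm
  congr 1
  · refine integral_congr_ae (Eventually.of_forall fun x => ?_)
    simp only [← ds_eq, dp, ofReal_zero, zero_mul, add_zero]
  · refine integral_congr_ae (Eventually.of_forall fun x => ?_)
    have e1 : ((t + x : ℝ) : ℂ) - 8 * I = ((t + x : ℝ) : ℂ) + ((-8 : ℝ) : ℂ) * I := by
      push_cast
      ring
    have e2 : (starRingEnd ℂ) (((t + x : ℝ) : ℂ) - 8 * I) = ((t + x : ℝ) : ℂ) + ((8 : ℝ) : ℂ) * I := by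
      rw [map_sub, map_mul, conj_ofReal, conj_I, map_ofNat]
      push_cast
      ring
    have e3 : ‖Rs r N (((t + x : ℝ) : ℂ) - 8 * I)‖ = ‖dir (co r 8) (Finset.Icc 1 N) (t + x)‖ := by
      rw [← RCLike.norm_conj, conj_Rs, e2, dp, ds_eq]
    simp only
    rw [e3, e1, ds_eq]

/-- The smoothed product of two Dirichlet polynomials. -/
theorem prod_bound (c d : ℕ → ℂ) (S S' : Finset ℕ) {l A R : ℝ} (s : ℝ) (hl : 0 < l) (hR : 0 ≤ R)
    (hA : 0 ≤ A) (h1 : ∀ u, l * ∫ t in (u - R)..(u + R), ‖dir c S t‖ ^ 2 ≤ A)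
    (h2 : ∀ u, l⁻¹ * ∫ t in (u - R)..(u + R), ‖dir d S' t‖ ^ 2 ≤ A) :
    Continuous (sm fun u => ‖dir c S u‖ * ‖dir d S' u‖) ∧
    (∀ t, 0 ≤ sm (fun u => ‖dir c S u‖ * ‖dir d S' u‖) t) ∧
    ∫ t in (s - R)..(s + R), sm (fun u => ‖dir c S u‖ * ‖dir d S' u‖) t ≤ 2 * A := by
  have hc : Continuous fun u => ‖dir c S u‖ * ‖dir d S' u‖ := by fun_prop
  have h0 : ∀ u, 0 ≤ ‖dir c S u‖ * ‖dir d S' u‖ := fun u => by positivity
  have hB : ∀ u, ‖dir c S u‖ * ‖dir d S' u‖ ≤ (∑ n ∈ S, ‖c n‖) * ∑ n ∈ S', ‖d n‖ := fun u =>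
    mul_le_mul (norm_dir_le _ _ _) (norm_dir_le _ _ _) (norm_nonneg _) (by positivity)
  refine ⟨sm_cont hc h0 hB, sm_nonneg h0, sm_int hc h0 hB hA fun u => ?_⟩
  have i1 : IntervalIntegrable (fun t => ‖dir c S t‖ ^ 2) volume (u - R) (u + R) :=
    Continuous.intervalIntegrable (by fun_prop) _ _
  have i2 : IntervalIntegrable (fun t => ‖dir d S' t‖ ^ 2) volume (u - R) (u + R) :=
    Continuous.intervalIntegrable (by fun_prop) _ _
  have h3 : ∫ t in (u - R)..(u + R), ‖dir c S t‖ * ‖dir d S' t‖ ≤ ∫ t in (u - R)..(u + R),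
      (l / 2 * ‖dir c S t‖ ^ 2 + l⁻¹ / 2 * ‖dir d S' t‖ ^ 2) := by
    refine intervalIntegral.integral_mono_on (by linarith) (hc.intervalIntegrable _ _)
      ((i1.const_mul _).add (i2.const_mul _)) fun t _ => ?_
    have h4 := mul_nonneg (inv_pos.2 hl).le (sq_nonneg (l * ‖dir c S t‖ - ‖dir d S' t‖))
    have h5 : l⁻¹ * (l * ‖dir c S t‖ - ‖dir d S' t‖) ^ 2 = l * ‖dir c S t‖ ^ 2 -
        2 * (‖dir c S t‖ * ‖dir d S' t‖) + l⁻¹ * ‖dir d S' t‖ ^ 2 := by
      field_simp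
      ring
    linarith
  rw [intervalIntegral.integral_add (i1.const_mul _) (i2.const_mul _),
    intervalIntegral.integral_const_mul, intervalIntegral.integral_const_mul] at h3
  linarith [h1 u, h2 u]

theorem norm_cc (h : Ar1Stmt) {a : ℝ} (ha : 0 ≤ a) {r : ℕ → ℂ} (hr : ∀ n, ‖r n‖ ≤ 1) (N n : ℕ) :
    ‖cc a r N n‖ ≤ Real.exp (a * Real.log n) := by
  refine le_trans ?_ (h.2.2.2.2.2.1 a n ha)
  unfold cc cv
  rw [LSeries.convolution_def]
  simp only
  rw [Nat.sum_divisorsAntidiagonal (fun k m => rc 0 (I * a) k * cut r N m)]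
  refine norm_sum_le_of_le _ fun k _ => ?_
  rw [norm_mul]
  refine mul_le_of_le_one_right (norm_nonneg _) ?_
  unfold cut
  split_ifs
  · exact hr _
  · simp

theorem exp_mul_log {n : ℕ} (hn : 1 ≤ n) (k : ℕ) : Real.exp (k * Real.log n) = (n : ℝ) ^ k := by
  rw [Real.exp_nat_mul, Real.exp_log (by exact_mod_cast hn)]

theorem sum_zero {c : ℕ → ℂ} {B R : ℝ} {N : ℕ} (hR : 0 ≤ R) (h : ∀ n ≤ N, ‖c n‖ ≤ B) :
    ∑ n ∈ Finset.Icc 1 N, (R + n) * ‖co c 0 n‖ ^ 2 ≤ B ^ 2 * (R * (1 + Real.log N) + N) := by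
  have h1 : ∀ n ∈ Finset.Icc 1 N, (R + n) * ‖co c 0 n‖ ^ 2 ≤ B ^ 2 * (R * (1 / n) + 1) := by
    intro n hn
    rw [Finset.mem_Icc] at hn
    have hp : (0 : ℝ) < n := by exact_mod_cast hn.1
    have h2 := norm_co_sq (h n hn.2) 0
    rw [show (2 * 0 - 1) * Real.log n = -Real.log n by ring, Real.exp_neg, Real.exp_log hp] at h2
    refine (mul_le_mul_of_nonneg_left h2 (by positivity)).trans (le_of_eq ?_)
    field_simp
  refine (Finset.sum_le_sum h1).trans ?_
  rw [← Finset.mul_sum, Finset.sum_add_distrib, ← Finset.mul_sum]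
  have h3 := LS_one_le N
  unfold LS at h3
  simp only [Finset.sum_const, Nat.card_Icc, Nat.add_sub_cancel, nsmul_eq_mul, mul_one]
  gcongr

theorem sum_far {c : ℕ → ℂ} {B R : ℝ} {N : ℕ} (hN : 1 ≤ N) (hR : R ≤ N)
    (h : ∀ n ≤ N ^ 2, ‖c n‖ ≤ B) :
    (N : ℝ) ^ 16 * ∑ n ∈ Finset.Ioc N (N ^ 2), (R + n) * ‖co c (-8) n‖ ^ 2 ≤ B ^ 2 * (2 * N) := by
  have hp : (0 : ℝ) < N := by exact_mod_cast hN
  have h1 : ∀ n ∈ Finset.Ioc N (N ^ 2), (N : ℝ) ^ 16 * ((R + n) * ‖co c (-8) n‖ ^ 2) ≤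
      B ^ 2 * (2 * N ^ 2) * ((n : ℝ) ^ 2)⁻¹ := by
    intro n hn
    rw [Finset.mem_Ioc] at hn
    have hn1 : (N : ℝ) ≤ n := by exact_mod_cast hn.1.le
    have hq : (0 : ℝ) < n := hp.trans_le hn1
    have h2 := norm_co_sq (h n hn.2) (-8)
    rw [show (2 * (-8) - 1) * Real.log n = -(((17 : ℕ) : ℝ) * Real.log n) by push_cast; ring,
      Real.exp_neg, exp_mul_log (by omega)] at h2
    have h3 : (R + n) * ‖co c (-8) n‖ ^ 2 ≤ (2 * n) * (B ^ 2 * ((n : ℝ) ^ 17)⁻¹) :=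
      mul_le_mul (by linarith) h2 (by positivity) (by positivity)
    have h4 : (N : ℝ) ^ 16 ≤ N ^ 2 * (n : ℝ) ^ 14 := by
      rw [show (N : ℝ) ^ 16 = N ^ 2 * N ^ 14 by ring]
      gcongr
    refine (mul_le_mul_of_nonneg_left h3 (by positivity)).trans
      ((mul_le_mul_of_nonneg_right h4 (by positivity)).trans (le_of_eq ?_))
    field_simp
  rw [Finset.mul_sum]
  refine (Finset.sum_le_sum h1).trans ?_
  rw [← Finset.mul_sum]
  have h5 := sum_Ioc_inv_sq_le_sub (α := ℝ) (k := N) (n := N ^ 2) (by omega)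
    (Nat.le_self_pow (by norm_num) N)
  have h6 : ∑ n ∈ Finset.Ioc N (N ^ 2), ((n : ℝ) ^ 2)⁻¹ ≤ (N : ℝ)⁻¹ :=
    h5.trans (sub_le_self _ (by positivity))
  refine (mul_le_mul_of_nonneg_left h6 (by positivity)).trans (le_of_eq ?_)
  field_simp

theorem sum_near {c : ℕ → ℂ} {R : ℝ} {N : ℕ} (hN : 1 ≤ N) (hR : R ≤ N) (h : ∀ n, ‖c n‖ ≤ 1) :
    ((N : ℝ) ^ 16)⁻¹ * ∑ n ∈ Finset.Icc 1 N, (R + n) * ‖co c 8 n‖ ^ 2 ≤ 2 * N := by
  have hp : (0 : ℝ) < N := by exact_mod_cast hN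
  have h1 : ∀ n ∈ Finset.Icc 1 N, (R + n) * ‖co c 8 n‖ ^ 2 ≤ 2 * (N : ℝ) ^ 16 := by
    intro n hn
    rw [Finset.mem_Icc] at hn
    have hn1 : (n : ℝ) ≤ N := by exact_mod_cast hn.2
    have h2 := norm_co_sq (h n) 8
    rw [show (2 * 8 - 1) * Real.log n = ((15 : ℕ) : ℝ) * Real.log n by push_cast; ring,
      exp_mul_log hn.1, one_pow, one_mul] at h2
    have h3 : ‖co c 8 n‖ ^ 2 ≤ (N : ℝ) ^ 15 := h2.trans (by gcongr)
    refine (mul_le_mul (by linarith : R + n ≤ 2 * N) h3 (by positivity) (by positivity)).trans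
      (le_of_eq (by ring))
  have h4 := Finset.sum_le_card_nsmul _ _ _ h1
  rw [nsmul_eq_mul, Nat.card_Icc, Nat.add_sub_cancel] at h4
  refine (mul_le_mul_of_nonneg_left h4 (by positivity)).trans (le_of_eq ?_)
  field_simp

theorem norm_kk {T ξ : ℝ} (hT : 0 < T) (hξ : 0 < ξ) : ‖kk T ξ‖ ≤ 64 / (T * ξ) ^ 2 := by
  unfold kk
  rw [norm_mul, norm_ei, mul_one, norm_real, Real.norm_of_nonneg (by positivity)]
  have h1 : Real.exp (-ξ ^ 2 / 4) ≤ 1 := Real.exp_le_one_iff.2 (by nlinarith [sq_nonneg ξ])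
  refine (mul_le_of_le_one_left (sq_nonneg _) h1).trans ?_
  rw [Real.sinc_of_ne_zero (by positivity), div_pow,
    show 64 / (T * ξ) ^ 2 = 1 / (T * ξ / 8) ^ 2 by field_simp; norm_num]
  exact div_le_div_of_nonneg_right (Real.sin_sq_le_one _) (by positivity)

theorem pair_bound {T H : ℝ} {N n m : ℕ} (hT : 0 < T) (hH : (N : ℝ) ≤ H * T) (hn : N < n)
    (hm1 : 1 ≤ m) (hm : m ≤ N) : ‖kk T (Real.log n - Real.log m)‖ / √(n * m) ≤
      512 * H ^ 2 / N * (((n - m : ℕ) : ℝ) ^ 2)⁻¹ + 256 / T ^ 2 * ((1 / √n) * (1 / √m)) := by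
  have hm0 : (0 : ℝ) < m := by exact_mod_cast hm1
  have hmN : (m : ℝ) ≤ N := by exact_mod_cast hm
  have hNn : (N : ℝ) < n := by exact_mod_cast hn
  have hN0 : (0 : ℝ) < N := by linarith
  have hn0 : (0 : ℝ) < n := by linarith
  have hd : ((n - m : ℕ) : ℝ) = n - m := Nat.cast_sub (by omega)
  have hd0 : (0 : ℝ) < n - m := by linarith
  have hx : 1 - (m : ℝ) / n ≤ Real.log n - Real.log m := by
    have := Real.one_sub_inv_le_log_of_pos (div_pos hn0 hm0)
    rwa [inv_div, Real.log_div hn0.ne' hm0.ne'] at this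
  have hx0 : 0 < 1 - (m : ℝ) / n := sub_pos.2 ((div_lt_one hn0).2 (by linarith))
  have hk := norm_kk hT (hx0.trans_le hx)
  rw [hd]
  rcases le_total (n : ℝ) (2 * m) with h | h
  · refine le_add_of_le_of_nonneg ?_ (by positivity)
    have h1 : ((n : ℝ) - m) / (2 * N) ≤ Real.log n - Real.log m := by
      refine le_trans ?_ hx
      rw [one_sub_div hn0.ne']
      exact div_le_div_of_nonneg_left hd0.le hn0 (by linarith)
    have h2 : ‖kk T (Real.log n - Real.log m)‖ ≤ 256 * H ^ 2 * (((n : ℝ) - m) ^ 2)⁻¹ := by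
      refine hk.trans ?_
      have h3 : 64 / (T * (Real.log n - Real.log m)) ^ 2 ≤ 64 / (T * ((n - m) / (2 * N))) ^ 2 := by
        gcongr
      refine h3.trans ?_
      rw [show 64 / (T * (((n : ℝ) - m) / (2 * N))) ^ 2 = 256 * (N / T) ^ 2 * (((n : ℝ) - m) ^ 2)⁻¹
        by field_simp; norm_num]
      have h4 : (N : ℝ) / T ≤ H := (div_le_iff₀ hT).2 hH
      gcongr
    have h5 : (N : ℝ) / 2 ≤ √(n * m) := Real.le_sqrt_of_sq_le (by nlinarith)
    refine (div_le_div₀ (by positivity) h2 (by positivity) h5).trans (le_of_eq ?_)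
    field_simp
    ring
  · refine le_add_of_nonneg_of_le (by positivity) ?_
    have h1 : 1 / 2 ≤ Real.log n - Real.log m := by
      refine le_trans ?_ hx
      have : (m : ℝ) / n ≤ 1 / 2 := (div_le_iff₀ hn0).2 (by linarith)
      linarith
    have h2 : ‖kk T (Real.log n - Real.log m)‖ ≤ 256 / T ^ 2 := by
      refine hk.trans ?_
      have h3 : 64 / (T * (Real.log n - Real.log m)) ^ 2 ≤ 64 / (T * (1 / 2)) ^ 2 := by gcongr
      refine h3.trans (le_of_eq ?_)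
      field_simp
      norm_num
    rw [Real.sqrt_mul hn0.le]
    refine (div_le_div_of_nonneg_right h2 (by positivity)).trans (le_of_eq ?_)
    field_simp

theorem sum_inv_sqrt (M : ℕ) : ∑ k ∈ Finset.Icc 1 M, 1 / √(k : ℝ) ≤ 2 * √(M : ℝ) := by
  induction M with
  | zero => simp
  | succ M ih =>
    rw [Finset.sum_Icc_succ_top (by omega)]
    have h0 : 0 < √((M + 1 : ℕ) : ℝ) := by positivity
    have h1 : √((M + 1 : ℕ) : ℝ) ^ 2 = M + 1 := by
      rw [Real.sq_sqrt (by positivity)]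
      push_cast
      ring
    have h2 : √(M : ℝ) ^ 2 = M := Real.sq_sqrt (by positivity)
    have h3 : 1 / √((M + 1 : ℕ) : ℝ) ≤ 2 * √((M + 1 : ℕ) : ℝ) - 2 * √(M : ℝ) := by
      rw [div_le_iff₀ h0]
      nlinarith [sq_nonneg (√((M + 1 : ℕ) : ℝ) - √(M : ℝ))]
    linarith

theorem sum_gap {N n : ℕ} (hn : N < n) :
    ∑ m ∈ Finset.Icc 1 N, (((n - m : ℕ) : ℝ) ^ 2)⁻¹ ≤ 2 * (1 / ((n - N : ℕ) : ℝ)) := by
  have h1 := sum_Ioo_inv_sq_le (α := ℝ) (n - N - 1) n
  have h2 : ((n - N - 1 : ℕ) : ℝ) + 1 = (n - N : ℕ) := by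
    exact_mod_cast (by omega : n - N - 1 + 1 = n - N)
  rw [h2] at h1
  rw [← Finset.sum_image (s := Finset.Icc 1 N) (g := fun m => n - m)
    (f := fun i : ℕ => ((i : ℝ) ^ 2)⁻¹) (fun x hx y hy h => by
      simp only [Finset.coe_Icc, Set.mem_Icc] at hx hy h
      omega), mul_one_div]
  refine le_trans (Finset.sum_le_sum_of_subset_of_nonneg (fun i hi => ?_)
    fun i _ _ => by positivity) h1
  obtain ⟨m, hm, rfl⟩ := Finset.mem_image.1 hi
  rw [Finset.mem_Icc] at hm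
  rw [Finset.mem_Ioo]
  omega

theorem sum_shift (N M : ℕ) :
    ∑ n ∈ Finset.Ioc N M, 1 / ((n - N : ℕ) : ℝ) ≤ 1 + Real.log M := by
  have h3 := LS_one_le M
  unfold LS at h3
  rw [← Finset.sum_image (s := Finset.Ioc N M) (g := fun n => n - N)
    (f := fun i : ℕ => 1 / (i : ℝ)) (fun x hx y hy h => by
      simp only [Finset.coe_Ioc, Set.mem_Ioc] at hx hy h
      omega)]
  refine le_trans (Finset.sum_le_sum_of_subset_of_nonneg (fun i hi => ?_)
    fun i _ _ => by positivity) h3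
  obtain ⟨m, hm, rfl⟩ := Finset.mem_image.1 hi
  rw [Finset.mem_Ioc] at hm
  rw [Finset.mem_Icc]
  omega

theorem sum_pairs {T H : ℝ} {N : ℕ} (hT : 0 < T) (hH : (N : ℝ) ≤ H * T) :
    ∑ n ∈ Finset.Ioc N (N ^ 2), ∑ m ∈ Finset.Icc 1 N,
      ‖kk T (Real.log n - Real.log m)‖ / √(n * m) ≤
      1024 * H ^ 2 / N * (1 + 2 * Real.log N) + 1024 / T ^ 2 * (N * √N) := by
  have h1 : ∀ n ∈ Finset.Ioc N (N ^ 2), ∑ m ∈ Finset.Icc 1 N,
      ‖kk T (Real.log n - Real.log m)‖ / √(n * m) ≤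
      1024 * H ^ 2 / N * (1 / ((n - N : ℕ) : ℝ)) + 512 / T ^ 2 * √N * (1 / √n) := by
    intro n hn
    have hn' := (Finset.mem_Ioc.1 hn).1
    refine (Finset.sum_le_sum fun m hm => pair_bound hT hH hn' (Finset.mem_Icc.1 hm).1
      (Finset.mem_Icc.1 hm).2).trans ?_
    rw [Finset.sum_add_distrib, ← Finset.mul_sum, ← Finset.mul_sum, ← Finset.mul_sum]
    refine (add_le_add (mul_le_mul_of_nonneg_left (sum_gap hn') (by positivity))
      (mul_le_mul_of_nonneg_left (mul_le_mul_of_nonneg_left (sum_inv_sqrt N) (by positivity))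
        (by positivity))).trans (le_of_eq (by ring))
  refine (Finset.sum_le_sum h1).trans ?_
  rw [Finset.sum_add_distrib, ← Finset.mul_sum, ← Finset.mul_sum]
  have h2 := sum_shift N (N ^ 2)
  rw [Nat.cast_pow, Real.log_pow] at h2
  have h3 : ∑ n ∈ Finset.Ioc N (N ^ 2), 1 / √(n : ℝ) ≤ 2 * N := by
    have h4 := sum_inv_sqrt (N ^ 2)
    rw [Nat.cast_pow, Real.sqrt_sq (Nat.cast_nonneg N)] at h4
    refine le_trans (Finset.sum_le_sum_of_subset_of_nonneg (fun i hi => ?_)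
      fun i _ _ => by positivity) h4
    rw [Finset.mem_Ioc] at hi
    rw [Finset.mem_Icc]
    omega
  refine (add_le_add (mul_le_mul_of_nonneg_left h2 (by positivity))
    (mul_le_mul_of_nonneg_left h3 (by positivity))).trans (le_of_eq ?_)
  push_cast
  ring

theorem final_num {T H B : ℝ} {N : ℕ} (hT : 1 ≤ T) (hH1 : 1 ≤ H) (hN : T ≤ N)
    (hH : (N : ℝ) ≤ H * T) (hL : Real.log N ≤ 2 * Real.log T) (hB : 0 ≤ B)
    (hs : 10240 * B * H ^ 2 ≤ √T) :
    B * (1024 * H ^ 2 / N * (1 + 2 * Real.log N) + 1024 / T ^ 2 * (N * √N)) ≤ 1 := by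
  have hT0 : 0 < T := by linarith
  have hs1 : 1 ≤ √T := Real.one_le_sqrt.2 hT
  have hq : √T ^ 2 = T := Real.sq_sqrt hT0.le
  have h1 : Real.log T ≤ 2 * √T := by
    have := Real.log_le_sub_one_of_pos (x := √T) (by linarith)
    rw [Real.log_sqrt hT0.le] at this
    linarith
  have h2 : 1024 * H ^ 2 / N * (1 + 2 * Real.log N) ≤ 1024 * H ^ 2 / T * (9 * √T) :=
    mul_le_mul (by gcongr) (by linarith) (by have := Real.log_natCast_nonneg N; linarith)
      (by positivity)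
  have h3 : √(N : ℝ) ≤ H * √T := by
    refine Real.sqrt_le_iff.2 ⟨by positivity, hH.trans ?_⟩
    rw [mul_pow, hq]
    nlinarith [mul_nonneg (mul_nonneg hT0.le (by linarith : 0 ≤ H)) (sub_nonneg.2 hH1)]
  have h4 : 1024 / T ^ 2 * (N * √N) ≤ 1024 / T ^ 2 * (H * T * (H * √T)) := by gcongr
  refine (mul_le_mul_of_nonneg_left (add_le_add h2 h4) hB).trans ?_
  have h5 : B * (1024 * H ^ 2 / T * (9 * √T) + 1024 / T ^ 2 * (H * T * (H * √T))) =
      10240 * B * H ^ 2 * √T / T := by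
    field_simp
    ring
  rw [h5, div_le_one hT0]
  nlinarith

theorem ze (hmv : MvStmt) (har : Ar1Stmt) : ZeStmt := by
  obtain ⟨C, hC, hmv⟩ := hmv
  obtain ⟨B, hBe⟩ : ∃ B, B = Real.exp 16 := ⟨_, rfl⟩
  have hB : 1 ≤ B := hBe ▸ Real.one_le_exp (by norm_num)
  have hB2 : 1 ≤ B ^ 2 := one_le_pow₀ hB
  refine ⟨8 * (C * B ^ 2), by nlinarith, fun H hH => ?_⟩
  filter_upwards [eventually_ge_atTop (4 : ℝ), Real.tendsto_log_atTop.eventually_ge_atTop H,
    Real.tendsto_sqrt_atTop.eventually_ge_atTop (10240 * B * H ^ 2)] with T hT hL hs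
    a N r ha haL hN hNH hr
  have hT0 : 0 < T := by linarith
  have hL1 : 1 ≤ Real.log T := hH.trans hL
  have hN0 : (0 : ℝ) < N := by linarith
  have hN1 : 1 ≤ N := by exact_mod_cast hN0
  have hlog : Real.log N ≤ 2 * Real.log T := by
    have h1 := Real.log_le_log hN0 hNH
    rw [Real.log_mul (by linarith) hT0.ne'] at h1
    have h2 := Real.log_le_sub_one_of_pos (x := H) (by linarith)
    linarith
  have hNL : (N : ℝ) ≤ T * Real.log T := hNH.trans (by nlinarith)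
  have hcc : ∀ n ≤ N ^ 2, ‖cc a r N n‖ ≤ B := fun n hn => by
    refine (norm_cc har ha hr N n).trans ?_
    rw [hBe]
    refine Real.exp_le_exp.2 ?_
    have h1 : Real.log n ≤ 4 * Real.log T := by
      rcases Nat.eq_zero_or_pos n with rfl | h
      · simp
        linarith
      · have h2 := Real.log_le_log (by exact_mod_cast h : (0 : ℝ) < n) (Nat.cast_le.2 hn)
        rw [Nat.cast_pow, Real.log_pow] at h2
        push_cast at h2
        linarith
    have h3 : a * Real.log T ≤ 4 := (le_div_iff₀ (by linarith)).1 haL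
    nlinarith [mul_le_mul_of_nonneg_left h1 ha]
  have hle : ∀ n ≤ N, n ≤ N ^ 2 := fun n hn => hn.trans (Nat.le_self_pow (by norm_num) N)
  have hA : 0 ≤ 2 * (C * B ^ 2) * (T * Real.log T) := by positivity
  have hmv' : ∀ (c : ℕ → ℂ) (S : Finset ℕ) (l : ℝ), 0 ∉ S → 0 ≤ l →
      l * ∑ n ∈ S, (T / 4 + n) * ‖c n‖ ^ 2 ≤ B ^ 2 * (2 * (T * Real.log T)) →
      ∀ u, l * ∫ t in (u - T / 4)..(u + T / 4), ‖dir c S t‖ ^ 2 ≤
        2 * (C * B ^ 2) * (T * Real.log T) := fun c S l hS hl h u => by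
    refine (mul_le_mul_of_nonneg_left (hmv c S u (T / 4) hS (by linarith)).1 hl).trans ?_
    rw [mul_left_comm]
    exact (mul_le_mul_of_nonneg_left h (by linarith)).trans (le_of_eq (by ring))
  have hz : T / 4 * (1 + Real.log N) + N ≤ 2 * (T * Real.log T) := by nlinarith
  have p1 := prod_bound (co (cc a r N) 0) (co r 0) (Finset.Icc 1 N) (Finset.Icc 1 N) (l := 1)
    (R := T / 4) (3 * T / 2) one_pos (by positivity) hA
    (hmv' _ _ _ (by simp) zero_le_one (by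
      rw [one_mul]
      exact (sum_zero (by positivity) fun n hn => hcc n (hle n hn)).trans (by gcongr)))
    (hmv' _ _ _ (by simp) (by simp) (by
      rw [inv_one, one_mul]
      exact (sum_zero (by positivity) fun n _ => (hr n).trans hB).trans (by gcongr)))
  have p2 := prod_bound (co (cc a r N) (-8)) (co r 8) (Finset.Ioc N (N ^ 2)) (Finset.Icc 1 N)
    (l := (N : ℝ) ^ 16) (R := T / 4) (3 * T / 2) (by positivity) (by positivity) hA
    (hmv' _ _ _ (by simp) (by positivity) ((sum_far hN1 (by linarith) hcc).trans (by gcongr)))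
    (hmv' _ _ _ (by simp) (by positivity) ((sum_near hN1 (by linarith) hr).trans (by nlinarith)))
  rw [er_eq]
  refine ⟨p1.1.add p2.1, fun t => add_nonneg (p1.2.1 t) (p2.2.1 t), ?_, ?_⟩
  · rw [intervalIntegral.integral_add (p1.1.intervalIntegrable _ _) (p2.1.intervalIntegrable _ _)]
    exact (add_le_add p1.2.2 p2.2.2).trans (le_of_eq (by ring))
  · refine le_trans ?_ (final_num (by linarith) hH hN hNH hlog (by linarith) hs)
    refine le_trans ?_ (mul_le_mul_of_nonneg_left (sum_pairs hT0 hNH) (by linarith))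
    rw [Finset.mul_sum]
    refine Finset.sum_le_sum fun n hn => ?_
    rw [Finset.mul_sum]
    refine Finset.sum_le_sum fun m _ => ?_
    rw [mul_div_assoc]
    exact mul_le_mul_of_nonneg_right (hcc n (Finset.mem_Ioc.1 hn).2) (by positivity)

end Pool.Agent.MP_ca0a54_nt.BH.ZE
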