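import Pool.Agent.MP_ca0a54_nt.BH.Basic

/-! The average of the local inequality over the centre. -/

open Complex MeasureTheory Filter Topology

namespace Pool.Agent.MP_ca0a54_nt.BH.ZM

open Pool.Agent.MP_ca0a54_nt.H24 Pool.Agent.MP_ca0a54_nt.H10

theorem li_one (ξ t : ℝ) : li (fun z => exp (-(I * z) * ξ)) t 0 =
    ((√Real.pi * Real.exp (-ξ ^ 2 / 4) : ℝ) : ℂ) * ei (-(ξ * t)) := by
  have h := fourierIntegral_gaussian (b := 1) (by simp) (-(ξ : ℂ))
  unfold li
  rw [← integral_add_left_eq_self _ t]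
  have e : ∀ x : ℝ, exp (-(I * ((t + x : ℝ) + (0 : ℝ) * I)) * ξ) *
      ga t ((t + x : ℝ) + (0 : ℝ) * I) =
      ei (-(ξ * t)) * (exp (I * (-(ξ : ℂ)) * x) * exp (-1 * x ^ 2)) := fun x => by
    unfold ga ei
    rw [← exp_add, ← exp_add, ← exp_add]
    congr 1
    push_cast
    ring
  simp only [e]
  rw [integral_const_mul, h, mul_comm, Real.sqrt_eq_rpow, ofReal_mul, ofReal_exp,
    ofReal_cpow Real.pi_pos.le]
  push_cast
  congr 3
  · rw [div_one]
  · ring

theorem np_np (z : ℂ) {n m : ℕ} (hn : 1 ≤ n) (hm : 1 ≤ m) :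
    np (1 / 2 + I * z) n * np (1 / 2 + -I * z) m =
      exp (-(I * z) * (Real.log n - Real.log m : ℝ)) / (√(n * m) : ℝ) := by
  have h1 : (0 : ℝ) < n := by exact_mod_cast hn
  have h2 : (0 : ℝ) < m := by exact_mod_cast hm
  rw [Real.sqrt_eq_rpow, Real.rpow_def_of_pos (by positivity), Real.log_mul h1.ne' h2.ne',
    ofReal_exp, ← exp_sub]
  unfold np
  rw [← exp_add]
  congr 1
  generalize Real.log n = x
  generalize Real.log m = y
  push_cast
  ring

theorem li_ds (c r : ℕ → ℂ) (S : Finset ℕ) (hS : ∀ n ∈ S, 1 ≤ n) (N : ℕ) (t : ℝ) :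
    li (fun z => ds c S z * Rs r N z) t 0 = ∑ n ∈ S, ∑ m ∈ Finset.Icc 1 N,
      c n * (starRingEnd ℂ) (r m) / (√(n * m) : ℝ) *
        (((√Real.pi * Real.exp (-(Real.log n - Real.log m) ^ 2 / 4) : ℝ) : ℂ) *
          ei (-((Real.log n - Real.log m) * t))) := by
  have hb : ∀ n m : ℕ, Bd (fun z => c n * np (1 / 2 + I * z) n *
      ((starRingEnd ℂ) (r m) * np (1 / 2 + -I * z) m)) 0 0 := fun n m =>
    ((Bd.const (c n) 0 0).mul (bd_np (1 / 2) I I_re n 0 0)).mul
      ((Bd.const _ 0 0).mul (bd_np (1 / 2) (-I) (by simp) m 0 0))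
  unfold ds Rs
  simp only [Finset.sum_mul_sum]
  rw [li_sum S fun n _ => Bd.sum _ fun m _ => hb n m]
  refine Finset.sum_congr rfl fun n hn => ?_
  rw [li_sum _ fun m _ => hb n m]
  refine Finset.sum_congr rfl fun m hm => ?_
  rw [← li_one, ← li_smul]
  congr 1
  funext z
  rw [mul_mul_mul_comm, np_np z (hS n hn) (Finset.mem_Icc.1 hm).1]
  ring

theorem tri (hf : FejStmt) {θ : ℝ} (hθ : 0 < θ) (s ξ : ℝ) :
    ∫ t in (s - θ)..(s + θ), ((max (θ - |t - s|) 0 : ℝ) : ℂ) * ei (-(ξ * t)) =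
      (((θ * Real.sinc (θ * ξ / 2)) ^ 2 : ℝ) : ℂ) * ei (-(ξ * s)) := by
  rw [intervalIntegral.integral_eq_integral_of_support_subset, ← (hf θ hθ).1 ξ,
    ← integral_add_right_eq_self _ s, ← integral_mul_const]
  · congr 1
    funext t
    rw [add_sub_cancel_right, mul_assoc, ← ei_add]
    congr 2
    ring
  · intro t ht
    by_contra hh
    refine ht ?_
    have : θ - |t - s| ≤ 0 := by
      rw [Set.mem_Ioc, not_and_or, not_lt, not_le] at hh
      rcases hh with h | h
      · linarith [neg_le_abs (t - s)]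
      · linarith [le_abs_self (t - s)]
    simp [max_eq_right this]

theorem avg (hf : FejStmt) {T : ℝ} (hT : 0 < T) (c r : ℕ → ℂ) (S : Finset ℕ)
    (hS : ∀ n ∈ S, 1 ≤ n) (N : ℕ) :
    (Continuous fun t => li (fun z => ds c S z * Rs r N z) t 0) ∧
    ∫ t in (3 * T / 2 - T / 4)..(3 * T / 2 + T / 4), ((max (T / 4 - |t - 3 * T / 2|) 0 : ℝ) : ℂ) *
      li (fun z => ds c S z * Rs r N z) t 0 = ((√Real.pi * (T / 4) ^ 2 : ℝ) : ℂ) *
      ∑ n ∈ S, ∑ m ∈ Finset.Icc 1 N, c n * (starRingEnd ℂ) (r m) *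
        kk T (Real.log n - Real.log m) / (√(n * m) : ℝ) := by
  simp only [li_ds c r S hS N]
  refine ⟨by fun_prop, ?_⟩
  simp only [Finset.mul_sum]
  rw [intervalIntegral.integral_finsetSum fun n _ => Continuous.intervalIntegrable
    (by fun_prop) _ _]
  refine Finset.sum_congr rfl fun n _ => ?_
  rw [intervalIntegral.integral_finsetSum fun n _ => Continuous.intervalIntegrable
    (by fun_prop) _ _]
  refine Finset.sum_congr rfl fun m _ => ?_
  generalize Real.log n - Real.log m = ξ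
  have e : ∀ (A B u v : ℂ), u * (A * (B * v)) = A * B * (u * v) := fun _ _ _ _ => by ring
  simp only [e]
  rw [intervalIntegral.integral_const_mul, tri hf (by positivity : 0 < T / 4)]
  unfold kk
  rw [show T / 4 * ξ / 2 = T * ξ / 8 by ring, mul_comm ξ]
  push_cast
  ring

theorem z1 (hs : ShiftStmt) (hf : FejStmt) (hq : ZqStmt) (he : ZeStmt) : Z1Stmt := by
  obtain ⟨C, hC, hq⟩ := hq
  obtain ⟨D, hD, he⟩ := he
  refine ⟨4 * C * D + 3, fun H hH => ?_⟩
  filter_upwards [hq, he H hH, eventually_ge_atTop H, eventually_gt_atTop (1 : ℝ)]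
    with T hq he hTH hT a δ U N r a1 a4 aδ hU n1 n2 hr
  have hL : 0 < Real.log T := Real.log_pos hT
  have hT0 : 0 < T := by linarith
  have a0 : 0 ≤ a := le_trans (by positivity) a1
  obtain ⟨e1, e2, e3, e4⟩ := he a N r a0 a4 n1 n2 hr
  set σ := ei (-(a * Real.log T / 2)) with hσ
  have hσ1 : ‖σ‖ = 1 := norm_ei _
  obtain ⟨c1, i1⟩ := avg hf hT0 (cc a r N) r (Finset.Icc 1 N)
    (fun n hn => (Finset.mem_Icc.1 hn).1) N
  obtain ⟨c2, i2⟩ := avg hf hT0 (cc a r N) r (Finset.Ioc N (N ^ 2))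
    (fun n hn => Nat.succ_le_of_lt ((Nat.zero_le N).trans_lt (Finset.mem_Ioc.1 hn).1)) N
  set R := ∑ n ∈ Finset.Ioc N (N ^ 2), ∑ m ∈ Finset.Icc 1 N, cc a r N n * (starRingEnd ℂ) (r m) *
    kk T (Real.log n - Real.log m) / (√(n * m) : ℝ) with hR
  have hR1 : ‖R‖ ≤ 1 := by
    refine le_trans (norm_sum_le_of_le _ fun n _ => norm_sum_le_of_le _ fun m _ => ?_) e4
    rw [norm_div, norm_mul, norm_mul, norm_real, Real.norm_of_nonneg (Real.sqrt_nonneg _),
      RCLike.norm_conj]
    gcongr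
    exact mul_le_of_le_one_right (norm_nonneg _) (hr m)
  set G₁ := fun t => li (fun z => ds (cc a r N) (Finset.Icc 1 N) z * Rs r N z) t 0 with hG₁
  set G₂ := fun t => li (fun z => ds (cc a r N) (Finset.Ioc N (N ^ 2)) z * Rs r N z) t 0 with hG₂
  set w := fun t : ℝ => max (T / 4 - |t - 3 * T / 2|) 0 with hw
  have cw : Continuous w := by fun_prop
  have i3 : ∫ t in (3 * T / 2 - T / 4)..(3 * T / 2 + T / 4), σ * (w t * G₁ t + w t * G₂ t) =
      ((√Real.pi * (T / 4) ^ 2 : ℝ) : ℂ) * (σ * (form T a N r + R)) := by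
    rw [intervalIntegral.integral_const_mul, intervalIntegral.integral_add
      (Continuous.intervalIntegrable (by fun_prop) _ _)
      (Continuous.intervalIntegrable (by fun_prop) _ _), i1, i2]
    unfold form
    ring
  have i4 : ∫ t in (3 * T / 2 - T / 4)..(3 * T / 2 + T / 4), (σ * (w t * G₁ t + w t * G₂ t)).im =
      √Real.pi * (T / 4) ^ 2 * (σ * (form T a N r + R)).im := by
    rw [← im_ofReal_mul, ← i3]
    exact imCLM.intervalIntegral_comp_comm (f := fun t => σ * (w t * G₁ t + w t * G₂ t))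
      (Continuous.intervalIntegrable (by fun_prop) _ _)
  have i5 : ∫ t in (3 * T / 2 - T / 4)..(3 * T / 2 + T / 4), (σ * (w t * G₁ t + w t * G₂ t)).im ≤
      ∫ t in (3 * T / 2 - T / 4)..(3 * T / 2 + T / 4),
        T / 4 * (C / Real.log T * er a r N t + 1) := by
    refine intervalIntegral.integral_mono_on (by linarith)
      (Continuous.intervalIntegrable (by fun_prop) _ _)
      (Continuous.intervalIntegrable (by fun_prop) _ _) fun t ht => ?_
    have h1 := hq a δ t U N r a1 a4 aδ hU n1 (n2.trans (by nlinarith)) hr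
      (abs_le.2 ⟨by linarith [ht.1], by linarith [ht.2]⟩)
    have hb : Bd (fun z => ds (cc a r N) (Finset.Ioc N (N ^ 2)) z * Rs r N z) (-8) 0 :=
      (Bd.sum _ (F := fun n z => cc a r N n * np (1 / 2 + I * z) n) fun n _ =>
        (Bd.const _ _ _).mul (bd_np (1 / 2) I I_re n _ _)).mul (bd_Rs r N _ _)
    rw [li_shift hs (by norm_num) hb] at h1
    have h2 : σ * (w t * G₁ t + w t * G₂ t) = w t * (σ * (G₁ t + G₂ t)) := by ring
    have w0 : 0 ≤ w t := le_max_right _ _
    have w1 : w t ≤ T / 4 := max_le (by linarith [abs_nonneg (t - 3 * T / 2)]) (by positivity)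
    have := e2 t
    rw [h2, im_ofReal_mul]
    exact (mul_le_mul_of_nonneg_left h1 w0).trans
      (mul_le_mul_of_nonneg_right w1 (by positivity))
  rw [i4, intervalIntegral.integral_const_mul, intervalIntegral.integral_add
    (Continuous.intervalIntegrable (by fun_prop) _ _) (Continuous.intervalIntegrable
    (by fun_prop) _ _), intervalIntegral.integral_const_mul, intervalIntegral.integral_const,
    smul_eq_mul] at i5
  have i6 : C / Real.log T * ∫ t in (3 * T / 2 - T / 4)..(3 * T / 2 + T / 4), er a r N t ≤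
      C * D * T := by
    refine (mul_le_mul_of_nonneg_left e3 (by positivity)).trans (le_of_eq ?_)
    field_simp
  have i7 : √Real.pi * (σ * (form T a N r + R)).im ≤ 4 * C * D + 2 := by
    refine le_of_mul_le_mul_left ?_ (by positivity : 0 < (T / 4) ^ 2)
    nlinarith
  have hπ : 1 ≤ √Real.pi := Real.one_le_sqrt.2 (by linarith [Real.pi_gt_three])
  have i8 : (σ * (form T a N r + R)).im ≤ 4 * C * D + 2 := by
    by_contra hh
    push Not at hh
    have : 0 ≤ 4 * C * D + 2 := by positivity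
    nlinarith
  have i9 : |(σ * R).im| ≤ 1 := (abs_im_le_norm _).trans (by rw [norm_mul, hσ1, one_mul]; exact hR1)
  rw [mul_add, add_im] at i8
  linarith [(abs_le.1 i9).1]

end Pool.Agent.MP_ca0a54_nt.BH.ZM
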