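import Pool.Agent.MP_ca0a54_nt.BH.Basic

/-! The bilinear form is the diagonal plus finitely many off-diagonals, up to a bounded error. -/

open Complex Filter Topology Finset

namespace Pool.Agent.MP_ca0a54_nt.BH.ZO1

open Pool.Agent.MP_ca0a54_nt.H24

theorem split1 (f : ℕ → ℕ → ℂ) (N : ℕ) :
    ∑ n ∈ Icc 1 N, ∑ m ∈ Icc 1 N, f n m =
      ∑ n ∈ Icc 1 N, f n n + ∑ n ∈ Icc 1 N, ∑ m ∈ Icc 1 (n - 1), (f n m + f m n) := by
  induction N with
  | zero => simp
  | succ N ih =>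
    simp only [sum_Icc_succ_top (Nat.le_add_left 1 N), sum_add_distrib, Nat.add_sub_cancel] at ih ⊢
    rw [ih]
    ring

theorem split2 (g : ℕ → ℕ → ℂ) (N : ℕ) :
    ∑ n ∈ Icc 1 N, ∑ m ∈ Icc 1 (n - 1), g n m =
      ∑ h ∈ Icc 1 N, ∑ m ∈ Icc 1 (N - h), g (m + h) m := by
  rw [sum_sigma', sum_sigma']
  refine sum_nbij' (fun x => ⟨x.1 - x.2, x.2⟩) (fun x => ⟨x.2 + x.1, x.2⟩) ?_ ?_ ?_ ?_ ?_
  · rintro ⟨n, m⟩ h
    simp only [mem_sigma, mem_Icc] at h ⊢
    omega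
  · rintro ⟨n, m⟩ h
    simp only [mem_sigma, mem_Icc] at h ⊢
    omega
  · rintro ⟨n, m⟩ h
    simp only [mem_sigma, mem_Icc] at h
    simp only [Sigma.mk.injEq, heq_eq_eq, and_true]
    omega
  · rintro ⟨n, m⟩ _
    simp
  · rintro ⟨n, m⟩ h
    simp only [mem_sigma, mem_Icc] at h
    have : m + (n - m) = n := by omega
    simp only [this]

theorem abs_sinc_le {x y : ℝ} (hy : 0 < y) (h : y ≤ |x|) : |Real.sinc x| ≤ 1 / y := by
  have hx : x ≠ 0 := fun h0 => by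
    rw [h0, abs_zero] at h
    linarith
  rw [Real.sinc_of_ne_zero hx, abs_div]
  exact div_le_div₀ zero_le_one (Real.abs_sin_le_one x) hy h

theorem norm_kk (T ξ : ℝ) : ‖kk T ξ‖ ≤ |Real.sinc (T * ξ / 8)| ^ 2 := by
  rw [kk, norm_mul, norm_ei, mul_one, norm_real, Real.norm_of_nonneg (by positivity), sq_abs]
  refine mul_le_of_le_one_left (sq_nonneg _) (Real.exp_le_one_iff.2 ?_)
  linarith [sq_nonneg ξ]

theorem kk_zero (T : ℝ) : kk T 0 = 1 := by simp [kk, ei_zero]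

theorem W_le {T m h ξ s : ℝ} (hT : 0 < T) (hm : 1 ≤ m) (hh : 1 ≤ h) (hξ : h / (m + h) ≤ |ξ|)
    (hs : m ≤ s) : ‖kk T ξ / (s : ℂ)‖ ≤ 16 / T ∧
      ‖kk T ξ / (s : ℂ)‖ ≤ 128 / T ^ 2 * (m * (h ^ 2)⁻¹ + 1 / m) := by
  have h1 : |Real.sinc (T * ξ / 8)| ≤ 1 / (T * (h / (m + h)) / 8) := by
    refine abs_sinc_le (by positivity) ?_
    rw [abs_div, abs_mul, abs_of_pos hT, abs_of_pos (show (0 : ℝ) < 8 by norm_num)]
    gcongr
  have h2 : 1 / (T * (h / (m + h)) / 8) = 8 * (m + h) / (T * h) := by field_simp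
  rw [h2] at h1
  have h3 : ‖kk T ξ / (s : ℂ)‖ ≤ |Real.sinc (T * ξ / 8)| ^ 2 / m := by
    rw [norm_div, norm_real, Real.norm_of_nonneg (by linarith)]
    exact div_le_div₀ (sq_nonneg _) (norm_kk T ξ) (by linarith) hs
  have h0 := abs_nonneg (Real.sinc (T * ξ / 8))
  constructor
  · have h4 : |Real.sinc (T * ξ / 8)| ^ 2 ≤ 8 * (m + h) / (T * h) :=
      le_trans (by nlinarith [Real.abs_sinc_le_one (T * ξ / 8)]) h1
    refine h3.trans ((div_le_div_of_nonneg_right h4 (by linarith)).trans ?_)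
    rw [div_div, div_le_div_iff₀ (by positivity) hT]
    have : m + h ≤ 2 * (h * m) := by nlinarith
    nlinarith
  · refine h3.trans ((div_le_div_of_nonneg_right (pow_le_pow_left₀ h0 h1 2)
      (by linarith)).trans ?_)
    have e : 128 / T ^ 2 * (m * (h ^ 2)⁻¹ + 1 / m) =
        64 * (2 * (m ^ 2 + h ^ 2)) / (T * h) ^ 2 / m := by
      field_simp
      ring
    rw [e, div_pow, mul_pow]
    gcongr
    · norm_num
    · nlinarith [sq_nonneg (m - h)]

theorem xi_ge {m h : ℝ} (hm : 1 ≤ m) (hh : 1 ≤ h) :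
    h / (m + h) ≤ Real.log (m + h) - Real.log m := by
  have h1 := Real.log_le_sub_one_of_pos (x := m / (m + h)) (by positivity)
  rw [Real.log_div (by positivity) (by positivity)] at h1
  have h2 : m / (m + h) - 1 = -(h / (m + h)) := by
    field_simp
    ring
  linarith

/-- The kernel with the weight. -/
noncomputable def W (T : ℝ) (n m : ℕ) : ℂ := kk T (Real.log n - Real.log m) / (√(n * m) : ℝ)

theorem W_bd {T : ℝ} (hT : 0 < T) {m h : ℕ} (hm : 1 ≤ m) (hh : 1 ≤ h) :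
    (‖W T (m + h) m‖ ≤ 16 / T ∧
      ‖W T (m + h) m‖ ≤ 128 / T ^ 2 * (m * ((h : ℝ) ^ 2)⁻¹ + 1 / m)) ∧
    (‖W T m (m + h)‖ ≤ 16 / T ∧
      ‖W T m (m + h)‖ ≤ 128 / T ^ 2 * (m * ((h : ℝ) ^ 2)⁻¹ + 1 / m)) := by
  have hm' : (1 : ℝ) ≤ m := by exact_mod_cast hm
  have hh' : (1 : ℝ) ≤ h := by exact_mod_cast hh
  have h1 := xi_ge hm' hh'
  unfold W
  rw [Nat.cast_add]
  refine ⟨W_le hT hm' hh' (h1.trans (le_abs_self _)) (Real.le_sqrt_of_sq_le (by nlinarith)),
    W_le hT hm' hh' (h1.trans ?_) (Real.le_sqrt_of_sq_le (by nlinarith))⟩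
  rw [abs_sub_comm]
  exact le_abs_self _

theorem main_eq (T a : ℝ) {m : ℕ} (h : ℕ) (hm : 1 ≤ m) :
    gg T a h (Real.log m) * (lam m * lam (m + h) : ℝ) / m =
      lc (m + h) * ei (-(a * Real.log (m + h : ℕ))) * lc m * W T (m + h) m +
        lc m * ei (-(a * Real.log m)) * lc (m + h) * W T m (m + h) := by
  have hm' : (0 : ℝ) < m := by exact_mod_cast hm
  have hn : (0 : ℝ) < (m + h : ℕ) := by exact_mod_cast (by omega : 0 < m + h)
  have e1 : Real.log (1 + h * Real.exp (-Real.log m)) = Real.log (m + h : ℕ) - Real.log m := by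
    rw [← Real.log_div hn.ne' hm'.ne', Real.exp_neg, Real.exp_log hm']
    congr 1
    push_cast
    field_simp
  have e2 : Real.exp (-(Real.log (m + h : ℕ) - Real.log m) / 2) =
      m / √(((m + h : ℕ) : ℝ) * m) := by
    rw [Real.sqrt_eq_rpow, Real.rpow_def_of_pos (by positivity), Real.log_mul hn.ne' hm'.ne',
      eq_div_iff (Real.exp_pos _).ne', ← Real.exp_add]
    conv_rhs => rw [← Real.exp_log hm']
    congr 1
    ring
  have e3 : ei (-(a * Real.log (m + h : ℕ))) =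
      ei (-(a * Real.log m)) * ei (-(a * (Real.log (m + h : ℕ) - Real.log m))) := by
    rw [← ei_add]
    congr 1
    ring
  have h0 : (m : ℂ) ≠ 0 := by exact_mod_cast hm'.ne'
  rw [gg, e1, e2, e3, W, W, neg_sub, mul_comm (m : ℝ) ((m + h : ℕ) : ℝ), lc, lc, ofReal_div,
    ofReal_mul, ofReal_natCast]
  field_simp

theorem norm_lc (n : ℕ) : ‖lc n‖ ≤ 1 := by
  rw [lc, norm_real]
  exact abs_lam_le n

theorem norm_cc (h1 : Ar1Stmt) {a : ℝ} (ha : 0 ≤ a) (N n : ℕ) :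
    ‖cc a lc N n‖ ≤ Real.exp (a * Real.log n) := by
  refine le_trans ?_ (h1.2.2.2.2.2.1 a n ha)
  rw [cc, cv, LSeries.convolution_def]
  simp only
  rw [Nat.sum_divisorsAntidiagonal fun k l => rc 0 (I * a) k * cut lc N l]
  refine norm_sum_le_of_le _ fun k _ => ?_
  rw [norm_mul]
  refine mul_le_of_le_one_right (norm_nonneg _) ?_
  unfold cut
  split_ifs
  · exact norm_lc _
  · simp

theorem form_eq (T a : ℝ) {K N : ℕ} (hK : K ≤ N) :
    form T a N lc - diag a N - ∑ h ∈ Icc 1 K,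
      LC (N - h) (fun m => gg T a h (Real.log m) * (lam m * lam (m + h) : ℝ)) =
    ∑ h ∈ Icc 1 K, ∑ m ∈ Icc 1 (N - h),
      ((cc a lc N (m + h) - lc (m + h) * ei (-(a * Real.log (m + h : ℕ)))) * lc m * W T (m + h) m +
        (cc a lc N m - lc m * ei (-(a * Real.log m))) * lc (m + h) * W T m (m + h)) +
    ∑ h ∈ Ioc K N, ∑ m ∈ Icc 1 (N - h),
      (cc a lc N (m + h) * lc m * W T (m + h) m + cc a lc N m * lc (m + h) * W T m (m + h)) := by
  have h1 : form T a N lc = ∑ n ∈ Icc 1 N, ∑ m ∈ Icc 1 N, cc a lc N n * lc m * W T n m := by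
    refine sum_congr rfl fun n _ => sum_congr rfl fun m _ => ?_
    rw [W, lc, conj_ofReal, mul_div_assoc]
  have h2 : diag a N = ∑ n ∈ Icc 1 N, cc a lc N n * lc n * W T n n := by
    unfold diag LC
    refine sum_congr rfl fun n _ => ?_
    rw [W, sub_self, kk_zero, Real.sqrt_mul_self (Nat.cast_nonneg n), ofReal_natCast]
    ring
  have e : ∀ M : ℕ, Icc 1 M = Ioc 0 M := fun M => rfl
  rw [h1, h2, split1, split2 fun n m => cc a lc N n * lc m * W T n m + cc a lc N m * lc n * W T m n,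
    add_sub_cancel_left, e N, ← sum_Ioc_consecutive _ (Nat.zero_le K) hK, ← e K,
    add_sub_right_comm, ← sum_sub_distrib]
  congr 1
  refine sum_congr rfl fun h _ => ?_
  rw [LC, ← sum_sub_distrib]
  refine sum_congr rfl fun m hm => ?_
  rw [main_eq T a h (mem_Icc.1 hm).1]
  ring

theorem norm_mul3 {x y z : ℂ} {A B : ℝ} (hx : ‖x‖ ≤ A) (hy : ‖y‖ ≤ 1) (hz : ‖z‖ ≤ B) :
    ‖x * y * z‖ ≤ A * B := by
  rw [norm_mul, norm_mul]
  exact mul_le_mul ((mul_le_of_le_one_right (norm_nonneg _) hy).trans hx) hz (norm_nonneg _)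
    ((norm_nonneg _).trans hx)

theorem near {T a C : ℝ} {e : ℕ → ℝ} {d : ℕ → ℂ} {N : ℕ} (K : ℕ) (hT : 0 < T) (ha : 0 ≤ a)
    (he : ∀ n, 0 ≤ e n) (hC : ∑ n ∈ Icc 1 N, e n ≤ C * N)
    (hd : ∀ n, 1 ≤ n → n ≤ N → ‖d n‖ ≤ a * e n) :
    ‖∑ h ∈ Icc 1 K, ∑ m ∈ Icc 1 (N - h),
      (d (m + h) * lc m * W T (m + h) m + d m * lc (m + h) * W T m (m + h))‖ ≤
      K * (a * (16 / T) * (2 * (C * N))) := by
  refine (norm_sum_le _ _).trans ((sum_le_card_nsmul _ _ (a * (16 / T) * (2 * (C * N)))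
    fun h hh => ?_).trans_eq (by simp))
  have hh1 := (mem_Icc.1 hh).1
  have h1 : ∑ m ∈ Icc 1 (N - h), e m ≤ C * N :=
    (sum_le_sum_of_subset_of_nonneg (Icc_subset_Icc_right (Nat.sub_le _ _))
      fun _ _ _ => he _).trans hC
  have h2 : ∑ m ∈ Icc 1 (N - h), e (m + h) ≤ C * N := by
    rw [← sum_image (s := Icc 1 (N - h)) (g := fun m => m + h) (f := e)
      fun x _ y _ hxy => by simpa using hxy]
    refine (sum_le_sum_of_subset_of_nonneg (fun n hn => ?_) fun _ _ _ => he _).trans hC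
    obtain ⟨m, hm, rfl⟩ := mem_image.1 hn
    rw [mem_Icc] at hm ⊢
    omega
  refine (norm_sum_le_of_le _ (n := fun m => a * (16 / T) * (e (m + h) + e m))
    fun m hm => ?_).trans ?_
  · rw [mem_Icc] at hm
    obtain ⟨⟨w1, -⟩, w2, -⟩ := W_bd hT hm.1 hh1
    refine (norm_add_le_of_le (norm_mul3 (hd _ (by omega) (by omega)) (norm_lc _) w1)
      (norm_mul3 (hd _ hm.1 (by omega)) (norm_lc _) w2)).trans_eq ?_
    ring
  · rw [← mul_sum, sum_add_distrib]
    exact mul_le_mul_of_nonneg_left (by linarith) (by positivity)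

theorem far {T A : ℝ} {c : ℕ → ℂ} {K N : ℕ} (hT : 0 < T) (hK : 1 ≤ K) (hN : K ≤ N) (hA : 0 ≤ A)
    (hc : ∀ n, 1 ≤ n → n ≤ N → ‖c n‖ ≤ A) :
    ‖∑ h ∈ Ioc K N, ∑ m ∈ Icc 1 (N - h),
      (c (m + h) * lc m * W T (m + h) m + c m * lc (m + h) * W T m (m + h))‖ ≤
      256 * A / T ^ 2 * (N ^ 2 * (K : ℝ)⁻¹ + N * (1 + Real.log N)) := by
  have h0 : 0 ≤ 1 + Real.log N := by linarith [Real.log_natCast_nonneg N]
  refine (norm_sum_le_of_le _ (n := fun h : ℕ =>
    256 * A / T ^ 2 * (N ^ 2 * ((h : ℝ) ^ 2)⁻¹ + (1 + Real.log N))) fun h hh => ?_).trans ?_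
  · have hh1 : 1 ≤ h := hK.trans (mem_Ioc.1 hh).1.le
    refine (norm_sum_le_of_le _ (n := fun m : ℕ =>
      256 * A / T ^ 2 * (N * ((h : ℝ) ^ 2)⁻¹ + 1 / m)) fun m hm => ?_).trans ?_
    · rw [mem_Icc] at hm
      obtain ⟨⟨-, w1⟩, -, w2⟩ := W_bd hT hm.1 hh1
      refine (norm_add_le_of_le (norm_mul3 (hc _ (by omega) (by omega)) (norm_lc _) w1)
        (norm_mul3 (hc _ hm.1 (by omega)) (norm_lc _) w2)).trans ?_
      have h1 : (m : ℝ) ≤ N := by exact_mod_cast (by omega : m ≤ N)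
      calc _ = 256 * A / T ^ 2 * (m * ((h : ℝ) ^ 2)⁻¹ + 1 / m) := by ring
        _ ≤ _ := by gcongr
    · refine (sum_le_sum_of_subset_of_nonneg (Icc_subset_Icc_right (Nat.sub_le N h))
        fun _ _ _ => by positivity).trans ?_
      rw [← mul_sum, sum_add_distrib, sum_const, Nat.card_Icc, Nat.add_sub_cancel, nsmul_eq_mul]
      refine mul_le_mul_of_nonneg_left (add_le_add (le_of_eq (by ring)) (LS_one_le N))
        (by positivity)
  · rw [← mul_sum, sum_add_distrib, ← mul_sum, sum_const, Nat.card_Ioc, nsmul_eq_mul]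
    have h1 := sum_Ioc_inv_sq_le_sub (α := ℝ) (by omega : K ≠ 0) hN
    have h2 : ((N - K : ℕ) : ℝ) ≤ N := by exact_mod_cast Nat.sub_le N K
    have h3 : (0 : ℝ) ≤ (N : ℝ)⁻¹ := by positivity
    gcongr
    linarith

theorem zo1 : ZaStmt → Ar1Stmt → Zo1Stmt := by
  rintro ⟨C, e, hC, he, hsum, -, hd⟩ har H hH
  have hE := Real.exp_pos 8
  filter_upwards [eventually_ge_atTop 1,
    tendsto_natCast_atTop_atTop.eventually_ge_atTop (1024 * Real.exp 8 * H ^ 2)] with K hK1 hK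
  have hK0 : (0 : ℝ) < K := by exact_mod_cast hK1
  have hlog : ∀ᶠ T : ℝ in atTop, Real.log T / T ≤ 1 / (3072 * Real.exp 8 * H) :=
    Real.isLittleO_log_id_atTop.tendsto_div_nhds_zero.eventually_le_const (by positivity)
  filter_upwards [eventually_ge_atTop (K : ℝ), eventually_ge_atTop (2 * H),
    Real.tendsto_log_atTop.eventually_ge_atTop 1,
    Real.tendsto_log_atTop.eventually_ge_atTop (512 * K * C * H), hlog] with T hTK hTH hL hL2 hL3
  intro a ha haL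
  have hT1 : 1 ≤ T := by linarith
  have hT : 0 < T := by linarith
  set N := ⌈H * T⌉₊ with hN
  have hHT : T ≤ H * T := le_mul_of_one_le_left hT.le hH
  have hN1 : H * T ≤ N := Nat.le_ceil _
  have hN2 : (N : ℝ) ≤ 2 * H * T := by
    have := Nat.ceil_lt_add_one (show 0 ≤ H * T by positivity)
    linarith
  have hKN : K ≤ N := by exact_mod_cast hTK.trans (hHT.trans hN1)
  have hlN : ∀ n : ℕ, 1 ≤ n → n ≤ N → Real.log n ≤ 2 * Real.log T := by
    intro n h1 h2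
    have h3 : (n : ℝ) ≤ T ^ 2 := by
      have : (n : ℝ) ≤ N := by exact_mod_cast h2
      nlinarith
    have := Real.log_le_log (by exact_mod_cast h1) h3
    rwa [Real.log_pow, Nat.cast_ofNat] at this
  have haL' : a * Real.log T ≤ 4 := (le_div_iff₀ (by linarith)).1 haL
  have h1 := near (d := fun n => cc a lc N n - lc n * ei (-(a * Real.log n))) K hT ha he (hsum N)
    (hd a N · ha)
  have h2 := far (c := cc a lc N) hT hK1 hKN hE.le fun n a1 a2 =>
    (norm_cc har ha N n).trans (Real.exp_le_exp.2 (by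
      nlinarith [mul_le_mul_of_nonneg_left (hlN n a1 a2) ha]))
  have h3 : K * (a * (16 / T) * (2 * (C * N))) ≤ 1 / 2 := by
    calc _ ≤ K * (a * (16 / T) * (2 * (C * (2 * H * T)))) := by gcongr
      _ = a * (512 * K * C * H) / 8 := by
        field_simp
        ring
      _ ≤ a * Real.log T / 8 := by gcongr
      _ ≤ _ := by linarith
  have h4 : 256 * Real.exp 8 / T ^ 2 * (N ^ 2 * (K : ℝ)⁻¹ + N * (1 + Real.log N)) ≤ 1 + 1 / 2 := by
    have h5 : 1 + Real.log N ≤ 3 * Real.log T := by linarith [hlN N (hK1.trans hKN) le_rfl]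
    have h6 : 0 ≤ 1 + Real.log N := by linarith [Real.log_natCast_nonneg N]
    calc _ ≤ 256 * Real.exp 8 / T ^ 2 *
          ((2 * H * T) ^ 2 * (K : ℝ)⁻¹ + 2 * H * T * (3 * Real.log T)) := by gcongr
      _ = 1024 * Real.exp 8 * H ^ 2 / K + 1536 * Real.exp 8 * H * (Real.log T / T) := by
        field_simp
        ring
      _ ≤ 1 + 1536 * Real.exp 8 * H * (1 / (3072 * Real.exp 8 * H)) := by
        gcongr
        exact (div_le_one hK0).2 hK
      _ = _ := by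
        field_simp
        norm_num
  rw [form_eq T a hKN]
  refine (norm_add_le_of_le h1 h2).trans ?_
  linarith

end Pool.Agent.MP_ca0a54_nt.BH.ZO1
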