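import Pool.Agent.MP_ca0a54_nt.BH.Basic

/-! The weights of the off-diagonal terms are close to slowly varying functions. -/

open Complex Filter

namespace Pool.Agent.MP_ca0a54_nt.BH.ZO2

theorem sinc_eq (x : ℝ) : Real.sinc x = ∫ s in (0 : ℝ)..1, Real.cos (x * s) := by
  by_cases hx : x = 0
  · simp [hx]
  · rw [intervalIntegral.integral_comp_mul_left Real.cos hx, integral_cos, Real.sinc_of_ne_zero hx]
    simp [div_eq_inv_mul]

theorem sinc_lip (x y : ℝ) : |Real.sinc x - Real.sinc y| ≤ |x - y| := by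
  have hi : ∀ z : ℝ, IntervalIntegrable (fun s => Real.cos (z * s)) MeasureTheory.volume 0 1 :=
    fun z => Continuous.intervalIntegrable (by fun_prop) _ _
  rw [sinc_eq, sinc_eq, ← intervalIntegral.integral_sub (hi x) (hi y), ← Real.norm_eq_abs]
  refine (intervalIntegral.norm_integral_le_of_norm_le_const (C := |x - y|) fun s hs => ?_).trans
    (by simp)
  rw [Set.uIoc_of_le zero_le_one] at hs
  refine (Real.abs_cos_sub_cos_le _ _).trans ?_
  rw [← sub_mul, abs_mul, abs_of_pos hs.1]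
  exact mul_le_of_le_one_right (abs_nonneg _) hs.2

theorem exp_lip_aux {b v w : ℝ} (hv : b ≤ v) (h : v ≤ w) :
    |Real.exp (-v) - Real.exp (-w)| ≤ Real.exp (-b) * |v - w| := by
  have h1 : Real.exp (-w) ≤ Real.exp (-v) := Real.exp_le_exp.2 (by linarith)
  have h2 : Real.exp (-v) ≤ Real.exp (-b) := Real.exp_le_exp.2 (by linarith)
  have h3 : Real.exp (-w) = Real.exp (-v) * Real.exp (v - w) := by
    rw [← Real.exp_add]
    ring_nf
  have h4 := mul_le_mul_of_nonneg_left (Real.add_one_le_exp (v - w)) (Real.exp_pos (-v)).le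
  have h5 := mul_le_mul_of_nonneg_right h2 (sub_nonneg.2 h)
  rw [abs_of_nonneg (sub_nonneg.2 h1), abs_of_nonpos (sub_nonpos.2 h)]
  linarith

theorem exp_lip {b v w : ℝ} (hv : b ≤ v) (hw : b ≤ w) :
    |Real.exp (-v) - Real.exp (-w)| ≤ Real.exp (-b) * |v - w| := by
  rcases le_total v w with h | h
  · exact exp_lip_aux hv h
  · rw [abs_sub_comm, abs_sub_comm v]
    exact exp_lip_aux hw h

theorem log_lip_aux {x y : ℝ} (hx : 0 ≤ x) (hy : 0 ≤ y) :
    Real.log (1 + x) - Real.log (1 + y) ≤ |x - y| := by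
  rw [← Real.log_div (by linarith) (by linarith)]
  refine (Real.log_le_sub_one_of_pos (div_pos (by linarith) (by linarith))).trans ?_
  rw [sub_le_iff_le_add, div_le_iff₀ (by linarith)]
  nlinarith [le_abs_self (x - y), mul_nonneg (abs_nonneg (x - y)) hy]

theorem log_lip {x y : ℝ} (hx : 0 ≤ x) (hy : 0 ≤ y) :
    |Real.log (1 + x) - Real.log (1 + y)| ≤ |x - y| := by
  have h1 := log_lip_aux hx hy
  have h2 := log_lip_aux hy hx
  rw [abs_sub_comm] at h2
  exact abs_le.2 ⟨by linarith, h1⟩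

/-- A Lipschitz function. -/
def Lp (f : ℝ → ℝ) (Λ : ℝ) : Prop := ∀ v w, |f v - f w| ≤ Λ * |v - w|

theorem Lp.mul {f : ℝ → ℝ} {Λ : ℝ} (h : Lp f Λ) (c : ℝ) : Lp (fun v => c * f v) (|c| * Λ) := by
  intro v w
  rw [← mul_sub, abs_mul, mul_assoc]
  exact mul_le_mul_of_nonneg_left (h v w) (abs_nonneg c)

theorem Lp.neg {f : ℝ → ℝ} {Λ : ℝ} (h : Lp f Λ) : Lp (fun v => -f v) Λ := by
  intro v w
  rw [neg_sub_neg, abs_sub_comm]
  exact h v w

theorem Lp.mono {f : ℝ → ℝ} {Λ Λ' : ℝ} (h : Lp f Λ) (h' : Λ ≤ Λ') : Lp f Λ' :=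
  fun v w => (h v w).trans (mul_le_mul_of_nonneg_right h' (abs_nonneg _))

theorem Lp.min {f g : ℝ → ℝ} {Λ : ℝ} (h : Lp f Λ) (h' : Lp g Λ) :
    Lp (fun v => min (f v) (g v)) Λ :=
  fun v w => (abs_min_sub_min_le_max _ _ _ _).trans (max_le (h v w) (h' v w))

theorem Lp.max {f g : ℝ → ℝ} {Λ : ℝ} (h : Lp f Λ) (h' : Lp g Λ) :
    Lp (fun v => max (f v) (g v)) Λ :=
  fun v w => (abs_max_sub_max_le_max _ _ _ _).trans (max_le (h v w) (h' v w))

theorem Lp.const (c : ℝ) {Λ : ℝ} (h : 0 ≤ Λ) : Lp (fun _ => c) Λ := fun v w => by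
  rw [sub_self, abs_zero]
  exact mul_nonneg h (abs_nonneg _)

theorem Lp.id_add (c : ℝ) : Lp (fun v => v + c) 1 := fun v w => by
  rw [add_sub_add_right_eq_sub, one_mul]

/-- Bounded by one and Lipschitz. -/
def BL (f : ℝ → ℂ) (Λ : ℝ) : Prop := (∀ v, ‖f v‖ ≤ 1) ∧ ∀ v w, ‖f v - f w‖ ≤ Λ * |v - w|

theorem BL.mul {f g : ℝ → ℂ} {A B : ℝ} (hf : BL f A) (hg : BL g B) :
    BL (fun v => f v * g v) (A + B) := by
  refine ⟨fun v => ?_, fun v w => ?_⟩
  · rw [norm_mul]
    exact mul_le_one₀ (hf.1 v) (norm_nonneg _) (hg.1 v)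
  · have e : f v * g v - f w * g w = (f v - f w) * g v + f w * (g v - g w) := by ring
    rw [e, add_mul]
    refine (norm_add_le _ _).trans (add_le_add ?_ ?_)
    · rw [norm_mul]
      exact (mul_le_of_le_one_right (norm_nonneg _) (hg.1 v)).trans (hf.2 v w)
    · rw [norm_mul]
      exact (mul_le_of_le_one_left (norm_nonneg _) (hf.1 w)).trans (hg.2 v w)

theorem BL.mono {f : ℝ → ℂ} {A B : ℝ} (hf : BL f A) (h : A ≤ B) : BL f B :=
  ⟨hf.1, fun v w => (hf.2 v w).trans (mul_le_mul_of_nonneg_right h (abs_nonneg _))⟩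

theorem BL.real {f : ℝ → ℝ} {Λ : ℝ} (h : Lp f Λ) (h1 : ∀ v, |f v| ≤ 1) :
    BL (fun v => (f v : ℂ)) Λ := by
  refine ⟨fun v => ?_, fun v w => ?_⟩
  · rw [norm_real]
    exact h1 v
  · rw [← ofReal_sub, norm_real]
    exact h v w

theorem BL.ei {f : ℝ → ℝ} {Λ : ℝ} (h : Lp f Λ) : BL (fun v => ei (f v)) Λ :=
  ⟨fun _ => (norm_ei _).le, fun v w => (norm_ei_sub _ _).trans (h v w)⟩

theorem BL.exp {f : ℝ → ℝ} {Λ : ℝ} (h : Lp f Λ) (h0 : ∀ v, 0 ≤ f v) :
    BL (fun v => (Real.exp (-f v) : ℂ)) Λ := by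
  refine BL.real (fun v w => ?_) fun v => ?_
  · have := exp_lip (h0 v) (h0 w)
    rw [neg_zero, Real.exp_zero, one_mul] at this
    exact this.trans (h v w)
  · rw [abs_of_pos (Real.exp_pos _)]
    exact Real.exp_le_one_iff.2 (neg_nonpos.2 (h0 v))

theorem BL.kk {f : ℝ → ℝ} {D T : ℝ} (hT : 0 ≤ T) (hD : 0 ≤ D) (h : Lp f D) (h1 : ∀ v, |f v| ≤ 1) :
    BL (fun v => kk T (f v)) (D + 2 * (T * D)) := by
  have a1 : BL (fun v => (Real.exp (-(f v ^ 2 / 4)) : ℂ)) D := by
    refine BL.exp (fun v w => ?_) fun v => div_nonneg (sq_nonneg _) (by norm_num)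
    have e : f v ^ 2 / 4 - f w ^ 2 / 4 = (f v + f w) / 4 * (f v - f w) := by ring
    rw [e, abs_mul]
    refine (mul_le_of_le_one_left (abs_nonneg _) ?_).trans (h v w)
    have := abs_le.1 (h1 v)
    have := abs_le.1 (h1 w)
    exact abs_le.2 ⟨by linarith, by linarith⟩
  have a2 : BL (fun v => (Real.sinc (T / 8 * f v) : ℂ)) (|T / 8| * D) :=
    BL.real (fun v w => (sinc_lip _ _).trans (h.mul _ v w)) fun v => Real.abs_sinc_le_one _
  have a3 := BL.ei (h.mul (3 * T / 2)).neg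
  have a4 := ((a1.mul (a2.mul a2)).mul a3).mono (B := D + 2 * (T * D)) (by
    rw [abs_of_nonneg (by linarith), abs_of_nonneg (by linarith)]
    nlinarith [mul_nonneg hT hD])
  have e : (fun v => BH.kk T (f v)) = fun v => (Real.exp (-(f v ^ 2 / 4)) : ℂ) *
      ((Real.sinc (T / 8 * f v) : ℂ) * (Real.sinc (T / 8 * f v) : ℂ)) *
        BH.ei (-(3 * T / 2 * f v)) := by
    funext v
    rw [BH.kk, neg_div, mul_div_right_comm T, sq (Real.sinc _), ofReal_mul, ofReal_mul]
  rw [e]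
  exact a4

theorem norm_kk (T ξ : ℝ) : ‖kk T ξ‖ ≤ Real.sinc (T * ξ / 8) ^ 2 := by
  rw [kk, norm_mul, norm_ei, mul_one, norm_real, Real.norm_eq_abs,
    abs_of_nonneg (mul_nonneg (Real.exp_pos _).le (sq_nonneg _))]
  refine mul_le_of_le_one_left (sq_nonneg _) (Real.exp_le_one_iff.2 ?_)
  linarith [sq_nonneg ξ]

theorem xi_nonneg (h : ℕ) (v : ℝ) : 0 ≤ Real.log (1 + h * Real.exp (-v)) :=
  Real.log_nonneg (le_add_of_nonneg_right (mul_nonneg (Nat.cast_nonneg h) (Real.exp_pos _).le))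

theorem norm_gg (T a : ℝ) (h : ℕ) (v : ℝ) :
    ‖gg T a h v‖ ≤ 2 * Real.sinc (T * Real.log (1 + h * Real.exp (-v)) / 8) ^ 2 := by
  have h1 : ‖((Real.exp (-Real.log (1 + h * Real.exp (-v)) / 2) : ℝ) : ℂ)‖ ≤ 1 := by
    rw [norm_real, Real.norm_eq_abs, abs_of_pos (Real.exp_pos _), Real.exp_le_one_iff]
    linarith [xi_nonneg h v]
  rw [gg, norm_mul, norm_mul, norm_ei, one_mul]
  refine (mul_le_of_le_one_left (norm_nonneg _) h1).trans ((norm_add_le _ _).trans ?_)
  have h2 := norm_kk T (Real.log (1 + h * Real.exp (-v)))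
  have h3 := norm_kk T (-Real.log (1 + h * Real.exp (-v)))
  rw [mul_neg, neg_div, Real.sinc_neg] at h3
  rw [norm_mul, norm_ei, one_mul]
  linarith

theorem gg_two (T a : ℝ) (h : ℕ) (v : ℝ) : ‖gg T a h v‖ ≤ 2 := by
  have h1 := (sq_le_one_iff_abs_le_one _).2
    (Real.abs_sinc_le_one (T * Real.log (1 + h * Real.exp (-v)) / 8))
  linarith [norm_gg T a h v]

theorem gg_small {T : ℝ} (hT : 0 < T) (a : ℝ) {h m : ℕ} (hh : 1 ≤ h) (hm : 1 ≤ m) :
    ‖gg T a h (Real.log m)‖ ≤ 512 * (m / T) ^ 2 := by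
  have hm' : (1 : ℝ) ≤ m := by exact_mod_cast hm
  have hh' : (1 : ℝ) ≤ h := by exact_mod_cast hh
  have h0 : (0 : ℝ) < m := by linarith
  have h1 : 1 / (2 * m) ≤ Real.log (1 + h * Real.exp (-Real.log m)) := by
    rw [Real.exp_neg, Real.exp_log h0]
    have e1 : (1 : ℝ) + (m : ℝ)⁻¹ ≤ 1 + h * (m : ℝ)⁻¹ := by nlinarith [inv_pos.2 h0]
    have e2 : (0 : ℝ) < 1 + (m : ℝ)⁻¹ := by linarith [inv_pos.2 h0]
    refine le_trans ?_ ((Real.one_sub_inv_le_log_of_pos e2).trans (Real.log_le_log e2 e1))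
    have e3 : 1 - (1 + (m : ℝ)⁻¹)⁻¹ = 1 / (m + 1) := by
      field_simp
      ring
    rw [e3]
    exact one_div_le_one_div_of_le (by linarith) (by linarith)
  refine (norm_gg T a h _).trans ?_
  generalize Real.log (1 + h * Real.exp (-Real.log m)) = ξ at h1
  have h2 : T / (16 * m) ≤ T * ξ / 8 := by
    have := mul_le_mul_of_nonneg_left h1 hT.le
    have e : T / (16 * m) = T * (1 / (2 * m)) / 8 := by
      field_simp
      ring
    linarith
  have h3 : 0 < T / (16 * m) := div_pos hT (by linarith)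
  have h4 : |Real.sinc (T * ξ / 8)| ≤ 16 * (m / T) := by
    rw [Real.sinc_of_ne_zero (by linarith), abs_div, abs_of_pos (show 0 < T * ξ / 8 by linarith)]
    refine (div_le_div₀ zero_le_one (Real.abs_sin_le_one _) h3 h2).trans (le_of_eq ?_)
    field_simp
  have h5 := pow_le_pow_left₀ (abs_nonneg _) h4 2
  rw [sq_abs] at h5
  linarith

/-- The weight, frozen below the level `b`, is the sum of two bounded Lipschitz functions. -/
theorem gg_bl {T a b E : ℝ} {h : ℕ} (hT : 0 < T) (ha : 0 ≤ a) (ha1 : a ≤ 1) (hE : E ≤ T)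
    (hb : h * Real.exp (-b) ≤ E / T) : ∃ f g : ℝ → ℂ, BL f (4 + 2 * E) ∧ BL g (4 + 2 * E) ∧
      ∀ v, b ≤ v → gg T a h v = f v + g v := by
  have hh : (0 : ℝ) ≤ h := Nat.cast_nonneg h
  have hD0 : 0 ≤ E / T := (mul_nonneg hh (Real.exp_pos _).le).trans hb
  have hD1 : E / T ≤ 1 := (div_le_one hT).2 hE
  have hTD : T * (E / T) = E := mul_div_cancel₀ _ hT.ne'
  have m1 : Lp (fun v => max v b) 1 := fun v w => by
    rw [one_mul]
    exact abs_max_sub_max_le_abs v w b
  have x1 : Lp (fun v => Real.log (1 + h * Real.exp (-max v b))) (E / T) := by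
    intro v w
    refine (log_lip (mul_nonneg hh (Real.exp_pos _).le)
      (mul_nonneg hh (Real.exp_pos _).le)).trans ?_
    rw [← mul_sub, abs_mul, abs_of_nonneg hh]
    refine (mul_le_mul_of_nonneg_left (exp_lip (le_max_right v b) (le_max_right w b)) hh).trans ?_
    rw [← mul_assoc]
    exact mul_le_mul hb (abs_max_sub_max_le_abs v w b) (abs_nonneg _) hD0
  have x2 : ∀ v, |Real.log (1 + h * Real.exp (-max v b))| ≤ 1 := by
    intro v
    rw [abs_of_nonneg (xi_nonneg h _)]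
    have e1 : Real.exp (-max v b) ≤ Real.exp (-b) :=
      Real.exp_le_exp.2 (neg_le_neg (le_max_right v b))
    have e2 := mul_le_mul_of_nonneg_left e1 hh
    have e3 := Real.log_le_sub_one_of_pos (show 0 < 1 + h * Real.exp (-max v b) by
      linarith [mul_nonneg hh (Real.exp_pos (-max v b)).le])
    linarith
  have a1 := (BL.ei (m1.mul a).neg).mono (B := 1) (by rw [abs_of_nonneg ha]; linarith)
  have a2 := (BL.exp (x1.mul (1 / 2)) fun v => mul_nonneg (by norm_num) (xi_nonneg h _)).mono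
    (B := 1) (by rw [abs_of_pos (by norm_num)]; linarith)
  have a3 := (BL.ei (x1.mul a).neg).mono (B := 1) (by
    rw [abs_of_nonneg ha]
    exact mul_le_one₀ ha1 hD0 hD1)
  have a4 := BL.kk hT.le hD0 x1 x2
  have a5 := BL.kk hT.le hD0 x1.neg fun v => by rw [abs_neg]; exact x2 v
  rw [hTD] at a4 a5
  refine ⟨_, _, ((a1.mul a2).mul (a3.mul a4)).mono (by linarith),
    ((a1.mul a2).mul a5).mono (by linarith), fun v hv => ?_⟩
  simp only [max_eq_left hv]
  rw [gg, mul_add, neg_div, ← one_div_mul_eq_div]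

theorem zo2 : Zo2Stmt := by
  intro H K hH hK
  have hK' : (1 : ℝ) ≤ K := by exact_mod_cast hK
  have hlH : 0 ≤ Real.log H := Real.log_nonneg hH
  obtain ⟨L₀, hL₀, hL₁⟩ : ∃ L₀ : ℝ, 1 ≤ L₀ ∧ 512 * Real.exp (1 - L₀) ^ 2 ≤ 1 / K := by
    refine ⟨1 + 512 * K, by linarith, ?_⟩
    have e1 := Real.add_one_le_exp (512 * (K : ℝ))
    have e2 : Real.exp (1 - (1 + 512 * K)) * Real.exp (512 * K) = 1 := by
      rw [← Real.exp_add]
      simp
    have e3 := Real.exp_pos (1 - (1 + 512 * (K : ℝ)))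
    have e4 : Real.exp (1 - (1 + 512 * (K : ℝ))) ≤ 1 := Real.exp_le_one_iff.2 (by linarith)
    rw [le_div_iff₀ (by linarith)]
    nlinarith [mul_le_mul_of_nonneg_left e1 e3.le]
  obtain ⟨κ, hκ, hκ1⟩ : ∃ κ : ℝ, 0 < κ ∧ 4 * K * κ = 1 :=
    ⟨1 / (4 * K), one_div_pos.2 (by linarith), mul_one_div_cancel (by linarith)⟩
  have hκ2 : κ ≤ 1 / 4 := by nlinarith
  have hE : 0 < K * Real.exp L₀ := mul_pos (by linarith) (Real.exp_pos _)
  have hq : 0 < 1 - Real.exp (-κ) := sub_pos.2 (Real.exp_lt_one_iff.2 (by linarith))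
  refine ⟨2 * (4 * K + (4 + 2 * (K * Real.exp L₀))) + L₀ + Real.log H, by linarith, ?_⟩
  filter_upwards [eventually_ge_atTop (K * Real.exp L₀), eventually_ge_atTop (16 * (K : ℝ)),
    eventually_ge_atTop (K / (1 - Real.exp (-κ)))] with T t1 t2 t3 a h ha ha1 hh hhK
  have hT : 0 < T := by linarith
  have hhK' : (h : ℝ) ≤ K := by exact_mod_cast hhK
  have hHT : T ≤ H * T := le_mul_of_one_le_left hT.le hH
  rw [div_le_iff₀ hq] at t3
  obtain ⟨f, g, hf, hg, hfg⟩ := gg_bl (h := h) (b := Real.log T - L₀) hT ha ha1 t1 (by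
    rw [neg_sub, Real.exp_sub, Real.exp_log hT, ← mul_div_assoc]
    exact div_le_div_of_nonneg_right (mul_le_mul_of_nonneg_right hhK' (Real.exp_pos _).le) hT.le)
  obtain ⟨ph, p1, p2, p3, p4, p5⟩ : ∃ ph : ℝ → ℝ, Lp ph (4 * K) ∧ (∀ v, 0 ≤ ph v ∧ ph v ≤ 1) ∧
      (∀ v, v ≤ Real.log T - L₀ → ph v = 0) ∧ (∀ v, Real.log T + Real.log H ≤ v → ph v = 0) ∧
      ∀ v, Real.log T - L₀ + 1 ≤ v → v ≤ Real.log T + Real.log H - κ → ph v = 1 := by
    refine ⟨fun v => max 0 (min 1 (min (v + (L₀ - Real.log T))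
      (-(4 * K) * (v + -(Real.log T + Real.log H))))), ?_, fun v => ⟨le_max_left _ _,
        max_le zero_le_one (min_le_left _ _)⟩, fun v hv => ?_, fun v hv => ?_, fun v h1 h2 => ?_⟩
    · refine (Lp.const 0 (by linarith)).max ((Lp.const 1 (by linarith)).min
        (((Lp.id_add _).mono (by linarith)).min (((Lp.id_add _).mul _).mono ?_)))
      rw [abs_neg, abs_of_pos (by linarith), mul_one]
    · exact max_eq_left ((min_le_right _ _).trans ((min_le_left _ _).trans (by linarith)))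
    · exact max_eq_left ((min_le_right _ _).trans ((min_le_right _ _).trans (by nlinarith)))
    · have : min (1 : ℝ) (min (v + (L₀ - Real.log T))
          (-(4 * K) * (v + -(Real.log T + Real.log H)))) = 1 :=
        min_eq_left (le_min (by linarith) (by nlinarith))
      simp only [this]
      exact max_eq_right zero_le_one
  have hp := BL.real p1 fun v => abs_le.2 ⟨by linarith [(p2 v).1], (p2 v).2⟩
  have hf' := hp.mul hf
  have hg' := hp.mul hg
  have hu : ∀ v, (ph v : ℂ) * f v + ph v * g v = ph v * gg T a h v := by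
    intro v
    rcases le_total v (Real.log T - L₀) with hv | hv
    · simp [p3 v hv]
    · rw [hfg v hv, mul_add]
  refine ⟨fun v => ph v * f v + ph v * g v, fun v => ?_, fun v w => ?_, fun v hv => ?_,
    fun M hM => ?_⟩
  · linarith [norm_add_le ((ph v : ℂ) * f v) (ph v * g v), hf'.1 v, hg'.1 v]
  · rw [add_sub_add_comm]
    refine (norm_add_le _ _).trans ((add_le_add (hf'.2 v w) (hg'.2 v w)).trans ?_)
    rw [← add_mul]
    exact mul_le_mul_of_nonneg_right (by linarith) (abs_nonneg _)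
  · have : ph v = 0 := by
      rcases lt_abs.1 hv with h1 | h1
      · exact p4 v (by linarith)
      · exact p3 v (by linarith)
    simp [this]
  have hN : H * T ≤ ⌈H * T⌉₊ := Nat.le_ceil _
  have hN1 : (⌈H * T⌉₊ : ℝ) ≤ H * T + 1 := (Nat.ceil_lt_add_one (by linarith)).le
  have hlHT : Real.log (H * T) = Real.log T + Real.log H := by
    rw [Real.log_mul (by linarith) hT.ne', add_comm]
  have hX : Real.exp (Real.log T - L₀ + 1) = T * Real.exp (1 - L₀) := by
    rw [show Real.log T - L₀ + 1 = Real.log T + (1 - L₀) by ring, Real.exp_add, Real.exp_log hT]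
  have hpt : ∀ m ∈ Finset.Icc 1 M, ‖(ph (Real.log m) : ℂ) * f (Real.log m) +
      ph (Real.log m) * g (Real.log m) -
      if m ≤ ⌈H * T⌉₊ - h then gg T a h (Real.log m) else 0‖ / m ≤
      (if m ∈ Finset.Icc 1 ⌊T * Real.exp (1 - L₀)⌋₊ then 512 * Real.exp (1 - L₀) / T else 0) +
      if m ∈ iv (Real.log T + Real.log H - κ) (Real.log ⌈H * T⌉₊) then 2 * (1 / (m : ℝ))
        else 0 := by
    intro m hm
    have m1 := (Finset.mem_Icc.1 hm).1
    have m2 : (0 : ℝ) < m := by exact_mod_cast m1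
    have q1 : 0 ≤ 512 * Real.exp (1 - L₀) / T :=
      div_nonneg (mul_nonneg (by norm_num) (Real.exp_pos _).le) hT.le
    have q2 : 0 ≤ 2 * (1 / (m : ℝ)) := mul_nonneg zero_le_two (one_div_pos.2 m2).le
    have q3 : ‖(ph (Real.log m) : ℂ) * gg T a h (Real.log m) -
        if m ≤ ⌈H * T⌉₊ - h then gg T a h (Real.log m) else 0‖ ≤ ‖gg T a h (Real.log m)‖ := by
      obtain ⟨r1, r2⟩ := p2 (Real.log m)
      split_ifs
      · rw [← sub_one_mul, norm_mul, ← ofReal_one, ← ofReal_sub, norm_real, Real.norm_eq_abs]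
        exact mul_le_of_le_one_left (norm_nonneg _) (abs_le.2 ⟨by linarith, by linarith⟩)
      · rw [sub_zero, norm_mul, norm_real, Real.norm_eq_abs]
        exact mul_le_of_le_one_left (norm_nonneg _) (abs_le.2 ⟨by linarith, r2⟩)
    rw [hu]
    by_cases c1 : m ∈ Finset.Icc 1 ⌊T * Real.exp (1 - L₀)⌋₊
    · rw [if_pos c1]
      have r1 : (m : ℝ) ≤ T * Real.exp (1 - L₀) :=
        (Nat.le_floor_iff (mul_pos hT (Real.exp_pos _)).le).1 (Finset.mem_Icc.1 c1).2
      have r2 : m / T ≤ Real.exp (1 - L₀) := by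
        rw [div_le_iff₀ hT]
        linarith
      have r3 : 512 * (m / T) ^ 2 / m ≤ 512 * Real.exp (1 - L₀) / T := by
        have e : 512 * (m / T) ^ 2 / m = 512 * (m / T) / T := by field_simp
        rw [e]
        exact div_le_div_of_nonneg_right (by linarith) hT.le
      refine ((div_le_div_of_nonneg_right (q3.trans (gg_small hT a hh m1)) m2.le).trans r3).trans
        (le_add_of_nonneg_right ?_)
      split_ifs
      · exact q2
      · exact le_rfl
    rw [if_neg c1, zero_add]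
    by_cases c2 : m ∈ iv (Real.log T + Real.log H - κ) (Real.log ⌈H * T⌉₊)
    · rw [if_pos c2, mul_one_div]
      exact div_le_div_of_nonneg_right (q3.trans (gg_two T a h _)) m2.le
    rw [if_neg c2]
    have r1 : Real.log T - L₀ + 1 ≤ Real.log m := by
      rw [Real.le_log_iff_exp_le m2, hX]
      by_contra hc
      exact c1 (Finset.mem_Icc.2 ⟨m1, Nat.le_floor (not_le.1 hc).le⟩)
    by_cases c3 : Real.log m ≤ Real.log T + Real.log H - κ
    · have r2 : (m : ℝ) ≤ H * T * Real.exp (-κ) := by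
        rw [Real.log_le_iff_le_exp m2, ← hlHT, sub_eq_add_neg, Real.exp_add,
          Real.exp_log (by linarith)] at c3
        exact c3
      have r3 : m + h ≤ ⌈H * T⌉₊ := by
        have := mul_le_mul_of_nonneg_right hHT hq.le
        have : (m : ℝ) + h ≤ ⌈H * T⌉₊ := by nlinarith
        exact_mod_cast this
      rw [if_pos (by omega), p5 _ r1 c3]
      simp
    · have r2 : Real.log ⌈H * T⌉₊ < Real.log m := by
        by_contra hc
        exact c2 (mem_iv.2 ⟨m1, not_le.1 c3, not_lt.1 hc⟩)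
      have r3 : ⌈H * T⌉₊ < m := by
        have := (Real.log_lt_log_iff (by linarith) m2).1 r2
        exact_mod_cast this
      have r4 : Real.log T + Real.log H ≤ Real.log m := by
        rw [← hlHT]
        exact (Real.log_le_log (by linarith) hN).trans r2.le
      rw [if_neg (by omega), p4 _ r4]
      simp
  refine (Finset.sum_le_sum hpt).trans ?_
  rw [Finset.sum_add_distrib, Finset.sum_ite_mem, Finset.sum_ite_mem]
  have s1 : ∑ _m ∈ Finset.Icc 1 M ∩ Finset.Icc 1 ⌊T * Real.exp (1 - L₀)⌋₊,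
      512 * Real.exp (1 - L₀) / T ≤ 1 / K := by
    have q1 : 0 ≤ 512 * Real.exp (1 - L₀) / T :=
      div_nonneg (mul_nonneg (by norm_num) (Real.exp_pos _).le) hT.le
    refine (Finset.sum_le_sum_of_subset_of_nonneg Finset.inter_subset_right
      fun _ _ _ => q1).trans ?_
    rw [Finset.sum_const, Nat.card_Icc, add_tsub_cancel_right, nsmul_eq_mul]
    refine (mul_le_mul_of_nonneg_right (Nat.floor_le (mul_pos hT (Real.exp_pos _)).le) q1).trans
      (le_trans (le_of_eq ?_) hL₁)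
    field_simp
  have s2 : ∑ m ∈ Finset.Icc 1 M ∩ iv (Real.log T + Real.log H - κ) (Real.log ⌈H * T⌉₊),
      2 * (1 / (m : ℝ)) ≤ 1 / K := by
    refine (Finset.sum_le_sum_of_subset_of_nonneg Finset.inter_subset_right
      fun m _ _ => mul_nonneg zero_le_two (one_div_nonneg.2 (Nat.cast_nonneg m))).trans ?_
    have r1 : Real.log T + Real.log H ≤ Real.log ⌈H * T⌉₊ := by
      rw [← hlHT]
      exact Real.log_le_log (by linarith) hN
    have r2 := sum_inv_iv (v := Real.log T + Real.log H - κ) (w := Real.log ⌈H * T⌉₊)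
      (by linarith)
    have r3 : Real.log ⌈H * T⌉₊ - (Real.log T + Real.log H) ≤ 1 / T := by
      rw [← hlHT, ← Real.log_div (by linarith) (by linarith)]
      refine (Real.log_le_sub_one_of_pos (div_pos (by linarith) (by linarith))).trans ?_
      rw [sub_le_iff_le_add, div_le_iff₀ (by linarith), add_mul, one_mul]
      have : 1 ≤ 1 / T * (H * T) := by
        rw [div_mul_eq_mul_div, one_mul, le_div_iff₀ hT]
        linarith
      linarith
    have r4 : Real.exp (-(Real.log T + Real.log H - κ)) ≤ 3 * (1 / T) := by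
      have e1 : Real.exp (-(Real.log T + Real.log H - κ)) ≤ Real.exp (1 - Real.log T) :=
        Real.exp_le_exp.2 (by linarith)
      rw [Real.exp_sub, Real.exp_log hT] at e1
      rw [mul_one_div]
      exact e1.trans (div_le_div_of_nonneg_right (by linarith [Real.exp_one_lt_d9]) hT.le)
    have r5 := min_le_right 1 (Real.exp (-(Real.log T + Real.log H - κ)))
    have r6 : 1 / T ≤ κ / 4 := by
      rw [div_le_iff₀ hT]
      nlinarith
    have r7 : 4 * κ = 1 / K := by
      rw [eq_div_iff (by linarith)]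
      linarith
    rw [← Finset.mul_sum]
    linarith
  have e : 2 / (K : ℝ) = 1 / K + 1 / K := by ring
  rw [e]
  exact add_le_add s1 s2

end Pool.Agent.MP_ca0a54_nt.BH.ZO2
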