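import Pool.Agent.MP_ca0a54_nt.BH.Basic
import Pool.Agent.MP_ca0a54_nt.H10.QID
import Pool.Agent.MP_ca0a54_nt.H62.PQL
import Pool.Agent.MP_ca0a54_nt.H23.PF

/-! Row ZQ: the contour argument. -/

open Complex MeasureTheory Filter Topology

namespace Pool.Agent.MP_ca0a54_nt.BH.ZQ

open Pool.Agent.MP_ca0a54_nt.L0 Pool.Agent.MP_ca0a54_nt.H24 Pool.Agent.MP_ca0a54_nt.H10

theorem ds_crude {c : ℕ → ℂ} {S : Finset ℕ} {M : ℕ} (hS : S ⊆ Finset.Icc 1 M)
    (hc : ∀ n : ℕ, n ≠ 0 → ‖c n‖ ≤ Real.exp (3 / 2 * Real.log n)) {z : ℂ} (hz : z.im ≤ 0) :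
    ‖ds c S z‖ ≤ (M : ℝ) * M := by
  unfold ds
  refine (norm_sum_le _ _).trans ((Finset.sum_le_card_nsmul _ _ (M : ℝ) fun n hn => ?_).trans ?_)
  · have hn' := Finset.mem_Icc.1 (hS hn)
    have hp : (0 : ℝ) < n := Nat.cast_pos.2 hn'.1
    rw [norm_mul, norm_np, re_s]
    refine (mul_le_mul_of_nonneg_right (hc n (by omega)) (Real.exp_pos _).le).trans ?_
    rw [← Real.exp_add]
    refine le_trans ?_ (Nat.cast_le.2 hn'.2)
    rw [← Real.exp_log hp]
    refine Real.exp_le_exp.2 ?_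
    rw [Real.log_exp]
    nlinarith [Real.log_natCast_nonneg n]
  · rw [nsmul_eq_mul]
    refine mul_le_mul_of_nonneg_right ?_ (Nat.cast_nonneg M)
    have := Finset.card_le_card hS
    rw [Nat.card_Icc, Nat.add_sub_cancel] at this
    exact_mod_cast this

theorem Rs_big {r : ℕ → ℂ} (hr : ∀ n, ‖r n‖ ≤ 1) {N : ℕ} (hN : 1 ≤ N) {z : ℂ}
    (hz : -8 ≤ z.im) : ‖Rs r N z‖ ≤ Real.exp (9 * Real.log N) := by
  have hp : (0 : ℝ) < N := Nat.cast_pos.2 hN
  unfold Rs
  refine (norm_sum_le _ _).trans ((Finset.sum_le_card_nsmul _ _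
    (Real.exp (8 * Real.log N)) fun n hn => ?_).trans (le_of_eq ?_))
  · rw [Finset.mem_Icc] at hn
    have h1 : -(1 / 2 + -I * z).re = -(1 / 2) - z.im := by
      simp
      ring
    rw [norm_mul, norm_np, h1, RCLike.norm_conj]
    refine (mul_le_of_le_one_left (Real.exp_pos _).le (hr n)).trans (Real.exp_le_exp.2 ?_)
    have h2 := Real.log_le_log (Nat.cast_pos.2 hn.1) (Nat.cast_le.2 hn.2 : (n : ℝ) ≤ N)
    nlinarith [Real.log_natCast_nonneg n]
  · rw [nsmul_eq_mul, Nat.card_Icc, Nat.add_sub_cancel,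
      show 9 * Real.log N = Real.log N + 8 * Real.log N by ring, Real.exp_add, Real.exp_log hp]

theorem bd_ds (c : ℕ → ℂ) (S : Finset ℕ) (a b : ℝ) : Bd (ds c S) a b :=
  Bd.sum S (F := fun n z => c n * np (1 / 2 + I * z) n) fun n _ =>
    (Bd.const (c n) a b).mul (bd_np (1 / 2) I I_re n a b)

theorem dp_split (c : ℕ → ℂ) {N M : ℕ} (h : N ≤ M) (z : ℂ) :
    dp c M z = dp c N z + ds c (Finset.Ioc N M) z := by
  have e : ∀ K : ℕ, Finset.Icc 1 K = Finset.Ioc 0 K := fun K => rfl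
  unfold dp ds
  rw [e, e, Finset.sum_Ioc_consecutive _ (Nat.zero_le N) h]

theorem int_norm (F : ℂ → ℂ) (t γ : ℝ) :
    ∫ x : ℝ, ‖F (x + γ * I) * ga t (x + γ * I)‖ =
      Real.exp (γ ^ 2) * ∫ x : ℝ, ‖F ((t + x : ℝ) + γ * I)‖ * Real.exp (-x ^ 2) := by
  rw [← integral_const_mul, ← integral_add_left_eq_self _ t]
  congr 1
  funext x
  rw [norm_mul, norm_ga, mul_left_comm, ← Real.exp_add]
  congr 2
  simp
  ring

theorem seg_int {F φ : ℂ → ℂ} {γ t X : ℝ} (hF : Bd F γ γ)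
    (hφ : ContinuousOn (fun x : ℝ => φ (x + γ * I)) (Set.uIcc (t - X) (t + X))) :
    IntervalIntegrable (fun x : ℝ => φ (x + γ * I) * F (x + γ * I) * ga t (x + γ * I)) volume
      (t - X) (t + X) :=
  ((hφ.mul hF.cont.continuousOn).mul
    ((ga_diff t).continuous.comp (by fun_prop)).continuousOn).intervalIntegrable

/-- A multiplier close to a constant on a long segment. -/
theorem seg_mul {F φ : ℂ → ℂ} {γ t X M κ : ℝ} {ω : ℂ} (hF : Bd F γ γ) (hX : 0 ≤ X)
    (hM : ∀ x : ℝ, ‖F (x + γ * I)‖ ≤ M) (hω : ‖ω‖ = 1) (hκ : 0 ≤ κ)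
    (hφ : ContinuousOn (fun x : ℝ => φ (x + γ * I)) (Set.uIcc (t - X) (t + X)))
    (hc : ∀ x : ℝ, |x - t| ≤ X → ‖φ (x + γ * I) - ω‖ ≤ κ) :
    ‖(∫ x in (t - X)..(t + X), φ (x + γ * I) * F (x + γ * I) * ga t (x + γ * I)) - ω * li F t γ‖ ≤
      κ * (Real.exp (γ ^ 2) * ∫ x : ℝ, ‖F ((t + x : ℝ) + γ * I)‖ * Real.exp (-x ^ 2)) +
        M * Real.exp (-X ^ 2 / 4) * Real.exp (γ ^ 2) * K0 := by
  have h1 := H62.li_tail (t := t) hF hX hM
  have h2 := seg_int hF hφ
  have h3 := (hF.intg t).intervalIntegrable (a := t - X) (b := t + X)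
  have h4 : ‖∫ x in (t - X)..(t + X), (φ (x + γ * I) * F (x + γ * I) * ga t (x + γ * I) -
      ω * (F (x + γ * I) * ga t (x + γ * I)))‖ ≤
      ∫ x in (t - X)..(t + X), κ * ‖F (x + γ * I) * ga t (x + γ * I)‖ := by
    refine intervalIntegral.norm_integral_le_of_norm_le (by linarith)
      (Eventually.of_forall fun x hx => ?_) (h3.norm.const_mul κ)
    rw [mul_assoc, ← sub_mul, norm_mul]
    exact mul_le_mul_of_nonneg_right (hc x (abs_le.2 ⟨by linarith [hx.1], by linarith [hx.2]⟩))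
      (norm_nonneg _)
  have h5 : ∫ x in (t - X)..(t + X), ‖F (x + γ * I) * ga t (x + γ * I)‖ ≤
      ∫ x : ℝ, ‖F (x + γ * I) * ga t (x + γ * I)‖ := by
    rw [intervalIntegral.integral_of_le (by linarith)]
    exact setIntegral_le_integral (hF.intg t).norm (Eventually.of_forall fun x => norm_nonneg _)
  rw [intervalIntegral.integral_sub h2 (h3.const_mul ω), intervalIntegral.integral_const_mul,
    intervalIntegral.integral_const_mul] at h4
  rw [int_norm] at h5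
  have tri : ∀ A B D : ℂ, ‖A - ω * D‖ ≤ ‖A - ω * B‖ + ‖D - B‖ := fun A B D => by
    have h : A - ω * D = A - ω * B - ω * (D - B) := by ring
    rw [h]
    refine (norm_sub_le _ _).trans ?_
    rw [norm_mul, hω, one_mul]
  exact (tri _ _ _).trans (add_le_add (h4.trans (mul_le_mul_of_nonneg_left h5 hκ)) h1)

/-- The multiplier. -/
theorem mult {C T t a : ℝ} {U : Finset ℝ} {h : ℂ → ℂ} (H : LF C T t U h) (hC : 1 ≤ C)
    (hT : 400 ≤ T) (hL : 8 ≤ Real.log T) (hCL : 8 * C * Real.log T ≤ √T) (ha : 0 < a)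
    (a2 : a ≤ 4 / Real.log T) : ∃ (θ : ℝ) (φ : ℂ → ℂ), Real.exp (-(4 * C)) ≤ θ ∧
    DifferentiableOn ℂ φ {z | |z.re - t| ≤ √T / 2 ∧ -8 ≤ z.im ∧ z.im ≤ 0} ∧
    ∀ z : ℂ, |z.re - t| ≤ √T / 2 → -8 ≤ z.im → z.im ≤ 0 →
      vp U a z = θ * (φ z * Bq a z) ∧ ‖φ z‖ ≤ 3 ∧
      ‖φ z - ei (-(a * Real.log T / 2))‖ ≤ (4 * C + 1) / Real.log T := by
  set L := Real.log T with hLd
  have hT0 : 0 < T := by linarith
  have hL0 : 0 < L := by linarith
  have haL : a * L ≤ 4 := (le_div_iff₀ hL0).1 a2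
  have ha1 : a ≤ 1 := by nlinarith
  have hsq : √T * √T = T := Real.mul_self_sqrt hT0.le
  have hs : 20 ≤ √T := Real.le_sqrt_of_sq_le (by linarith)
  have ht : (t : ℂ) ∈ Metric.ball (t : ℂ) √T := Metric.mem_ball_self (by linarith)
  have hK : 0 ≤ C * L / T := by positivity
  have hnear : ∀ z : ℂ, |z.re - t| ≤ √T / 2 → -8 ≤ z.im → z.im ≤ 0 → ‖z - t‖ + a < √T := by
    intro z h1 h2 h3
    have h4 := norm_le_abs_re_add_abs_im (z - t)
    rw [sub_re, sub_im, ofReal_re, ofReal_im, sub_zero, abs_of_nonpos h3] at h4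
    linarith
  have hd : ‖(a : ℂ) * deriv h t‖ ≤ 4 * C := by
    rw [norm_mul, norm_real, Real.norm_of_nonneg ha.le]
    have h1 := mul_le_mul_of_nonneg_left (H.d1 t ht) ha.le
    nlinarith
  have hre := abs_le.1 ((abs_re_le_norm _).trans hd)
  have hsplit : exp (a * deriv h t) =
      (Real.exp (a * deriv h t).re : ℝ) * ei (a * (deriv h t).im) := by
    rw [ofReal_exp, ei, ← exp_add]
    congr 1
    apply Complex.ext <;> simp
  refine ⟨Real.exp (a * deriv h t).re,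
    fun z => ei (a * (deriv h t).im) * exp (h (z + a) - h z - a * deriv h t),
    Real.exp_le_exp.2 hre.1, ?_, fun z h1 h2 h3 => ?_⟩
  · refine DifferentiableOn.const_mul (DifferentiableOn.cexp (DifferentiableOn.sub_const
      (DifferentiableOn.sub ?_ (H.diff.mono fun z hz => ?_)) _)) _
    · refine H.diff.comp (Differentiable.differentiableOn (by fun_prop)) fun z hz => ?_
      have h4 := hnear z hz.1 hz.2.1 hz.2.2
      rw [Metric.mem_ball, dist_eq_norm, show z + a - t = z - t + a by ring]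
      refine (norm_add_le _ _).trans_lt ?_
      rwa [norm_real, Real.norm_of_nonneg ha.le]
    · have h4 := hnear z hz.1 hz.2.1 hz.2.2
      rw [Metric.mem_ball, dist_eq_norm]
      linarith
  · have h4 := hnear z h1 h2 h3
    have h5 := H23.err_le H hK ha.le h4
    have h6 : C * L / T * (‖z - t‖ + a) * a ≤ 1 / (2 * L) := by
      have h7 : C * L / T * (‖z - t‖ + a) * a = a * L * (C / T * (‖z - t‖ + a)) := by ring
      have h8 : a * L * (C / T * (‖z - t‖ + a)) ≤ 4 * (C / T * √T) :=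
        mul_le_mul haL (mul_le_mul_of_nonneg_left h4.le (by positivity)) (by positivity)
          (by norm_num)
      rw [h7]
      refine h8.trans ?_
      rw [div_mul_eq_mul_div, ← mul_div_assoc, div_le_div_iff₀ hT0 (by positivity)]
      nlinarith
    have h7 : 1 / (2 * L) ≤ 1 := by
      rw [div_le_one (by positivity)]
      linarith
    have h8 := norm_exp_sub_one_le (h5.trans (h6.trans h7))
    have h9 : ‖exp (h (z + a) - h z - a * deriv h t) - 1‖ ≤ 1 / L := by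
      have : 2 * (1 / (2 * L)) = 1 / L := by field_simp
      linarith
    refine ⟨?_, ?_, ?_⟩
    · rw [H23.vp_Bq H ha.le h4, hsplit]
      ring
    · rw [norm_mul, norm_ei, one_mul]
      have h10 := norm_add_le (exp (h (z + a) - h z - a * deriv h t) - 1) 1
      rw [sub_add_cancel, norm_one] at h10
      linarith
    · have h10 := norm_ei_sub (a * (deriv h t).im) (-(a * L / 2))
      rw [show a * (deriv h t).im - -(a * L / 2) = a * ((deriv h t).im + L / 2) by ring, abs_mul,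
        abs_of_pos ha] at h10
      have h11 : a * |(deriv h t).im + L / 2| ≤ 4 / L * C :=
        mul_le_mul a2 H.ph (abs_nonneg _) (by positivity)
      have h12 : ei (a * (deriv h t).im) * exp (h (z + a) - h z - a * deriv h t) -
          ei (-(a * L / 2)) =
          ei (a * (deriv h t).im) * (exp (h (z + a) - h z - a * deriv h t) - 1) +
            (ei (a * (deriv h t).im) - ei (-(a * L / 2))) := by ring
      rw [h12]
      refine (norm_add_le _ _).trans ?_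
      rw [norm_mul, norm_ei, one_mul, show (4 * C + 1) / L = 1 / L + 4 / L * C by ring]
      linarith

theorem combine {ω A B D I₀ J₁ J J₂ J₃ : ℂ} {θ c e₀ e₁ e₂ e₃ e₄ : ℝ} (hθ : Real.exp (-c) ≤ θ)
    (hD : D.im ≤ 0) (k0 : ‖D - I₀‖ ≤ e₀) (hI : I₀ = θ * (J₁ + J₂ + J₃)) (k1 : ‖J - J₁‖ ≤ e₁)
    (k2 : ‖J - ω * A‖ ≤ e₂) (k3 : ‖J₂ - ω * B‖ ≤ e₃) (k4 : ‖J₃‖ ≤ e₄) :
    (ω * (A + B)).im ≤ e₀ * Real.exp c + e₁ + e₂ + e₃ + e₄ := by
  have h0 := abs_le.1 ((abs_im_le_norm _).trans k0)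
  have h1 := abs_le.1 ((abs_im_le_norm _).trans k1)
  have h2 := abs_le.1 ((abs_im_le_norm _).trans k2)
  have h3 := abs_le.1 ((abs_im_le_norm _).trans k3)
  have h4 := abs_le.1 ((abs_im_le_norm _).trans k4)
  have he : 0 ≤ e₀ := (norm_nonneg _).trans k0
  rw [sub_im] at h0 h1 h2 h3
  rw [hI, im_ofReal_mul] at h0
  have h5 : (J₁ + J₂ + J₃).im ≤ e₀ * Real.exp c := by
    rcases le_total (J₁ + J₂ + J₃).im 0 with h | h
    · exact h.trans (by positivity)
    · have h6 := mul_le_mul_of_nonneg_right hθ h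
      have h7 : Real.exp (-c) * (J₁ + J₂ + J₃).im ≤ e₀ := by linarith [h0.1]
      rwa [Real.exp_neg, inv_mul_le_iff₀ (Real.exp_pos c), mul_comm] at h7
  rw [add_im, add_im] at h5
  rw [mul_add, add_im]
  linarith [h1.2, h2.1, h3.1, h4.1]

theorem zq : ShiftStmt → PoleStmt → LFStmt → PFStmt → Ar1Stmt → ZqStmt := by
  intro hs hp hlf hpf har
  obtain ⟨C, hC, hLF⟩ := hlf (1 / 4) (by norm_num)
  obtain ⟨-, -, a3, a4, -, a6, -⟩ := har
  have hK := K0_nonneg
  have hE : 1 ≤ Real.exp 64 := Real.one_le_exp (by norm_num)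
  refine ⟨(4 * C + 1) * Real.exp 64, by nlinarith, ?_⟩
  filter_upwards [hLF, eventually_ge_atTop (400 : ℝ), eventually_ge_atTop (12 * Real.exp 64),
    Real.tendsto_log_atTop.eventually_ge_atTop 8,
    Real.tendsto_log_atTop.eventually (ev_pow (8 * C) (1 / 2) (by norm_num) 1),
    H62.ev_small (2 * Real.exp 64 * (K0 * Real.exp (4 * C) + 2 * K0 + 48)) (by positivity)]
    with T hT hT4 hT5 hL hCL hsm a δ t U N r a1 a2 aδ hU hN1 hN2 hr ht
  have hT0 : 0 < T := by linarith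
  have hL0 : 0 < Real.log T := by linarith
  have ha : 0 < a := lt_of_lt_of_le (by positivity) a1
  have ha1 : a ≤ 1 / 2 := a2.trans (by rw [div_le_iff₀ hL0]; linarith)
  obtain ⟨h, H⟩ := hT δ U (a1.trans aδ.le) hU t (by linarith [(abs_le.1 ht).1])
    (by linarith [(abs_le.1 ht).2])
  rw [pow_one, mul_comm (1 / 2 : ℝ), ← Real.rpow_def_of_pos hT0, ← Real.sqrt_eq_rpow] at hCL
  obtain ⟨θ, φ, hθ, hφd, hφ⟩ := mult H hC hT4 hL hCL ha a2
  obtain ⟨b1, b2, b3⟩ := hpf U a ha fun u hu u' hu' hne => aδ.trans_le (hU.sep u hu u' hu' hne)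
  set L := Real.log T with hLd
  set X : ℝ := √T / 2 with hXd
  set W : ℝ := Real.exp (7 * L ^ 3) with hWd
  have hX : 0 ≤ X := by positivity
  have hX2 : X ^ 2 = T / 4 := by
    rw [hXd, div_pow, Real.sq_sqrt hT0.le]
    norm_num
  have hNp : (0 : ℝ) < N := by linarith
  have hN : 1 ≤ N := by exact_mod_cast hNp
  have hTe : T = Real.exp L := (Real.exp_log hT0).symm
  have hlN : Real.log N ≤ 2 * L := by
    have := Real.log_le_log hNp hN2
    rwa [Real.log_pow] at this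
  have hlN' : L ≤ Real.log N := Real.log_le_log hT0 hN1
  have hb : ∀ n : ℕ, ‖rc 0 (I * a) n‖ ≤ 1 * Real.exp (1 / 2 * Real.log n) := fun n => by
    rcases eq_or_ne n 0 with rfl | hn
    · rw [(a4 0 (I * a)).1, norm_zero]
      positivity
    · rw [one_mul]
      refine (Finset.single_le_sum (f := fun k => ‖rc 0 (I * a) k‖) (fun _ _ => norm_nonneg _)
        (Nat.mem_divisors_self n hn)).trans ((a6 a n ha.le).trans (Real.exp_le_exp.2 ?_))
      exact mul_le_mul_of_nonneg_right ha1 (Real.log_natCast_nonneg n)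
  have hc : ∀ n : ℕ, n ≠ 0 → ‖cc a r N n‖ ≤ Real.exp (3 / 2 * Real.log n) := fun n hn => by
    have := norm_cv zero_le_one (by norm_num) hb hr N hn
    rwa [one_mul, show (1 / 2 + 1 : ℝ) = 3 / 2 by norm_num] at this
  have hNN : N ≤ N ^ 2 := Nat.le_self_pow (by norm_num) N
  have hN8 : ((N ^ 2 : ℕ) : ℝ) * (N ^ 2 : ℕ) ≤ Real.exp (8 * L) := by
    have h1 : ((N ^ 2 : ℕ) : ℝ) ≤ Real.exp (4 * L) := by
      rw [← Real.exp_log (x := ((N ^ 2 : ℕ) : ℝ)) (by positivity), Nat.cast_pow, Real.log_pow]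
      exact Real.exp_le_exp.2 (by push_cast; linarith)
    rw [show 8 * L = 4 * L + 4 * L by ring, Real.exp_add]
    exact mul_le_mul h1 h1 (by positivity) (by positivity)
  have hW : ∀ (y z : ℂ), ‖y‖ ≤ Real.exp (8 * L) → -8 ≤ z.im → ‖y * Rs r N z‖ ≤ W := by
    intro y z h1 h2
    rw [norm_mul]
    refine (mul_le_mul h1 (Rs_big hr hN h2) (norm_nonneg _) (by positivity)).trans ?_
    rw [← Real.exp_add]
    refine Real.exp_le_exp.2 ?_
    nlinarith [mul_le_mul hL hL (by norm_num) hL0.le]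
  have hW1 : ∀ z : ℂ, -8 ≤ z.im → z.im ≤ 0 → ‖dp (cc a r N) N z * Rs r N z‖ ≤ W :=
    fun z h1 h2 => hW _ z ((ds_crude (Finset.Icc_subset_Icc_right hNN) hc h2).trans hN8) h1
  have hW2 : ∀ z : ℂ, -8 ≤ z.im → z.im ≤ 0 →
      ‖ds (cc a r N) (Finset.Ioc N (N ^ 2)) z * Rs r N z‖ ≤ W := fun z h1 h2 =>
    hW _ z ((ds_crude (fun n hn => by
      rw [Finset.mem_Ioc] at hn
      rw [Finset.mem_Icc]
      omega) hc h2).trans hN8) h1
  have i8 : ∀ x : ℝ, ((x : ℂ) + ((-8 : ℝ) : ℂ) * I).im = -8 := fun x => by simp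
  have i0 : ∀ x : ℝ, ((x : ℂ) + ((0 : ℝ) : ℂ) * I).im = 0 := fun x => by simp
  have r8 : ∀ x γ : ℝ, ((x : ℂ) + (γ : ℂ) * I).re = x := fun x γ => by simp
  have hseg : ∀ x ∈ Set.uIcc (t - X) (t + X), |x - t| ≤ X := fun x hx => by
    rw [Set.uIcc_of_le (by linarith)] at hx
    exact abs_le.2 ⟨by linarith [hx.1], by linarith [hx.2]⟩
  have hφc : ∀ γ : ℝ, -8 ≤ γ → γ ≤ 0 →
      ContinuousOn (fun x : ℝ => φ (x + γ * I)) (Set.uIcc (t - X) (t + X)) := fun γ h1 h2 =>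
    hφd.continuousOn.comp (Continuous.continuousOn (by fun_prop)) fun x hx =>
      ⟨by rw [r8]; exact hseg x hx, by simpa using h1, by simpa using h2⟩
  have hS := bd_Rs r N
  have B1 : ∀ u v, Bd (fun z => dp (cc a r N) N z * Rs r N z) u v := fun u v =>
    (bd_dp _ N u v).mul (hS u v)
  have B2 : Bd (fun z => ds (cc a r N) (Finset.Ioc N (N ^ 2)) z * Rs r N z) (-8) (-8) :=
    (bd_ds _ _ _ _).mul (hS _ _)
  have B3 : Bd (fun z => (LSeries (rc 0 (I * a)) (1 / 2 + I * z) * dp r N z -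
      dp (cc a r N) (N ^ 2) z) * Rs r N z) (-8) (-8) :=
    (((bd_D hb (by norm_num) _).mul (bd_dp r N _ _)).sub (bd_dp _ _ _ _)).mul (hS _ _)
  have B0 : Bd (fun z => rat 1 U (fun u => -bt U a u) (fun u => u - a) z *
      (dp r N z * Rs r N z)) (-8) (-8) :=
    (bd_rat _ _ _ _ (by norm_num)).mul ((bd_dp r N _ _).mul (hS _ _))
  have hD : (li (fun z => rat 1 U (fun u => -bt U a u) (fun u => u - a) z *
      (dp r N z * Rs r N z)) t (-8)).im ≤ 0 := by
    rw [im_li hs hp 1 U _ _ r N (by norm_num : (0 : ℝ) < 8) t]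
    refine mul_nonpos_of_nonneg_of_nonpos Real.pi_pos.le (Finset.sum_nonpos fun u hu => ?_)
    have := b1 u hu
    rw [neg_mul, neg_mul, neg_nonpos]
    positivity
  have k0 := H62.li_tail (t := t) (M := W) B0 hX fun x => by
    rw [← mul_assoc]
    refine hW _ _ ?_ (i8 x).ge
    have h3 := H23.rat_le 1 U (fun u => -bt U a u) (fun u => u - a)
      (z := (x : ℂ) + ((-8 : ℝ) : ℂ) * I) (by rw [i8]; norm_num)
    rw [abs_one, Finset.sum_congr rfl fun u hu =>
      show |-bt U a u| = bt U a u by rw [abs_neg, abs_of_pos (b1 u hu)], b2] at h3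
    have hcard : (U.card : ℝ) * a ≤ T + a := by
      have h1 := Factor.card_le U δ T T (by linarith) hT0.le
        (fun u hu => ⟨(hU.mem u hu).1, by linarith [(hU.mem u hu).2]⟩) hU.sep
      have h2 : T / δ ≤ T / a := div_le_div_of_nonneg_left hT0.le ha aδ.le
      have h3 : T / a * a = T := div_mul_cancel₀ _ ha.ne'
      nlinarith
    have h4 := H62.dp_crude hr N ((x : ℂ) + ((-8 : ℝ) : ℂ) * I) (by rw [i8]; norm_num)
    have h5 : T ^ 2 * T ^ 2 ≤ Real.exp (8 * L) := by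
      rw [hTe, ← Real.exp_nat_mul, ← Real.exp_add]
      exact Real.exp_le_exp.2 (by push_cast; linarith)
    rw [norm_mul]
    exact (mul_le_mul (h3.trans (by nlinarith)) (h4.trans hN2) (norm_nonneg _)
      (by positivity)).trans h5
  have k1 := H62.rect_bound (G := fun z => φ z * (dp (cc a r N) N z * Rs r N z) * ga t z)
    (γ₁ := -8) (γ₂ := 0) (t := t) (X := X) (b := 3 * W * Real.exp (64 - T / 4)) (by norm_num) hX
    ((hφd.mul ((B1 (-8) 0).1.mono fun w hw => hw.2)).mul (ga_diff t).differentiableOn)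
    fun w h1 h2 h3 => by
      rw [norm_mul, norm_mul, norm_ga]
      refine mul_le_mul (mul_le_mul (hφ w h1.le h2 h3).2.1 (hW1 w h2 h3) (norm_nonneg _)
        (by norm_num)) (Real.exp_le_exp.2 ?_) (Real.exp_pos _).le (by positivity)
      rw [← sq_abs (w.re - t), h1, hX2]
      nlinarith
  have hκ : 0 ≤ (4 * C + 1) / L := by positivity
  have k2 := seg_mul (t := t) (B1 0 0) hX (fun x => hW1 _ (by rw [i0]; norm_num) (i0 x).le)
    (norm_ei (-(a * L / 2))) hκ (hφc 0 (by norm_num) le_rfl) fun x hx =>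
      (hφ _ (by rwa [r8]) (by rw [i0]; norm_num) (i0 x).le).2.2
  have k3 := seg_mul (t := t) B2 hX (fun x => hW2 _ (i8 x).ge (by rw [i8]; norm_num))
    (norm_ei (-(a * L / 2))) hκ (hφc (-8) le_rfl (by norm_num)) fun x hx =>
      (hφ _ (by rwa [r8]) (i8 x).ge (by rw [i8]; norm_num)).2.2
  have k4 := intervalIntegral.norm_integral_le_of_norm_le_const (a := t - X) (b := t + X)
    (C := 3 * (2 * Real.exp (-(3 / 2) * L)) * Real.exp 64)
    (f := fun x : ℝ => φ (x + (-8 : ℝ) * I) * ((LSeries (rc 0 (I * a))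
      (1 / 2 + I * (x + (-8 : ℝ) * I)) * dp r N (x + (-8 : ℝ) * I) -
      dp (cc a r N) (N ^ 2) (x + (-8 : ℝ) * I)) * Rs r N (x + (-8 : ℝ) * I)) *
        ga t (x + (-8 : ℝ) * I)) fun x hx => by
    have h1 := (hφ (x + (-8 : ℝ) * I) (by rw [r8]; exact hseg x (Set.uIoc_subset_uIcc hx))
      (i8 x).ge (by rw [i8]; norm_num)).2.1
    have h4 := tail_bound (H := 7) zero_le_one (by norm_num) (by norm_num) hb hr N (N ^ 2)
      (hN.trans hNN) (x + (-8 : ℝ) * I) (by rw [i8]; norm_num)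
    have h5 := norm_Rs hr hN (x + (-8 : ℝ) * I) (by rw [i8]; norm_num)
    rw [i8] at h5
    rw [Nat.cast_pow, Real.log_pow] at h4
    rw [norm_mul, norm_mul, norm_mul, norm_ga, i8]
    refine mul_le_mul (mul_le_mul h1 ((mul_le_mul h4 h5 (norm_nonneg _) (by positivity)).trans ?_)
      (by positivity) (by norm_num)) (Real.exp_le_exp.2 ?_) (Real.exp_pos _).le (by positivity)
    · rw [mul_one, mul_assoc, ← Real.exp_add]
      refine mul_le_mul_of_nonneg_left (Real.exp_le_exp.2 ?_) (by norm_num)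
      push_cast
      linarith
    · nlinarith [sq_nonneg (((x : ℂ) + ((-8 : ℝ) : ℂ) * I).re - t)]
  refine (combine hθ hD k0 ?_ k1 k2 k3 k4).trans ?_
  · rw [← intervalIntegral.integral_add (seg_int (B1 _ _) (hφc (-8) le_rfl (by norm_num)))
      (seg_int B2 (hφc (-8) le_rfl (by norm_num))), ← intervalIntegral.integral_add
      ((seg_int (B1 _ _) (hφc (-8) le_rfl (by norm_num))).add
        (seg_int B2 (hφc (-8) le_rfl (by norm_num))))
      (seg_int B3 (hφc (-8) le_rfl (by norm_num))), ← intervalIntegral.integral_const_mul]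
    refine intervalIntegral.integral_congr fun x hx => ?_
    have h1 := (hφ (x + (-8 : ℝ) * I) (by rw [r8]; exact hseg x hx) (i8 x).ge
      (by rw [i8]; norm_num)).1
    have h2 := (a3 0 (I * a) (1 / 2 + I * (x + (-8 : ℝ) * I))
      (by rw [add_zero, re_s, i8]; norm_num) (by rw [add_re, re_s, i8]; norm_num)).2
    have h3 : Bq a (x + (-8 : ℝ) * I) =
        LSeries (rc 0 (I * a)) (1 / 2 + I * (x + (-8 : ℝ) * I)) := by
      rw [h2, Bq, zf, zf, add_zero, mul_add I _ (a : ℂ), add_assoc]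
    rw [← b3 _ (by rw [i8]; norm_num), h1, h3, dp_split _ hNN]
    ring
  have e1 : (fun x : ℝ => ‖dp (cc a r N) N ((t + x : ℝ) + (0 : ℝ) * I) *
      Rs r N ((t + x : ℝ) + (0 : ℝ) * I)‖ * Real.exp (-x ^ 2)) = fun x : ℝ =>
      ‖dp (cc a r N) N (t + x : ℝ)‖ * ‖dp r N (t + x : ℝ)‖ * Real.exp (-x ^ 2) := by
    funext x
    rw [ofReal_zero, zero_mul, add_zero, norm_mul, ← conj_ofReal (t + x), ← conj_dp,
      RCLike.norm_conj, conj_ofReal]
  have e2 : (fun x : ℝ => ‖ds (cc a r N) (Finset.Ioc N (N ^ 2)) ((t + x : ℝ) + (-8 : ℝ) * I) *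
      Rs r N ((t + x : ℝ) + (-8 : ℝ) * I)‖ * Real.exp (-x ^ 2)) = fun x : ℝ =>
      ‖ds (cc a r N) (Finset.Ioc N (N ^ 2)) ((t + x : ℝ) - 8 * I)‖ *
        ‖Rs r N ((t + x : ℝ) - 8 * I)‖ * Real.exp (-x ^ 2) := by
    funext x
    rw [norm_mul, ofReal_neg, neg_mul, ← sub_eq_add_neg, ofReal_ofNat]
  rw [e1, e2, er, hX2, show t + X - (t - X) = √T by rw [hXd]; ring, abs_of_nonneg (Real.sqrt_nonneg T),
    show (-8 : ℝ) ^ 2 = 64 by norm_num, show (0 : ℝ) ^ 2 = 0 by norm_num, Real.exp_zero,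
    show -(T / 4) / 4 = -(T / 16) by ring]
  have p1 : 0 ≤ ∫ x : ℝ, ‖dp (cc a r N) N (t + x : ℝ)‖ * ‖dp r N (t + x : ℝ)‖ *
      Real.exp (-x ^ 2) := integral_nonneg fun x => by positivity
  generalize (∫ x : ℝ, ‖dp (cc a r N) N (t + x : ℝ)‖ * ‖dp r N (t + x : ℝ)‖ *
      Real.exp (-x ^ 2)) = q₁ at p1 ⊢
  generalize (∫ x : ℝ, ‖ds (cc a r N) (Finset.Ioc N (N ^ 2)) ((t + x : ℝ) - 8 * I)‖ *
        ‖Rs r N ((t + x : ℝ) - 8 * I)‖ * Real.exp (-x ^ 2)) = q₂
  rw [sub_eq_add_neg, Real.exp_add, ← hWd] at hsm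
  have m1 : Real.exp (64 - T / 4) ≤ Real.exp 64 * Real.exp (-(T / 16)) := by
    rw [← Real.exp_add]
    exact Real.exp_le_exp.2 (by linarith)
  have m2 : 3 * (2 * Real.exp (-(3 / 2) * L)) * Real.exp 64 * √T ≤ 1 / 2 := by
    have h1 : Real.exp (-(3 / 2) * L) * √T = T⁻¹ := by
      rw [Real.sqrt_eq_rpow, Real.rpow_def_of_pos hT0, ← hLd, ← Real.exp_add, hTe, ← Real.exp_neg]
      congr 1
      ring
    have h2 : 3 * (2 * Real.exp (-(3 / 2) * L)) * Real.exp 64 * √T =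
        6 * Real.exp 64 * (Real.exp (-(3 / 2) * L) * √T) := by ring
    rw [h2, h1, mul_inv_le_iff₀ hT0]
    linarith
  have hW0 : 0 ≤ W := by positivity
  have m3 := mul_le_mul_of_nonneg_left m1 hW0
  have m4 := mul_le_mul_of_nonneg_left hE (mul_nonneg hκ p1)
  have m5 := mul_le_mul_of_nonneg_left hE
    (by positivity : 0 ≤ W * Real.exp (-(T / 16)) * K0)
  have m6 : (4 * C + 1) * Real.exp 64 / L = (4 * C + 1) / L * Real.exp 64 := by ring
  rw [m6]
  generalize (4 * C + 1) / L = κ at *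
  linarith

end Pool.Agent.MP_ca0a54_nt.BH.ZQ
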