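import Pool.Agent.MP_ca0a54_nt.BH.GAL
import Pool.Agent.MP_ca0a54_nt.BH.MV
import Pool.Agent.MP_ca0a54_nt.BH.ZQ
import Pool.Agent.MP_ca0a54_nt.BH.ZE
import Pool.Agent.MP_ca0a54_nt.BH.ZM
import Pool.Agent.MP_ca0a54_nt.BH.ZA
import Pool.Agent.MP_ca0a54_nt.BH.ZO1
import Pool.Agent.MP_ca0a54_nt.BH.ZO2
import Pool.Agent.MP_ca0a54_nt.H91.SC
import Pool.Agent.MP_ca0a54_nt.H51.LF
import Pool.Agent.MP_ca0a54_nt.H23.PF
import Pool.Agent.MP_ca0a54_nt.H88.AR1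

/-! Assembly of the part on the zeros of zeta. -/

namespace Pool.Agent.MP_ca0a54_nt.BH

theorem z1 : Z1Stmt :=
  ZM.z1 H91.shift GAL.fej (ZQ.zq H91.shift H91.pole H51.lf H23.pf H88.ar1)
    (ZE.ze (MV.mv (GAL.gal GAL.fej)) H88.ar1)

theorem zd : ZdStmt := ZA.zd ZA.za

theorem zo1 : Zo1Stmt := ZO1.zo1 ZA.za H88.ar1

end Pool.Agent.MP_ca0a54_nt.BH
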