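import Pool.Agent.MP_ca0a54_nt.BH.GAL
import Pool.Agent.MP_ca0a54_nt.BH.MV
import Pool.Agent.MP_ca0a54_nt.BH.PARS
import Pool.Agent.MP_ca0a54_nt.BH.DEC
import Pool.Agent.MP_ca0a54_nt.BH.MOM
import Pool.Agent.MP_ca0a54_nt.BH.STEP
import Pool.Agent.MP_ca0a54_nt.BH.MEAS
import Pool.Agent.MP_ca0a54_nt.BH.CHAIN
import Pool.Agent.MP_ca0a54_nt.BH.WPOLY
import Pool.Agent.MP_ca0a54_nt.BH.WLOG
import Pool.Agent.MP_ca0a54_nt.BH.DY
import Pool.Agent.MP_ca0a54_nt.BH.HM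
import Pool.Agent.MP_ca0a54_nt.BH.LBD
import Pool.Agent.MP_ca0a54_nt.BH.LAN
import Pool.Agent.MP_ca0a54_nt.BH.EUL
import Pool.Agent.MP_ca0a54_nt.BH.PRET
import Pool.Agent.MP_ca0a54_nt.BH.FIN
import Pool.Agent.MP_ca0a54_nt.BH.MRG
import Pool.Agent.MP_ca0a54_nt.BH.IRR
import Pool.Agent.MP_ca0a54_nt.BH.RATL
import Pool.Agent.MP_ca0a54_nt.BH.WIEN
import Pool.Agent.MP_ca0a54_nt.BH.SEL
import Pool.Agent.MP_ca0a54_nt.BH.SLOW
import Pool.Agent.MP_ca0a54_nt.BH.TWIN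
import Pool.Agent.MP_ca0a54_nt.BH.AVG
import Pool.Agent.MP_ca0a54_nt.BH.GH
import Pool.Agent.MP_ca0a54_nt.BH.DECR
import Pool.Agent.MP_ca0a54_nt.BH.ENT
import Pool.Agent.MP_ca0a54_nt.BH.CH
import Pool.Agent.MP_ca0a54_nt.BH.ZFIN
import Pool.Agent.MP_ca0a54_nt.BH.ZGlue

/-! Assembly. -/

namespace Pool.Agent.MP_ca0a54_nt.BH

theorem mr : MrStmt :=
  have gal := GAL.gal GAL.fej
  have mv := MV.mv gal
  have mom := MOM.mom mv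
  have dy := DY.dy (WLOG.wlog' WPOLY.wpoly)
  MRG.mr mv (PARS.pars gal)
    (CHAIN.chain (DEC.dec mv) (STEP.st1 mom) (STEP.st2 mom) (MEAS.meas mom) MEAS.mert)
    (FIN.fin GAL.fej gal (HM.hm mv (DY.ks dy)) MEAS.mert)

theorem pret : PretStmt :=
  PRET.pret EUL.eul (EUL.rat' (LBD.lbd (DY.dy (WLOG.wlog' WPOLY.wpoly))) LAN.lan)

theorem short (α : ℝ) : Short (tw α) := by
  by_cases h : Irrational α
  · exact IRR.irr α h
  · obtain ⟨q, rfl⟩ := not_not.1 h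
    exact RATL.ratl (fun q _ χ => mr _ (cm_lam q χ) (pret q χ)) q

theorem chowla : ChStmt :=
  CH.ch (ENT.ent (DECR.decr GH.gibbs GH.hoef))
    (AVG.avg (WIEN.wien short) (TWIN.twin' SEL.sel SLOW.slow SEL.phi)) AVG.ps

theorem final : FinalStmt := ZFIN.zfin chowla z1 zd zo1 ZO2.zo2

end Pool.Agent.MP_ca0a54_nt.BH
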