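import Pool.Agent.MP_ca0a54_nt.BH.Basic

/-! The mean value theorem on sparse sets. -/

open Complex MeasureTheory Filter Topology

namespace Pool.Agent.MP_ca0a54_nt.BH.HM

/-- The coefficients of the dual operator. -/
noncomputable def co (f : ℝ → ℂ) (W : Set ℝ) (n : ℕ) : ℂ := ∫ t in W, f t * ei (-(t * Real.log n))

theorem intg {E : Type*} [NormedAddCommGroup E] {g : ℝ → E} {W : Set ℝ} {a b : ℝ}
    (hW : W ⊆ Set.Icc a b) (hg : Continuous g) : IntegrableOn g W :=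
  hg.integrableOn_Icc.mono_set hW

theorem pair {f : ℝ → ℂ} (hf : Continuous f) {W : Set ℝ} {a b : ℝ} (hW : W ⊆ Set.Icc a b)
    (d : ℕ → ℂ) (S : Finset ℕ) : ∫ t in W, f t * dir d S t = ∑ n ∈ S, d n * co f W n := by
  simp only [dir, Finset.mul_sum, co, ← integral_const_mul]
  rw [integral_finsetSum _ fun n _ => intg hW (by fun_prop)]
  exact Finset.sum_congr rfl fun n _ => integral_congr_ae (ae_of_all _ fun t => by ring)

theorem sq_div (z : ℂ) (n : ℕ) : ((‖z‖ ^ 2 / n : ℝ) : ℂ) = (starRingEnd ℂ) z / n * z := by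
  rw [div_mul_eq_mul_div, conj_mul']
  push_cast
  rfl

/-- The dual mean value theorem. -/
theorem dual {C T s : ℝ} {S : Finset ℕ} (hC : 1 ≤ C) (hT : 1 ≤ T) (hS : ∀ n ∈ S, T ≤ (n : ℝ))
    (mv : ∀ c : ℕ → ℂ, ∫ t in (s - T)..(s + T), ‖dir c S t‖ ^ 2 ≤
      C * ∑ n ∈ S, (T + n) * ‖c n‖ ^ 2)
    {f : ℝ → ℂ} (hf : Continuous f) {W : Set ℝ} (hW : W ⊆ Set.Icc (s - T) (s + T)) :
    ∑ n ∈ S, ‖co f W n‖ ^ 2 / n ≤ 2 * C * ∫ t in W, ‖f t‖ ^ 2 := by
  set d : ℕ → ℂ := fun n => (starRingEnd ℂ) (co f W n) / n with hd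
  set X := ∑ n ∈ S, ‖co f W n‖ ^ 2 / n with hX
  have C0 : 0 < C := by linarith
  have h1 : (X : ℂ) = ∫ t in W, f t * dir d S t := by
    rw [pair hf hW, hX, ofReal_sum]
    exact Finset.sum_congr rfl fun n _ => sq_div _ _
  have h2 : ∫ t in W, ‖dir d S t‖ ^ 2 ≤ 2 * C * X := by
    refine (setIntegral_mono_set (Continuous.integrableOn_Icc (by fun_prop))
      (ae_of_all _ fun t => by positivity) hW.eventuallyLE).trans ?_
    rw [integral_Icc_eq_integral_Ioc, ← intervalIntegral.integral_of_le (by linarith)]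
    refine (mv d).trans ?_
    rw [mul_comm 2, mul_assoc, hX, Finset.mul_sum (a := (2 : ℝ))]
    refine mul_le_mul_of_nonneg_left (Finset.sum_le_sum fun n hn => ?_) C0.le
    have n0 : (0 : ℝ) < n := by linarith [hS n hn]
    rw [hd, norm_div, RCLike.norm_conj, Complex.norm_natCast, div_pow]
    refine (mul_le_mul_of_nonneg_right (by linarith [hS n hn] : T + n ≤ 2 * n)
      (by positivity)).trans_eq ?_
    field_simp
  have h3 : X ≤ ∫ t in W, (C * ‖f t‖ ^ 2 + (4 * C)⁻¹ * ‖dir d S t‖ ^ 2) := by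
    refine (le_abs_self X).trans ?_
    rw [← Real.norm_eq_abs, ← norm_real, h1]
    refine norm_integral_le_of_norm_le (intg hW (by fun_prop)) (ae_of_all _ fun t => ?_)
    rw [norm_mul, ← sub_nonneg, show C * ‖f t‖ ^ 2 + (4 * C)⁻¹ * ‖dir d S t‖ ^ 2 -
      ‖f t‖ * ‖dir d S t‖ = (4 * C)⁻¹ * (2 * C * ‖f t‖ - ‖dir d S t‖) ^ 2 by field_simp; ring]
    positivity
  rw [integral_add (intg hW (by fun_prop)) (intg hW (by fun_prop)), integral_const_mul,
    integral_const_mul] at h3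
  have h4 := mul_le_mul_of_nonneg_left h2 (by positivity : 0 ≤ (4 * C)⁻¹)
  rw [show (4 * C)⁻¹ * (2 * C * X) = X / 2 by field_simp; ring] at h4
  linarith

/-- The off diagonal terms. -/
theorem off {ε a b a' b' : ℝ} {S : Finset ℕ} {f : ℝ → ℂ} (hf : Continuous f) {W W' : Set ℝ}
    (mW : MeasurableSet W) (mW' : MeasurableSet W') (hW : W ⊆ Set.Icc a b)
    (hW' : W' ⊆ Set.Icc a' b')
    (hK : ∀ t ∈ W, ∀ t' ∈ W', ‖dir (fun n => 1 / (n : ℂ)) S (t - t')‖ ≤ ε) :
    ‖∑ n ∈ S, (starRingEnd ℂ) (co f W' n) / n * co f W n‖ ≤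
      ε * ((∫ t in W, ‖f t‖) * ∫ t in W', ‖f t‖) := by
  rw [← pair hf hW, mul_left_comm, ← integral_mul_const]
  refine norm_integral_le_of_norm_le (intg hW (by fun_prop))
    ((ae_restrict_iff' mW).2 (ae_of_all _ fun t ht => ?_))
  rw [norm_mul]
  refine mul_le_mul_of_nonneg_left ?_ (norm_nonneg _)
  have e : dir (fun n => (starRingEnd ℂ) (co f W' n) / n) S t =
      ∫ t' in W', (starRingEnd ℂ) (f t') * dir (fun n => 1 / (n : ℂ)) S (t - t') := by
    simp only [dir, Finset.mul_sum, co, ← integral_conj, ← integral_div, ← integral_mul_const]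
    rw [integral_finsetSum _ fun n _ => intg hW' (by fun_prop)]
    refine Finset.sum_congr rfl fun n _ => integral_congr_ae (ae_of_all _ fun t' => ?_)
    simp only [map_mul, conj_ei]
    rw [show -((t - t') * Real.log n) = - -(t' * Real.log n) + -(t * Real.log n) by ring, ei_add]
    ring
  rw [e, ← integral_const_mul]
  refine norm_integral_le_of_norm_le (intg hW' (by fun_prop))
    ((ae_restrict_iff' mW').2 (ae_of_all _ fun t' ht' => ?_))
  rw [norm_mul, RCLike.norm_conj, mul_comm]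
  exact mul_le_mul_of_nonneg_right (hK t ht t' ht') (norm_nonneg _)

theorem cs {a b : ℝ} {f : ℝ → ℂ} (hf : Continuous f) {W : Set ℝ} (hW : W ⊆ Set.Icc a b) (m : ℝ) :
    2 * m * ∫ t in W, ‖f t‖ ≤ (∫ t in W, ‖f t‖ ^ 2) + m ^ 2 * volume.real W := by
  rw [← integral_const_mul, mul_comm (m ^ 2), ← smul_eq_mul (volume.real W), ← setIntegral_const,
    ← integral_add (intg hW (by fun_prop)) (intg hW (by fun_prop))]
  refine integral_mono (intg hW (by fun_prop)) (intg hW (by fun_prop)) fun t => ?_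
  nlinarith [sq_nonneg (‖f t‖ - m)]

/-- The bound for well spaced blocks. -/
theorem core {C T ε : ℝ} {S : Finset ℕ} (hC : 1 ≤ C) (hT : 1 ≤ T) (hε : 0 ≤ ε)
    (hS : ∀ n ∈ S, T ≤ (n : ℝ))
    (mv : ∀ (s : ℝ) (c : ℕ → ℂ), ∫ t in (s - T)..(s + T), ‖dir c S t‖ ^ 2 ≤
      C * ∑ n ∈ S, (T + n) * ‖c n‖ ^ 2)
    (F : Finset ℤ) (W : ℤ → Set ℝ) (mW : ∀ k, MeasurableSet (W k))
    (hW : ∀ k : ℤ, W k ⊆ Set.Icc (k * T - T) (k * T + T))
    (hK : ∀ k ∈ F, ∀ k' ∈ F, k ≠ k' → ∀ t ∈ W k, ∀ t' ∈ W k',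
      ‖dir (fun n => 1 / (n : ℂ)) S (t - t')‖ ≤ ε)
    (hM : ε * ∑ k ∈ F, volume.real (W k) ≤ 1) (c : ℕ → ℂ) :
    ∑ k ∈ F, ∫ t in W k, ‖dir (fun n => c n / n) S t‖ ^ 2 ≤
      (2 * C + 1) * ∑ n ∈ S, ‖c n‖ ^ 2 / n := by
  set f : ℝ → ℂ := fun t => (starRingEnd ℂ) (dir (fun n => c n / n) S t) with hf
  have fc : Continuous f := by fun_prop
  have fn : ∀ t, ‖dir (fun n => c n / n) S t‖ = ‖f t‖ := fun t => (RCLike.norm_conj _).symm
  simp only [fn]
  set J := ∑ k ∈ F, ∫ t in W k, ‖f t‖ ^ 2 with hJ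
  set x := ∑ k ∈ F, ∫ t in W k, ‖f t‖ with hx
  set a : ℕ → ℂ := fun n => ∑ k ∈ F, co f (W k) n with ha
  have h1 : ε * x ^ 2 ≤ J := by
    have b1 := Finset.sum_le_sum fun k (_ : k ∈ F) => cs fc (hW k) (ε * x)
    rw [← Finset.mul_sum, Finset.sum_add_distrib, ← Finset.mul_sum, ← hx, ← hJ] at b1
    have b2 := mul_le_mul_of_nonneg_left hM (by positivity : 0 ≤ ε * x ^ 2)
    nlinarith
  have h2 : ∑ n ∈ S, ‖a n‖ ^ 2 / n ≤ (2 * C + 1) * J := by
    have b1 : ((∑ n ∈ S, ‖a n‖ ^ 2 / n : ℝ) : ℂ) = ∑ k ∈ F, ∑ k' ∈ F, ∑ n ∈ S,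
        (starRingEnd ℂ) (co f (W k') n) / n * co f (W k) n := by
      rw [ofReal_sum]
      simp only [sq_div, ha, map_sum, Finset.sum_div, Finset.sum_mul, Finset.mul_sum]
      rw [Finset.sum_comm]
      exact Finset.sum_congr rfl fun k _ => Finset.sum_comm
    have b2 : ∀ k ∈ F, ∀ k' ∈ F, ‖∑ n ∈ S, (starRingEnd ℂ) (co f (W k') n) / n * co f (W k) n‖ ≤
        (if k = k' then 2 * C * ∫ t in W k, ‖f t‖ ^ 2 else 0) +
          ε * ((∫ t in W k, ‖f t‖) * ∫ t in W k', ‖f t‖) := by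
      intro k hk k' hk'
      split_ifs with e
      · subst e
        simp only [← sq_div]
        rw [← ofReal_sum, norm_real, Real.norm_of_nonneg (by positivity)]
        exact (dual hC hT hS (mv _) fc (hW k)).trans (le_add_of_nonneg_right (by positivity))
      · rw [zero_add]
        exact off fc (mW k) (mW k') (hW k) (hW k') (hK k hk k' hk' e)
    refine (le_abs_self _).trans ?_
    rw [← Real.norm_eq_abs, ← norm_real, b1]
    refine (norm_sum_le_of_le _ fun k hk => norm_sum_le_of_le _ (b2 k hk)).trans ?_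
    simp only [Finset.sum_add_distrib, Finset.sum_ite_eq]
    rw [Finset.sum_ite_mem, Finset.inter_self]
    simp only [← Finset.mul_sum, ← Finset.sum_mul]
    rw [← hJ, ← hx]
    linarith
  have h3 : (J : ℂ) = ∑ n ∈ S, c n / n * a n := by
    simp only [ha, Finset.mul_sum]
    rw [Finset.sum_comm, hJ, ofReal_sum]
    refine Finset.sum_congr rfl fun k _ => ?_
    rw [← pair fc (hW k), ← integral_complex_ofReal]
    refine integral_congr_ae (ae_of_all _ fun t => ?_)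
    simp only [hf, conj_mul', RCLike.norm_conj]
    push_cast
    rfl
  have B0 : 0 < 2 * C + 1 := by linarith
  have h4 : J ≤ ∑ n ∈ S, ((2 * C + 1) / 2 * (‖c n‖ ^ 2 / n) +
      (2 * (2 * C + 1))⁻¹ * (‖a n‖ ^ 2 / n)) := by
    refine (le_abs_self _).trans ?_
    rw [← Real.norm_eq_abs, ← norm_real, h3]
    refine norm_sum_le_of_le _ fun n hn => ?_
    have n0 : (0 : ℝ) < n := by linarith [hS n hn]
    rw [norm_mul, norm_div, Complex.norm_natCast, ← sub_nonneg,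
      show (2 * C + 1) / 2 * (‖c n‖ ^ 2 / n) + (2 * (2 * C + 1))⁻¹ * (‖a n‖ ^ 2 / n) -
        ‖c n‖ / n * ‖a n‖ = (2 * (2 * C + 1) * n)⁻¹ * ((2 * C + 1) * ‖c n‖ - ‖a n‖) ^ 2 by
        field_simp; ring]
    positivity
  rw [Finset.sum_add_distrib, ← Finset.mul_sum, ← Finset.mul_sum] at h4
  have h5 := mul_le_mul_of_nonneg_left h2 (by positivity : 0 ≤ (2 * (2 * C + 1))⁻¹)
  rw [show (2 * (2 * C + 1))⁻¹ * ((2 * C + 1) * J) = J / 2 by field_simp] at h5
  linarith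

theorem hm (hM : MvStmt) (hK : KsStmt) : HmStmt := by
  intro η h0 h1
  obtain ⟨C, hC, hM⟩ := hM
  obtain ⟨β, hβ, hK⟩ := hK η h0 h1
  refine ⟨β, 2 * (2 * C + 1), hβ, by linarith, ?_⟩
  filter_upwards [hK, eventually_ge_atTop 0] with V hK hV U c mU hU vU
  set S := iv (η * V) (2 * V) with hS
  set T := Real.exp (η * V) with hT
  have T1 : 1 ≤ T := Real.one_le_exp (by positivity)
  have T0 : 0 < T := by linarith
  have e0 := Real.exp_pos V
  set W : ℤ → Set ℝ := fun k => U ∩ {t | ⌊t / T⌋ = k} with hW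
  have mW : ∀ k, MeasurableSet (W k) := fun k =>
    mU.inter ((Int.measurable_floor.comp (measurable_id.div_const T)) (measurableSet_singleton k))
  have bW : ∀ k : ℤ, ∀ t ∈ W k, k * T ≤ t ∧ t ≤ k * T + T := fun k t ht => by
    obtain ⟨a1, a2⟩ := Int.floor_eq_iff.1 ht.2
    rw [le_div_iff₀ T0] at a1
    rw [div_lt_iff₀ T0] at a2
    exact ⟨a1, by linarith⟩
  have sW : ∀ k : ℤ, W k ⊆ Set.Icc (k * T - T) (k * T + T) := fun k t ht =>
    ⟨by linarith [(bW k t ht).1], (bW k t ht).2⟩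
  set F : Finset ℤ := Finset.Icc ⌊-(2 * Real.exp V) / T⌋ ⌊2 * Real.exp V / T⌋ with hF
  have eU : U = ⋃ k ∈ F, W k := by
    refine Set.Subset.antisymm (fun t ht => Set.mem_biUnion (Finset.mem_Icc.2 ⟨?_, ?_⟩)
      (⟨ht, rfl⟩ : t ∈ W ⌊t / T⌋)) (Set.iUnion₂_subset fun k _ => Set.inter_subset_left)
    · exact Int.floor_le_floor (div_le_div_of_nonneg_right (hU ht).1 T0.le)
    · exact Int.floor_le_floor (div_le_div_of_nonneg_right (hU ht).2 T0.le)
  have dW : Set.Pairwise (F : Set ℤ) (Function.onFun Disjoint W) := fun k _ k' _ e =>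
    Set.disjoint_left.2 fun t a b => e (a.2.symm.trans b.2)
  have vW : Real.exp (-β * V) * ∑ k ∈ F, volume.real (W k) ≤ 1 := by
    rw [← measureReal_biUnion_finset dW (fun k _ => mW k)
      fun k _ => ((measure_mono (sW k)).trans_lt measure_Icc_lt_top).ne, ← eU]
    refine (mul_le_mul_of_nonneg_left (ENNReal.toReal_le_of_le_ofReal (Real.exp_pos _).le vU)
      (Real.exp_pos _).le).trans_eq ?_
    rw [← Real.exp_add, neg_mul, neg_add_cancel, Real.exp_zero]
  have key : ∀ G ⊆ F, (∀ k ∈ G, ∀ k' ∈ G, k < k' → k + 2 ≤ k') →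
      ∑ k ∈ G, ∫ t in W k, ‖dir (fun n => c n / n) S t‖ ^ 2 ≤
        (2 * C + 1) * ∑ n ∈ S, ‖c n‖ ^ 2 / n := by
    intro G hG sp
    refine core hC T1 (Real.exp_pos _).le (fun n hn => ?_)
      (fun s d => (hM d S s T (zero_notMem_iv _ _) T1).1) G W mW sW
      (fun k hk k' hk' e t ht t' ht' => hK _ ?_ ?_) (le_trans (mul_le_mul_of_nonneg_left
        (Finset.sum_le_sum_of_subset_of_nonneg hG fun _ _ _ => measureReal_nonneg)
        (Real.exp_pos _).le) vW) c
    · exact ((Nat.floor_lt T0.le).1 (Finset.mem_Ioc.1 hn).1).le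
    · obtain ⟨a1, a2⟩ := bW k t ht
      obtain ⟨a3, a4⟩ := bW k' t' ht'
      rcases lt_or_gt_of_ne e with l | l
      · have : (k : ℝ) + 2 ≤ k' := by exact_mod_cast sp k hk k' hk' l
        exact le_abs.2 (Or.inr (by nlinarith))
      · have : (k' : ℝ) + 2 ≤ k := by exact_mod_cast sp k' hk' k hk l
        exact le_abs.2 (Or.inl (by nlinarith))
    · obtain ⟨a1, a2⟩ := hU ht.1
      obtain ⟨a3, a4⟩ := hU ht'.1
      exact abs_le.2 ⟨by linarith, by linarith⟩
  have k1 := key (F.filter fun k => k % 2 = 0) (Finset.filter_subset _ _) fun k a k' b l => by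
    have := (Finset.mem_filter.1 a).2
    have := (Finset.mem_filter.1 b).2
    omega
  have k2 := key (F.filter fun k => ¬k % 2 = 0) (Finset.filter_subset _ _) fun k a k' b l => by
    have := (Finset.mem_filter.1 a).2
    have := (Finset.mem_filter.1 b).2
    omega
  unfold nsq
  rw [← ofReal_integral_eq_lintegral_ofReal (intg hU (by fun_prop))
    (ae_of_all _ fun t => by positivity)]
  refine ENNReal.ofReal_le_ofReal ?_
  rw [eU, integral_biUnion_finset F (fun k _ => mW k) dW fun k _ => intg (sW k) (by fun_prop),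
    ← Finset.sum_filter_add_sum_filter_not F fun k => k % 2 = 0]
  linarith

end Pool.Agent.MP_ca0a54_nt.BH.HM
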