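import Pool.Agent.MP_ca0a54_nt.H10.QB
import Pool.Agent.MP_4b405e_nt.H17.Ent

/-!
Gaps below one half of the mean spacing: definitions and the statements of the steps.
Part M: short sums of multiplicative functions. Part T: two point correlations of the Liouville
function. Part Z: zeros of zeta.
-/

open Complex MeasureTheory Filter Topology

namespace Pool.Agent.MP_ca0a54_nt.BH

open Pool.Agent.MP_ca0a54_nt.L0 Pool.Agent.MP_ca0a54_nt.H24 Pool.Agent.MP_ca0a54_nt.H10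
open Pool.Agent.MP_4b405e_nt.H17 (Sp MP)

/-- `exp (i x)`. -/
noncomputable def ei (x : ℝ) : ℂ := exp (I * x)

/-- The Liouville function. -/
def lam (n : ℕ) : ℝ := ((ArithmeticFunction.liouville n : ℤ) : ℝ)

/-- `∑_{n ≤ N} f n / n`. -/
noncomputable def LS (N : ℕ) (f : ℕ → ℝ) : ℝ := ∑ n ∈ Finset.Icc 1 N, f n / n

/-- `∑_{n ≤ N} f n / n`, complex values. -/
noncomputable def LC (N : ℕ) (f : ℕ → ℂ) : ℂ := ∑ n ∈ Finset.Icc 1 N, f n / n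

/-- `∑_{n ∈ S} c n · n ^ (-i t)`. -/
noncomputable def dir (c : ℕ → ℂ) (S : Finset ℕ) (t : ℝ) : ℂ :=
  ∑ n ∈ S, c n * ei (-(t * Real.log n))

/-- The integers in `(e^v, e^w]`. -/
noncomputable def iv (v w : ℝ) : Finset ℕ := Finset.Ioc ⌊Real.exp v⌋₊ ⌊Real.exp w⌋₊

/-- The primes in `(e^v, e^w]`. -/
noncomputable def prm (v w : ℝ) : Finset ℕ := (iv v w).filter Nat.Prime

/-- The sum of the reciprocals. -/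
noncomputable def rcp (B : Finset ℕ) : ℝ := ∑ p ∈ B, 1 / (p : ℝ)

/-- The number of divisors of `n` in `B`. -/
def om (B : Finset ℕ) (n : ℕ) : ℝ := ((B.filter fun p => p ∣ n).card : ℝ)

/-- The square of the norm, as an extended real. -/
noncomputable def nsq (z : ℂ) : ENNReal := ENNReal.ofReal (‖z‖ ^ 2)

/-- Completely multiplicative and bounded by one. -/
structure CM (g : ℕ → ℂ) : Prop where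
  mul : ∀ m n, g (m * n) = g m * g n
  bd : ∀ n, ‖g n‖ ≤ 1

/-- `∑_{e^v < n ≤ e^(v+3)} g n · n ^ (-1 - i t)`. -/
noncomputable def FF (g : ℕ → ℂ) (v t : ℝ) : ℂ := dir (fun n => g n / n) (iv v (v + 3)) t

/-- Short sums of `g` are small in the logarithmic mean. -/
def Short (g : ℕ → ℂ) : Prop := ∀ ε : ℝ, 0 < ε → ∀ᶠ K : ℕ in atTop, ∀ᶠ N : ℕ in atTop,
  LS N (fun n => ‖∑ j ∈ Finset.range K, g (n + j)‖ ^ 2) ≤ ε * K ^ 2 * Real.log N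

/-- `g` does not pretend to be `n ^ (i t)` on large primes. -/
def Pret (g : ℕ → ℂ) : Prop := ∃ c C : ℝ, 0 < c ∧ c ≤ 1 ∧ 0 ≤ C ∧ ∀ A : ℝ, 1 ≤ A →
  ∀ᶠ V : ℝ in atTop, ∀ y z t : ℝ, V / A ≤ y → y ≤ z → z ≤ V → |t| ≤ 2 * Real.exp V →
  (dir (fun p => g p / p) (prm y z) t).re ≤ (1 - c) * rcp (prm y z) + C

/-! ## Part M -/

/-! ### Row GAL -/

def FejStmt : Prop := ∀ θ : ℝ, 0 < θ →
  (∀ ξ : ℝ, ∫ t : ℝ, ((max (θ - |t|) 0 : ℝ) : ℂ) * ei (-(ξ * t)) =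
    (((θ * Real.sinc (θ * ξ / 2)) ^ 2 : ℝ) : ℂ)) ∧
  (Integrable fun u : ℝ => (θ * Real.sinc (θ * u / 2)) ^ 2) ∧
  ∀ x : ℝ, ∫ u : ℝ, (((θ * Real.sinc (θ * u / 2)) ^ 2 : ℝ) : ℂ) * ei (u * x) =
    ((2 * Real.pi * max (θ - |x|) 0 : ℝ) : ℂ)

def GalStmt : Prop := ∀ (θ : ℝ) (c : ℕ → ℂ) (S : Finset ℕ), 0 < θ →
  ENNReal.ofReal (2 * Real.pi) *
      ∫⁻ v : ℝ, nsq (∑ n ∈ S.filter fun n : ℕ => v < Real.log n ∧ Real.log n ≤ v + θ, c n) =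
    ∫⁻ u : ℝ, nsq (dir c S u) * ENNReal.ofReal ((θ * Real.sinc (θ * u / 2)) ^ 2)

/-! ### Row MV -/

def MvStmt : Prop := ∃ C : ℝ, 1 ≤ C ∧ ∀ (c : ℕ → ℂ) (S : Finset ℕ) (s T : ℝ), 0 ∉ S → 1 ≤ T →
  ∫ t in (s - T)..(s + T), ‖dir c S t‖ ^ 2 ≤ C * ∑ n ∈ S, (T + n) * ‖c n‖ ^ 2 ∧
  ∫⁻ t in Set.Icc (s - T) (s + T), nsq (dir c S t) ≤
    ENNReal.ofReal (C * ∑ n ∈ S, (T + n) * ‖c n‖ ^ 2) ∧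
  ∫⁻ t : ℝ, nsq (dir c S t) * ENNReal.ofReal (1 / (1 + (t / T) ^ 2)) ≤
    ENNReal.ofReal (C * ∑ n ∈ S, (T + n) * ‖c n‖ ^ 2)

/-! ### Row PARS -/

def ParsStmt : Prop := ∃ C : ℝ, 1 ≤ C ∧ ∀ (g : ℕ → ℂ) (K : ℕ) (H v : ℝ), (∀ n, ‖g n‖ ≤ 1) →
  1 ≤ K → 1 ≤ H → (K : ℝ) ≤ Real.exp v → 2 * H ≤ Real.exp v →
  ENNReal.ofReal (∑ n ∈ iv v (v + 1), ‖∑ j ∈ Finset.range K, g (n + j)‖ ^ 2 / n) ≤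
    ENNReal.ofReal (C * K ^ 2) *
      (∫⁻ u : ℝ, nsq (FF g v u) * ENNReal.ofReal (Real.sinc (H * Real.exp (-v) * u / 2) ^ 2)) +
    ENNReal.ofReal (C * H ^ 2)

/-! ### Rows DEC, MOM, STEP, MEAS, CHAIN -/

/-- The primes of the stage with parameter `a`. -/
noncomputable def stg (a : ℝ) : Finset ℕ := prm (a ^ 2) (a ^ 3)

/-- The sum over the block number `b` of the stage. -/
noncomputable def QB (g : ℕ → ℂ) (a : ℝ) (b : ℕ) (t : ℝ) : ℂ :=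
  dir (fun p => g p / p) ((stg a).filter fun p : ℕ => ⌊a * Real.log p⌋₊ = b) t

/-- The bilinear approximation. -/
noncomputable def Bil (g : ℕ → ℂ) (a v t : ℝ) : ℂ :=
  ∑ b ∈ Finset.range (⌊a ^ 4⌋₊ + 1), QB g a b t * FF g (v - b / a) t

/-- All block sums of the stage are small. -/
def Sml (g : ℕ → ℂ) (a α : ℝ) : Set ℝ := {t | ∀ b : ℕ, ‖QB g a b t‖ ≤ Real.exp (-α * (b / a))}

def DecStmt : Prop := ∃ C : ℝ, 1 ≤ C ∧ ∀ (g : ℕ → ℂ) (a v : ℝ), CM g → 1 ≤ a → a ^ 3 ≤ v →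
  0 < rcp (stg a) →
  ∫⁻ t in Set.Icc (-Real.exp v) (Real.exp v), nsq (FF g v t - ((rcp (stg a))⁻¹ : ℝ) * Bil g a v t) ≤
    ENNReal.ofReal (C * (1 / rcp (stg a) + 1 / a + Real.exp (-v)))

def MomStmt : Prop := ∃ C : ℝ, 1 ≤ C ∧ ∀ (Q : Finset ℕ) (a c : ℕ → ℂ) (w u T : ℝ) (l : ℕ),
  (∀ p ∈ Q, p.Prime ∧ w ≤ Real.log p ∧ Real.log p ≤ w + 1) → (∀ p, ‖a p‖ ≤ 1 / p) →
  (∀ m, ‖c m‖ ≤ 1 / m) → 1 ≤ T → T ≤ Real.exp (u + l * w) →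
  ∫⁻ t in Set.Icc (-T) T, nsq (dir a Q t ^ l * dir c (iv u (u + 3)) t) ≤
    ENNReal.ofReal (C * (2 * l).factorial * (4 + l))

def St1Stmt : Prop := ∀ α : ℝ, 0 < α → ∀ᶠ a : ℝ in atTop, ∀ (g : ℕ → ℂ) (α' v T : ℝ),
  (∀ n, ‖g n‖ ≤ 1) → α ≤ α' → 1 ≤ T → T ≤ Real.exp (v - a ^ 3) →
  ∫⁻ t in Set.Icc (-T) T ∩ Sml g a α', nsq (Bil g a v t) ≤ ENNReal.ofReal (1 / a)

def St2Stmt : Prop := ∀ᶠ a : ℝ in atTop, ∀ (g : ℕ → ℂ) (α α' v T : ℝ), (∀ n, ‖g n‖ ≤ 1) →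
  0 ≤ α → α + 4 / a ≤ α' → α' ≤ 1 / 4 → 1 ≤ T → T ≤ Real.exp v →
  ∫⁻ t in (Set.Icc (-T) T ∩ Sml g (a ^ 2) α') \ Sml g a α, nsq (Bil g (a ^ 2) v t) ≤
    ENNReal.ofReal (1 / a)

def MeasStmt : Prop := ∀ α : ℝ, 0 < α → α ≤ 1 / 4 → ∀ᶠ V : ℝ in atTop,
  ∀ (g : ℕ → ℂ) (a α' : ℝ), (∀ n, ‖g n‖ ≤ 1) → Real.log V ≤ a → a ≤ Real.log V ^ 2 → 0 ≤ α' →
  α' ≤ 2 * α → volume (Set.Icc (-Real.exp V) (Real.exp V) \ Sml g a α') ≤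
    ENNReal.ofReal (Real.exp (6 * α * V))

def MertStmt : Prop := ∃ C : ℝ, 1 ≤ C ∧ ∀ y z : ℝ, C ≤ y → y ≤ z →
  Real.log (z / y) / C - C ≤ rcp (prm y z)

def ChainStmt : Prop := ∀ α ε η : ℝ, 0 < α → α ≤ 1 / 8 → 0 < ε → 0 < η → ∃ H : ℝ, 1 ≤ H ∧
  ∀ᶠ V : ℝ in atTop, ∀ g : ℕ → ℂ, CM g → ∃ U : Set ℝ, MeasurableSet U ∧
  U ⊆ Set.Icc (-Real.exp V) (Real.exp V) ∧ volume U ≤ ENNReal.ofReal (Real.exp (6 * α * V)) ∧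
  ∀ v : ℝ, η * V ≤ v → v ≤ V →
  ∫⁻ t in Set.Icc (-(Real.exp v / H)) (Real.exp v / H) \ U, nsq (FF g v t) ≤ ENNReal.ofReal ε

/-! ### Rows WPOLY, WLOG, DY: exponential sums -/

def WpolyStmt : Prop := ∀ k : ℕ, 1 ≤ k → ∃ c C : ℝ, 0 < c ∧ c ≤ 1 ∧ 1 ≤ C ∧
  ∀ (P : Polynomial ℝ) (M M' : ℕ), P.natDegree ≤ k → P.coeff k ≠ 0 → 1 ≤ M → M' ≤ M →
  |P.coeff k| * k.factorial * (M : ℝ) ^ (k - 1) ≤ Real.pi →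
  ‖∑ m ∈ Finset.range M', ei (P.eval (m : ℝ))‖ ≤
    C * M * ((|P.coeff k| * (M : ℝ) ^ k) ^ (-c) + (M : ℝ) ^ (-c))

def WlogStmt : Prop := ∀ A : ℝ, 1 ≤ A → ∃ c C : ℝ, 0 < c ∧ c ≤ 1 ∧ 1 ≤ C ∧
  ∀ (x τ : ℝ) (M : ℕ), 1 ≤ x → (M : ℝ) ≤ x → 1 ≤ |τ| → |τ| ≤ x ^ A →
  ‖∑ m ∈ Finset.range M, ei (-(τ * Real.log (x + m)))‖ ≤ C * x * (|τ| ^ (-c) + x ^ (-c))

def DyStmt : Prop := ∀ A : ℝ, 1 ≤ A → ∃ c C : ℝ, 0 < c ∧ c ≤ 1 ∧ 1 ≤ C ∧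
  ∀ (N₁ N₂ : ℕ) (σ r τ : ℝ), 1 ≤ N₁ → 0 ≤ r → r ≤ 1 → 1 - r ≤ σ → 1 ≤ |τ| →
  |τ| ≤ (N₁ : ℝ) ^ A →
  ‖dir (fun n => (((n : ℝ) ^ (-σ) : ℝ) : ℂ)) (Finset.Ioc N₁ N₂) τ‖ ≤
    C * (1 + Real.log N₂) * (N₂ : ℝ) ^ r * (|τ| ^ (-c) + (N₁ : ℝ) ^ (-c))

def KsStmt : Prop := ∀ η : ℝ, 0 < η → η ≤ 1 → ∃ β : ℝ, 0 < β ∧ ∀ᶠ V : ℝ in atTop, ∀ τ : ℝ,
  Real.exp (η * V) ≤ |τ| → |τ| ≤ 4 * Real.exp V →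
  ‖dir (fun n => 1 / (n : ℂ)) (iv (η * V) (2 * V)) τ‖ ≤ Real.exp (-β * V)

/-! ### Row HM: the mean value theorem on sparse sets -/

def HmStmt : Prop := ∀ η : ℝ, 0 < η → η ≤ 1 → ∃ β C : ℝ, 0 < β ∧ 1 ≤ C ∧ ∀ᶠ V : ℝ in atTop,
  ∀ (U : Set ℝ) (c : ℕ → ℂ), MeasurableSet U →
  U ⊆ Set.Icc (-(2 * Real.exp V)) (2 * Real.exp V) →
  volume U ≤ ENNReal.ofReal (Real.exp (β * V)) →
  ∫⁻ t in U, nsq (dir (fun n => c n / n) (iv (η * V) (2 * V)) t) ≤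
    ENNReal.ofReal (C * ∑ n ∈ iv (η * V) (2 * V), ‖c n‖ ^ 2 / n)

/-! ### Rows LBD, LAN, EUL, PRET -/

def LbdStmt : Prop := ∀ κ : ℝ, 0 < κ → ∃ r : ℝ, 0 < r ∧ r ≤ 1 / 2 ∧ ∀ᶠ V : ℝ in atTop, ∀ s : ℂ,
  1 - r ≤ s.re → s.re ≤ 2 → 1 ≤ |s.im| → |s.im| ≤ Real.exp (3 * V) →
  ‖riemannZeta s‖ ≤ Real.exp (κ * r * V)

def LanStmt : Prop := ∀ (f : ℂ → ℂ) (r M δ : ℝ), 0 < r → 0 < M → 0 ≤ δ → δ ≤ r / 8 →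
  DifferentiableOn ℂ f (Metric.ball 0 r) → f 0 ≠ 0 →
  (∀ z ∈ Metric.ball (0 : ℂ) r, ‖f z‖ ≤ Real.exp M * ‖f 0‖) →
  (∀ z ∈ Metric.ball (0 : ℂ) r, f z = 0 → z.re ≤ -δ) →
  ‖f (-δ)‖ ≤ Real.exp (16 * M * δ / r) * ‖f 0‖

def RatStmt : Prop := ∀ A : ℝ, 1 ≤ A → ∀ᶠ V : ℝ in atTop, ∀ y z τ : ℝ, V / A ≤ y → y ≤ z →
  y ≤ V → 2 ≤ |τ| → |τ| ≤ Real.exp (2 * V) →
  ‖riemannZeta (1 + (1 / z : ℝ) + I * τ)‖ ≤ 3 * ‖riemannZeta (1 + (1 / y : ℝ) + I * τ)‖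

def EulStmt : Prop := ∃ C : ℝ, 0 ≤ C ∧ ∀ (q : ℕ) [NeZero q] (χ : DirichletCharacter ℂ q)
  (y z t : ℝ), 1 ≤ y → y ≤ z →
  |(dir (fun p => χ p / p) (prm y z) t).re -
    (Real.log ‖χ.LFunction (1 + (1 / z : ℝ) + I * t)‖ -
      Real.log ‖χ.LFunction (1 + (1 / y : ℝ) + I * t)‖)| ≤ C

def PretStmt : Prop := ∀ (q : ℕ) [NeZero q] (χ : DirichletCharacter ℂ q),
  Pret fun n => lam n * χ n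

/-! ### Rows FIN, MRG -/

def FinStmt : Prop := ∀ g : ℕ → ℂ, CM g → Pret g → ∀ η ε : ℝ, 0 < η → η ≤ 1 / 2 → 0 < ε →
  ∃ β : ℝ, 0 < β ∧ ∀ᶠ V : ℝ in atTop, ∀ U : Set ℝ, MeasurableSet U →
  U ⊆ Set.Icc (-Real.exp V) (Real.exp V) → volume U ≤ ENNReal.ofReal (Real.exp (β * V)) →
  ∫⁻ v in Set.Icc (η * V) V, ∫⁻ t in U, nsq (FF g v t) ≤ ENNReal.ofReal (ε * V)

def MrStmt : Prop := ∀ g : ℕ → ℂ, CM g → Pret g → Short g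

/-! ## Part T -/

/-- The twisted Liouville function. -/
noncomputable def tw (α : ℝ) (n : ℕ) : ℂ := lam n * ei (2 * Real.pi * α * n)

def IrrStmt : Prop := ∀ α : ℝ, Irrational α → Short (tw α)

def RatlStmt : Prop :=
  (∀ (q : ℕ) [NeZero q] (χ : DirichletCharacter ℂ q), Short fun n => lam n * χ n) →
  ∀ α : ℚ, Short (tw α)

def WienStmt : Prop := ∀ δ : ℝ, 0 < δ → ∀ᶠ K : ℕ in atTop, ∀ᶠ N : ℕ in atTop,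
  ∑ k ∈ Finset.Icc 1 K, LS N (fun n => lam n * lam (n + k)) ^ 2 ≤ δ * K * Real.log N ^ 2

/-! ### Rows SEL, SLOW, TWIN: the sieve -/

def SelStmt : Prop := ∀ (A : Finset ℕ) (E : ℕ → Finset ℕ) (F : Finset (Finset ℕ)) (ν : ℕ → ℝ)
  (X R : ℝ), ∅ ∈ F → (∀ D ∈ F, ∀ D' ⊆ D, D' ∈ F) → (∀ D ∈ F, ∀ p ∈ D, 0 < ν p ∧ ν p < 1) →
  (∀ D ∈ F, ∀ D' ∈ F,
    |((A.filter fun n => ∀ p ∈ D ∪ D', n ∈ E p).card : ℝ) - X * ∏ p ∈ D ∪ D', ν p| ≤ R) →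
  ((A.filter fun n => ∀ D ∈ F, ∀ p ∈ D, n ∉ E p).card : ℝ) ≤
    X / (∑ D ∈ F, ∏ p ∈ D, ν p / (1 - ν p)) + R * (∑ D ∈ F, ∏ p ∈ D, 1 / ν p) ^ 2

/-- The sets of primes not dividing `m` with product at most `z`. -/
def fam (m z : ℕ) : Finset (Finset ℕ) :=
  ((Finset.Icc 1 z).filter fun p => p.Prime ∧ ¬ p ∣ m).powerset.filter fun D => ∏ p ∈ D, p ≤ z

def SlowStmt : Prop := ∀ m y : ℕ, 1 ≤ m → 2 ∣ m → 1 ≤ y →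
  ((m.totient : ℝ) / m * Real.log y / 2) ^ 2 ≤
    ∑ D ∈ fam m (y ^ 2), ∏ p ∈ D, 2 / (p : ℝ) / (1 - 2 / (p : ℝ))

def PhiStmt : Prop := ∃ C : ℝ, 1 ≤ C ∧ ∀ K : ℕ,
  ∑ k ∈ Finset.Icc 1 K, (((2 * k : ℕ) : ℝ) / (2 * k).totient) ^ 4 ≤ C * K

/-- The number of primes `p` in `(x, 3 x]` with `p + k` prime. -/
def twin (x k : ℕ) : ℕ := ((Finset.Ioc x (3 * x)).filter fun p => p.Prime ∧ (p + k).Prime).card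

def TwinStmt : Prop := ∃ C : ℝ, 1 ≤ C ∧ ∀ x : ℕ, 2 ≤ x →
  ∑ k ∈ Finset.Icc 1 (2 * x), (twin x k : ℝ) ^ 2 ≤ C * (x : ℝ) ^ 3 / Real.log x ^ 4

/-! ### Rows AVG, PS -/

def AvgStmt : Prop := ∀ (h : ℕ) (c ε : ℝ), 1 ≤ h → 0 < c → 0 < ε → ∀ᶠ x : ℕ in atTop,
  ∀ᶠ N : ℕ in atTop, ∀ P : Finset ℕ, (∀ p ∈ P, p.Prime ∧ x < p ∧ p ≤ 3 * x) →
  c * x / Real.log x ≤ P.card →
  LS N (fun n => (∑ p ∈ P, lam (n + p * h)) ^ 2) ≤ ε * (P.card : ℝ) ^ 2 * Real.log N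

def PsStmt : Prop := ∀ η : ℝ, 0 < η → η ≤ 1 → ∃ c : ℝ, 0 < c ∧ ∀ᶠ W : ℝ in atTop,
  ∃ (x : ℝ) (P : Finset ℕ), W / 8 ≤ x ∧ (1 + η) * x ≤ W ∧
  (∀ p ∈ P, p.Prime ∧ x < p ∧ (p : ℝ) ≤ (1 + η) * x) ∧ c * W / Real.log W ≤ P.card

/-! ### Rows GH, DECR, ENT: the entropy decrement -/

def GibbsStmt : Prop := ∀ (S : Sp) (α β : Type) (X : S.Ω → α) (Y : S.Ω → β) (T : Finset β)
  (φ : α → β → ℝ) (B : ℝ), (∀ ω, Y ω ∈ T) →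
  (∀ ω, ∑ y ∈ T, Real.exp (φ (X ω) y) ≤ T.card * Real.exp B) →
  S.E (fun ω => φ (X ω) (Y ω)) ≤
    Real.log T.card - S.H (fun ω => (X ω, Y ω)) + S.H X + B

def HoefStmt : Prop := ∀ (P : Finset ℕ) (f : ℕ → ℕ → ℝ) (b : ℝ), (∀ p ∈ P, p.Prime) →
  (∀ p ∈ P, ∀ r, f p (r + p) = f p r) → (∀ p ∈ P, ∑ r ∈ Finset.range p, f p r = 0) →
  (∀ p ∈ P, ∀ r, |f p r| ≤ b) →
  ∑ y ∈ Finset.range (∏ p ∈ P, p), Real.exp |∑ p ∈ P, f p y| ≤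
    ((∏ p ∈ P, p : ℕ) : ℝ) * (2 * Real.exp (b ^ 2 * P.card / 2))

/-- The functional of the entropy decrement. -/
def FA (x : ℕ → ℝ) (y : ℕ) (P : Finset ℕ) (h H : ℕ) : ℝ :=
  ∑ p ∈ P, ∑ j ∈ Finset.range H,
    ((if p ∣ y + j then (p : ℝ) else 0) - 1) * (x j * x (j + p * h))

/-- The sets of primes are admissible. -/
def Adm (h : ℕ) (c : ℝ) (P : ℕ → Finset ℕ) : Prop := ∀ᶠ H : ℕ in atTop,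
  (∀ p ∈ P H, p.Prime ∧ p * h ≤ H) ∧ c * H / Real.log H ≤ (P H).card

def DecrStmt : Prop := ∀ (h H₀ : ℕ) (c ε : ℝ) (P : ℕ → Finset ℕ), 1 ≤ h → 0 < c → 0 < ε →
  Adm h c P → ∃ (G : Finset ℕ) (Q : ℕ), 1 ≤ Q ∧ (∀ H ∈ G, H₀ ≤ H ∧ ∀ p ∈ P H, p ∣ Q) ∧
  ∀ (S : Sp) (σ : S.Ω → S.Ω) (x : S.Ω → ℝ) (y : S.Ω → ℕ), MP S S σ →
  (∀ ω, x ω = 1 ∨ x ω = -1) → (∀ ω, y (σ ω) ≡ y ω + 1 [MOD Q]) →
  ∃ H ∈ G, S.E (fun ω => |FA (fun j => x (σ^[j] ω)) (y ω) (P H) h H|) ≤ ε * (P H).card * H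

def EntStmt : Prop := ∀ (h H₀ : ℕ) (c ε : ℝ) (P : ℕ → Finset ℕ), 1 ≤ h → 0 < c → 0 < ε →
  Adm h c P → ∃ G : Finset ℕ, (∀ H ∈ G, H₀ ≤ H) ∧ ∀ᶠ N : ℕ in atTop, ∃ H ∈ G,
  LS N (fun n => |FA (fun j => lam (n + j)) n (P H) h H|) ≤ ε * (P H).card * H * Real.log N

/-! ### Row CH: the logarithmic two point Chowla bound with slowly varying weights -/

def ChStmt : Prop := ∀ (h : ℕ) (Λ ε : ℝ), 1 ≤ h → 0 ≤ Λ → 0 < ε → ∀ᶠ N : ℕ in atTop,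
  ∀ u : ℝ → ℂ, (∀ v, ‖u v‖ ≤ 1) → (∀ v w, ‖u v - u w‖ ≤ Λ * |v - w|) →
  ‖LC N fun n => u (Real.log n) * (lam n * lam (n + h) : ℝ)‖ ≤ ε * Real.log N

/-! ## Part Z -/

/-- The coefficients of `ζ(s) / ζ(s + i a)` times the truncated series. -/
noncomputable def cc (a : ℝ) (r : ℕ → ℂ) (N : ℕ) : ℕ → ℂ := cv (rc 0 (I * a)) (cut r N)

/-- The Liouville function with complex values. -/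
def lc (n : ℕ) : ℂ := (lam n : ℂ)

/-- The kernel. -/
noncomputable def kk (T ξ : ℝ) : ℂ :=
  ((Real.exp (-ξ ^ 2 / 4) * Real.sinc (T * ξ / 8) ^ 2 : ℝ) : ℂ) * ei (-(3 * T / 2 * ξ))

/-- The bilinear form. -/
noncomputable def form (T a : ℝ) (N : ℕ) (r : ℕ → ℂ) : ℂ :=
  ∑ n ∈ Finset.Icc 1 N, ∑ m ∈ Finset.Icc 1 N, cc a r N n * (starRingEnd ℂ) (r m) *
    kk T (Real.log n - Real.log m) / (√(n * m) : ℝ)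

/-- The diagonal. -/
noncomputable def diag (a : ℝ) (N : ℕ) : ℂ := LC N fun n => cc a lc N n * lc n

/-- The weight of the off-diagonal number `h`. -/
noncomputable def gg (T a : ℝ) (h : ℕ) (v : ℝ) : ℂ :=
  ei (-(a * v)) * (Real.exp (-Real.log (1 + h * Real.exp (-v)) / 2) : ℝ) *
    (ei (-(a * Real.log (1 + h * Real.exp (-v)))) * kk T (Real.log (1 + h * Real.exp (-v))) +
      kk T (-Real.log (1 + h * Real.exp (-v))))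

/-- The error terms of the contour argument. -/
noncomputable def er (a : ℝ) (r : ℕ → ℂ) (N : ℕ) (t : ℝ) : ℝ :=
  (∫ x : ℝ, ‖dp (cc a r N) N (t + x : ℝ)‖ * ‖dp r N (t + x : ℝ)‖ * Real.exp (-x ^ 2)) +
    ∫ x : ℝ, ‖ds (cc a r N) (Finset.Ioc N (N ^ 2)) ((t + x : ℝ) - 8 * I)‖ *
      ‖Rs r N ((t + x : ℝ) - 8 * I)‖ * Real.exp (-x ^ 2)

def ZqStmt : Prop := ∃ C : ℝ, 1 ≤ C ∧ ∀ᶠ T : ℝ in atTop,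
  ∀ (a δ t : ℝ) (U : Finset ℝ) (N : ℕ) (r : ℕ → ℂ), 1 / Real.log T ≤ a → a ≤ 4 / Real.log T →
  a < δ → Clean T δ U → T ≤ N → (N : ℝ) ≤ T ^ 2 → (∀ n, ‖r n‖ ≤ 1) → |t - 3 * T / 2| ≤ T / 4 →
  (ei (-(a * Real.log T / 2)) * (li (fun z => dp (cc a r N) N z * Rs r N z) t 0 +
      li (fun z => ds (cc a r N) (Finset.Ioc N (N ^ 2)) z * Rs r N z) t (-8))).im ≤
    C / Real.log T * er a r N t + 1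

def ZeStmt : Prop := ∃ C : ℝ, 1 ≤ C ∧ ∀ H : ℝ, 1 ≤ H → ∀ᶠ T : ℝ in atTop,
  ∀ (a : ℝ) (N : ℕ) (r : ℕ → ℂ), 0 ≤ a → a ≤ 4 / Real.log T → T ≤ N → (N : ℝ) ≤ H * T →
  (∀ n, ‖r n‖ ≤ 1) → Continuous (er a r N) ∧ (∀ t, 0 ≤ er a r N t) ∧
  ∫ t in (3 * T / 2 - T / 4)..(3 * T / 2 + T / 4), er a r N t ≤ C * T * Real.log T ∧
  ∑ n ∈ Finset.Ioc N (N ^ 2), ∑ m ∈ Finset.Icc 1 N,
    ‖cc a r N n‖ * ‖kk T (Real.log n - Real.log m)‖ / √(n * m) ≤ 1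

def Z1Stmt : Prop := ∃ C : ℝ, ∀ H : ℝ, 1 ≤ H → ∀ᶠ T : ℝ in atTop,
  ∀ (a δ : ℝ) (U : Finset ℝ) (N : ℕ) (r : ℕ → ℂ), 1 / Real.log T ≤ a → a ≤ 4 / Real.log T →
  a < δ → Clean T δ U → T ≤ N → (N : ℝ) ≤ H * T → (∀ n, ‖r n‖ ≤ 1) →
  (ei (-(a * Real.log T / 2)) * form T a N r).im ≤ C

def ZaStmt : Prop := ∃ (C : ℝ) (e : ℕ → ℝ), 1 ≤ C ∧ (∀ n, 0 ≤ e n) ∧
  (∀ M : ℕ, ∑ n ∈ Finset.Icc 1 M, e n ≤ C * M) ∧ (∀ M : ℕ, LS M e ≤ C * (1 + Real.log M)) ∧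
  ∀ (a : ℝ) (N n : ℕ), 0 ≤ a → 1 ≤ n → n ≤ N →
  ‖cc a lc N n - lc n * ei (-(a * Real.log n))‖ ≤ a * e n

def ZdStmt : Prop := ∃ C : ℝ, ∀ c H : ℝ, 0 ≤ c → 1 ≤ H → ∀ᶠ T : ℝ in atTop,
  Real.log H - c - C ≤
    (ei (-((Real.pi - c / Real.log T) / Real.log T * Real.log T / 2)) *
      diag ((Real.pi - c / Real.log T) / Real.log T) ⌈H * T⌉₊).im

def Zo1Stmt : Prop := ∀ H : ℝ, 1 ≤ H → ∀ᶠ K : ℕ in atTop, ∀ᶠ T : ℝ in atTop, ∀ a : ℝ, 0 ≤ a →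
  a ≤ 4 / Real.log T →
  ‖form T a ⌈H * T⌉₊ lc - diag a ⌈H * T⌉₊ - ∑ h ∈ Finset.Icc 1 K,
    LC (⌈H * T⌉₊ - h) fun m => gg T a h (Real.log m) * (lam m * lam (m + h) : ℝ)‖ ≤ 2

def Zo2Stmt : Prop := ∀ (H : ℝ) (K : ℕ), 1 ≤ H → 1 ≤ K → ∃ Λ : ℝ, 1 ≤ Λ ∧ ∀ᶠ T : ℝ in atTop,
  ∀ (a : ℝ) (h : ℕ), 0 ≤ a → a ≤ 1 → 1 ≤ h → h ≤ K → ∃ u : ℝ → ℂ, (∀ v, ‖u v‖ ≤ 2) ∧
  (∀ v w, ‖u v - u w‖ ≤ Λ * |v - w|) ∧ (∀ v, Λ < |v - Real.log T| → u v = 0) ∧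
  ∀ M : ℕ, ⌈H * T⌉₊ ≤ M → LS M (fun m =>
    ‖u (Real.log m) - if m ≤ ⌈H * T⌉₊ - h then gg T a h (Real.log m) else 0‖) ≤ 2 / K

/-- Two zeros with consecutive ordinates in `[T, 2 T]` at distance less than `δ`. -/
def Gap (T δ : ℝ) : Prop := ∃ ρ ρ' : ℂ, riemannZeta ρ = 0 ∧ riemannZeta ρ' = 0 ∧ T ≤ ρ.im ∧
  ρ.im ≤ ρ'.im ∧ ρ'.im ≤ 2 * T ∧ (ρ ≠ ρ' ∨ deriv riemannZeta ρ = 0) ∧
  (∀ σ : ℂ, riemannZeta σ = 0 → ¬ (ρ.im < σ.im ∧ σ.im < ρ'.im)) ∧ ρ'.im - ρ.im < δ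

def FinalStmt : Prop := ∀ C ε : ℝ, 0 < ε → ∀ᶠ J : ℕ in atTop, ∃ B : Finset ℕ,
  (B.card : ℝ) ≤ ε * J ∧ ∀ j : ℕ, j ≤ J → j ∉ B → ∀ T : ℝ, 2 ^ j ≤ T → T ≤ 2 ^ (j + 1) →
  Gap T ((1 / 2 - C / Real.log T) * (2 * Real.pi / Real.log T))

end Pool.Agent.MP_ca0a54_nt.BH
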